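import Pool.Agent.Run7.h15.Tr.CB

/-!
# Large deviations of the superattracting parameters near a parabolic parameter
-/

set_option autoImplicit false

namespace Pool.Agent.Run7.h15.Tr

open Complex Metric Set Filter Topology MeasureTheory Pool.Agent.H712R2 Pool.Agent.H713R2
open N62a1eb23
open Pool.Agent.Y736.HD Pool.Agent.Y736.HG
open Pool.Agent.R240.LL (ZZ mem_ZZ card_ZZ nz nz_mono KL KL_pos)

variable {d : ℕ} {c₀ : ℂ}

/-- upper bound -/
theorem count_up (hd : 2 ≤ d) {e : ℕ} (he : 1 ≤ e) {L : ℝ} (hL : 0 < L) (hlaw : Law d e c₀ L)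
    (hc₀ : c₀ ∈ multibrotSet d) {K : ℝ} (hK : L < K) {κ : ℝ} (hκ : 0 < κ) : ∀ᶠ n : ℕ in atTop,
      ((CenB d n c₀ ((K / n) ^ e)).ncard : ℝ) ≤ Real.exp (((1 - L / K) * Real.log d + κ) * n) := by
  have hK0 : 0 < K := hL.trans hK
  have hdR : (2 : ℝ) ≤ d := by exact_mod_cast hd
  have hlogd : 0 < Real.log d := Real.log_pos (by linarith)
  have hKL := KL_pos
  obtain ⟨b, hb⟩ : ∃ b, b = (1 - L / K) * Real.log d := ⟨_, rfl⟩
  have hLK : L / K < 1 := by rwa [div_lt_one hK0]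
  have hb0 : 0 < b := by rw [hb]; exact mul_pos (by linarith) hlogd
  rw [← hb]
  obtain ⟨t, ht0, ht1, ht2⟩ : ∃ t : ℝ, 0 < t ∧ t < 1 ∧
      Real.log d - (1 - t) * (L * Real.log d) / (K * (1 + t) * (1 + t)) < b + κ / 2 := by
    have h1 : ContinuousAt (fun t : ℝ => Real.log d - (1 - t) * (L * Real.log d) /
        (K * (1 + t) * (1 + t))) 0 := by
      have : K * (1 + (0 : ℝ)) * (1 + 0) ≠ 0 := by simpa using hK0.ne'
      fun_prop (disch := assumption)
    have h2 := h1.tendsto.mono_left (nhdsWithin_le_nhds (s := Ioi (0 : ℝ)))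
    have h3 : Real.log d - (1 - 0) * (L * Real.log d) / (K * (1 + 0) * (1 + 0)) < b + κ / 2 := by
      have e1 : Real.log d - (1 - 0) * (L * Real.log d) / (K * (1 + 0) * (1 + 0)) = b := by
        rw [hb]
        field_simp
        ring
      rw [e1]
      linarith
    have h01 : ∀ᶠ t : ℝ in 𝓝[>] 0, 0 < t ∧ t < 1 := Ioo_mem_nhdsGT one_pos
    obtain ⟨t, ⟨h4, h5⟩, h6⟩ := (h01.and (h2.eventually (gt_mem_nhds h3))).exists
    exact ⟨t, h4, h5, h6⟩
  have h1 := nz_up hd he hL hlaw hc₀ (K := K * (1 + t)) (θ := 1 - t) (δ := t) (by positivity)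
    (by linarith) (by linarith) ht0 ht1.le
  have h2 := ev_lin (b₁ := b + κ / 2) (b := b + κ) (by linarith) 2
  have h3 := ev_sq (b := b + κ / 2) (by linarith) (KL * Real.log d / t)
  filter_upwards [h1, h2, h3, eventually_gt_atTop 0] with n k1 k2 k3 hn
  obtain ⟨N, rfl⟩ : ∃ N, n = N + 1 := ⟨n - 1, by omega⟩
  have hn0 : (0 : ℝ) < (N + 1 : ℕ) := by exact_mod_cast hn
  have hn1 : (1 : ℝ) ≤ (N + 1 : ℕ) := by exact_mod_cast (by omega : 1 ≤ N + 1)
  have k4 := k1 N le_rfl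
  have k5 : (K / ((N + 1 : ℕ) : ℝ)) ^ e < (K * (1 + t) / ((N + 1 : ℕ) : ℝ)) ^ e := by
    apply pow_lt_pow_left₀ _ (by positivity) (by omega)
    apply div_lt_div_of_pos_right _ hn0
    nlinarith
  have k6 : ((CenB d (N + 1) c₀ ((K / ((N + 1 : ℕ) : ℝ)) ^ e)).ncard : ℝ) ≤
      nz d N c₀ ((K * (1 + t) / ((N + 1 : ℕ) : ℝ)) ^ e) := by
    exact_mod_cast CenB_le (c₀ := c₀) hd N k5
  obtain ⟨n, hndef⟩ : ∃ n : ℝ, n = ((N + 1 : ℕ) : ℝ) := ⟨_, rfl⟩
  rw [← hndef] at k2 k3 k4 k5 k6 hn0 hn1 ⊢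
  have k7 : (d : ℝ) ^ N ≤ Real.exp (Real.log d * n) := by
    have e1 : Real.exp (Real.log d * n) = (d : ℝ) ^ (N + 1) := by
      rw [hndef, ← Real.rpow_natCast, Real.rpow_def_of_pos (by linarith)]
    rw [e1]
    exact pow_le_pow_right₀ (by linarith) (by omega)
  have k8 : (d : ℝ) ^ N * Real.exp (-((1 - t) * (L * Real.log d) / (K * (1 + t) * (1 + t))) * n) ≤
      Real.exp ((b + κ / 2) * n) := by
    refine (mul_le_mul_of_nonneg_right k7 (Real.exp_pos _).le).trans ?_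
    rw [← Real.exp_add]
    apply Real.exp_le_exp.2
    have e1 : Real.log d * n + -((1 - t) * (L * Real.log d) / (K * (1 + t) * (1 + t))) * n =
        (Real.log d - (1 - t) * (L * Real.log d) / (K * (1 + t) * (1 + t))) * n := by ring
    rw [e1]
    exact mul_le_mul_of_nonneg_right ht2.le hn0.le
  have k9 : KL * n * Real.log d / t ≤ Real.exp ((b + κ / 2) * n) := by
    refine le_trans ?_ k3
    have e1 : KL * Real.log d / t * n ^ 2 = KL * n * Real.log d / t * n := by ring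
    rw [e1]
    have : 0 ≤ KL * n * Real.log d / t := by positivity
    nlinarith
  linarith

/-- lower bound -/
theorem count_low (hd : 2 ≤ d) {e : ℕ} (he : 1 ≤ e) {L : ℝ} (hL : 0 < L) (hlaw : Law d e c₀ L)
    (hc₀ : c₀ ∈ multibrotSet d) {K : ℝ} (hK : L < K) {κ : ℝ} (hκ : 0 < κ) : ∀ᶠ n : ℕ in atTop,
      Real.exp (((1 - L / K) * Real.log d - κ) * n) ≤ (CenB d n c₀ ((K / n) ^ e)).ncard := by
  have hK0 : 0 < K := hL.trans hK
  have hdR : (2 : ℝ) ≤ d := by exact_mod_cast hd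
  have hd0 : (0 : ℝ) < d := by linarith
  have hlogd : 0 < Real.log d := Real.log_pos (by linarith)
  have hKL := KL_pos
  have hpi := Real.pi_gt_three
  obtain ⟨b, hb⟩ : ∃ b, b = (1 - L / K) * Real.log d := ⟨_, rfl⟩
  have hLK : L / K < 1 := by rwa [div_lt_one hK0]
  have hb0 : 0 < b := by rw [hb]; exact mul_pos (by linarith) hlogd
  rw [← hb]
  obtain ⟨t, ht0, ht1, ht2, ht3, ht4⟩ : ∃ t : ℝ, 0 < t ∧ t < 1 ∧
      b - κ < Real.log d - (1 + t) * (L * Real.log d) / (K / (1 + t)) ∧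
      3 / 4 * b < Real.log d - (1 + t) * (L * Real.log d) / (K / (1 + t)) ∧
      Real.log d / 2 - (1 - t) * (L * Real.log d) / (K * (1 + 1)) < 3 / 4 * b := by
    have h1 : ContinuousAt (fun t : ℝ => Real.log d - (1 + t) * (L * Real.log d) /
        (K / (1 + t))) 0 := by
      have h0 : (1 + (0 : ℝ)) ≠ 0 := by norm_num
      have : K / (1 + (0 : ℝ)) ≠ 0 := by simpa using hK0.ne'
      fun_prop (disch := assumption)
    have h2 := h1.tendsto.mono_left (nhdsWithin_le_nhds (s := Ioi (0 : ℝ)))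
    have h1' : ContinuousAt (fun t : ℝ => Real.log d / 2 - (1 - t) * (L * Real.log d) /
        (K * (1 + 1))) 0 := by
      fun_prop
    have h2' := h1'.tendsto.mono_left (nhdsWithin_le_nhds (s := Ioi (0 : ℝ)))
    have e1 : Real.log d - (1 + 0) * (L * Real.log d) / (K / (1 + 0)) = b := by
      rw [hb]
      field_simp
      ring
    have e2 : Real.log d / 2 - (1 - 0) * (L * Real.log d) / (K * (1 + 1)) = b / 2 := by
      rw [hb]
      field_simp
      ring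
    rw [e1] at h2
    rw [e2] at h2'
    have h01 : ∀ᶠ t : ℝ in 𝓝[>] 0, 0 < t ∧ t < 1 := Ioo_mem_nhdsGT one_pos
    obtain ⟨t, ⟨h4, h5⟩, h6, h7, h8⟩ :=
      (h01.and
      ((h2.eventually (lt_mem_nhds (show b - κ < b by linarith))).and
      ((h2.eventually (lt_mem_nhds (show 3 / 4 * b < b by linarith))).and
      (h2'.eventually (gt_mem_nhds (show b / 2 < 3 / 4 * b by linarith)))))).exists
    exact ⟨t, h4, h5, h6, h7, h8⟩
  obtain ⟨β₁, hβ₁⟩ : ∃ β₁, β₁ = Real.log d - (1 + t) * (L * Real.log d) / (K / (1 + t)) := ⟨_, rfl⟩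
  obtain ⟨β₂, hβ₂⟩ : ∃ β₂, β₂ = Real.log d / 2 - (1 - t) * (L * Real.log d) / (K * (1 + 1)) :=
    ⟨_, rfl⟩
  rw [← hβ₁] at ht2 ht3
  rw [← hβ₂] at ht4
  have h1 := nz_low hd he hL hlaw hc₀ (K := K) (ε := t) (δ := t) hK0 ht0 ht0 ht1.le
  have h2 := nz_up hd he hL hlaw hc₀ (K := K) (θ := 1 - t) (δ := 1) hK0
    (by linarith) (by linarith) one_pos le_rfl
  obtain ⟨A, hA⟩ : ∃ A : ℝ, A = 8 * Real.pi * d := ⟨_, rfl⟩
  have hA0 : 0 < A := by rw [hA]; positivity
  have h3 := ev_lin ht2 A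
  have h4 := ev_lin (ht4.trans ht3) A
  have h5 := ev_sq (b := β₁) (by linarith) (A * (KL * Real.log d / t + KL * Real.log d))
  filter_upwards [h1, h2, h3, h4, h5, eventually_gt_atTop 0] with n k1 k2 k3 k4 k5 hn
  obtain ⟨N, rfl⟩ : ∃ N, n = N + 1 := ⟨n - 1, by omega⟩
  have hn0 : (0 : ℝ) < (N + 1 : ℕ) := by exact_mod_cast hn
  have hn1 : (1 : ℝ) ≤ (N + 1 : ℕ) := by exact_mod_cast (by omega : 1 ≤ N + 1)
  have k6 := k1 N rfl
  obtain ⟨r, hr⟩ : ∃ r : ℝ, r = (K / ((N + 1 : ℕ) : ℝ)) ^ e := ⟨_, rfl⟩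
  rw [← hr] at k2 k6 ⊢
  have k7 : (nz d N c₀ r : ℝ) ≤ (CenB d (N + 1) c₀ r).ncard +
      ∑ k ∈ Finset.range ((N + 1) / 2), (nz d k c₀ r : ℝ) := by
    exact_mod_cast le_CenB (c₀ := c₀) hd N r
  have k8 : ∑ k ∈ Finset.range ((N + 1) / 2), (nz d k c₀ r : ℝ) ≤
      Real.exp (β₂ * (N + 1 : ℕ)) + KL * Real.log d * ((N + 1 : ℕ) : ℝ) ^ 2 := by
    have s1 : ∑ k ∈ Finset.range ((N + 1) / 2), (nz d k c₀ r : ℝ) ≤
        ∑ k ∈ Finset.range ((N + 1) / 2), ((d : ℝ) ^ k *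
          Real.exp (-((1 - t) * (L * Real.log d) / (K * (1 + 1))) * (N + 1 : ℕ)) +
          KL * (N + 1 : ℕ) * Real.log d / 1) := by
      apply Finset.sum_le_sum
      intro k hk
      rw [Finset.mem_range] at hk
      exact k2 k (by omega)
    refine s1.trans ?_
    rw [Finset.sum_add_distrib, ← Finset.sum_mul, Finset.sum_const, Finset.card_range, nsmul_eq_mul]
    have s2 : ∑ k ∈ Finset.range ((N + 1) / 2), (d : ℝ) ^ k ≤ Real.exp (Real.log d / 2 * (N + 1 : ℕ)) := by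
      have s3 : ∑ k ∈ Finset.range ((N + 1) / 2), d ^ k ≤ d ^ ((N + 1) / 2) :=
        (Nat.geomSum_lt hd (fun k hk => Finset.mem_range.1 hk)).le
      have s4 : ∑ k ∈ Finset.range ((N + 1) / 2), (d : ℝ) ^ k ≤ (d : ℝ) ^ ((N + 1) / 2) := by
        exact_mod_cast s3
      refine s4.trans ?_
      have s5 : Real.exp (Real.log d / 2 * (N + 1 : ℕ)) = (d : ℝ) ^ (((N + 1 : ℕ) : ℝ) / 2) := by
        rw [Real.rpow_def_of_pos hd0]
        congr 1
        ring
      rw [s5, ← Real.rpow_natCast]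
      apply Real.rpow_le_rpow_of_exponent_le (by linarith)
      exact Nat.cast_div_le
    have s6 : (∑ k ∈ Finset.range ((N + 1) / 2), (d : ℝ) ^ k) *
        Real.exp (-((1 - t) * (L * Real.log d) / (K * (1 + 1))) * (N + 1 : ℕ)) ≤
        Real.exp (β₂ * (N + 1 : ℕ)) := by
      refine (mul_le_mul_of_nonneg_right s2 (Real.exp_pos _).le).trans (le_of_eq ?_)
      rw [← Real.exp_add]
      congr 1
      rw [hβ₂]
      ring
    have s7 : (((N + 1) / 2 : ℕ) : ℝ) ≤ (N + 1 : ℕ) := by exact_mod_cast Nat.div_le_self _ _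
    have s8 : (((N + 1) / 2 : ℕ) : ℝ) * (KL * (N + 1 : ℕ) * Real.log d / 1) ≤
        KL * Real.log d * ((N + 1 : ℕ) : ℝ) ^ 2 := by
      have : 0 ≤ KL * (N + 1 : ℕ) * Real.log d / 1 := by positivity
      calc _ ≤ ((N + 1 : ℕ) : ℝ) * (KL * (N + 1 : ℕ) * Real.log d / 1) :=
            mul_le_mul_of_nonneg_right s7 this
        _ = _ := by ring
    linarith
  obtain ⟨n, hndef⟩ : ∃ n : ℝ, n = ((N + 1 : ℕ) : ℝ) := ⟨_, rfl⟩
  have hdn : (d : ℝ) ^ N = Real.exp (Real.log d * n) / d := by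
    have e1 : Real.exp (Real.log d * n) = (d : ℝ) ^ (N + 1) := by
      rw [hndef, ← Real.rpow_natCast, Real.rpow_def_of_pos hd0]
    rw [e1, pow_succ]
    field_simp
  rw [← hndef] at k3 k4 k5 k6 k8 hn0 hn1 ⊢
  have k9 : (d : ℝ) ^ N * (Real.exp (-((1 + t) * (L * Real.log d) / (K / (1 + t))) * n) /
      (2 * Real.pi)) = 4 / A * Real.exp (β₁ * n) := by
    have e1 : Real.exp (β₁ * n) = Real.exp (Real.log d * n) *
        Real.exp (-((1 + t) * (L * Real.log d) / (K / (1 + t))) * n) := by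
      rw [← Real.exp_add]
      congr 1
      rw [hβ₁]
      ring
    rw [e1, hdn, hA]
    field_simp
    norm_num
  rw [k9] at k6
  have k10 : KL * n * Real.log d / t ≤ KL * Real.log d / t * n ^ 2 := by
    have e1 : KL * Real.log d / t * n ^ 2 = KL * n * Real.log d / t * n := by ring
    rw [e1]
    have : 0 ≤ KL * n * Real.log d / t := by positivity
    nlinarith
  have k3' : Real.exp ((b - κ) * n) ≤ 1 / A * Real.exp (β₁ * n) := by
    rw [one_div_mul_eq_div, le_div_iff₀ hA0, mul_comm]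
    exact k3
  have k4' : Real.exp (β₂ * n) ≤ 1 / A * Real.exp (β₁ * n) := by
    rw [one_div_mul_eq_div, le_div_iff₀ hA0, mul_comm]
    exact k4
  have k5' : (KL * Real.log d / t + KL * Real.log d) * n ^ 2 ≤ 1 / A * Real.exp (β₁ * n) := by
    rw [one_div_mul_eq_div, le_div_iff₀ hA0]
    calc _ = A * (KL * Real.log d / t + KL * Real.log d) * n ^ 2 := by ring
      _ ≤ _ := k5
  have k11 : 4 / A * Real.exp (β₁ * n) = 1 / A * Real.exp (β₁ * n) + 1 / A * Real.exp (β₁ * n) +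
      1 / A * Real.exp (β₁ * n) + 1 / A * Real.exp (β₁ * n) := by ring
  have k12 : 0 ≤ 1 / A * Real.exp (β₁ * n) := by positivity
  rw [k11] at k6
  nlinarith

/-- **The growth of the number of superattracting parameters of exact period `n` at the distance
at most `(K / n) ^ e` from a parabolic parameter.** -/
theorem count_law (hd : 2 ≤ d) {e : ℕ} (he : 1 ≤ e) {L : ℝ} (hL : 0 < L) (hlaw : Law d e c₀ L)
    (hc₀ : c₀ ∈ multibrotSet d) {K : ℝ} (hK : L < K) :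
    Tendsto (fun n : ℕ => Real.log (CenB d n c₀ ((K / n) ^ e)).ncard / n) atTop
      (𝓝 ((1 - L / K) * Real.log d)) := by
  have hK0 : 0 < K := hL.trans hK
  have hdR : (2 : ℝ) ≤ d := by exact_mod_cast hd
  have hlogd : 0 < Real.log d := Real.log_pos (by linarith)
  have hLK : L / K < 1 := by rwa [div_lt_one hK0]
  exact growth_lim (mul_pos (by linarith) hlogd)
    (fun κ hκ => count_up hd he hL hlaw hc₀ hK hκ)
    (fun κ hκ _ => count_low hd he hL hlaw hc₀ hK hκ)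

end Pool.Agent.Run7.h15.Tr
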