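import Pool.Agent.Run7.h15.Tr.FB
import Pool.Agent.Run7.h15.Tr.CC

/-!
# The laws with explicit constants, final forms
-/

set_option autoImplicit false

namespace Pool.Agent.Run7.h15.Tr

open Complex Filter Topology Metric Set N62a1eb23
open Pool.Agent.H712R2 (P P_succ P_one P_zero fc continuous_P mem_multibrot_iff)
open Pool.Agent.Run7.h15.Par

variable {d : ℕ} {c₀ z₀ : ℂ}

/-- **Primitive parameters.** -/
theorem final_primitive (hd : 2 ≤ d) {p : ℕ} (hp : 1 ≤ p)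
    (hmin : Function.minimalPeriod (fc d c₀) z₀ = p) (hder : deriv ((fc d c₀)^[p]) z₀ = 1) :
    c₀ ∈ multibrotSet d ∧ deriv (deriv ((fc d c₀)^[p])) z₀ ≠ 0 ∧
      deriv (fun c : ℂ => (fc d c)^[p] z₀) c₀ ≠ 0 ∧
      0 < Real.pi * p * √(2 / (‖deriv (deriv ((fc d c₀)^[p])) z₀‖ *
        ‖deriv (fun c : ℂ => (fc d c)^[p] z₀) c₀‖)) ∧
      Law d 2 c₀ (Real.pi * p * √(2 / (‖deriv (deriv ((fc d c₀)^[p])) z₀‖ *
        ‖deriv (fun c : ℂ => (fc d c)^[p] z₀) c₀‖))) := by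
  obtain ⟨h1, h2, h3, L, hL, hL2, hlaw⟩ := law_primitive hd hp hmin hder
  have e1 : deriv (fun u => deriv ((fc d c₀)^[p]) (z₀ + u)) 0 =
      deriv (deriv ((fc d c₀)^[p])) z₀ := by
    rw [deriv_comp_const_add, add_zero]
  have e2 : deriv (fun ε : ℂ => (fc d (c₀ + ε))^[p] z₀) 0 =
      deriv (fun c : ℂ => (fc d c)^[p] z₀) c₀ := by
    have := deriv_comp_const_add (f := fun c : ℂ => (fc d c)^[p] z₀) (a := c₀) (x := 0)
    rw [add_zero] at this
    exact this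
  rw [e1, e2] at hL2
  rw [e1] at h2
  rw [e2] at h3
  have e3 : L = Real.pi * p * √(2 / (‖deriv (deriv ((fc d c₀)^[p])) z₀‖ *
        ‖deriv (fun c : ℂ => (fc d c)^[p] z₀) c₀‖)) := by
    have hpi := Real.pi_pos
    have hp0 : (0 : ℝ) < p := by exact_mod_cast (by omega : 0 < p)
    rw [← Real.sqrt_sq hL.le, hL2, mul_comm 2 ((Real.pi * p) ^ 2), mul_div_assoc,
      Real.sqrt_mul (by positivity), Real.sqrt_sq (by positivity)]
  rw [← e3]
  exact ⟨h1, h2, h3, hL, hlaw⟩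

/-- **Satellite parameters.** -/
theorem final_satellite (hd : 2 ≤ d) {p q : ℕ} (hp : 1 ≤ p) (hq : 2 ≤ q)
    (hmin : Function.minimalPeriod (fc d c₀) z₀ = p)
    (hprim : IsPrimitiveRoot (deriv ((fc d c₀)^[p]) z₀) q) :
    c₀ ∈ multibrotSet d ∧ ∃ b : ℂ → ℂ, b c₀ = z₀ ∧ (∀ᶠ c in 𝓝 c₀, DifferentiableAt ℂ b c) ∧
      (∀ᶠ c in 𝓝 c₀, (fc d c)^[p] (b c) = b c) ∧ ∃ β : ℂ, β ≠ 0 ∧
      HasDerivAt (fun c => deriv ((fc d c)^[p]) (b c)) β c₀ ∧
      0 < 2 * Real.pi * p / (q * ‖β‖) ∧ Law d 1 c₀ (2 * Real.pi * p / (q * ‖β‖)) := by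
  have hfix : (fc d c₀)^[p] z₀ = z₀ := by
    rw [← hmin]
    exact Function.iterate_minimalPeriod
  have h1 : deriv ((fc d c₀)^[p]) z₀ ≠ 1 := by
    intro h
    have := hprim.eq_orderOf
    rw [h, orderOf_one] at this
    omega
  obtain ⟨b, hb0, hbd, hbz⟩ := exists_cont hfix h1
  obtain ⟨hM, β, hβ0, hβ, hlaw⟩ := law_satellite hd hp (by omega) hmin h1 hprim hb0 hbd hbz
  have hsh : Tendsto (fun c : ℂ => c - c₀) (𝓝 c₀) (𝓝 0) := by
    have : Tendsto (fun c : ℂ => c - c₀) (𝓝 c₀) (𝓝 (c₀ - c₀)) :=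
      (continuous_id.sub continuous_const).tendsto c₀
    rwa [sub_self] at this
  refine ⟨hM, fun c => b (c - c₀), by show b (c₀ - c₀) = z₀; rw [sub_self, hb0], ?_, ?_, β, hβ0,
    ?_, ?_, hlaw⟩
  · filter_upwards [hsh.eventually hbd] with c hc
    exact hc.comp c (by fun_prop)
  · filter_upwards [hsh.eventually hbz] with c hc
    rw [add_sub_cancel] at hc
    exact hc
  · have h2 : HasDerivAt (fun s => deriv ((fc d (c₀ + s))^[p]) (b s)) β (c₀ - c₀) := by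
      rw [sub_self]
      exact hβ
    have h3 := h2.comp_sub_const c₀ c₀
    simp only [add_sub_cancel] at h3
    exact h3
  · have hpi := Real.pi_pos
    have hp0 : (0 : ℝ) < p := by exact_mod_cast (by omega : 0 < p)
    have hq0 : (0 : ℝ) < q := by exact_mod_cast (by omega : 0 < q)
    have hβn : 0 < ‖β‖ := norm_pos_iff.2 hβ0
    positivity

end Pool.Agent.Run7.h15.Tr
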