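import Pool.Agent.Run7.h15.Tr.GB
import Pool.Agent.Y736.HG4

/-!
# Bounds for the harmonic measure of small discs
-/

set_option autoImplicit false

namespace Pool.Agent.Run7.h15.Tr

open Complex Metric Set Filter Topology MeasureTheory Pool.Agent.H712R2 Pool.Agent.H713R2
open N62a1eb23
open Real (posLog circleAverage)
open Pool.Agent.Y736.HG
open Pool.Agent.Y736.HD

variable {d : ℕ} {β ψ : ℂ → ℂ}

theorem exists_poly (d m : ℕ) : ∃ p : Polynomial ℂ, ∀ c, p.eval c = P d m c := by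
  induction m with
  | zero => exact ⟨0, fun c => by rw [P_zero, Polynomial.eval_zero]⟩
  | succ m ih =>
    obtain ⟨p, hp⟩ := ih
    refine ⟨p ^ d + Polynomial.X, fun c => ?_⟩
    rw [Polynomial.eval_add, Polynomial.eval_pow, Polynomial.eval_X, hp, P_succ]

/-- lower bound of the mean of the truncated potential by the value at a point -/
theorem mean_low (hd2 : 2 ≤ d) (hβ : IsBeta d β) (hψ : IsExteriorMap (multibrotSet d) ψ) {c₀ : ℂ}
    (hc₀ : c₀ ∈ multibrotSet d) {ρ s : ℝ} (hs0 : 0 < s) (hs1 : s < 1) {m : ℕ} {z₁ : ℂ}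
    (hz₁ : ‖z₁ - c₀‖ < ρ) :
    (Real.log ‖P d (m + 1) z₁‖ * ((ρ - ‖z₁ - c₀‖) / (4 * ρ)) - Real.log 2) / (d : ℝ) ^ m +
      Real.log s ≤ circleAverage (UU β c₀ ρ) 0 s := by
  have hρ : 0 < ρ := (norm_nonneg _).trans_lt hz₁
  obtain ⟨a, ha⟩ : ∃ a, a = ‖z₁ - c₀‖ := ⟨_, rfl⟩
  rw [← ha] at hz₁ ⊢
  have ha0 : 0 ≤ a := by rw [ha]; exact norm_nonneg _
  have hdR : (0 : ℝ) < d := by exact_mod_cast (by omega : 0 < d)
  have h2m : (0 : ℝ) < (d : ℝ) ^ m := by positivity
  have hlogs : Real.log s < 0 := Real.log_neg hs0 hs1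
  have hlog2 : 0 < Real.log 2 := Real.log_pos (by norm_num)
  have hUU : 0 ≤ circleAverage (UU β c₀ ρ) 0 s :=
    Real.circleAverage_nonneg_of_nonneg fun z _ => Real.posLog_nonneg
  have hκ : 0 < (ρ - a) / (4 * ρ) := div_pos (by linarith) (by positivity)
  rcases le_or_gt (Real.log ‖P d (m + 1) z₁‖) 0 with hneg | hpos
  · have h1 : (Real.log ‖P d (m + 1) z₁‖ * ((ρ - a) / (4 * ρ)) - Real.log 2) / (d : ℝ) ^ m ≤ 0 := by
      apply div_nonpos_of_nonpos_of_nonneg _ h2m.le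
      have := mul_nonpos_of_nonpos_of_nonneg hneg hκ.le
      linarith
    linarith
  obtain ⟨p, hp⟩ := exists_poly d (m + 1)
  have hp0 : p ≠ 0 := by
    rintro rfl
    have h1 := hp z₁
    rw [Polynomial.eval_zero] at h1
    rw [← h1, norm_zero, Real.log_zero] at hpos
    exact lt_irrefl _ hpos
  -- a radius without zeros
  obtain ⟨ρ', ⟨hρ1, hρ2⟩, hρ3⟩ := (Ioo_infinite (show (a + ρ) / 2 < ρ by linarith)).exists_notMem_finset
    (p.roots.toFinset.image fun z => ‖z - c₀‖)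
  have hρ'0 : 0 < ρ' := by linarith
  have hne : ∀ z, ‖z - c₀‖ = ρ' → P d (m + 1) z ≠ 0 := by
    intro z hz h0
    apply hρ3
    rw [Finset.mem_image]
    refine ⟨z, ?_, hz⟩
    rw [Multiset.mem_toFinset, Polynomial.mem_roots hp0, Polynomial.IsRoot, hp, h0]
  -- the translated polynomial
  obtain ⟨q, hq⟩ : ∃ q : Polynomial ℂ, q = p.comp (Polynomial.X + Polynomial.C c₀) := ⟨_, rfl⟩
  have hqe : ∀ z, q.eval z = P d (m + 1) (z + c₀) := by
    intro z
    rw [hq, Polynomial.eval_comp, Polynomial.eval_add, Polynomial.eval_X, Polynomial.eval_C, hp]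
  have hpo := poisson_poly hρ'0 (p := q) (by
    intro z hz
    rw [hqe]
    apply hne
    rwa [add_sub_cancel_right]) (z₁ := z₁ - c₀) (by rw [← ha]; linarith)
  rw [hqe, sub_add_cancel, ← ha] at hpo
  simp only [hqe] at hpo
  rw [Real.circleAverage_map_add_const (f := fun z => posLog ‖P d (m + 1) z‖)] at hpo
  -- the function `l`
  have hPc : Continuous fun z => posLog ‖P d (m + 1) z‖ :=
    Real.continuous_posLog.comp (continuous_P d (m + 1)).norm
  have hhi : CircleIntegrable (fun z => posLog ‖P d (m + 1) z‖) c₀ ρ' :=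
    hPc.continuousOn.circleIntegrable hρ'0.le
  have hli : CircleIntegrable (fun z => (posLog ‖P d (m + 1) z‖ - Real.log 2) / (d : ℝ) ^ m +
      Real.log s) c₀ ρ' := by
    apply Continuous.continuousOn _ |>.circleIntegrable hρ'0.le
    exact ((hPc.sub continuous_const).div_const _).add continuous_const
  have hkey := lower_II hβ hc₀ hρ'0 hs0 hs1 hli (fun z hz => by
    by_cases hzM : z ∈ multibrotSet d
    · rw [avg_mem hβ hzM hs0 hs1]
      have h1 := (mem_multibrot_iff hd2 z).1 hzM (m + 1)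
      have h4 : posLog ‖P d (m + 1) z‖ ≤ Real.log 2 := by
        have := Real.posLog_le_posLog (norm_nonneg _) h1
        rwa [Real.posLog_eq_log (x := 2) (by norm_num)] at this
      have h5 : (posLog ‖P d (m + 1) z‖ - Real.log 2) / (d : ℝ) ^ m ≤ 0 :=
        div_nonpos_of_nonpos_of_nonneg (by linarith) h2m.le
      linarith
    · have h1 : z ∈ (multibrotSet d)ᶜ := hzM
      rw [← hψ.image] at h1
      obtain ⟨w, hw, rfl⟩ := h1
      have hw' : 1 < ‖w‖ := hw
      have h3 := Pool.Agent.W677.MC.P_le_two hd2 hψ hw m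
      have h4 : (1 : ℝ) ≤ ‖w‖ ^ (d ^ m) := one_le_pow₀ hw'.le
      have h6 : posLog ‖P d (m + 1) (ψ w)‖ ≤ Real.log 2 + (d : ℝ) ^ m * Real.log ‖w‖ := by
        have e : Real.log (2 * ‖w‖ ^ (d ^ m)) = Real.log 2 + (d : ℝ) ^ m * Real.log ‖w‖ := by
          rw [Real.log_mul (by norm_num) (by positivity), Real.log_pow]
          push_cast
          ring
        have h7 := Real.posLog_le_posLog (norm_nonneg _) h3
        rw [Real.posLog_eq_log (x := 2 * ‖w‖ ^ (d ^ m)) (by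
          rw [abs_of_pos (by positivity)]
          linarith), e] at h7
        exact h7
      have h8 : (posLog ‖P d (m + 1) (ψ w)‖ - Real.log 2) / (d : ℝ) ^ m ≤ Real.log ‖w‖ := by
        rw [div_le_iff₀ h2m]
        linarith
      have e1 := avg_ext hβ hw hs0 hs1
      rw [← exteriorMap_unique hβ hψ hw] at e1
      rw [e1]
      have h9 : Real.log (s * ‖w‖) ≤ posLog (s * ‖w‖) := le_max_right _ _
      rw [Real.log_mul hs0.ne' (by linarith)] at h9
      linarith)
  have hmono : circleAverage (UU β c₀ ρ') 0 s ≤ circleAverage (UU β c₀ ρ) 0 s := by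
    apply Real.circleAverage_mono (UU_int hβ hc₀ ρ' hs0 hs1) (UU_int hβ hc₀ ρ hs0 hs1)
    intro x _
    unfold UU
    apply Real.posLog_le_posLog (by positivity)
    gcongr
  refine le_trans ?_ (hkey.trans hmono)
  have e2 : circleAverage (fun z => (posLog ‖P d (m + 1) z‖ - Real.log 2) / (d : ℝ) ^ m +
      Real.log s) c₀ ρ' =
      (circleAverage (fun z => posLog ‖P d (m + 1) z‖) c₀ ρ' - Real.log 2) / (d : ℝ) ^ m +
        Real.log s := by
    rw [avg_eq, avg_eq]
    have hi := integrable_of hhi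
    have i1 : Integrable (fun θ => posLog ‖P d (m + 1) (circleMap c₀ ρ' θ)‖ - Real.log 2) cm :=
      hi.sub (integrable_const _)
    have i2 : Integrable (fun θ => (posLog ‖P d (m + 1) (circleMap c₀ ρ' θ)‖ - Real.log 2) /
        (d : ℝ) ^ m) cm := i1.div_const _
    rw [integral_add i2 (integrable_const _), integral_div, integral_sub hi (integrable_const _)]
    simp
  rw [e2]
  have hav : 0 ≤ circleAverage (fun z => posLog ‖P d (m + 1) z‖) c₀ ρ' :=
    Real.circleAverage_nonneg_of_nonneg fun z _ => Real.posLog_nonneg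
  have h5 : Real.log ‖P d (m + 1) z₁‖ * ((ρ - a) / (4 * ρ)) ≤
      circleAverage (fun z => posLog ‖P d (m + 1) z‖) c₀ ρ' := by
    obtain ⟨Q, hQ⟩ : ∃ Q, Q = circleAverage (fun z => posLog ‖P d (m + 1) z‖) c₀ ρ' := ⟨_, rfl⟩
    rw [← hQ] at hpo hav ⊢
    have h6 : (ρ' + a) / (ρ' - a) * Q ≤ 4 * ρ / (ρ - a) * Q := by
      apply mul_le_mul_of_nonneg_right _ hav
      rw [div_le_div_iff₀ (by linarith) (by linarith)]
      nlinarith
    have h7 := hpo.trans h6
    calc Real.log ‖P d (m + 1) z₁‖ * ((ρ - a) / (4 * ρ))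
        ≤ 4 * ρ / (ρ - a) * Q * ((ρ - a) / (4 * ρ)) := mul_le_mul_of_nonneg_right h7 hκ.le
      _ = Q := by
        have : ρ - a ≠ 0 := by linarith
        field_simp
  gcongr

/-- **Upper bound of the harmonic measure**, with an arbitrary ratio. -/
theorem vol_le' (hd2 : 2 ≤ d) (hψ : IsExteriorMap (multibrotSet d) ψ) {c₀ : ℂ}
    (hc₀ : c₀ ∈ multibrotSet d) {r S t : ℝ} (hr : 0 < r) (ht : 1 < t) (hS0 : 0 ≤ S)
    (hS : ∀ w : ℂ, 1 < ‖w‖ → ‖ψ w - c₀‖ ≤ t * r → Real.log ‖w‖ ≤ S) :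
    (volume (Ang ψ c₀ r)).toReal ≤ 2 * Real.pi * S / Real.log t := by
  obtain ⟨β, hβ⟩ := exists_beta (d := d) hd2
  have hpi := Real.pi_pos
  have hlog2 : 0 < Real.log t := Real.log_pos ht
  obtain ⟨F, hF⟩ : ∃ F : ℕ → ℝ → ENNReal, F = fun (n : ℕ) (θ : ℝ) => ENNReal.ofReal
      (posLog (t * r / ‖ψ (((sn n)⁻¹ : ℝ) * exp (θ * I)) - c₀‖)) := ⟨_, rfl⟩
  have hmeas : ∀ n, Measurable (F n) := by
    intro n
    rw [hF]
    exact ENNReal.measurable_ofReal.comp (cont_U hψ hc₀ (t * r) (sn_pos n) (sn_lt n)).measurable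
  have hint : ∀ n, ∫⁻ θ, F n θ ∂cm ≤ ENNReal.ofReal S := by
    intro n
    rw [hF]
    show ∫⁻ θ, ENNReal.ofReal
      (posLog (t * r / ‖ψ (((sn n)⁻¹ : ℝ) * exp (θ * I)) - c₀‖)) ∂cm ≤ _
    rw [← ofReal_integral_eq_lintegral_ofReal
      (integrable_cont (cont_U hψ hc₀ (t * r) (sn_pos n) (sn_lt n)))
      (Eventually.of_forall fun θ => Real.posLog_nonneg)]
    apply ENNReal.ofReal_le_ofReal
    rw [← avg_psi hβ hψ c₀ (t * r) (sn_pos n) (sn_lt n)]
    exact mean_le hβ hψ hc₀ (by positivity) (sn_pos n) (sn_lt n) hS0 hS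
  have h1 : ∫⁻ θ, liminf (fun n => F n θ) atTop ∂cm ≤ ENNReal.ofReal S := by
    refine (lintegral_liminf_le hmeas).trans ?_
    apply liminf_le_of_le (by isBoundedDefault)
    intro b hb
    obtain ⟨n, hn⟩ := hb.exists
    exact hn.trans (hint n)
  have h2 := mul_meas_ge_le_lintegral₀ (μ := cm) (f := fun θ => liminf (fun n => F n θ) atTop)
    (Measurable.liminf hmeas).aemeasurable (ENNReal.ofReal (Real.log t))
  have h3 : Ang ψ c₀ r ⊆ {θ | ENNReal.ofReal (Real.log t) ≤ liminf (fun n => F n θ) atTop} := by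
    rintro θ ⟨-, ζ, hζ, hlim⟩
    show ENNReal.ofReal (Real.log t) ≤ liminf (fun n => F n θ) atTop
    apply le_liminf_of_le (by isBoundedDefault)
    have h4 : Tendsto (fun n => ‖ψ (((sn n)⁻¹ : ℝ) * exp (θ * I)) - c₀‖) atTop (𝓝 ‖ζ - c₀‖) :=
      ((hlim.comp sn_inv_lim).sub_const c₀).norm
    rw [mem_ball, dist_eq_norm] at hζ
    filter_upwards [h4.eventually (gt_mem_nhds hζ)] with n hn
    rw [hF]
    apply ENNReal.ofReal_le_ofReal
    have h5 : 0 < ‖ψ (((sn n)⁻¹ : ℝ) * exp (θ * I)) - c₀‖ :=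
      norm_pos_iff.2 (sub_ne_zero.2 (psi_ne hψ hc₀ (norm_pt (sn_pos n) (sn_lt n) θ)))
    have h6 : t ≤ t * r / ‖ψ (((sn n)⁻¹ : ℝ) * exp (θ * I)) - c₀‖ := by
      rw [le_div_iff₀ h5]
      apply mul_le_mul_of_nonneg_left hn.le (by linarith)
    calc Real.log t ≤ Real.log (t * r / ‖ψ (((sn n)⁻¹ : ℝ) * exp (θ * I)) - c₀‖) :=
          Real.log_le_log (by linarith) h6
      _ ≤ _ := le_max_right _ _
  have h4 : ENNReal.ofReal (Real.log t) * cm (Ang ψ c₀ r) ≤ ENNReal.ofReal S :=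
    (mul_le_mul_right (measure_mono h3) _).trans (h2.trans h1)
  rw [cm_eq, inter_eq_left.2 (Ang_sub ψ c₀ r), ← mul_assoc,
    ← ENNReal.ofReal_mul hlog2.le, ← ENNReal.ofReal_toReal (vol_Ang_ne ψ c₀ r),
    ← ENNReal.ofReal_mul (by positivity), ENNReal.ofReal_le_ofReal_iff hS0] at h4
  rw [le_div_iff₀ hlog2]
  have h5 : 2 * Real.pi * (Real.log t * (2 * Real.pi)⁻¹ * (volume (Ang ψ c₀ r)).toReal) =
      (volume (Ang ψ c₀ r)).toReal * Real.log t := by
    field_simp
  rw [← h5]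
  gcongr

/-- **Lower bound of the harmonic measure**, from a lower bound of the means. -/
theorem le_vol' (hd2 : 2 ≤ d) (hψ : IsExteriorMap (multibrotSet d) ψ)
    (hae : ∀ᵐ θ : ℝ, ∃ ζ : ℂ, Tendsto (fun ρ : ℝ => ψ (ρ * exp (θ * I))) (𝓝[>] 1) (𝓝 ζ))
    {c₀ : ℂ} (hc₀ : c₀ ∈ multibrotSet d)
    {ρ' ρ r S T : ℝ} (hρ' : 0 < ρ') (hρ : ρ' < ρ) (hr : ρ < r) (hS0 : 0 ≤ S)
    (hS : ∀ w : ℂ, 1 < ‖w‖ → ‖ψ w - c₀‖ ≤ ρ' → Real.log ‖w‖ ≤ S)
    (hT : ∀ β : ℂ → ℂ, IsBeta d β → ∀ s : ℝ, 0 < s → s < 1 →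
      T + Real.log s ≤ circleAverage (UU β c₀ ρ) 0 s) :
    T - S ≤ Real.log (ρ / ρ') * (volume (Ang ψ c₀ r)).toReal / (2 * Real.pi) := by
  obtain ⟨β, hβ⟩ := exists_beta (d := d) hd2
  have hpi := Real.pi_pos
  have hρ0 : 0 < ρ := hρ'.trans hρ
  obtain ⟨A, hA⟩ : ∃ A, A = Real.log (ρ / ρ') := ⟨_, rfl⟩
  have hA0 : 0 < A := by
    rw [hA]
    apply Real.log_pos
    rwa [lt_div_iff₀ hρ', one_mul]
  rw [← hA]
  obtain ⟨D, hD⟩ : ∃ D : ℕ → Set ℝ, D = fun n =>
      {θ : ℝ | ‖ψ (((sn n)⁻¹ : ℝ) * exp (θ * I)) - c₀‖ < ρ} := ⟨_, rfl⟩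
  have hDm : ∀ n, MeasurableSet (D n) := by
    intro n
    rw [hD]
    exact (isOpen_lt ((cont_pt hψ (sn_pos n) (sn_lt n)).sub continuous_const).norm
      continuous_const).measurableSet
  -- each level
  have hlev : ∀ n, T + Real.log (sn n) ≤ A * cm.real (D n) + S := by
    intro n
    have h1 := hT β hβ (sn n) (sn_pos n) (sn_lt n)
    have h2 := mean_le hβ hψ hc₀ hρ' (sn_pos n) (sn_lt n) hS0 hS
    rw [avg_psi hβ hψ c₀ _ (sn_pos n) (sn_lt n)] at h1 h2
    refine h1.trans (le_trans ?_ (add_le_add le_rfl h2))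
    have h3 : Integrable ((D n).indicator fun _ => (1 : ℝ)) cm :=
      (integrable_const _).indicator (hDm n)
    have h4 : cm.real (D n) = ∫ θ, (D n).indicator (fun _ => (1 : ℝ)) θ ∂cm := by
      rw [integral_indicator (hDm n), setIntegral_const, smul_eq_mul, mul_one]
    rw [h4, ← integral_const_mul, ← integral_add (h3.const_mul A)
      (integrable_cont (cont_U hψ hc₀ ρ' (sn_pos n) (sn_lt n)))]
    apply integral_mono (integrable_cont (cont_U hψ hc₀ ρ (sn_pos n) (sn_lt n)))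
      ((h3.const_mul A).add (integrable_cont (cont_U hψ hc₀ ρ' (sn_pos n) (sn_lt n))))
    intro θ
    show posLog (ρ / ‖ψ (((sn n)⁻¹ : ℝ) * exp (θ * I)) - c₀‖) ≤
      A * (D n).indicator (fun _ => (1 : ℝ)) θ +
        posLog (ρ' / ‖ψ (((sn n)⁻¹ : ℝ) * exp (θ * I)) - c₀‖)
    obtain ⟨t, ht⟩ : ∃ t, t = ‖ψ (((sn n)⁻¹ : ℝ) * exp (θ * I)) - c₀‖ := ⟨_, rfl⟩
    have ht0 : 0 < t := by
      rw [ht]
      exact norm_pos_iff.2 (sub_ne_zero.2 (psi_ne hψ hc₀ (norm_pt (sn_pos n) (sn_lt n) θ)))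
    by_cases hθ : θ ∈ D n
    · rw [indicator_of_mem hθ, mul_one, ← ht]
      have h5 : t < ρ := by
        rw [hD] at hθ
        rw [ht]
        exact hθ
      have h6 : 1 ≤ |ρ / t| := by
        rw [abs_of_pos (by positivity), le_div_iff₀ ht0]
        linarith
      rw [Real.posLog_eq_log h6]
      have h7 : Real.log (ρ / t) = A + Real.log (ρ' / t) := by
        rw [hA, ← Real.log_mul (by positivity) (by positivity)]
        congr 1
        field_simp
      rw [h7]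
      have : Real.log (ρ' / t) ≤ posLog (ρ' / t) := le_max_right _ _
      linarith
    · rw [indicator_of_notMem hθ, mul_zero, zero_add, ← ht]
      have h5 : ρ ≤ t := by
        rw [hD] at hθ
        rw [ht]
        exact not_lt.1 hθ
      have h6 : posLog (ρ / t) = 0 := by
        rw [Real.posLog_eq_zero_iff, abs_of_pos (by positivity), div_le_one ht0]
        exact h5
      rw [h6]
      exact Real.posLog_nonneg
  -- the upper limit of the sets
  obtain ⟨E, hE⟩ : ∃ E : ℕ → Set ℝ, E = fun N => ⋃ n, D (N + n) := ⟨_, rfl⟩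
  have hEm : ∀ N, MeasurableSet (E N) := by
    intro N
    rw [hE]
    exact MeasurableSet.iUnion fun n => hDm _
  have hanti : Antitone E := by
    intro N N' h
    rw [hE]
    apply iUnion_subset
    intro n
    obtain ⟨k, rfl⟩ := Nat.exists_eq_add_of_le h
    rw [show N + k + n = N + (k + n) by ring]
    exact subset_iUnion (fun n => D (N + n)) (k + n)
  have hElow : ∀ N, (T - S) / A ≤ cm.real (E N) := by
    intro N
    have h1 : ∀ n, (T + Real.log (sn (N + n)) - S) / A ≤ cm.real (E N) := by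
      intro n
      have h2 : cm.real (D (N + n)) ≤ cm.real (E N) := by
        refine measureReal_mono ?_ (measure_ne_top _ _)
        rw [hE]
        exact subset_iUnion (fun n => D (N + n)) n
      rw [div_le_iff₀ hA0]
      have h3 := hlev (N + n)
      nlinarith
    have h2 : Tendsto (fun n => (T + Real.log (sn (N + n)) - S) / A) atTop
        (𝓝 ((T + Real.log 1 - S) / A)) := by
      have h3 : Tendsto (fun n => sn (N + n)) atTop (𝓝 1) := by
        have := sn_lim.comp (tendsto_add_atTop_nat N)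
        refine this.congr fun n => ?_
        show sn (n + N) = sn (N + n)
        rw [add_comm]
      have h4 := (Real.continuousAt_log one_ne_zero).tendsto.comp h3
      exact ((h4.const_add T).sub_const S).div_const A
    rw [Real.log_one, add_zero] at h2
    exact le_of_tendsto' h2 h1
  have hlim : (T - S) / A ≤ cm.real (⋂ N, E N) := by
    have h1 : Tendsto (fun N => cm (E N)) atTop (𝓝 (cm (⋂ N, E N))) :=
      tendsto_measure_iInter_atTop (fun N => (hEm N).nullMeasurableSet) hanti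
        ⟨0, measure_ne_top _ _⟩
    have h2 : Tendsto (fun N => cm.real (E N)) atTop (𝓝 (cm.real (⋂ N, E N))) :=
      (ENNReal.tendsto_toReal (measure_ne_top _ _)).comp h1
    exact ge_of_tendsto' h2 hElow
  -- almost every angle of the upper limit lands in the ball
  have hsub : volume ((⋂ N, E N) ∩ Ioc 0 (2 * Real.pi)) ≤ volume (Ang ψ c₀ r) := by
    apply measure_mono_ae
    filter_upwards [hae] with θ hθ hmem
    obtain ⟨hθ1, hθ2⟩ := hmem
    obtain ⟨ζ, hζ⟩ := hθ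
    refine ⟨hθ2, ζ, ?_, hζ⟩
    rw [mem_ball, dist_eq_norm]
    refine lt_of_le_of_lt ?_ hr
    have h4 : Tendsto (fun n => ‖ψ (((sn n)⁻¹ : ℝ) * exp (θ * I)) - c₀‖) atTop (𝓝 ‖ζ - c₀‖) :=
      ((hζ.comp sn_inv_lim).sub_const c₀).norm
    apply le_of_tendsto_of_frequently h4
    rw [frequently_atTop]
    intro N
    have h5 := mem_iInter.1 hθ1 N
    rw [hE] at h5
    obtain ⟨n, hn⟩ := mem_iUnion.1 h5
    refine ⟨N + n, Nat.le_add_right _ _, ?_⟩
    rw [hD] at hn
    exact le_of_lt hn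
  have h1 : cm.real (⋂ N, E N) ≤ (2 * Real.pi)⁻¹ * (volume (Ang ψ c₀ r)).toReal := by
    unfold Measure.real
    rw [cm_eq, ENNReal.toReal_mul, ENNReal.toReal_ofReal (by positivity)]
    gcongr
    exact vol_Ang_ne ψ c₀ r
  have h2 := hlim.trans h1
  rw [div_le_iff₀ hA0] at h2
  refine h2.trans (le_of_eq ?_)
  field_simp

end Pool.Agent.Run7.h15.Tr
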