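import Pool.Agent.Run7.h15.Tr.GA
import Pool.Agent.Run7.h15.Tr.GC
import Pool.Agent.Y736.HG7
import Pool.Agent.Y736.HD9

/-!
# The sharp laws for Green's function and for the harmonic measure at a parabolic parameter
-/

set_option autoImplicit false

namespace Pool.Agent.Run7.h15.Tr

open Complex Filter Topology Metric Set N62a1eb23 MeasureTheory
open Pool.Agent.H712R2 (P P_succ P_one P_zero fc continuous_P mem_multibrot_iff)
open Pool.Agent.H713R2 (IsExteriorMap)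
open Pool.Agent.Run7.h15.Par
open Pool.Agent.Y736.HD (Ang GS)

variable {d : ℕ} {c₀ : ℂ}

theorem ev_exp (C : ℝ) {κ : ℝ} (hκ : 0 < κ) : ∀ᶠ s : ℝ in 𝓝[>] 0, C ≤ Real.exp (κ / s) := by
  have h1 : Tendsto (fun s : ℝ => κ / s) (𝓝[>] 0) atTop := by
    have := (tendsto_inv_nhdsGT_zero (𝕜 := ℝ)).const_mul_atTop hκ
    simpa [div_eq_mul_inv] using this
  exact (Real.tendsto_exp_atTop.comp h1).eventually_ge_atTop C

/-- **Upper bound of the harmonic measure.** -/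
theorem vol_upper (hd : 2 ≤ d) {e : ℕ} (he : 1 ≤ e) {L : ℝ} (hL : 0 < L) (hlaw : Law d e c₀ L)
    (hc₀ : c₀ ∈ multibrotSet d) {θ : ℝ} (hθ0 : 0 < θ) (hθ1 : θ < 1) :
    ∀ᶠ s : ℝ in 𝓝[>] 0, ∀ ψ : ℂ → ℂ, IsExteriorMap (multibrotSet d) ψ →
      (volume (Ang ψ c₀ (s ^ e))).toReal ≤ Real.exp (-(θ * (L * Real.log d) / s)) := by
  have hdR : (2 : ℝ) ≤ d := by exact_mod_cast hd
  have hlogd : 0 < Real.log d := Real.log_pos (by linarith)
  obtain ⟨A, hA⟩ : ∃ A : ℝ, A = L * Real.log d := ⟨_, rfl⟩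
  have hA0 : 0 < A := by rw [hA]; positivity
  obtain ⟨θ', hθ'⟩ : ∃ θ' : ℝ, θ' = (1 + θ) / 2 := ⟨_, rfl⟩
  have hθ'0 : 0 < θ' := by rw [hθ']; linarith
  have hθ'1 : θ' < 1 := by rw [hθ']; linarith
  have hθθ' : θ < θ' := by rw [hθ']; linarith
  obtain ⟨lam, hlam⟩ : ∃ lam : ℝ, lam = (1 + θ' / θ) / 2 := ⟨_, rfl⟩
  have hq : 1 < θ' / θ := by rwa [one_lt_div hθ0]
  have hlam1 : 1 < lam := by rw [hlam]; linarith
  have hlam2 : θ < θ' / lam := by
    have h1 : lam < θ' / θ := by rw [hlam]; linarith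
    rw [lt_div_iff₀ (by linarith)]
    rw [lt_div_iff₀ hθ0] at h1
    linarith
  have hpi := Real.pi_pos
  have hlog : 0 < Real.log (lam ^ e) := Real.log_pos (one_lt_pow₀ hlam1 (by omega))
  obtain ⟨s₀, hs₀, hG⟩ := green_upper hd he hL hlaw hc₀ hθ'0 hθ'1
  rw [← hA] at hG ⊢
  filter_upwards [ev_of (show 0 < s₀ / lam by positivity), ev_exp (2 * Real.pi / Real.log (lam ^ e))
    (show 0 < (θ' / lam - θ) * A from mul_pos (by linarith) hA0)] with s hs1 hs2 ψ hψ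
  obtain ⟨hs, hss⟩ := hs1
  have h1 := vol_le' hd hψ hc₀ (r := s ^ e) (t := lam ^ e) (S := Real.exp (-(θ' * A / (lam * s))))
    (by positivity) (one_lt_pow₀ hlam1 (by omega)) (Real.exp_pos _).le (by
      intro w hw hws
      apply hG ψ hψ (lam * s) (by positivity) _ w hw
      · rw [mul_pow]
        exact hws
      · rw [le_div_iff₀ (by linarith)] at hss
        linarith)
  refine h1.trans ?_
  have e1 : 2 * Real.pi * Real.exp (-(θ' * A / (lam * s))) / Real.log (lam ^ e) =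
      2 * Real.pi / Real.log (lam ^ e) * Real.exp (-(θ' * A / (lam * s))) := by ring
  rw [e1]
  refine (mul_le_mul_of_nonneg_right hs2 (Real.exp_pos _).le).trans (le_of_eq ?_)
  rw [← Real.exp_add]
  congr 1
  have : lam ≠ 0 := by linarith
  field_simp
  ring

/-- **Lower bound of the harmonic measure.** -/
theorem vol_lower (hd : 2 ≤ d) {e : ℕ} (he : 1 ≤ e) {L : ℝ} (hL : 0 < L) (hlaw : Law d e c₀ L)
    (hc₀ : c₀ ∈ multibrotSet d) {ε : ℝ} (hε : 0 < ε) :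
    ∀ᶠ s : ℝ in 𝓝[>] 0, ∀ ψ : ℂ → ℂ, IsExteriorMap (multibrotSet d) ψ →
      Real.exp (-((1 + ε) * (L * Real.log d) / s)) ≤ (volume (Ang ψ c₀ (s ^ e))).toReal := by
  have hdR : (2 : ℝ) ≤ d := by exact_mod_cast hd
  have hlogd : 0 < Real.log d := Real.log_pos (by linarith)
  have hpi := Real.pi_pos
  obtain ⟨A, hA⟩ : ∃ A : ℝ, A = L * Real.log d := ⟨_, rfl⟩
  have hA0 : 0 < A := by rw [hA]; positivity
  obtain ⟨η, hη⟩ : ∃ η : ℝ, η = min (ε / 20) (1 / 20) := ⟨_, rfl⟩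
  have hη0 : 0 < η := by rw [hη]; exact lt_min (by positivity) (by norm_num)
  have hη1 : η ≤ ε / 20 := by rw [hη]; exact min_le_left _ _
  have hη2 : η ≤ 1 / 20 := by rw [hη]; exact min_le_right _ _
  have hlog2 : 0 < Real.log 2 := Real.log_pos (by norm_num)
  obtain ⟨M, hM⟩ : ∃ M : ℝ, M = Real.exp ((Real.log 2 + 1) * (4 / η)) := ⟨_, rfl⟩
  have hM1 : 1 ≤ M := by rw [hM]; exact Real.one_le_exp (by positivity)
  obtain ⟨m₀, hm₀⟩ := hlaw.2 η hη0 M hM1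
  obtain ⟨s₀, hs₀, hG⟩ := green_upper hd he hL hlaw hc₀ (θ := 1 - η) (by linarith) (by linarith)
  rw [← hA] at hG ⊢
  obtain ⟨Lr, hLr⟩ : ∃ Lr : ℝ, Lr = Real.log (((1 - η) / (1 - 8 * η)) ^ e) := ⟨_, rfl⟩
  have hLr0 : 0 < Lr := by
    rw [hLr]
    apply Real.log_pos
    apply one_lt_pow₀ _ (by omega)
    rw [one_lt_div (by linarith)]
    linarith
  filter_upwards [ev_of (lt_min (show 0 < s₀ by exact hs₀)
    (show 0 < L / (m₀ + 2) by positivity)), ev_exp 2 (show 0 < 4 * η * A by positivity),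
    ev_exp (Lr / Real.pi) (show 0 < ε / 2 * A by positivity)] with s hs1 hs2 hs3 ψ hψ
  obtain ⟨hs, hss⟩ := hs1
  have hss0 : s ≤ s₀ := hss.trans (min_le_left _ _)
  have hssm : s ≤ L / (m₀ + 2) := hss.trans (min_le_right _ _)
  obtain ⟨s₁, hs₁⟩ : ∃ s₁ : ℝ, s₁ = (1 - η) * s := ⟨_, rfl⟩
  obtain ⟨s₂, hs₂⟩ : ∃ s₂ : ℝ, s₂ = (1 - 2 * η) * s := ⟨_, rfl⟩
  obtain ⟨s₃, hs₃⟩ : ∃ s₃ : ℝ, s₃ = (1 - 8 * η) * s := ⟨_, rfl⟩
  have hs₁0 : 0 < s₁ := by rw [hs₁]; exact mul_pos (by linarith) hs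
  have hs₂0 : 0 < s₂ := by rw [hs₂]; exact mul_pos (by linarith) hs
  have hs₃0 : 0 < s₃ := by rw [hs₃]; exact mul_pos (by linarith) hs
  have hs₁s : s₁ < s := by rw [hs₁]; nlinarith
  have hs₂s₁ : s₂ < s₁ := by rw [hs₁, hs₂]; nlinarith
  have hs₃s₁ : s₃ < s₁ := by rw [hs₁, hs₃]; nlinarith
  -- the time
  obtain ⟨m, hm⟩ : ∃ m, m = ⌈(1 + η) * L / s₂⌉₊ := ⟨_, rfl⟩
  have hm1 : (1 + η) * L / s₂ ≤ m := by rw [hm]; exact Nat.le_ceil _
  have hm2 : (m : ℝ) < (1 + η) * L / s₂ + 1 := by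
    rw [hm]; exact Nat.ceil_lt_add_one (by positivity)
  have hm3 : (m₀ : ℝ) + 1 ≤ (1 + η) * L / s₂ := by
    rw [le_div_iff₀ hs₂0]
    rw [le_div_iff₀ (by positivity)] at hssm
    have h1 : ((m₀ : ℝ) + 1) * s₂ ≤ (m₀ + 1) * s := by
      apply mul_le_mul_of_nonneg_left (by linarith) (by positivity)
    nlinarith
  have hm4 : m₀ + 1 ≤ m := by
    have : (m₀ : ℝ) + 1 ≤ m := by linarith
    exact_mod_cast this
  have hm0 : (0 : ℝ) < m := by exact_mod_cast (by omega : 0 < m)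
  obtain ⟨c, hc1, hc2⟩ := hm₀ m (by omega)
  obtain ⟨n, hn⟩ : ∃ n, m = n + 1 := ⟨m - 1, by omega⟩
  have hcs : ‖c - c₀‖ ≤ s₂ ^ e := by
    refine hc1.trans (pow_le_pow_left₀ (by positivity) ?_ e)
    rw [div_le_iff₀ hm0]
    rw [div_le_iff₀ hs₂0] at hm1
    linarith
  have hs₂s₁e : s₂ ^ e < s₁ ^ e := pow_lt_pow_left₀ hs₂s₁ hs₂0.le (by omega)
  have hs₃s₁e : s₃ ^ e < s₁ ^ e := pow_lt_pow_left₀ hs₃s₁ hs₃0.le (by omega)
  have hs₁se : s₁ ^ e < s ^ e := pow_lt_pow_left₀ hs₁s hs₁0.le (by omega)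
  have hs₁e : 0 < s₁ ^ e := by positivity
  -- the factor
  have hfac : η / 4 ≤ (s₁ ^ e - ‖c - c₀‖) / (4 * s₁ ^ e) := by
    rw [le_div_iff₀ (by positivity)]
    have h1 : s₂ ≤ (1 - η) * s₁ := by
      rw [hs₁, hs₂]
      nlinarith [mul_pos hη0 hη0]
    have h2 : s₂ ^ e ≤ (1 - η) * s₁ ^ e := by
      calc s₂ ^ e ≤ ((1 - η) * s₁) ^ e := pow_le_pow_left₀ hs₂0.le h1 e
        _ = (1 - η) ^ e * s₁ ^ e := mul_pow _ _ _
        _ ≤ (1 - η) * s₁ ^ e := by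
          apply mul_le_mul_of_nonneg_right _ hs₁e.le
          exact pow_le_of_le_one (by linarith) (by linarith) (by omega)
    nlinarith
  have hdn : (0 : ℝ) < (d : ℝ) ^ n := by positivity
  have hlogM : (Real.log 2 + 1) * (4 / η) ≤ Real.log ‖P d (n + 1) c‖ := by
    rw [← hn]
    have h1 := Real.log_le_log (by linarith) hc2.le
    rwa [hM, Real.log_exp] at h1
  have hT : ∀ β : ℂ → ℂ, Pool.Agent.H713R2.IsBeta d β → ∀ t : ℝ, 0 < t → t < 1 →
      1 / (d : ℝ) ^ n + Real.log t ≤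
        Real.circleAverage (Pool.Agent.Y736.HD.UU β c₀ (s₁ ^ e)) 0 t := by
    intro β hβ t ht0 ht1
    refine le_trans ?_ (mean_low hd hβ hψ hc₀ ht0 ht1 (m := n) (hcs.trans_lt hs₂s₁e))
    have h1 : 1 ≤ Real.log ‖P d (n + 1) c‖ * ((s₁ ^ e - ‖c - c₀‖) / (4 * s₁ ^ e)) -
        Real.log 2 := by
      have h2 : (Real.log 2 + 1) * (4 / η) * (η / 4) ≤
          Real.log ‖P d (n + 1) c‖ * ((s₁ ^ e - ‖c - c₀‖) / (4 * s₁ ^ e)) := by
        apply mul_le_mul hlogM hfac (by positivity)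
        exact le_trans (by positivity) hlogM
      have h3 : (Real.log 2 + 1) * (4 / η) * (η / 4) = Real.log 2 + 1 := by field_simp
      linarith
    gcongr
  have hvol := le_vol' hd hψ (Pool.Agent.Y736.HG.ae_land hd hψ) hc₀ (ρ' := s₃ ^ e) (ρ := s₁ ^ e)
    (r := s ^ e) (S := Real.exp (-((1 - η) * A / s₃))) (T := 1 / (d : ℝ) ^ n) (by positivity)
    hs₃s₁e hs₁se (Real.exp_pos _).le (by
      intro w hw hws
      exact hG ψ hψ s₃ hs₃0 (by linarith) w hw hws) hT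
  obtain ⟨V, hV⟩ : ∃ V, V = (volume (Ang ψ c₀ (s ^ e))).toReal := ⟨_, rfl⟩
  have hlr : Real.log (s₁ ^ e / s₃ ^ e) = Lr := by
    rw [hLr, ← div_pow, hs₁, hs₃]
    congr 2
    have : 1 - 8 * η ≠ 0 := by linarith
    field_simp
  rw [← hV, hlr] at hvol
  rw [← hV]
  -- the estimate of the main term
  have hdn2 : Real.exp (-((1 + η) / (1 - 2 * η) * A / s)) ≤ 1 / (d : ℝ) ^ n := by
    have h6 : (d : ℝ) ^ n = Real.exp (n * Real.log d) := by
      rw [← Real.log_pow, Real.exp_log (by positivity)]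
    rw [h6, one_div, ← Real.exp_neg]
    apply Real.exp_le_exp.2
    rw [neg_le_neg_iff]
    have h7 : (n : ℝ) ≤ (1 + η) * L / s₂ := by
      have : (m : ℝ) = n + 1 := by rw [hn]; push_cast; ring
      linarith
    calc (n : ℝ) * Real.log d ≤ (1 + η) * L / s₂ * Real.log d :=
          mul_le_mul_of_nonneg_right h7 hlogd.le
      _ = (1 + η) / (1 - 2 * η) * A / s := by
        rw [hs₂, hA]
        have : 1 - 2 * η ≠ 0 := by linarith
        field_simp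
  have hS : Real.exp (-((1 - η) * A / s₃)) ≤
      1 / 2 * Real.exp (-((1 + η) / (1 - 2 * η) * A / s)) := by
    have h7 : Real.exp (4 * η * A / s) * Real.exp (-((1 - η) * A / s₃)) ≤
        Real.exp (-((1 + η) / (1 - 2 * η) * A / s)) := by
      rw [← Real.exp_add]
      apply Real.exp_le_exp.2
      have h8 : 4 * η + (1 + η) / (1 - 2 * η) ≤ (1 - η) / (1 - 8 * η) := by
        have k1 : 0 < 1 - 2 * η := by linarith
        have k2 : 0 < 1 - 8 * η := by linarith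
        obtain ⟨q, hq⟩ : ∃ q, q = (1 + η) / (1 - 2 * η) := ⟨_, rfl⟩
        have hq1 : q * (1 - 2 * η) = 1 + η := by
          rw [hq]
          exact div_mul_cancel₀ _ k1.ne'
        rw [← hq, le_div_iff₀ k2]
        apply le_of_mul_le_mul_right _ k1
        have e1 : (4 * η + q) * (1 - 8 * η) * (1 - 2 * η) =
            4 * η * (1 - 8 * η) * (1 - 2 * η) + (1 + η) * (1 - 8 * η) := by
          linear_combination (1 - 8 * η) * hq1
        rw [e1]
        have e2 : (1 - η) * (1 - 2 * η) - (4 * η * (1 - 8 * η) * (1 - 2 * η) +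
            (1 + η) * (1 - 8 * η)) = η ^ 2 * (50 - 64 * η) := by ring
        have e3 : 0 ≤ η ^ 2 * (50 - 64 * η) := by
          apply mul_nonneg (by positivity)
          linarith
        linarith
      have h9 : (1 - η) * A / s₃ = (1 - η) / (1 - 8 * η) * (A / s) := by
        rw [hs₃]
        have : 1 - 8 * η ≠ 0 := by linarith
        field_simp
      rw [h9]
      have h10 : 0 < A / s := by positivity
      have h11 := mul_le_mul_of_nonneg_right h8 h10.le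
      have e3 : 4 * η * A / s = 4 * η * (A / s) := by ring
      have e4 : (1 + η) / (1 - 2 * η) * A / s = (1 + η) / (1 - 2 * η) * (A / s) := by ring
      rw [e3, e4]
      linarith
    have h12 := (Real.exp_pos (-((1 - η) * A / s₃))).le
    nlinarith [mul_le_mul_of_nonneg_right hs2 h12]
  -- conclusion
  have h13 : 1 / 2 * Real.exp (-((1 + η) / (1 - 2 * η) * A / s)) ≤ Lr * V / (2 * Real.pi) := by
    linarith
  have h14 : (1 + η) / (1 - 2 * η) ≤ 1 + ε / 2 := by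
    rw [div_le_iff₀ (by linarith)]
    nlinarith
  have h15 : Real.exp (-((1 + ε / 2) * A / s)) ≤ Real.exp (-((1 + η) / (1 - 2 * η) * A / s)) := by
    apply Real.exp_le_exp.2
    rw [neg_le_neg_iff]
    gcongr
  have h16 : Real.pi * Real.exp (-((1 + ε / 2) * A / s)) ≤ Lr * V := by
    rw [le_div_iff₀ (by positivity)] at h13
    nlinarith
  have h17 : Real.exp (-((1 + ε) * A / s)) * Real.exp (ε / 2 * A / s) =
      Real.exp (-((1 + ε / 2) * A / s)) := by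
    rw [← Real.exp_add]
    congr 1
    ring
  have h18 : Lr * Real.exp (-((1 + ε) * A / s)) ≤ Lr * V := by
    refine le_trans ?_ h16
    rw [← h17]
    rw [div_le_iff₀ hpi] at hs3
    have h19 := (Real.exp_pos (-((1 + ε) * A / s))).le
    nlinarith [mul_le_mul_of_nonneg_right hs3 h19]
  exact le_of_mul_le_mul_left h18 hLr0

/-- a limit from bounds with constants close to one -/
theorem lim_of {Φ : ℝ → ℝ} {A : ℝ} (hA : 0 < A)
    (up : ∀ θ : ℝ, 0 < θ → θ < 1 → ∀ᶠ s : ℝ in 𝓝[>] 0, Φ s ≤ Real.exp (-(θ * A / s)))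
    (lo : ∀ ε : ℝ, 0 < ε → ∀ᶠ s : ℝ in 𝓝[>] 0, Real.exp (-((1 + ε) * A / s)) ≤ Φ s) :
    Tendsto (fun s => s * Real.log (1 / Φ s)) (𝓝[>] 0) (𝓝 A) := by
  rw [Metric.tendsto_nhds]
  intro ε hε
  obtain ⟨η, hη⟩ : ∃ η : ℝ, η = min (1 / 2) (ε / (2 * A)) := ⟨_, rfl⟩
  have hη0 : 0 < η := by rw [hη]; exact lt_min (by norm_num) (by positivity)
  have hη1 : η ≤ 1 / 2 := by rw [hη]; exact min_le_left _ _
  have hη2 : η * A < ε := by
    have h1 : η ≤ ε / (2 * A) := by rw [hη]; exact min_le_right _ _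
    rw [le_div_iff₀ (by positivity)] at h1
    linarith
  filter_upwards [up (1 - η) (by linarith) (by linarith), lo η hη0, self_mem_nhdsWithin]
    with s h1 h2 hs
  have hs0 : 0 < s := hs
  have hΦ : 0 < Φ s := (Real.exp_pos _).trans_le h2
  have h3 := Real.log_le_log hΦ h1
  have h4 := Real.log_le_log (Real.exp_pos _) h2
  rw [Real.log_exp] at h3 h4
  have h5 : Real.log (1 / Φ s) = -Real.log (Φ s) := by rw [one_div, Real.log_inv]
  have h6 : s * Real.log (1 / Φ s) ≤ (1 + η) * A := by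
    rw [h5]
    calc s * -Real.log (Φ s) ≤ s * ((1 + η) * A / s) :=
          mul_le_mul_of_nonneg_left (by linarith) hs0.le
      _ = (1 + η) * A := by field_simp
  have h7 : (1 - η) * A ≤ s * Real.log (1 / Φ s) := by
    rw [h5]
    calc (1 - η) * A = s * ((1 - η) * A / s) := by field_simp
      _ ≤ s * -Real.log (Φ s) := mul_le_mul_of_nonneg_left (by linarith) hs0.le
  rw [Real.dist_eq, abs_lt]
  constructor <;> nlinarith

/-- **The law for Green's function.** -/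
theorem sup_law (hd : 2 ≤ d) {e : ℕ} (he : 1 ≤ e) {L : ℝ} (hL : 0 < L) (hlaw : Law d e c₀ L)
    (hc₀ : c₀ ∈ multibrotSet d) {ψ : ℂ → ℂ} (hψ : IsExteriorMap (multibrotSet d) ψ) :
    Tendsto (fun s : ℝ => s * Real.log (1 / sSup (GS ψ c₀ (s ^ e)))) (𝓝[>] 0)
      (𝓝 (L * Real.log d)) := by
  have hdR : (2 : ℝ) ≤ d := by exact_mod_cast hd
  have hlogd : 0 < Real.log d := Real.log_pos (by linarith)
  apply lim_of (by positivity)
  · intro θ h0 h1
    obtain ⟨s₀, hs₀, hG⟩ := green_upper hd he hL hlaw hc₀ h0 h1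
    filter_upwards [ev_of hs₀] with s hs
    apply Real.sSup_le _ (Real.exp_pos _).le
    rintro x ⟨w, hw, hws, rfl⟩
    exact hG ψ hψ s hs.1 hs.2 w hw hws
  · intro ε hε
    obtain ⟨s₀, hs₀, hG⟩ := green_upper hd he hL hlaw hc₀ (θ := 1 / 2) (by norm_num) (by norm_num)
    obtain ⟨s₁, hs₁, hG1⟩ := green_low hd he hL hlaw hε
    filter_upwards [ev_of hs₀, ev_of hs₁] with s hs hs'
    obtain ⟨w, h1, h2, h3⟩ := hG1 ψ hψ s hs'.1 hs'.2
    refine h3.trans (le_csSup ?_ ⟨w, h1, h2, rfl⟩)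
    refine ⟨Real.exp (-(1 / 2 * (L * Real.log d) / s)), ?_⟩
    rintro x ⟨w, hw, hws, rfl⟩
    exact hG ψ hψ s hs.1 hs.2 w hw hws

/-- **The law for the harmonic measure.** -/
theorem vol_law (hd : 2 ≤ d) {e : ℕ} (he : 1 ≤ e) {L : ℝ} (hL : 0 < L) (hlaw : Law d e c₀ L)
    (hc₀ : c₀ ∈ multibrotSet d) {ψ : ℂ → ℂ} (hψ : IsExteriorMap (multibrotSet d) ψ) :
    Tendsto (fun s : ℝ => s * Real.log (1 / (volume (Ang ψ c₀ (s ^ e))).toReal)) (𝓝[>] 0)
      (𝓝 (L * Real.log d)) := by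
  have hdR : (2 : ℝ) ≤ d := by exact_mod_cast hd
  have hlogd : 0 < Real.log d := Real.log_pos (by linarith)
  apply lim_of (by positivity)
  · intro θ h0 h1
    filter_upwards [vol_upper hd he hL hlaw hc₀ h0 h1] with s hs using hs ψ hψ
  · intro ε hε
    filter_upwards [vol_lower hd he hL hlaw hc₀ hε] with s hs using hs ψ hψ

/-- **The loop.** -/
theorem loop_law (hd : 2 ≤ d) {e : ℕ} (he : 1 ≤ e) {L : ℝ} (hL : 0 < L) (hlaw : Law d e c₀ L)
    (hc₀ : c₀ ∈ multibrotSet d) {ψ : ℂ → ℂ} (hψ : IsExteriorMap (multibrotSet d) ψ)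
    {F : ℂ → ℂ} (hF : ContinuousOn F {w | 1 ≤ ‖w‖}) (hE : ∀ w, 1 < ‖w‖ → F w = ψ w)
    {ζ : ℂ} (hζ : ‖ζ‖ = 1) (hFζ : F ζ = c₀) {κ : ℝ} (hκ0 : 0 < κ) (hκ : κ < L * Real.log d) :
    ∀ᶠ δ : ℝ in 𝓝[>] 0, ∃ ξ : ℂ, ‖ξ‖ = 1 ∧ ‖ξ - ζ‖ ≤ δ ∧
      (κ / Real.log (1 / δ)) ^ e ≤ ‖F ξ - F ζ‖ := by
  refine loop_gen (r := fun δ => (κ / Real.log (1 / δ)) ^ e) ?_ hF hE hζ hFζ
  obtain ⟨A, hA⟩ : ∃ A : ℝ, A = L * Real.log d := ⟨_, rfl⟩
  rw [← hA] at hκ
  have hA0 : 0 < A := by linarith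
  obtain ⟨θ, hθ1, hθ2⟩ := exists_between ((div_lt_one hA0).2 hκ)
  have hθ0 : 0 < θ := (by positivity : 0 < κ / A).trans hθ1
  have h1 : Tendsto (fun δ : ℝ => κ / Real.log (1 / δ)) (𝓝[>] 0) (𝓝[>] 0) := by
    have h2 : Tendsto (fun δ : ℝ => Real.log (1 / δ)) (𝓝[>] 0) atTop := by
      have h20 : Tendsto (fun δ : ℝ => 1 / δ) (𝓝[>] 0) atTop := by
        simpa [one_div] using tendsto_inv_nhdsGT_zero (𝕜 := ℝ)
      exact Real.tendsto_log_atTop.comp h20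
    rw [tendsto_nhdsWithin_iff]
    refine ⟨h2.const_div_atTop _, ?_⟩
    filter_upwards [h2.eventually_gt_atTop 0] with δ hδ
    exact div_pos hκ0 hδ
  filter_upwards [h1.eventually (vol_upper hd he hL hlaw hc₀ hθ0 hθ2),
    ev_of (show (0 : ℝ) < 1 / 2 by norm_num)] with δ hδ hδ1
  obtain ⟨hδ0, hδ2⟩ := hδ1
  have hlog : 0 < Real.log (1 / δ) := by
    apply Real.log_pos
    rw [lt_div_iff₀ hδ0]
    linarith
  refine lt_of_le_of_lt (hδ ψ hψ) ?_
  rw [← hA]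
  have h3 : θ * A / (κ / Real.log (1 / δ)) = θ * A / κ * Real.log (1 / δ) := by
    field_simp
  rw [h3]
  have h4 : 1 < θ * A / κ := by
    rw [one_lt_div hκ0]
    rwa [div_lt_iff₀ hA0] at hθ1
  calc Real.exp (-(θ * A / κ * Real.log (1 / δ))) < Real.exp (-(Real.log (1 / δ))) := by
        apply Real.exp_lt_exp.2
        nlinarith
    _ = δ := by rw [one_div, Real.log_inv, neg_neg, Real.exp_log hδ0]

end Pool.Agent.Run7.h15.Tr
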