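import Pool.Agent.R240.Push

/-!
# Invariant quadratic differentials with double poles along a cycle: the push-forward
-/

set_option autoImplicit false

namespace Pool.Agent.Run7.h15.Tr

open Complex Metric Set Filter Topology MeasureTheory ENNReal Finset
open Pool.Agent.R240.Push

theorem root_sum_sq {d : ℕ} (hd : 2 ≤ d) {ζ : ℂ} (hζ : IsPrimitiveRoot ζ d) {x a : ℂ}
    (hx : x ^ d ≠ a ^ d) :
    ∑ i ∈ range d, (ζ ^ i) ^ 2 / (ζ ^ i * x - a) ^ 2 =
      d * x ^ (d - 2) * (x ^ d + (d - 1) * a ^ d) / (x ^ d - a ^ d) ^ 2 := by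
  have h0 : x ^ d - a ^ d ≠ 0 := sub_ne_zero.2 hx
  have hpow : ∀ i, (ζ ^ i * x) ^ d = x ^ d := by
    intro i
    rw [mul_pow, ← pow_mul, mul_comm i d, pow_mul, hζ.pow_eq_one, one_pow, one_mul]
  have hne : ∀ i, ζ ^ i * x - a ≠ 0 := by
    intro i h
    apply hx
    rw [← hpow i, sub_eq_zero.1 h]
  have hev : ∀ᶠ b in 𝓝 a, x ^ d ≠ b ^ d := by
    have : Continuous fun b : ℂ => b ^ d := by fun_prop
    exact (this.tendsto a).eventually_ne hx.symm |>.mono fun b hb => hb.symm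
  have h1 : HasDerivAt (fun b : ℂ => ∑ i ∈ range d, (ζ ^ i) ^ 2 / (ζ ^ i * x - b))
      (∑ i ∈ range d, (ζ ^ i) ^ 2 / (ζ ^ i * x - a) ^ 2) a := by
    apply HasDerivAt.fun_sum
    intro i _
    have h2 : HasDerivAt (fun b : ℂ => ζ ^ i * x - b) (-1) a := (hasDerivAt_id a).const_sub _
    have h3 := (h2.fun_inv (hne i)).const_mul ((ζ ^ i) ^ 2)
    have e : (ζ ^ i) ^ 2 * (-(-1) / (ζ ^ i * x - a) ^ 2) = (ζ ^ i) ^ 2 / (ζ ^ i * x - a) ^ 2 := by
      ring
    rw [e] at h3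
    exact h3
  have h2 : HasDerivAt (fun b : ℂ => d * b * x ^ (d - 2) / (x ^ d - b ^ d))
      ((d * x ^ (d - 2) * (x ^ d - a ^ d) - d * a * x ^ (d - 2) * (-(d * a ^ (d - 1)))) /
        (x ^ d - a ^ d) ^ 2) a := by
    have e1 : HasDerivAt (fun b : ℂ => d * b * x ^ (d - 2)) (d * x ^ (d - 2)) a := by
      have := ((hasDerivAt_id a).const_mul (d : ℂ)).mul_const (x ^ (d - 2))
      simpa using this
    have e2 : HasDerivAt (fun b : ℂ => x ^ d - b ^ d) (-(d * a ^ (d - 1))) a :=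
      (hasDerivAt_pow d a).const_sub _
    exact e1.fun_div e2 h0
  have h3 := h2.congr_of_eventuallyEq (hev.mono fun b hb => root_sum hd hζ hb)
  rw [h1.unique h3]
  congr 1
  obtain ⟨e, rfl⟩ : ∃ e, d = e + 2 := ⟨d - 2, by omega⟩
  have e3 : e + 2 - 1 = e + 1 := rfl
  have e4 : e + 2 - 2 = e := rfl
  rw [e3, e4]
  push_cast
  ring

/-- the differential -/
noncomputable def q (p : ℕ) (z : ℕ → ℂ) (A : ℂ) (B : ℕ → ℂ) (w : ℂ) : ℂ :=
  ∑ j ∈ range p, (A / (w - z j) ^ 2 + B j / (w - z j))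

theorem q_meas (p : ℕ) (z : ℕ → ℂ) (A : ℂ) (B : ℕ → ℂ) : Measurable (q p z A B) := by
  unfold q
  fun_prop

theorem finite_pow {d : ℕ} (hd : 2 ≤ d) (w : ℂ) : {x : ℂ | x ^ d = w}.Finite := by
  refine Set.Finite.subset (Polynomial.nthRoots d w).toFinset.finite_toSet ?_
  intro x hx
  rw [Finset.mem_coe, Multiset.mem_toFinset, Polynomial.mem_nthRoots (by omega)]
  exact hx

/-- **The differential is invariant.** -/
theorem q_push {d : ℕ} (hd : 2 ≤ d) {ζ : ℂ} (hζ : IsPrimitiveRoot ζ d) {c : ℂ} {p : ℕ}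
    {z : ℕ → ℂ} (hz : ∀ j, z (j + 1) = z j ^ d + c) (hzp : z p = z 0) {A : ℂ} {B : ℕ → ℂ}
    (hB : ∀ j < p, B j * z j = d * z j ^ d * B (j + 1) + A * (d - 1)) (hBp : B p = B 0)
    (hsum : ∑ j ∈ range p, B (j + 1) = 0) :
    ∀ᵐ x : ℂ, (d * x ^ (d - 1)) ^ 2 * q p z A B (x ^ d + c) =
      ∑ i ∈ range d, (ζ ^ i) ^ 2 * q p z A B (ζ ^ i * x) := by
  have hfin : ({0} ∪ ⋃ k ∈ Finset.range p, {x : ℂ | x ^ d = z k ^ d}).Finite := by
    apply (finite_singleton _).union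
    apply Set.Finite.biUnion (Finset.finite_toSet _)
    intro k _
    exact finite_pow hd _
  have h0 := hfin.measure_zero (volume : Measure ℂ)
  rw [← compl_compl ({0} ∪ ⋃ k ∈ Finset.range p, {x : ℂ | x ^ d = z k ^ d})] at h0
  have h0' : ({0} ∪ ⋃ k ∈ Finset.range p, {x : ℂ | x ^ d = z k ^ d})ᶜ ∈
    ae (volume : Measure ℂ) := h0
  filter_upwards [h0'] with x hx
  simp only [mem_compl_iff, mem_union, mem_singleton_iff, mem_iUnion, not_or, not_exists,
    Finset.mem_range, mem_ofPred_eq] at hx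
  obtain ⟨hx0, hx1⟩ := hx
  -- the left-hand side
  have hL : q p z A B (x ^ d + c) =
      ∑ j ∈ range p, (A / (x ^ d - z j ^ d) ^ 2 + B (j + 1) / (x ^ d - z j ^ d)) := by
    unfold q
    have h1 : ∑ j ∈ range p, (A / (x ^ d + c - z j) ^ 2 + B j / (x ^ d + c - z j)) =
        ∑ j ∈ range p, (A / (x ^ d + c - z (j + 1)) ^ 2 + B (j + 1) / (x ^ d + c - z (j + 1))) := by
      have e1 := Finset.sum_range_succ
        (fun j => A / (x ^ d + c - z j) ^ 2 + B j / (x ^ d + c - z j)) p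
      have e2 := Finset.sum_range_succ'
        (fun j => A / (x ^ d + c - z j) ^ 2 + B j / (x ^ d + c - z j)) p
      rw [hzp, hBp] at e1
      rw [e1] at e2
      exact add_right_cancel e2
    rw [h1]
    apply Finset.sum_congr rfl
    intro j _
    rw [hz j, show x ^ d + c - (z j ^ d + c) = x ^ d - z j ^ d by ring]
  -- the right-hand side
  have hR : ∑ i ∈ range d, (ζ ^ i) ^ 2 * q p z A B (ζ ^ i * x) =
      ∑ j ∈ range p, (A * (d * x ^ (d - 2) * (x ^ d + (d - 1) * z j ^ d) / (x ^ d - z j ^ d) ^ 2) +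
        B j * (d * z j * x ^ (d - 2) / (x ^ d - z j ^ d))) := by
    unfold q
    simp only [Finset.mul_sum]
    rw [Finset.sum_comm]
    apply Finset.sum_congr rfl
    intro j hj
    rw [Finset.mem_range] at hj
    rw [← root_sum_sq hd hζ (hx1 j hj), ← root_sum hd hζ (hx1 j hj), Finset.mul_sum,
      Finset.mul_sum, ← Finset.sum_add_distrib]
    apply Finset.sum_congr rfl
    intro i _
    ring
  rw [hL, hR, Finset.mul_sum]
  have hdiff : ∀ j ∈ range p, (d * x ^ (d - 1)) ^ 2 *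
      (A / (x ^ d - z j ^ d) ^ 2 + B (j + 1) / (x ^ d - z j ^ d)) =
      (A * (d * x ^ (d - 2) * (x ^ d + (d - 1) * z j ^ d) / (x ^ d - z j ^ d) ^ 2) +
        B j * (d * z j * x ^ (d - 2) / (x ^ d - z j ^ d))) +
        d ^ 2 * x ^ (d - 2) * B (j + 1) := by
    intro j hj
    rw [Finset.mem_range] at hj
    have h3 : x ^ d - z j ^ d ≠ 0 := sub_ne_zero.2 (hx1 j hj)
    have h4 := hB j hj
    obtain ⟨e, rfl⟩ : ∃ e, d = e + 2 := ⟨d - 2, by omega⟩
    have e3 : e + 2 - 1 = e + 1 := rfl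
    have e4 : e + 2 - 2 = e := rfl
    rw [e3, e4] at *
    have e5 : B j * (((e + 2 : ℕ) : ℂ) * z j * x ^ e / (x ^ (e + 2) - z j ^ (e + 2))) =
        ((e + 2 : ℕ) : ℂ) * x ^ e * (B j * z j) / (x ^ (e + 2) - z j ^ (e + 2)) := by ring
    rw [e5, h4]
    field_simp
    ring
  rw [Finset.sum_congr rfl hdiff, Finset.sum_add_distrib, ← Finset.mul_sum, hsum, mul_zero,
    add_zero]

end Pool.Agent.Run7.h15.Tr
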