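import Pool.Agent.Run7.h15.Tr.A

/-!
# There is no invariant quadratic differential with double poles along an indifferent cycle
-/

set_option autoImplicit false

namespace Pool.Agent.Run7.h15.Tr

open Complex Metric Set Filter Topology MeasureTheory ENNReal Finset
open Pool.Agent.R240.Push

/-- the second order remainder of a power -/
theorem pow_rem {x a : ℂ} {M : ℝ} (hM : 1 ≤ M) (hx : ‖x‖ ≤ M) (ha : ‖a‖ ≤ M) (n : ℕ) :
    ‖x ^ n - a ^ n - n * a ^ (n - 1) * (x - a)‖ ≤ n ^ 2 * M ^ n * ‖x - a‖ ^ 2 := by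
  induction n with
  | zero => simp
  | succ n ih =>
    have e : x ^ (n + 1) - a ^ (n + 1) - ((n + 1 : ℕ) : ℂ) * a ^ (n + 1 - 1) * (x - a) =
        x * (x ^ n - a ^ n - n * a ^ (n - 1) * (x - a)) + n * a ^ (n - 1) * (x - a) ^ 2 := by
      rcases Nat.eq_zero_or_pos n with rfl | hn
      · simp
      · obtain ⟨m, rfl⟩ : ∃ m, n = m + 1 := ⟨n - 1, by omega⟩
        simp only [Nat.add_sub_cancel]
        push_cast
        ring
    rw [e]
    have hM0 : 0 ≤ M := by linarith
    have h1 : ‖x * (x ^ n - a ^ n - n * a ^ (n - 1) * (x - a))‖ ≤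
        M * (n ^ 2 * M ^ n * ‖x - a‖ ^ 2) := by
      rw [norm_mul]
      exact mul_le_mul hx ih (norm_nonneg _) hM0
    have h2 : ‖(n : ℂ) * a ^ (n - 1) * (x - a) ^ 2‖ ≤ n * M ^ (n + 1) * ‖x - a‖ ^ 2 := by
      rw [norm_mul, norm_mul, norm_pow, norm_pow, Complex.norm_natCast]
      have h3 : ‖a‖ ^ (n - 1) ≤ M ^ (n + 1) :=
        (pow_le_pow_left₀ (norm_nonneg _) ha _).trans (pow_le_pow_right₀ hM (by omega))
      gcongr
    refine (norm_add_le _ _).trans ((add_le_add h1 h2).trans ?_)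
    have h3 : 0 ≤ M ^ (n + 1) * ‖x - a‖ ^ 2 := by positivity
    have hn0 : (0 : ℝ) ≤ n := n.cast_nonneg
    calc M * (n ^ 2 * M ^ n * ‖x - a‖ ^ 2) + n * M ^ (n + 1) * ‖x - a‖ ^ 2
        = (n ^ 2 + n) * (M ^ (n + 1) * ‖x - a‖ ^ 2) := by ring
      _ ≤ ((n + 1 : ℕ) : ℝ) ^ 2 * (M ^ (n + 1) * ‖x - a‖ ^ 2) := by
          apply mul_le_mul_of_nonneg_right _ h3
          push_cast
          nlinarith
      _ = _ := by ring

/-- a differential which vanishes on an open set vanishes -/
theorem q_zero {p : ℕ} {z : ℕ → ℂ} (hinj : ∀ i < p, ∀ j < p, z i = z j → i = j) {A : ℂ}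
    {B : ℕ → ℂ} {x₀ : ℂ} (hx₀ : ∀ j < p, x₀ ≠ z j) (h : ∀ᶠ w in 𝓝 x₀, q p z A B w = 0) (k : ℕ)
    (hk : k < p) : A = 0 ∧ B k = 0 := by
  obtain ⟨S, hS⟩ : ∃ S : Set ℂ, S = z '' (Set.Iio p) := ⟨_, rfl⟩
  have hSfin : S.Finite := by rw [hS]; exact (Set.finite_Iio p).image z
  have hmem : ∀ w ∈ Sᶜ, ∀ j < p, w - z j ≠ 0 := by
    intro w hw j hj h0
    apply hw
    rw [hS, sub_eq_zero.1 h0]
    exact mem_image_of_mem z hj
  have hconn : IsPreconnected Sᶜ := by
    apply IsConnected.isPreconnected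
    apply Set.Countable.isConnected_compl_of_one_lt_rank
    · rw [Complex.rank_real_complex]
      norm_num
    · exact hSfin.countable
  have han : AnalyticOnNhd ℂ (q p z A B) Sᶜ := by
    apply DifferentiableOn.analyticOnNhd
    · intro w hw
      apply DifferentiableAt.differentiableWithinAt
      unfold q
      apply DifferentiableAt.fun_sum
      intro j hj
      have hne := hmem w hw j (Finset.mem_range.1 hj)
      apply DifferentiableAt.add
      · apply DifferentiableAt.div (by fun_prop) (by fun_prop)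
        exact pow_ne_zero _ hne
      · exact DifferentiableAt.div (by fun_prop) (by fun_prop) hne
    · exact hSfin.isClosed.isOpen_compl
  have hx₀S : x₀ ∈ Sᶜ := by
    rw [hS]
    rintro ⟨j, hj, hj2⟩
    exact hx₀ j hj hj2.symm
  have hzero := han.eqOn_zero_of_preconnected_of_eventuallyEq_zero hconn hx₀S h
  obtain ⟨T, hT⟩ : ∃ T : ℂ → ℂ, T = fun w =>
    ∑ j ∈ (range p).erase k, (A / (w - z j) ^ 2 + B j / (w - z j)) := ⟨_, rfl⟩
  have hTc : ContinuousAt T (z k) := by
    rw [hT]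
    apply tendsto_finsetSum
    intro j hj
    have hj' := Finset.mem_erase.1 hj
    have hne : z k - z j ≠ 0 := by
      intro h0
      exact hj'.1 (hinj k hk j (Finset.mem_range.1 hj'.2) (sub_eq_zero.1 h0)).symm
    apply ContinuousAt.add
    · apply ContinuousAt.div (by fun_prop) (by fun_prop)
      exact pow_ne_zero _ hne
    · exact ContinuousAt.div (by fun_prop) (by fun_prop) hne
  have hq : ∀ w, q p z A B w = (A / (w - z k) ^ 2 + B k / (w - z k)) + T w := by
    intro w
    rw [hT]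
    unfold q
    exact (Finset.add_sum_erase _ _ (Finset.mem_range.2 hk)).symm
  have hpunct : ∀ᶠ w in 𝓝[≠] (z k), w ≠ z k ∧
      (A / (w - z k) ^ 2 + B k / (w - z k)) + T w = 0 := by
    have h1 : ∀ᶠ w in 𝓝[≠] (z k), w ∈ (S \ {z k})ᶜ :=
      nhdsWithin_le_nhds ((hSfin.subset sdiff_subset).isClosed.isOpen_compl.mem_nhds (by simp))
    filter_upwards [h1, self_mem_nhdsWithin] with w hw1 hw2
    have hw2' : w ≠ z k := hw2
    refine ⟨hw2', ?_⟩
    rw [← hq]
    apply hzero
    intro hwS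
    exact hw1 ⟨hwS, hw2'⟩
  have hA : A = 0 := by
    have h1 : Tendsto (fun w => A + B k * (w - z k) + (w - z k) ^ 2 * T w) (𝓝[≠] (z k))
        (𝓝 (A + B k * (z k - z k) + (z k - z k) ^ 2 * T (z k))) := by
      have h2 : ContinuousAt (fun w => A + B k * (w - z k) + (w - z k) ^ 2 * T w) (z k) := by
        fun_prop
      exact h2.tendsto.mono_left nhdsWithin_le_nhds
    have h2 : Tendsto (fun w => A + B k * (w - z k) + (w - z k) ^ 2 * T w) (𝓝[≠] (z k))
        (𝓝 0) := by
      refine tendsto_const_nhds.congr' ?_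
      filter_upwards [hpunct] with w hw
      have hne : w - z k ≠ 0 := sub_ne_zero.2 hw.1
      have h3 := hw.2
      have h4 : (w - z k) ^ 2 * ((A / (w - z k) ^ 2 + B k / (w - z k)) + T w) = 0 := by
        rw [h3, mul_zero]
      rw [← h4]
      field_simp
    have h3 := tendsto_nhds_unique h1 h2
    rw [sub_self] at h3
    simpa using h3
  refine ⟨hA, ?_⟩
  have h1 : Tendsto (fun w => B k + (w - z k) * T w) (𝓝[≠] (z k))
      (𝓝 (B k + (z k - z k) * T (z k))) := by
    have h2 : ContinuousAt (fun w => B k + (w - z k) * T w) (z k) := by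
      fun_prop
    exact h2.tendsto.mono_left nhdsWithin_le_nhds
  have h2 : Tendsto (fun w => B k + (w - z k) * T w) (𝓝[≠] (z k)) (𝓝 0) := by
    refine tendsto_const_nhds.congr' ?_
    filter_upwards [hpunct] with w hw
    have hne : w - z k ≠ 0 := sub_ne_zero.2 hw.1
    have h3 := hw.2
    rw [hA, zero_div, zero_add] at h3
    have h4 : (w - z k) * (B k / (w - z k) + T w) = 0 := by
      rw [h3, mul_zero]
    rw [← h4]
    field_simp
  have h3 := tendsto_nhds_unique h1 h2
  rw [sub_self] at h3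
  simpa using h3

end Pool.Agent.Run7.h15.Tr
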