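import Pool.Agent.Run7.h15.Tr.B

/-!
# There is no invariant quadratic differential with double poles along an indifferent cycle: proof
-/

set_option autoImplicit false

namespace Pool.Agent.Run7.h15.Tr

open Complex Metric Set Filter Topology MeasureTheory ENNReal Finset
open Pool.Agent.R240.Push

theorem vol_annulus (a : ℂ) {r s : ℝ} (hr : 0 ≤ r) (hrs : r ≤ s) :
    volume (closedBall a s \ closedBall a r) = ENNReal.ofReal (Real.pi * (s ^ 2 - r ^ 2)) := by
  rw [measure_sdiff (closedBall_subset_closedBall hrs) measurableSet_closedBall.nullMeasurableSet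
    measure_closedBall_lt_top.ne, Complex.volume_closedBall, Complex.volume_closedBall]
  have e : ∀ t : ℝ, 0 ≤ t → ENNReal.ofReal t ^ 2 * (NNReal.pi : ℝ≥0∞) =
      ENNReal.ofReal (Real.pi * t ^ 2) := by
    intro t ht
    have h1 : (NNReal.pi : ℝ≥0∞) = ENNReal.ofReal Real.pi := by
      rw [← NNReal.coe_real_pi, ENNReal.ofReal_coe_nnreal]
    rw [h1, ← ENNReal.ofReal_pow ht, ← ENNReal.ofReal_mul (by positivity), mul_comm]
  rw [e s (hr.trans hrs), e r hr, ← ENNReal.ofReal_sub _ (by positivity), mul_sub]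

theorem lint_biUnion_le (f : ℂ → ℝ≥0∞) (s : Finset ℕ) (An : ℕ → Set ℂ) :
    ∫⁻ x in ⋃ j ∈ s, An j, f x ≤ ∑ j ∈ s, ∫⁻ x in An j, f x := by
  classical
  induction s using Finset.induction_on with
  | empty => simp
  | insert a s ha ih =>
    rw [Finset.set_biUnion_insert, Finset.sum_insert ha]
    exact (lintegral_union_le _ _ _).trans (add_le_add le_rfl ih)

/-- **No invariant differentials.** -/
theorem nofix {d : ℕ} (hd : 2 ≤ d) {c : ℂ} {p : ℕ} (hp : 1 ≤ p) {z : ℕ → ℂ}
    (hz : ∀ j, z (j + 1) = z j ^ d + c) (hzp : z p = z 0)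
    (hinj : ∀ i < p, ∀ j < p, z i = z j → i = j)
    (hmult : ∏ j ∈ range p, ‖(d : ℂ) * z j ^ (d - 1)‖ = 1) {A : ℂ} {B : ℕ → ℂ}
    (hB : ∀ j < p, B j * z j = d * z j ^ d * B (j + 1) + A * (d - 1)) (hBp : B p = B 0)
    (hsum : ∑ j ∈ range p, B (j + 1) = 0) (k : ℕ) (hk : k < p) : A = 0 ∧ B k = 0 := by
  have hc0 := norm_nonneg c
  -- the cycle is periodic and bounded
  have hper : ∀ j, z (j + p) = z j := by
    intro j
    induction j with
    | zero => rw [zero_add, hzp]
    | succ j ih => rw [show j + 1 + p = j + p + 1 by ring, hz, hz, ih]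
  have hbd : ∀ j, ‖z j‖ < ‖c‖ + 2 := by
    intro j
    by_contra hcon
    push Not at hcon
    have h1 : ∀ n, 2 ^ n * ‖z j‖ ≤ ‖z (j + n)‖ := by
      intro n
      induction n with
      | zero => simp
      | succ n ih =>
        rw [← add_assoc, hz]
        have h2 : ‖z j‖ ≤ ‖z (j + n)‖ := by
          have : (1 : ℝ) ≤ 2 ^ n := one_le_pow₀ (by norm_num)
          nlinarith
        have h3 : ‖z (j + n)‖ ^ 2 ≤ ‖z (j + n)‖ ^ d := pow_le_pow_right₀ (by linarith) hd
        have h4 : ‖z (j + n)‖ ^ d - ‖c‖ ≤ ‖z (j + n) ^ d + c‖ := by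
          have := norm_sub_norm_le (z (j + n) ^ d) (-c)
          rw [norm_neg, norm_pow, sub_neg_eq_add] at this
          exact this
        have h5 : 2 * ‖z (j + n)‖ ≤ ‖z (j + n)‖ ^ 2 - ‖c‖ := by nlinarith
        rw [pow_succ]
        linarith
    have h2 := h1 p
    rw [hper] at h2
    have h3 : (2 : ℝ) ^ 1 ≤ 2 ^ p := pow_le_pow_right₀ (by norm_num) hp
    nlinarith
  obtain ⟨R, hR⟩ : ∃ R : ℝ, R = ‖c‖ + 4 := ⟨_, rfl⟩
  -- the radii
  obtain ⟨ρ, hρ⟩ : ∃ ρ : ℕ → ℝ, ρ = fun j => ∏ i ∈ range j, ‖(d : ℂ) * z i ^ (d - 1)‖ := ⟨_, rfl⟩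
  have hρ0 : ρ 0 = 1 := by rw [hρ]; simp
  have hρp : ρ p = 1 := by rw [hρ]; exact hmult
  have hρs : ∀ j, ρ (j + 1) = ρ j * ‖(d : ℂ) * z j ^ (d - 1)‖ := by
    intro j
    rw [hρ]
    exact Finset.prod_range_succ _ _
  have hfac : ∀ j < p, 0 < ‖(d : ℂ) * z j ^ (d - 1)‖ := by
    intro j hj
    have h1 : ∏ j ∈ range p, ‖(d : ℂ) * z j ^ (d - 1)‖ ≠ 0 := by rw [hmult]; exact one_ne_zero
    have h2 := Finset.prod_ne_zero_iff.1 h1 j (Finset.mem_range.2 hj)
    exact lt_of_le_of_ne (norm_nonneg _) (Ne.symm h2)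
  have hρpos : ∀ j ≤ p, 0 < ρ j := by
    intro j hj
    rw [hρ]
    apply Finset.prod_pos
    intro i hi
    exact hfac i (by have := Finset.mem_range.1 hi; omega)
  -- constants
  obtain ⟨K0, hK0⟩ : ∃ K0 : ℝ, K0 = d ^ 2 * R ^ d := ⟨_, rfl⟩
  have hK00 : 0 ≤ K0 := by rw [hK0, hR]; positivity
  obtain ⟨K, hK⟩ : ∃ K : ℝ, K = K0 * (∑ j ∈ range p, ρ j ^ 2 / ρ (j + 1)) + 1 := ⟨_, rfl⟩
  have hsumnn : 0 ≤ ∑ j ∈ range p, ρ j ^ 2 / ρ (j + 1) := by
    apply Finset.sum_nonneg
    intro j hj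
    have := hρpos (j + 1) (by have := Finset.mem_range.1 hj; omega)
    positivity
  have hKpos : 0 < K := by rw [hK]; positivity
  have hKj : ∀ j < p, K0 * ρ j ^ 2 ≤ K * ρ (j + 1) := by
    intro j hj
    have h1 := hρpos (j + 1) (by omega)
    have h2 : ρ j ^ 2 / ρ (j + 1) ≤ ∑ j ∈ range p, ρ j ^ 2 / ρ (j + 1) := by
      apply Finset.single_le_sum (f := fun j => ρ j ^ 2 / ρ (j + 1)) _ (Finset.mem_range.2 hj)
      intro i hi
      have := hρpos (i + 1) (by have := Finset.mem_range.1 hi; omega)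
      positivity
    have h3 : K0 * (ρ j ^ 2 / ρ (j + 1)) ≤ K := by
      rw [hK]
      have := mul_le_mul_of_nonneg_left h2 hK00
      linarith
    calc K0 * ρ j ^ 2 = K0 * (ρ j ^ 2 / ρ (j + 1)) * ρ (j + 1) := by field_simp
      _ ≤ K * ρ (j + 1) := mul_le_mul_of_nonneg_right h3 h1.le
  obtain ⟨M, hM⟩ : ∃ M : ℝ, M = ∑ i ∈ range p, (4 * ‖A‖ / ρ i ^ 2 + 2 * ‖B i‖ / ρ i) := ⟨_, rfl⟩
  have hM0 : 0 ≤ M := by
    rw [hM]
    apply Finset.sum_nonneg
    intro j hj
    have := hρpos j (by have := Finset.mem_range.1 hj; omega)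
    positivity
  have hqb : ∀ ε : ℝ, 0 < ε → ε ≤ 1 → ∀ x : ℂ, (∀ i < p, ε * ρ i / 2 ≤ ‖x - z i‖) →
      ‖q p z A B x‖ ≤ M / ε ^ 2 := by
    intro ε hε hε1 x hx
    unfold q
    refine (norm_sum_le _ _).trans ?_
    rw [hM, Finset.sum_div]
    apply Finset.sum_le_sum
    intro i hi
    have hi' := Finset.mem_range.1 hi
    have hρi := hρpos i hi'.le
    have h1 := hx i hi'
    have h2 : 0 < ε * ρ i / 2 := by positivity
    have h3 : 0 < ‖x - z i‖ := h2.trans_le h1
    refine (norm_add_le _ _).trans ?_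
    rw [norm_div, norm_div, norm_pow, add_div]
    apply add_le_add
    · have h4 : (ε * ρ i / 2) ^ 2 ≤ ‖x - z i‖ ^ 2 := pow_le_pow_left₀ h2.le h1 2
      calc ‖A‖ / ‖x - z i‖ ^ 2 ≤ ‖A‖ / (ε * ρ i / 2) ^ 2 :=
            div_le_div_of_nonneg_left (norm_nonneg _) (by positivity) h4
        _ = 4 * ‖A‖ / ρ i ^ 2 / ε ^ 2 := by field_simp; ring
    · calc ‖B i‖ / ‖x - z i‖ ≤ ‖B i‖ / (ε * ρ i / 2) :=
            div_le_div_of_nonneg_left (norm_nonneg _) h2 h1
        _ = 2 * ‖B i‖ / ρ i / ε := by field_simp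
        _ ≤ 2 * ‖B i‖ / ρ i / ε ^ 2 := by
            apply div_le_div_of_nonneg_left (by positivity) (by positivity)
            nlinarith
  obtain ⟨ζ, hζ⟩ : ∃ ζ : ℂ, IsPrimitiveRoot ζ d := ⟨_, Complex.isPrimitiveRoot_exp d (by omega)⟩
  have hpush := q_push hd hζ hz hzp hB hBp hsum
  -- the annulus
  obtain ⟨U, hU⟩ : ∃ U : Set ℂ, U = ball 0 R \ ball 0 (R - 1) := ⟨_, rfl⟩
  have hUm : MeasurableSet U := by rw [hU]; exact measurableSet_ball.diff measurableSet_ball
  obtain ⟨C, hC⟩ : ∃ C : ℝ, C = ∑ j ∈ range p, M * (Real.pi * (2 * K * ρ j ^ 2)) := ⟨_, rfl⟩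
  -- the main inequality
  have hmain : ∀ᶠ ε : ℝ in 𝓝[>] 0, ∫⁻ x in U, ‖q p z A B x‖ₑ ≤ ENNReal.ofReal (C * ε) := by
    have e0 : ∀ᶠ ε : ℝ in 𝓝[>] 0, 0 < ε := self_mem_nhdsWithin
    have hsmall : ∀ t s : ℝ, 0 < s → ∀ᶠ ε : ℝ in 𝓝[>] 0, ε * t ≤ s := by
      intro t s hs
      have h1 : Tendsto (fun ε : ℝ => ε * t) (𝓝[>] 0) (𝓝 (0 * t)) :=
        ((continuous_id.mul continuous_const).tendsto 0).mono_left nhdsWithin_le_nhds
      rw [zero_mul] at h1
      filter_upwards [h1.eventually (gt_mem_nhds hs)] with ε hε using hε.le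
    have e1 := hsmall 1 1 one_pos
    have e2 := hsmall K (1 / 2) (by norm_num)
    have e3 : ∀ᶠ ε : ℝ in 𝓝[>] 0, ∀ j ∈ range p, ε * ρ j ≤ 1 / 2 := by
      rw [Finset.eventually_all]
      intro j _
      exact hsmall _ _ (by norm_num)
    have e4 : ∀ᶠ ε : ℝ in 𝓝[>] 0, ∀ i ∈ range p, ∀ j ∈ range p, i ≠ j →
        ε * (ρ i + ρ j) ≤ ‖z i - z j‖ := by
      rw [Finset.eventually_all]
      intro i hi
      rw [Finset.eventually_all]
      intro j hj
      by_cases hij : i = j
      · exact Eventually.of_forall fun ε h => absurd hij h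
      · have h1 : 0 < ‖z i - z j‖ := by
          rw [norm_pos_iff]
          intro h0
          exact hij (hinj i (Finset.mem_range.1 hi) j (Finset.mem_range.1 hj) (sub_eq_zero.1 h0))
        filter_upwards [hsmall (ρ i + ρ j) _ h1] with ε hε _ using hε
    filter_upwards [e0, e1, e2, e3, e4] with ε hε hε1 hεK hερ hεsep
    rw [mul_one] at hε1
    -- the sets
    obtain ⟨H, hH⟩ : ∃ H : Set ℂ, H = ⋃ j ∈ range p, closedBall (z j) (ε * ρ j) := ⟨_, rfl⟩
    have hHm : MeasurableSet H := by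
      rw [hH]
      exact Finset.measurableSet_biUnion _ fun j _ => measurableSet_closedBall
    obtain ⟨W, hW⟩ : ∃ W : Set ℂ, W = ball 0 (R - 1) \ H := ⟨_, rfl⟩
    have hWm : MeasurableSet W := by rw [hW]; exact measurableSet_ball.diff hHm
    obtain ⟨An, hAn⟩ : ∃ An : ℕ → Set ℂ, An = fun j =>
      closedBall (z j) (ε * ρ j) \ closedBall (z j) (ε * ρ j * (1 - K * ε)) := ⟨_, rfl⟩
    have hmemH : ∀ x, x ∈ H ↔ ∃ j < p, ‖x - z j‖ ≤ ε * ρ j := by
      intro x
      rw [hH]
      simp only [mem_iUnion, Finset.mem_range, mem_closedBall, dist_eq_norm, exists_prop]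
    have hHball : ∀ x ∈ H, ‖x‖ < R - 1 := by
      intro x hx
      obtain ⟨j, hj, hxj⟩ := (hmemH x).1 hx
      have h1 := hbd j
      have h2 := hερ j (Finset.mem_range.2 hj)
      have h3 := norm_add_le (x - z j) (z j)
      rw [sub_add_cancel] at h3
      rw [hR]
      linarith
    have hUW : U ∪ W ⊆ ball 0 R \ H := by
      rintro x (hx | hx)
      · rw [hU] at hx
        refine ⟨hx.1, fun hxH => ?_⟩
        exact hx.2 (by rw [mem_ball_zero_iff]; exact hHball x hxH)
      · rw [hW] at hx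
        refine ⟨?_, hx.2⟩
        have := hx.1
        rw [mem_ball_zero_iff] at this ⊢
        linarith
    have hpre : {x : ℂ | x ^ d + c ∈ ball (0 : ℂ) R \ H} ⊆ W ∪ ⋃ j ∈ range p, An j := by
      intro x hx
      have hxR : ‖x ^ d + c‖ < R := by
        have := hx.1
        rwa [mem_ball_zero_iff] at this
      have hxH : x ^ d + c ∉ H := hx.2
      have hx1 : ‖x‖ < R - 1 := by
        by_contra hcon
        push Not at hcon
        have h1 : ‖x‖ ^ 2 ≤ ‖x‖ ^ d := pow_le_pow_right₀ (by rw [hR] at hcon; linarith) hd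
        have h2 : ‖x‖ ^ d - ‖c‖ ≤ ‖x ^ d + c‖ := by
          have := norm_sub_norm_le (x ^ d) (-c)
          rw [norm_neg, norm_pow, sub_neg_eq_add] at this
          exact this
        rw [hR] at hcon hxR
        nlinarith
      by_cases hxh : x ∈ H
      · right
        obtain ⟨j, hj, hxj⟩ := (hmemH x).1 hxh
        simp only [mem_iUnion]
        refine ⟨j, Finset.mem_range.2 hj, ?_⟩
        rw [hAn]
        refine ⟨by rw [mem_closedBall, dist_eq_norm]; exact hxj, fun hxin => ?_⟩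
        rw [mem_closedBall, dist_eq_norm] at hxin
        apply hxH
        -- the image is in the next disc
        have hj1 := hρpos j hj.le
        have h1 := pow_rem (x := x) (a := z j) (M := R) (by rw [hR]; linarith) (by linarith)
          (by have := hbd j; rw [hR]; linarith) d
        have h2 : ‖x ^ d + c - z (j + 1)‖ ≤ ε * ρ (j + 1) := by
          have e : x ^ d + c - z (j + 1) =
              (x ^ d - z j ^ d - d * z j ^ (d - 1) * (x - z j)) + d * z j ^ (d - 1) * (x - z j) := by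
            rw [hz]
            ring
          rw [e]
          refine (norm_add_le _ _).trans ?_
          rw [norm_mul, hρs]
          obtain ⟨m, hm⟩ : ∃ m, m = ‖(d : ℂ) * z j ^ (d - 1)‖ := ⟨_, rfl⟩
          have hm0 : 0 ≤ m := by rw [hm]; exact norm_nonneg _
          have h3 := hKj j hj
          rw [hρs, ← hm] at h3
          rw [← hm]
          rw [← hK0] at h1
          have h4 : ‖x - z j‖ ^ 2 ≤ (ε * ρ j) ^ 2 := pow_le_pow_left₀ (norm_nonneg _) hxj 2
          have h5 : K0 * ‖x - z j‖ ^ 2 ≤ ε ^ 2 * (K * (ρ j * m)) := by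
            calc K0 * ‖x - z j‖ ^ 2 ≤ K0 * (ε * ρ j) ^ 2 := mul_le_mul_of_nonneg_left h4 hK00
              _ = ε ^ 2 * (K0 * ρ j ^ 2) := by ring
              _ ≤ ε ^ 2 * (K * (ρ j * m)) := mul_le_mul_of_nonneg_left h3 (by positivity)
          have h6 : m * ‖x - z j‖ ≤ m * (ε * ρ j * (1 - K * ε)) :=
            mul_le_mul_of_nonneg_left hxin hm0
          calc _ ≤ ε ^ 2 * (K * (ρ j * m)) + m * (ε * ρ j * (1 - K * ε)) :=
                add_le_add (h1.trans h5) h6
            _ = ε * (ρ j * m) := by ring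
        rw [hmemH]
        rcases Nat.lt_or_ge (j + 1) p with h3 | h3
        · exact ⟨j + 1, h3, h2⟩
        · have h4 : j + 1 = p := by omega
          rw [h4, hzp, hρp, ← hρ0] at h2
          refine ⟨0, by omega, ?_⟩
          convert h2 using 1
          
      · left
        rw [hW]
        exact ⟨by rw [mem_ball_zero_iff]; exact hx1, hxh⟩
    have hcon := contraction hd hζ (q_meas p z A B) (q_meas p z A B) hpush
      (V := ball (0 : ℂ) R \ H) (measurableSet_ball.diff hHm)
    have hdisj : Disjoint U W := by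
      rw [Set.disjoint_left]
      intro x hxU hxW
      rw [hU] at hxU
      rw [hW] at hxW
      exact hxU.2 hxW.1
    have h1 : (∫⁻ x in U, ‖q p z A B x‖ₑ) + ∫⁻ x in W, ‖q p z A B x‖ₑ ≤
        (∫⁻ x in W, ‖q p z A B x‖ₑ) + ∑ j ∈ range p, ∫⁻ x in An j, ‖q p z A B x‖ₑ := by
      rw [← lintegral_union hWm hdisj]
      refine (lintegral_mono_set hUW).trans (hcon.trans ((lintegral_mono_set hpre).trans ?_))
      refine (lintegral_union_le _ _ _).trans (add_le_add le_rfl ?_)
      exact lint_biUnion_le _ _ _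
    have hWfin : ∫⁻ x in W, ‖q p z A B x‖ₑ ≠ ⊤ := by
      have h2 : ∫⁻ x in W, ‖q p z A B x‖ₑ ≤ ∫⁻ _x in W, ENNReal.ofReal (M / ε ^ 2) := by
        apply setLIntegral_mono' hWm
        intro x hx
        rw [← ofReal_norm]
        apply ENNReal.ofReal_le_ofReal
        apply hqb ε hε hε1
        intro i hi
        by_contra hlt
        push Not at hlt
        rw [hW] at hx
        apply hx.2
        rw [hmemH]
        have := hρpos i hi.le
        exact ⟨i, hi, by nlinarith⟩
      refine ne_top_of_le_ne_top ?_ h2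
      rw [setLIntegral_const]
      apply ENNReal.mul_ne_top ENNReal.ofReal_ne_top
      refine ne_top_of_le_ne_top ?_ (measure_mono (show W ⊆ ball 0 (R - 1) from ?_))
      · exact measure_ball_lt_top.ne
      · rw [hW]; exact sdiff_subset
    have h2 : ∫⁻ x in U, ‖q p z A B x‖ₑ ≤ ∑ j ∈ range p, ∫⁻ x in An j, ‖q p z A B x‖ₑ := by
      rw [add_comm] at h1
      exact (ENNReal.add_le_add_iff_left hWfin).1 h1
    refine h2.trans ?_
    rw [hC, Finset.sum_mul, ENNReal.ofReal_sum_of_nonneg]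
    · apply Finset.sum_le_sum
      intro j hj
      have hj' := Finset.mem_range.1 hj
      have hρj := hρpos j hj'.le
      have hfrac : 0 ≤ 1 - K * ε := by linarith
      have hAnm : MeasurableSet (An j) := by
        rw [hAn]
        exact measurableSet_closedBall.diff measurableSet_closedBall
      have h3 : ∫⁻ x in An j, ‖q p z A B x‖ₑ ≤ ∫⁻ _x in An j, ENNReal.ofReal (M / ε ^ 2) := by
        apply setLIntegral_mono' hAnm
        intro x hx
        rw [← ofReal_norm]
        apply ENNReal.ofReal_le_ofReal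
        apply hqb ε hε hε1
        intro i hi
        rw [hAn] at hx
        obtain ⟨hx1, hx2⟩ := hx
        rw [mem_closedBall, dist_eq_norm] at hx1 hx2
        push Not at hx2
        by_cases hij : i = j
        · rw [hij]
          have h4 : ε * ρ j / 2 ≤ ε * ρ j * (1 - K * ε) := by
            have : 0 < ε * ρ j := by positivity
            nlinarith
          linarith
        · have h4 := hεsep j hj i (Finset.mem_range.2 hi) (Ne.symm hij)
          have h5 := norm_sub_norm_le (z j - z i) (z j - x)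
          rw [_root_.sub_sub_sub_cancel_left, norm_sub_rev (z j) x] at h5
          have h6 := hρpos i hi.le
          have h7 : 0 < ε * ρ i := by positivity
          have h8 : ε * (ρ j + ρ i) = ε * ρ j + ε * ρ i := by ring
          linarith
      refine h3.trans ?_
      rw [setLIntegral_const, hAn, vol_annulus _ (by positivity) (mul_le_of_le_one_right (by positivity)
          (by nlinarith [mul_pos hKpos hε])),
        ← ENNReal.ofReal_mul (by positivity)]
      apply ENNReal.ofReal_le_ofReal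
      have h4 : (ε * ρ j) ^ 2 - (ε * ρ j * (1 - K * ε)) ^ 2 ≤ 2 * K * ρ j ^ 2 * ε ^ 3 := by
        have h5 : 0 ≤ (ε * ρ j) ^ 2 * (K * ε) ^ 2 := by positivity
        nlinarith
      calc M / ε ^ 2 * (Real.pi * ((ε * ρ j) ^ 2 - (ε * ρ j * (1 - K * ε)) ^ 2))
          ≤ M / ε ^ 2 * (Real.pi * (2 * K * ρ j ^ 2 * ε ^ 3)) := by
            apply mul_le_mul_of_nonneg_left _ (by positivity)
            exact mul_le_mul_of_nonneg_left h4 Real.pi_pos.le
        _ = M * (Real.pi * (2 * K * ρ j ^ 2)) * ε := by field_simp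
    · intro j hj
      have := hρpos j (by have := Finset.mem_range.1 hj; omega)
      have := Real.pi_pos
      positivity
  -- the integral over the annulus vanishes
  have hint : ∫⁻ x in U, ‖q p z A B x‖ₑ = 0 := by
    have h1 : Tendsto (fun ε : ℝ => ENNReal.ofReal (C * ε)) (𝓝[>] 0) (𝓝 (ENNReal.ofReal (C * 0))) := by
      apply (ENNReal.continuous_ofReal.tendsto _).comp
      exact ((continuous_const.mul continuous_id).tendsto 0).mono_left nhdsWithin_le_nhds
    rw [mul_zero, ENNReal.ofReal_zero] at h1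
    exact le_antisymm (ge_of_tendsto h1 hmain) zero_le
  -- a point of the annulus
  obtain ⟨x₀, hx₀⟩ : ∃ x₀ : ℂ, x₀ = ((R - 1 / 2 : ℝ) : ℂ) := ⟨_, rfl⟩
  have hx₀n : ‖x₀‖ = R - 1 / 2 := by
    rw [hx₀, Complex.norm_real, Real.norm_of_nonneg (by rw [hR]; linarith)]
  have hx₀U : U ∈ 𝓝 x₀ := by
    have h1 : {x : ℂ | R - 1 < ‖x‖ ∧ ‖x‖ < R} ∈ 𝓝 x₀ := by
      apply IsOpen.mem_nhds
      · exact (isOpen_lt continuous_const continuous_norm).inter
          (isOpen_lt continuous_norm continuous_const)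
      · refine ⟨?_, ?_⟩ <;> rw [hx₀n] <;> linarith
    apply mem_of_superset h1
    intro x hx
    rw [hU]
    refine ⟨by rw [mem_ball_zero_iff]; exact hx.2, fun h => ?_⟩
    rw [mem_ball_zero_iff] at h
    linarith [hx.1]
  have hx₀z : ∀ j < p, x₀ ≠ z j := by
    intro j _ h
    have := hbd j
    rw [← h, hx₀n, hR] at this
    linarith
  have han : AnalyticAt ℂ (q p z A B) x₀ := by
    unfold q
    apply Finset.analyticAt_fun_sum
    intro j hj
    have hne := sub_ne_zero.2 (hx₀z j (Finset.mem_range.1 hj))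
    apply AnalyticAt.add
    · exact AnalyticAt.div (by fun_prop) (by fun_prop) (pow_ne_zero _ hne)
    · exact AnalyticAt.div (by fun_prop) (by fun_prop) hne
  have hev : ∀ᶠ w in 𝓝 x₀, q p z A B w = 0 := by
    rcases han.eventually_eq_zero_or_eventually_ne_zero with h | h
    · exact h
    · exfalso
      have h1 : ∀ᵐ x ∂(volume.restrict U), ‖q p z A B x‖ₑ = 0 :=
        (lintegral_eq_zero_iff (q_meas p z A B).enorm).1 hint
      rw [ae_restrict_iff' hUm] at h1
      have h2 : ∀ᶠ w in 𝓝 x₀, w ≠ x₀ → q p z A B w ≠ 0 := eventually_nhdsWithin_iff.1 h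
      obtain ⟨r, hr, hball⟩ := Metric.mem_nhds_iff.1 (Filter.inter_mem h2 hx₀U)
      have h3 : volume (ball x₀ r \ {x₀}) = 0 := by
        refine measure_mono_null ?_ h1
        intro w hw
        obtain ⟨hw1, hw2⟩ := hball hw.1
        intro h4
        exact hw1 hw.2 (enorm_eq_zero.1 (h4 hw2))
      have h4 : volume (ball x₀ r) = 0 := by
        have h5 : ball x₀ r ⊆ (ball x₀ r \ {x₀}) ∪ {x₀} := by
          intro w hw
          by_cases h : w = x₀
          · right; exact h
          · left; exact ⟨hw, h⟩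
        refine measure_mono_null h5 (measure_union_null h3 ?_)
        exact measure_singleton _
      exact (measure_ball_pos volume x₀ hr).ne' h4
  exact q_zero hinj hx₀z hev k hk

end Pool.Agent.Run7.h15.Tr
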