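import Pool.Agent.Run7.h15.Tr.SD
import Pool.Agent.R240.Chain

/-!
# The superattracting parameters near a parabolic parameter
-/

set_option autoImplicit false

namespace Pool.Agent.Run7.h15.Tr

open Complex Filter Topology Metric Set N62a1eb23
open Pool.Agent.H712R2 (P P_succ P_one P_zero fc continuous_P mem_multibrot_iff)
open Pool.Agent.R240 (SH SH_iter disc_step P_at_zero)
open Pool.Agent.Run7.h15.Par

variable {d : ℕ} {c₀ : ℂ}

/-- chains of discs without centres, up to the boundary -/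
theorem chain_ball {N : ℕ} (hd : 2 ≤ d) {A : ℝ} (hA : 1 ≤ A) {R : ℝ} (hR : 0 < R)
    (hno : ∀ c ∈ ball c₀ R, P d (N + 1) c ≠ 0) (h0 : ‖P d N c₀‖ ^ d ≤ A * ‖c₀‖) (k : ℕ) :
    ∀ c : ℂ, ‖c - c₀‖ ≤ (1 - (3 / 4) ^ k) * R → ‖P d N c‖ ^ d ≤ SH^[k] A * ‖c‖ := by
  induction k with
  | zero =>
    intro c hc
    rw [pow_zero, sub_self, zero_mul] at hc
    have : c = c₀ := by
      rw [← sub_eq_zero, ← norm_eq_zero]
      exact le_antisymm hc (norm_nonneg _)
    rw [this]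
    exact h0
  | succ k ih =>
    intro c hc
    obtain ⟨q, hq⟩ : ∃ q : ℝ, q = (3 / 4) ^ k := ⟨_, rfl⟩
    have hq0 : 0 < q := by rw [hq]; positivity
    have hq1 : q ≤ 1 := by rw [hq]; exact pow_le_one₀ (by norm_num) (by norm_num)
    rw [pow_succ, ← hq] at hc
    rw [← hq] at ih
    have hden : 0 < 1 - q * (3 / 4) := by linarith
    obtain ⟨t, ht⟩ : ∃ t : ℝ, t = (1 - q) / (1 - q * (3 / 4)) := ⟨_, rfl⟩
    have ht0 : 0 ≤ t := by rw [ht]; exact div_nonneg (by linarith) hden.le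
    have ht1 : t ≤ 1 := by
      rw [ht, div_le_one hden]
      linarith
    have htd : t * (1 - q * (3 / 4)) = 1 - q := by
      rw [ht]
      exact div_mul_cancel₀ _ hden.ne'
    obtain ⟨c', hc'⟩ : ∃ c' : ℂ, c' = c₀ + t * (c - c₀) := ⟨_, rfl⟩
    have h1 : ‖c' - c₀‖ ≤ (1 - q) * R := by
      rw [hc', add_sub_cancel_left, norm_mul, Complex.norm_real, Real.norm_of_nonneg ht0]
      calc t * ‖c - c₀‖ ≤ t * ((1 - q * (3 / 4)) * R) := mul_le_mul_of_nonneg_left hc ht0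
        _ = (1 - q) * R := by rw [← mul_assoc, htd]
    have h2 : ‖c - c'‖ ≤ q * R / 4 := by
      have e : c - c' = ((1 - t : ℝ) : ℂ) * (c - c₀) := by
        rw [hc']
        push_cast
        ring
      rw [e, norm_mul, Complex.norm_real, Real.norm_of_nonneg (by linarith)]
      calc (1 - t) * ‖c - c₀‖ ≤ (1 - t) * ((1 - q * (3 / 4)) * R) :=
            mul_le_mul_of_nonneg_left hc (by linarith)
        _ = q * R / 4 := by linear_combination (-R) * htd
    have hqR : 0 < q * R := by positivity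
    have h3 := disc_step (N := N) hd (γ := fun u => c' + ((q * R : ℝ) : ℂ) * u) (by fun_prop) (by
      intro u hu
      apply hno
      rw [mem_ball_zero_iff] at hu
      rw [mem_ball, dist_eq_norm]
      have e : c' + ((q * R : ℝ) : ℂ) * u - c₀ = (c' - c₀) + ((q * R : ℝ) : ℂ) * u := by ring
      rw [e]
      refine (norm_add_le _ _).trans_lt ?_
      rw [norm_mul, Complex.norm_real, Real.norm_of_nonneg hqR.le]
      nlinarith) (SH_iter hA k) (by
      simp only [mul_zero, add_zero]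
      exact ih c' h1) (t := (c - c') / ((q * R : ℝ) : ℂ)) (by
      rw [norm_div, Complex.norm_real, Real.norm_of_nonneg hqR.le, div_le_iff₀ hqR]
      linarith)
    have hqRC : ((q * R : ℝ) : ℂ) ≠ 0 := by exact_mod_cast hqR.ne'
    have e : c' + ((q * R : ℝ) : ℂ) * ((c - c') / ((q * R : ℝ) : ℂ)) = c := by
      field_simp
      ring
    simp only [e] at h3
    rw [Function.iterate_succ_apply']
    exact h3

/-- the law gives that the critical point is not periodic, and that its orbit is bounded -/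
theorem law_ne {e : ℕ} {L : ℝ} (hlaw : Law d e c₀ L) (he : 1 ≤ e) (hL : 0 < L) {j : ℕ} (hj : 1 ≤ j) :
    P d j c₀ ≠ 0 := by
  intro h
  obtain ⟨m₀, hm₀⟩ := hlaw.1 (1 / 2) (by norm_num) (by norm_num)
  have h1 : P d (j * m₀) c₀ = 0 := by
    have h2 : (fc d c₀)^[j] 0 = 0 := h
    unfold P
    rw [Function.iterate_mul]
    exact Function.iterate_fixed h2 m₀
  refine (hm₀ (j * m₀) (Nat.le_mul_of_pos_left m₀ (by omega)) c₀ ?_).1 h1
  rw [sub_self, norm_zero]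
  positivity

/-- **Existence of centres.** -/
theorem exists_centre (hd : 2 ≤ d) {e : ℕ} (he : 1 ≤ e) {L : ℝ} (hL : 0 < L) (hlaw : Law d e c₀ L)
    {ε : ℝ} (hε : 0 < ε) : ∃ n₀ : ℕ, ∀ n : ℕ, n₀ ≤ n → ∃ c : ℂ, P d n c = 0 ∧
      ‖c - c₀‖ ≤ ((1 + ε) * L / n) ^ e := by
  have he0 : e ≠ 0 := by omega
  have hc₀ : c₀ ≠ 0 := by
    have := law_ne hlaw he hL le_rfl
    rwa [P_one hd] at this
  have hc₀n : 0 < ‖c₀‖ := norm_pos_iff.2 hc₀
  -- the number of steps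
  obtain ⟨k, hk⟩ : ∃ k : ℕ, (1 + ε / 2) ^ e ≤ (1 - (3 / 4) ^ k) * (1 + ε) ^ e := by
    have h1 : Tendsto (fun k : ℕ => (1 - (3 / 4 : ℝ) ^ k) * (1 + ε) ^ e) atTop
        (𝓝 ((1 - 0) * (1 + ε) ^ e)) :=
      ((tendsto_pow_atTop_nhds_zero_of_lt_one (by norm_num) (by norm_num)).const_sub 1).mul_const _
    rw [sub_zero, one_mul] at h1
    have h2 : (1 + ε / 2) ^ e < (1 + ε) ^ e := pow_lt_pow_left₀ (by linarith) (by positivity) he0
    obtain ⟨k, hk⟩ := (h1.eventually (lt_mem_nhds h2)).exists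
    exact ⟨k, hk.le⟩
  obtain ⟨A, hA⟩ : ∃ A : ℝ, A = max 1 (3 ^ d / ‖c₀‖) := ⟨_, rfl⟩
  have hA1 : 1 ≤ A := by rw [hA]; exact le_max_left _ _
  have hAc : 3 ^ d ≤ A * ‖c₀‖ := by
    have : 3 ^ d / ‖c₀‖ ≤ A := by rw [hA]; exact le_max_right _ _
    rwa [div_le_iff₀ hc₀n] at this
  have hS := SH_iter hA1 k
  obtain ⟨M, hM⟩ : ∃ M : ℝ, M = SH^[k] A * (‖c₀‖ + 1) + 1 := ⟨_, rfl⟩
  have hM1 : 1 ≤ M := by
    rw [hM]
    have : 0 ≤ SH^[k] A * (‖c₀‖ + 1) := by positivity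
    linarith
  obtain ⟨m₀, hm₀⟩ := hlaw.2 (ε / 4) (by positivity) M hM1
  obtain ⟨m₁, hm₁⟩ := hlaw.1 (1 / 2) (by norm_num) (by norm_num)
  obtain ⟨m₂, hm₂⟩ := exists_nat_gt (max ((1 + ε) * L) ((1 + ε / 2) / (ε / 4)))
  refine ⟨m₀ + m₁ + m₂ + 2, ?_⟩
  intro n hn
  by_contra hcon
  push Not at hcon
  obtain ⟨N, hN⟩ : ∃ N, n = N + 1 := ⟨n - 1, by omega⟩
  have hnm : (m₂ : ℝ) ≤ N := by exact_mod_cast (by omega : m₂ ≤ N)
  have hN0 : (0 : ℝ) < N := by exact_mod_cast (by omega : 0 < N)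
  have hn0 : (0 : ℝ) < n := by exact_mod_cast (by omega : 0 < n)
  have hnN : (n : ℝ) = N + 1 := by rw [hN]; push_cast; ring
  obtain ⟨R, hR⟩ : ∃ R : ℝ, R = ((1 + ε) * L / n) ^ e := ⟨_, rfl⟩
  have hR0 : 0 < R := by rw [hR]; positivity
  have hR1 : R ≤ 1 := by
    rw [hR]
    apply pow_le_one₀ (by positivity)
    rw [div_le_one hn0]
    have := (le_max_left ((1 + ε) * L) ((1 + ε / 2) / (ε / 4))).trans_lt hm₂
    linarith
  have h0 := (hm₁ N (by omega) c₀ (by rw [sub_self, norm_zero]; positivity)).2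
  have h1 := chain_ball (N := N) hd hA1 hR0 (by
      intro c hc h2
      rw [mem_ball, dist_eq_norm] at hc
      rw [← hN] at h2
      have := hcon c h2
      rw [← hR] at this
      linarith) ((pow_le_pow_left₀ (norm_nonneg _) h0 d).trans hAc) k
  obtain ⟨c, hc1, hc2⟩ := hm₀ N (by omega)
  have hcR : ‖c - c₀‖ ≤ (1 - (3 / 4) ^ k) * R := by
    refine hc1.trans ?_
    have e1 : (1 + ε / 4) * L / N ≤ (1 + ε / 2) * L / n := by
      rw [div_le_div_iff₀ hN0 hn0, hnN]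
      have e2 := (le_max_right ((1 + ε) * L) ((1 + ε / 2) / (ε / 4))).trans_lt hm₂
      rw [div_lt_iff₀ (by positivity)] at e2
      have e3 : (1 + ε / 4) * (N + 1) ≤ (1 + ε / 2) * N := by nlinarith
      calc (1 + ε / 4) * L * (N + 1) = L * ((1 + ε / 4) * (N + 1)) := by ring
        _ ≤ L * ((1 + ε / 2) * N) := by gcongr
        _ = _ := by ring
    calc ((1 + ε / 4) * L / N) ^ e ≤ ((1 + ε / 2) * L / n) ^ e :=
          pow_le_pow_left₀ (by positivity) e1 e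
      _ = (1 + ε / 2) ^ e * (L / n) ^ e := by rw [mul_div_assoc, mul_pow]
      _ ≤ (1 - (3 / 4) ^ k) * (1 + ε) ^ e * (L / n) ^ e := by gcongr
      _ = (1 - (3 / 4) ^ k) * R := by rw [hR, mul_div_assoc, mul_pow]; ring
  have h2 := h1 c hcR
  have hc3 : ‖c‖ ≤ ‖c₀‖ + 1 := by
    have h3 := norm_add_le (c - c₀) c₀
    rw [sub_add_cancel] at h3
    have h4 : (1 - (3 / 4 : ℝ) ^ k) * R ≤ 1 * R := by
      apply mul_le_mul_of_nonneg_right _ hR0.le
      have : (0 : ℝ) < (3 / 4) ^ k := by positivity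
      linarith
    linarith
  have h3 : SH^[k] A * ‖c‖ ≤ SH^[k] A * (‖c₀‖ + 1) := by gcongr
  have h4 : ‖P d N c‖ ≤ ‖P d N c‖ ^ d := by
    have h5 : 1 ≤ ‖P d N c‖ := by linarith
    calc ‖P d N c‖ = ‖P d N c‖ ^ 1 := (pow_one _).symm
      _ ≤ _ := pow_le_pow_right₀ h5 (by omega)
  linarith

/-- **The centres near a parabolic parameter.** -/
theorem centres_law (hd : 2 ≤ d) {e : ℕ} (he : 1 ≤ e) {L : ℝ} (hL : 0 < L) (hlaw : Law d e c₀ L)
    {ε : ℝ} (hε : 0 < ε) (hε1 : ε < 1) : ∃ n₀ : ℕ, 1 ≤ n₀ ∧ ∀ n : ℕ, n₀ ≤ n →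
      (∀ c : ℂ, P d n c = 0 → ((1 - ε) * L / n) ^ e ≤ ‖c - c₀‖) ∧
      ∃ c : ℂ, (P d n c = 0 ∧ ∀ j : ℕ, 1 ≤ j → j < n → P d j c ≠ 0) ∧
        ‖c - c₀‖ ≤ ((1 + ε) * L / n) ^ e := by
  obtain ⟨m₁, hm₁⟩ := hlaw.1 (1 - ε) (by linarith) (by linarith)
  obtain ⟨m₂, hm₂⟩ := hlaw.1 (3 / 4) (by norm_num) (by norm_num)
  obtain ⟨ε', hε'⟩ : ∃ ε' : ℝ, ε' = min ε (1 / 4) := ⟨_, rfl⟩
  have hε'0 : 0 < ε' := by rw [hε']; exact lt_min hε (by norm_num)
  have hε'1 : ε' ≤ ε := by rw [hε']; exact min_le_left _ _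
  have hε'2 : ε' ≤ 1 / 4 := by rw [hε']; exact min_le_right _ _
  obtain ⟨m₃, hm₃⟩ := exists_centre hd he hL hlaw hε'0
  -- small times
  have hev : ∀ᶠ c in 𝓝 c₀, ∀ j ∈ Finset.Icc 1 m₂, P d j c ≠ 0 := by
    rw [Filter.eventually_all_finset]
    intro j hj
    exact (continuous_P d j).continuousAt.eventually_ne
      (law_ne hlaw he hL (Finset.mem_Icc.1 hj).1)
  obtain ⟨ρ, hρ, hball⟩ := Metric.eventually_nhds_iff.1 hev
  have hsmall : ∀ᶠ n : ℕ in atTop, ((1 + ε') * L / n) ^ e < ρ := by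
    have h1 : Tendsto (fun n : ℕ => ((1 + ε') * L / n) ^ e) atTop (𝓝 (0 ^ e)) :=
      (tendsto_const_nhds.div_atTop tendsto_natCast_atTop_atTop).pow e
    rw [zero_pow (by omega)] at h1
    exact h1.eventually (gt_mem_nhds hρ)
  obtain ⟨m₄, hm₄⟩ := eventually_atTop.1 hsmall
  refine ⟨m₁ + m₃ + m₄ + 1, by omega, ?_⟩
  intro n hn
  have hn0 : (0 : ℝ) < n := by exact_mod_cast (by omega : 0 < n)
  refine ⟨?_, ?_⟩
  · intro c hc
    by_contra hcon
    push Not at hcon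
    exact (hm₁ n (by omega) c hcon.le).1 hc
  · obtain ⟨c, hc1, hc2⟩ := hm₃ n (by omega)
    refine ⟨c, ⟨hc1, ?_⟩, ?_⟩
    · intro j hj1 hjn hj
      -- the minimal period
      have hp1 : Function.IsPeriodicPt (fc d c) n 0 := hc1
      have hp2 : Function.IsPeriodicPt (fc d c) j 0 := hj
      obtain ⟨g, hg⟩ : ∃ g, g = Function.minimalPeriod (fc d c) 0 := ⟨_, rfl⟩
      have hg1 : g ∣ n := by rw [hg]; exact hp1.minimalPeriod_dvd
      have hg2 : g ∣ j := by rw [hg]; exact hp2.minimalPeriod_dvd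
      have hg3 : 0 < g := by rw [hg]; exact hp2.minimalPeriod_pos (by omega)
      have hg4 : g ≤ j := Nat.le_of_dvd (by omega) hg2
      have hg5 : P d g c = 0 := by
        rw [hg]
        exact Function.iterate_minimalPeriod (f := fc d c) (x := 0)
      have hg6 : 2 * g ≤ n := by
        obtain ⟨t, ht⟩ := hg1
        rcases t with _ | _ | t
        · omega
        · omega
        · rw [ht]
          nlinarith
      have hgR : 2 * (g : ℝ) ≤ n := by exact_mod_cast hg6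
      have hg0 : (0 : ℝ) < g := by exact_mod_cast hg3
      rcases le_or_gt g m₂ with h | h
      · exact hball (y := c) (by rw [dist_eq_norm]; exact hc2.trans_lt (hm₄ n (by omega))) g
          (Finset.mem_Icc.2 ⟨hg3, h⟩) hg5
      · apply (hm₂ g h.le c _).1 hg5
        refine hc2.trans (pow_le_pow_left₀ (by positivity) ?_ e)
        rw [div_le_div_iff₀ hn0 hg0]
        calc (1 + ε') * L * g ≤ (5 / 4) * L * g := by
              gcongr
              linarith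
          _ ≤ 3 / 4 * L * (2 * g) := by nlinarith [mul_pos hL hg0]
          _ ≤ 3 / 4 * L * n := by gcongr
    · refine hc2.trans (pow_le_pow_left₀ (by positivity) ?_ e)
      gcongr

/-- the superattracting parameters of exact period `n` -/
def Centres (d n : ℕ) : Set ℂ := {c | P d n c = 0 ∧ ∀ j : ℕ, 1 ≤ j → j < n → P d j c ≠ 0}

theorem root_near {L ε : ℝ} (hL : 0 < L) (hε : 0 < ε) (e : ℕ) : ∃ η : ℝ, 0 < η ∧ η < 1 ∧
    L ^ e - ε < ((1 - η) * L) ^ e ∧ ((1 + η) * L) ^ e < L ^ e + ε := by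
  have h1 : Tendsto (fun η : ℝ => ((1 - η) * L) ^ e) (𝓝[>] 0) (𝓝 (L ^ e)) := by
    have : Continuous fun η : ℝ => ((1 - η) * L) ^ e := by fun_prop
    have h2 := this.tendsto 0
    simp only [sub_zero, one_mul] at h2
    exact h2.mono_left nhdsWithin_le_nhds
  have h2 : Tendsto (fun η : ℝ => ((1 + η) * L) ^ e) (𝓝[>] 0) (𝓝 (L ^ e)) := by
    have : Continuous fun η : ℝ => ((1 + η) * L) ^ e := by fun_prop
    have h2 := this.tendsto 0
    simp only [add_zero, one_mul] at h2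
    exact h2.mono_left nhdsWithin_le_nhds
  have h3 : ∀ᶠ η : ℝ in 𝓝[>] 0, 0 < η ∧ η < 1 := Ioo_mem_nhdsGT one_pos
  obtain ⟨η, ⟨h4, h5⟩, h6, h7⟩ := (h3.and ((h1.eventually (lt_mem_nhds (show L ^ e - ε < L ^ e by
    linarith))).and (h2.eventually (gt_mem_nhds (show L ^ e < L ^ e + ε by linarith))))).exists
  exact ⟨η, h4, h5, h6, h7⟩

/-- **The distance to the nearest superattracting parameter of exact period `n`.** -/
theorem dist_law (hd : 2 ≤ d) {e : ℕ} (he : 1 ≤ e) {L : ℝ} (hL : 0 < L) (hlaw : Law d e c₀ L) :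
    Tendsto (fun n : ℕ => (n : ℝ) ^ e * infDist c₀ (Centres d n)) atTop (𝓝 (L ^ e)) := by
  rw [Metric.tendsto_atTop]
  intro ε hε
  obtain ⟨η, hη0, hη1, hη2, hη3⟩ := root_near hL hε e
  obtain ⟨n₀, hn₀, H⟩ := centres_law hd he hL hlaw hη0 hη1
  refine ⟨n₀, ?_⟩
  intro n hn
  obtain ⟨h1, c, h2, h3⟩ := H n hn
  have hn0 : (0 : ℝ) < n := by exact_mod_cast (by omega : 0 < n)
  have hne : (Centres d n).Nonempty := ⟨c, h2⟩
  have hup : infDist c₀ (Centres d n) ≤ ((1 + η) * L / n) ^ e := by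
    refine (infDist_le_dist_of_mem (show c ∈ Centres d n from h2)).trans ?_
    rw [dist_comm, dist_eq_norm]
    exact h3
  have hlo : ((1 - η) * L / n) ^ e ≤ infDist c₀ (Centres d n) := by
    rw [Metric.le_infDist hne]
    intro y hy
    rw [dist_comm, dist_eq_norm]
    exact h1 y hy.1
  have hne' : (0 : ℝ) < (n : ℝ) ^ e := by positivity
  have e1 : ∀ t : ℝ, (n : ℝ) ^ e * (t * L / n) ^ e = (t * L) ^ e := by
    intro t
    rw [← mul_pow]
    congr 1
    field_simp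
  have h4 := mul_le_mul_of_nonneg_left hup hne'.le
  have h5 := mul_le_mul_of_nonneg_left hlo hne'.le
  rw [e1] at h4 h5
  rw [Real.dist_eq, abs_lt]
  constructor <;> linarith

end Pool.Agent.Run7.h15.Tr
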