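import Pool.Agent.Run7.h15.Tr.GD
import Pool.Agent.Run7.h15.Tr.SE
import Pool.Agent.R240.LL4

/-!
# The number of superattracting parameters near a parabolic parameter
-/

set_option autoImplicit false

namespace Pool.Agent.Run7.h15.Tr

open Complex Metric Set Filter Topology MeasureTheory Pool.Agent.H712R2 Pool.Agent.H713R2
open N62a1eb23
open Pool.Agent.Y736.HD Pool.Agent.Y736.HG
open Pool.Agent.R240.LL (ZZ mem_ZZ card_ZZ nz nz_mono KL KL_pos)

variable {d : ℕ} {c₀ : ℂ}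

theorem ev_lin {b₁ b : ℝ} (h : b₁ < b) (C : ℝ) :
    ∀ᶠ n : ℕ in atTop, C * Real.exp (b₁ * n) ≤ Real.exp (b * n) := by
  have h1 : Tendsto (fun n : ℕ => Real.exp ((b - b₁) * n)) atTop atTop :=
    Real.tendsto_exp_atTop.comp
      (tendsto_natCast_atTop_atTop.const_mul_atTop (by linarith))
  filter_upwards [h1.eventually_ge_atTop C] with n hn
  have h2 : Real.exp (b * n) = Real.exp ((b - b₁) * n) * Real.exp (b₁ * n) := by
    rw [← Real.exp_add]
    congr 1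
    ring
  rw [h2]
  exact mul_le_mul_of_nonneg_right hn (Real.exp_pos _).le

theorem ev_sq {b : ℝ} (h : 0 < b) (C : ℝ) :
    ∀ᶠ n : ℕ in atTop, C * (n : ℝ) ^ 2 ≤ Real.exp (b * n) := by
  obtain ⟨C', hC'⟩ : ∃ C' : ℝ, C' = |C| * (4 / b ^ 2) := ⟨_, rfl⟩
  have h1 := ev_lin (b₁ := b / 2) (b := b) (by linarith) (2 * C')
  filter_upwards [h1] with n hn
  have hn0 : (0 : ℝ) ≤ n := n.cast_nonneg
  have h2 : (b / 2 * n) ^ 2 / 2 ≤ Real.exp (b / 2 * n) := by
    have := Real.quadratic_le_exp_of_nonneg (show 0 ≤ b / 2 * (n : ℝ) by positivity)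
    have h3 : 0 ≤ b / 2 * (n : ℝ) := by positivity
    linarith
  calc C * (n : ℝ) ^ 2 ≤ |C| * (n : ℝ) ^ 2 := mul_le_mul_of_nonneg_right (le_abs_self C) (by positivity)
    _ = 2 * C' * ((b / 2 * n) ^ 2 / 2) := by
      rw [hC']
      field_simp
      ring
    _ ≤ 2 * C' * Real.exp (b / 2 * n) := by
      apply mul_le_mul_of_nonneg_left h2
      rw [hC']
      positivity
    _ ≤ _ := hn

theorem growth_lim {a : ℕ → ℝ} {b : ℝ} (hb : 0 < b)
    (up : ∀ κ : ℝ, 0 < κ → ∀ᶠ n : ℕ in atTop, a n ≤ Real.exp ((b + κ) * n))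
    (lo : ∀ κ : ℝ, 0 < κ → κ < b → ∀ᶠ n : ℕ in atTop, Real.exp ((b - κ) * n) ≤ a n) :
    Tendsto (fun n : ℕ => Real.log (a n) / n) atTop (𝓝 b) := by
  rw [Metric.tendsto_nhds]
  intro ε hε
  obtain ⟨κ, hκ⟩ : ∃ κ : ℝ, κ = min (ε / 2) (b / 2) := ⟨_, rfl⟩
  have hκ0 : 0 < κ := by rw [hκ]; exact lt_min (by linarith) (by linarith)
  have hκε : κ ≤ ε / 2 := by rw [hκ]; exact min_le_left _ _
  have hκb : κ ≤ b / 2 := by rw [hκ]; exact min_le_right _ _
  filter_upwards [up κ hκ0, lo κ hκ0 (by linarith), eventually_gt_atTop 0] with n h1 h2 hn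
  have hn0 : (0 : ℝ) < n := by exact_mod_cast hn
  have ha : 0 < a n := (Real.exp_pos _).trans_le h2
  have h3 : Real.log (a n) ≤ (b + κ) * n := by
    have := Real.log_le_log ha h1
    rwa [Real.log_exp] at this
  have h4 : (b - κ) * n ≤ Real.log (a n) := by
    have := Real.log_le_log (Real.exp_pos _) h2
    rwa [Real.log_exp] at this
  have h5 : Real.log (a n) / n ≤ b + κ := by rwa [div_le_iff₀ hn0]
  have h6 : b - κ ≤ Real.log (a n) / n := by rwa [le_div_iff₀ hn0]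
  rw [Real.dist_eq, abs_lt]
  constructor <;> linarith

theorem vol_mono (ψ : ℂ → ℂ) (c₀ : ℂ) {r r' : ℝ} (h : r ≤ r') :
    (volume (Ang ψ c₀ r)).toReal ≤ (volume (Ang ψ c₀ r')).toReal := by
  apply ENNReal.toReal_mono (vol_Ang_ne ψ c₀ r')
  apply measure_mono
  rintro θ ⟨h5, ζ, h6, h7⟩
  exact ⟨h5, ζ, ball_subset_ball h h6, h7⟩

theorem tendsto_scale {K : ℝ} (hK : 0 < K) :
    Tendsto (fun n : ℕ => K / (n : ℝ)) atTop (𝓝[>] 0) := by
  rw [tendsto_nhdsWithin_iff]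
  refine ⟨tendsto_const_nhds.div_atTop tendsto_natCast_atTop_atTop, ?_⟩
  filter_upwards [eventually_gt_atTop 0] with n hn
  have : (0 : ℝ) < n := by exact_mod_cast hn
  exact div_pos hK this

/-- upper bound for the number of zeros of `P d m` in the discs of radius `(K / n) ^ e`, `m ≤ n` -/
theorem nz_up (hd : 2 ≤ d) {e : ℕ} (he : 1 ≤ e) {L : ℝ} (hL : 0 < L) (hlaw : Law d e c₀ L)
    (hc₀ : c₀ ∈ multibrotSet d) {K θ δ : ℝ} (hK : 0 < K) (hθ0 : 0 < θ) (hθ1 : θ < 1) (hδ0 : 0 < δ)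
    (hδ1 : δ ≤ 1) : ∀ᶠ n : ℕ in atTop, ∀ N : ℕ, N + 1 ≤ n →
      (nz d N c₀ ((K / n) ^ e) : ℝ) ≤ (d : ℝ) ^ N * Real.exp (-(θ * (L * Real.log d) / (K * (1 + δ))) * n) +
        KL * n * Real.log d / δ := by
  obtain ⟨ψ, hψ⟩ : ∃ ψ, IsExteriorMap (multibrotSet d) ψ := by
    obtain ⟨β, hβ⟩ := Pool.Agent.H713R2.exists_beta (d := d) hd
    exact ⟨_, Pool.Agent.H713R2.exteriorMap_of_beta hβ⟩
  have hlogd : 0 < Real.log d := Real.log_pos (by exact_mod_cast (by omega : 1 < d))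
  have hpi := Real.pi_gt_three
  have h1 := (tendsto_scale (show 0 < K * (1 + δ) by positivity)).eventually
    (vol_upper hd he hL hlaw hc₀ hθ0 hθ1)
  filter_upwards [h1, eventually_gt_atTop 0] with n h2 hn N hN
  have hn0 : (0 : ℝ) < n := by exact_mod_cast hn
  have h3 := (Pool.Agent.R240.LL.law hd hψ hc₀ N (show 0 < (K / (n : ℝ)) ^ e by positivity) hδ0
    hδ1).1
  have h4 : (1 + δ) * (K / (n : ℝ)) ^ e ≤ (K * (1 + δ) / n) ^ e := by
    have e1 : (K * (1 + δ) / (n : ℝ)) ^ e = (1 + δ) ^ e * (K / n) ^ e := by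
      rw [← mul_pow]
      congr 1
      ring
    rw [e1]
    apply mul_le_mul_of_nonneg_right _ (by positivity)
    calc 1 + δ = (1 + δ) ^ 1 := (pow_one _).symm
      _ ≤ _ := pow_le_pow_right₀ (by linarith) he
  have h5 := (vol_mono ψ c₀ h4).trans (h2 ψ hψ)
  have hD : (0 : ℝ) < (d : ℝ) ^ N := by
    have : (0 : ℝ) < d := by exact_mod_cast (by omega : 0 < d)
    positivity
  have h6 : -(θ * (L * Real.log d) / (K * (1 + δ) / n)) =
      -(θ * (L * Real.log d) / (K * (1 + δ))) * n := by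
    field_simp
  rw [h6] at h5
  have hKL := KL_pos
  have h7 : KL * (N + 1 : ℕ) * Real.log d / δ ≤ KL * n * Real.log d / δ := by
    have : ((N + 1 : ℕ) : ℝ) ≤ n := by exact_mod_cast hN
    gcongr
  refine h3.trans (add_le_add (mul_le_mul_of_nonneg_left ?_ hD.le) h7)
  rw [div_le_iff₀ (by positivity)]
  have h8 : 0 ≤ Real.exp (-(θ * (L * Real.log d) / (K * (1 + δ))) * n) := (Real.exp_pos _).le
  nlinarith

/-- lower bound for the number of zeros of `P d n` in the disc of radius `(K / n) ^ e` -/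
theorem nz_low (hd : 2 ≤ d) {e : ℕ} (he : 1 ≤ e) {L : ℝ} (hL : 0 < L) (hlaw : Law d e c₀ L)
    (hc₀ : c₀ ∈ multibrotSet d) {K ε δ : ℝ} (hK : 0 < K) (hε : 0 < ε) (hδ0 : 0 < δ)
    (hδ1 : δ ≤ 1) : ∀ᶠ n : ℕ in atTop, ∀ N : ℕ, N + 1 = n →
      (d : ℝ) ^ N * (Real.exp (-((1 + ε) * (L * Real.log d) / (K / (1 + δ))) * n) / (2 * Real.pi)) -
        KL * n * Real.log d / δ ≤ nz d N c₀ ((K / n) ^ e) := by
  obtain ⟨ψ, hψ⟩ : ∃ ψ, IsExteriorMap (multibrotSet d) ψ := by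
    obtain ⟨β, hβ⟩ := Pool.Agent.H713R2.exists_beta (d := d) hd
    exact ⟨_, Pool.Agent.H713R2.exteriorMap_of_beta hβ⟩
  have hpi := Real.pi_gt_three
  have h1 := (tendsto_scale (show 0 < K / (1 + δ) by positivity)).eventually
    (vol_lower hd he hL hlaw hc₀ hε)
  filter_upwards [h1, eventually_gt_atTop 0] with n h2 hn N hN
  have hn0 : (0 : ℝ) < n := by exact_mod_cast hn
  have h3 := (Pool.Agent.R240.LL.law hd hψ hc₀ N
    (show 0 < (K / (1 + δ) / (n : ℝ)) ^ e by positivity) hδ0 hδ1).2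
  have h4 : (1 + δ) * (K / (1 + δ) / (n : ℝ)) ^ e ≤ (K / n) ^ e := by
    have e1 : (K / (n : ℝ)) ^ e = (1 + δ) ^ e * (K / (1 + δ) / n) ^ e := by
      rw [← mul_pow]
      congr 1
      field_simp
    rw [e1]
    apply mul_le_mul_of_nonneg_right _ (by positivity)
    calc 1 + δ = (1 + δ) ^ 1 := (pow_one _).symm
      _ ≤ _ := pow_le_pow_right₀ (by linarith) he
  have h5 : (nz d N c₀ ((1 + δ) * (K / (1 + δ) / (n : ℝ)) ^ e) : ℝ) ≤ nz d N c₀ ((K / n) ^ e) := by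
    exact_mod_cast nz_mono N c₀ h4
  have hD : (0 : ℝ) < (d : ℝ) ^ N := by
    have : (0 : ℝ) < d := by exact_mod_cast (by omega : 0 < d)
    positivity
  have h6 : -((1 + ε) * (L * Real.log d) / (K / (1 + δ) / n)) =
      -((1 + ε) * (L * Real.log d) / (K / (1 + δ))) * n := by
    field_simp
  have h7 := h2 _ hψ
  rw [h6] at h7
  have h8 : (d : ℝ) ^ N * (Real.exp (-((1 + ε) * (L * Real.log d) / (K / (1 + δ))) * n) /
      (2 * Real.pi)) ≤ d ^ N * ((volume (Ang ψ c₀ ((K / (1 + δ) / (n : ℝ)) ^ e))).toReal /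
        (2 * Real.pi)) := by
    apply mul_le_mul_of_nonneg_left _ hD.le
    exact div_le_div_of_nonneg_right h7 (by positivity)
  rw [hN] at h3
  linarith

/-- the superattracting parameters of exact period `n` in a disc -/
def CenB (d n : ℕ) (c₀ : ℂ) (r : ℝ) : Set ℂ := {c | c ∈ Centres d n ∧ ‖c - c₀‖ ≤ r}

theorem CenB_sub (hd : 2 ≤ d) (N : ℕ) {r r' : ℝ} (h : r < r') :
    CenB d (N + 1) c₀ r ⊆ (((ZZ d N).filter (fun a => ‖a - c₀‖ < r') : Finset ℂ) : Set ℂ) := by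
  rintro c ⟨⟨h1, -⟩, h2⟩
  rw [Finset.mem_coe, Finset.mem_filter, mem_ZZ hd]
  exact ⟨h1, h2.trans_lt h⟩

theorem CenB_fin (hd : 2 ≤ d) (N : ℕ) (r : ℝ) : (CenB d (N + 1) c₀ r).Finite :=
  (Finset.finite_toSet _).subset (CenB_sub hd N (lt_add_one r))

theorem CenB_le (hd : 2 ≤ d) (N : ℕ) {r r' : ℝ} (h : r < r') :
    (CenB d (N + 1) c₀ r).ncard ≤ nz d N c₀ r' := by
  have h1 := Set.ncard_le_ncard (CenB_sub (c₀ := c₀) hd N h) (Finset.finite_toSet _)
  rwa [Set.ncard_coe_finset] at h1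

theorem le_CenB (hd : 2 ≤ d) (N : ℕ) (r : ℝ) :
    nz d N c₀ r ≤ (CenB d (N + 1) c₀ r).ncard + ∑ k ∈ Finset.range ((N + 1) / 2), nz d k c₀ r := by
  classical
  have h1 : ((ZZ d N).filter (fun a => ‖a - c₀‖ < r)) ⊆ (CenB_fin (c₀ := c₀) hd N r).toFinset ∪
      ((Finset.range ((N + 1) / 2)).biUnion fun k => (ZZ d k).filter (fun a => ‖a - c₀‖ < r)) := by
    intro a ha
    rw [Finset.mem_filter, mem_ZZ hd] at ha
    obtain ⟨ha, har⟩ := ha
    rw [Finset.mem_union, Set.Finite.mem_toFinset]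
    by_cases h : ∀ j : ℕ, 1 ≤ j → j < N + 1 → P d j a ≠ 0
    · exact Or.inl ⟨⟨ha, h⟩, har.le⟩
    · right
      push Not at h
      obtain ⟨j, hj1, hj2, hj⟩ := h
      have hp1 : Function.IsPeriodicPt (fc d a) (N + 1) 0 := ha
      have hp2 : Function.IsPeriodicPt (fc d a) j 0 := hj
      obtain ⟨g, hg⟩ : ∃ g, g = Function.minimalPeriod (fc d a) 0 := ⟨_, rfl⟩
      have hg1 : g ∣ N + 1 := by rw [hg]; exact hp1.minimalPeriod_dvd
      have hg2 : g ∣ j := by rw [hg]; exact hp2.minimalPeriod_dvd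
      have hg3 : 0 < g := by rw [hg]; exact hp2.minimalPeriod_pos (by omega)
      have hg4 : g ≤ j := Nat.le_of_dvd (by omega) hg2
      have hg5 : P d g a = 0 := by
        rw [hg]
        exact Function.iterate_minimalPeriod (f := fc d a) (x := 0)
      have hg6 : 2 * g ≤ N + 1 := by
        obtain ⟨t, ht⟩ := hg1
        rcases t with _ | _ | t
        · omega
        · omega
        · rw [ht]
          nlinarith
      rw [Finset.mem_biUnion]
      refine ⟨g - 1, Finset.mem_range.2 (by omega), ?_⟩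
      rw [Finset.mem_filter, mem_ZZ hd]
      refine ⟨?_, har⟩
      rw [show g - 1 + 1 = g by omega]
      exact hg5
  have h2 := (Finset.card_le_card h1).trans (Finset.card_union_le _ _)
  have h3 : ((Finset.range ((N + 1) / 2)).biUnion fun k =>
      (ZZ d k).filter (fun a => ‖a - c₀‖ < r)).card ≤ ∑ k ∈ Finset.range ((N + 1) / 2), nz d k c₀ r :=
    Finset.card_biUnion_le
  have h4 : (CenB_fin (c₀ := c₀) hd N r).toFinset.card = (CenB d (N + 1) c₀ r).ncard :=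
    (Set.ncard_eq_toFinset_card _ _).symm
  unfold nz at h3 ⊢
  omega

end Pool.Agent.Run7.h15.Tr
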