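import Pool.Agent.Run7.h15.Tr.C
import Pool.Agent.Run7.h15.Par.Loc

/-!
# Nondegeneracy of indifferent cycles of unicritical polynomials
-/

set_option autoImplicit false

namespace Pool.Agent.Run7.h15.Tr

open Complex Metric Set Filter Topology Finset
open Pool.Agent.H712R2 (fc)
open Pool.Agent.Y736.RN (diff_it_y)

variable {d : ℕ} {c z₀ : ℂ}

/-- the derivative of an iterate -/
theorem deriv_iter (d : ℕ) (c z : ℂ) (n : ℕ) :
    deriv ((fc d c)^[n]) z = ∏ j ∈ range n, (d * ((fc d c)^[j] z) ^ (d - 1)) := by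
  induction n with
  | zero =>
    rw [Function.iterate_zero, Finset.range_zero, Finset.prod_empty]
    simp
  | succ n ih =>
    have h1 : HasDerivAt (fc d c) (d * ((fc d c)^[n] z) ^ (d - 1)) ((fc d c)^[n] z) := by
      unfold fc
      exact (hasDerivAt_pow d _).add_const c
    rw [Finset.prod_range_succ, Function.iterate_succ',
      (h1.comp z ((diff_it_y d n c) z).hasDerivAt).deriv, ih, mul_comm]

/-- the logarithmic derivative of a multiplier -/
theorem prod_deriv {zf : ℕ → ℂ → ℂ} {E : ℕ → ℂ} {t₀ : ℂ} (h : ∀ j, HasDerivAt (zf j) (E j) t₀)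
    {n : ℕ} (hne : ∀ j < n, zf j t₀ ≠ 0) :
    HasDerivAt (fun t => ∏ j ∈ range n, ((d : ℂ) * zf j t ^ (d - 1)))
      ((∏ j ∈ range n, ((d : ℂ) * zf j t₀ ^ (d - 1))) *
        ∑ j ∈ range n, ((d - 1 : ℕ) : ℂ) * E j / zf j t₀) t₀ := by
  induction n with
  | zero => simpa using hasDerivAt_const t₀ (1 : ℂ)
  | succ n ih =>
    have h1 := ih (fun j hj => hne j (by omega))
    have h2 : HasDerivAt (fun t => (d : ℂ) * zf n t ^ (d - 1))
        (d * (((d - 1 : ℕ) : ℂ) * zf n t₀ ^ (d - 1 - 1) * E n)) t₀ :=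
      ((h n).fun_pow (d - 1)).const_mul (d : ℂ)
    have h3 := h1.fun_mul h2
    have hz := hne n (by omega)
    have hval : (∏ j ∈ range n, ((d : ℂ) * zf j t₀ ^ (d - 1))) *
        (∑ j ∈ range n, ((d - 1 : ℕ) : ℂ) * E j / zf j t₀) * (d * zf n t₀ ^ (d - 1)) +
        (∏ j ∈ range n, ((d : ℂ) * zf j t₀ ^ (d - 1))) *
          (d * (((d - 1 : ℕ) : ℂ) * zf n t₀ ^ (d - 1 - 1) * E n)) =
        (∏ j ∈ range (n + 1), ((d : ℂ) * zf j t₀ ^ (d - 1))) *
          ∑ j ∈ range (n + 1), ((d - 1 : ℕ) : ℂ) * E j / zf j t₀ := by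
      rw [Finset.prod_range_succ, Finset.sum_range_succ]
      rcases Nat.eq_zero_or_pos (d - 1) with h4 | h4
      · rw [h4]
        simp
      · obtain ⟨e, he⟩ : ∃ e, d - 1 = e + 1 := ⟨d - 2, by omega⟩
        rw [he, Nat.add_sub_cancel]
        have : ((e + 1 : ℕ) : ℂ) * E n / zf n t₀ * zf n t₀ ^ (e + 1) =
            ((e + 1 : ℕ) : ℂ) * zf n t₀ ^ e * E n := by
          field_simp
          ring
        linear_combination (-(∏ j ∈ range n, ((d : ℂ) * zf j t₀ ^ (e + 1))) * d) * this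
    rw [hval] at h3
    simp only [Finset.prod_range_succ] at h3 ⊢
    exact h3

theorem orbit_inj (z₀ c : ℂ) {p : ℕ} (hp : Function.minimalPeriod (fc d c) z₀ = p) :
    ∀ i < p, ∀ j < p, (fc d c)^[i] z₀ = (fc d c)^[j] z₀ → i = j := by
  intro i hi j hj h
  apply Function.iterate_injOn_Iio_minimalPeriod (f := fc d c) (x := z₀) _ _ h
  · rw [hp]; exact hi
  · rw [hp]; exact hj

/-- **Parabolic cycles with multiplier one are nondegenerate.** -/
theorem nondeg_primitive (hd : 2 ≤ d) {p : ℕ} (hp : 1 ≤ p)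
    (hmin : Function.minimalPeriod (fc d c) z₀ = p) (hder : deriv ((fc d c)^[p]) z₀ = 1) :
    ∑ j ∈ range p, (deriv ((fc d c)^[j + 1]) z₀)⁻¹ ≠ 0 ∧
    ∑ j ∈ range p, ((d - 1 : ℕ) : ℂ) * deriv ((fc d c)^[j]) z₀ / (fc d c)^[j] z₀ ≠ 0 := by
  have hfix : (fc d c)^[p] z₀ = z₀ := by
    rw [← hmin]
    exact Function.iterate_minimalPeriod
  obtain ⟨z, hz⟩ : ∃ z : ℕ → ℂ, z = fun j => (fc d c)^[j] z₀ := ⟨_, rfl⟩
  obtain ⟨D, hD⟩ : ∃ D : ℕ → ℂ, D = fun j => deriv ((fc d c)^[j]) z₀ := ⟨_, rfl⟩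
  have hzs : ∀ j, z (j + 1) = z j ^ d + c := by
    intro j
    rw [hz]
    simp only
    rw [Function.iterate_succ_apply']
    rfl
  have hzp : z p = z 0 := by rw [hz]; exact hfix
  have hDs : ∀ j, D (j + 1) = D j * (d * z j ^ (d - 1)) := by
    intro j
    rw [hD, hz]
    simp only
    rw [deriv_iter, deriv_iter, Finset.prod_range_succ]
  have hD0 : D 0 = 1 := by
    rw [hD]
    simp
  have hDp : D p = 1 := by rw [hD]; exact hder
  have hprod : ∏ j ∈ range p, ((d : ℂ) * z j ^ (d - 1)) = 1 := by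
    rw [hz, ← deriv_iter]
    exact hder
  have hmult : ∏ j ∈ range p, ‖(d : ℂ) * z j ^ (d - 1)‖ = 1 := by
    rw [← norm_prod, hprod, norm_one]
  have hfac : ∀ j < p, (d : ℂ) * z j ^ (d - 1) ≠ 0 := by
    intro j hj
    exact Finset.prod_ne_zero_iff.1 (by rw [hprod]; exact one_ne_zero) j (Finset.mem_range.2 hj)
  have hzne : ∀ j < p, z j ≠ 0 := by
    intro j hj h0
    apply hfac j hj
    rw [h0, zero_pow (by omega), mul_zero]
  have hDne : ∀ j ≤ p, D j ≠ 0 := by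
    intro j hj
    rw [hD]
    simp only
    rw [deriv_iter, Finset.prod_ne_zero_iff]
    intro i hi
    have := hfac i (by have := Finset.mem_range.1 hi; omega)
    rw [hz] at this
    exact this
  have hinj : ∀ i < p, ∀ j < p, z i = z j → i = j := by
    rw [hz]
    exact orbit_inj z₀ c hmin
  have hdc : (d : ℂ) ≠ 0 := by exact_mod_cast (by omega : d ≠ 0)
  have hd1 : ((d - 1 : ℕ) : ℂ) = d - 1 := by
    rw [Nat.cast_sub (by omega), Nat.cast_one]
  have hzpow : ∀ j, z j ^ d = z j ^ (d - 1) * z j := by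
    intro j
    rw [← pow_succ, Nat.sub_add_cancel (by omega)]
  have h1 : ∑ j ∈ range p, (D (j + 1))⁻¹ ≠ 0 := by
    intro h0
    have h2 := nofix hd hp hzs hzp hinj hmult (A := 0) (B := fun j => (D j)⁻¹) (by
      intro j hj
      have e1 := hDne j hj.le
      have e2 := hDne (j + 1) (by omega)
      have e3 := hfac j hj
      rw [hDs] at e2
      rw [hDs, zero_mul, add_zero, hzpow]
      have e4 := hzne j hj
      field_simp) (by rw [hDp, hD0]) h0 0 (by omega)
    have h3 := h2.2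
    rw [hD0, inv_one] at h3
    exact one_ne_zero h3
  refine ⟨by rw [hD] at h1; exact h1, ?_⟩
  intro hS
  obtain ⟨sg, hsg⟩ : ∃ sg : ℕ → ℂ, sg = fun j =>
    ∑ i ∈ range j, ((d - 1 : ℕ) : ℂ) * D i / z i := ⟨_, rfl⟩
  have hsgp : sg p = 0 := by
    rw [hsg, hD, hz]
    exact hS
  have hsg0 : sg 0 = 0 := by rw [hsg]; simp
  have hsgs : ∀ j, sg (j + 1) = sg j + ((d - 1 : ℕ) : ℂ) * D j / z j := by
    intro j
    rw [hsg]
    exact Finset.sum_range_succ _ _
  obtain ⟨β, hβ⟩ : ∃ β, β = ∑ j ∈ range p, (D (j + 1))⁻¹ := ⟨_, rfl⟩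
  rw [← hβ] at h1
  obtain ⟨y, hy⟩ : ∃ y, y = (∑ j ∈ range p, sg (j + 1) / D (j + 1)) / β := ⟨_, rfl⟩
  have h2 := nofix hd hp hzs hzp hinj hmult (A := 1) (B := fun j => (y - sg j) / D j) (by
      intro j hj
      have e1 := hDne j hj.le
      have e3 := hfac j hj
      have e4 := hzne j hj
      have e5 : z j ^ (d - 1) ≠ 0 := pow_ne_zero _ e4
      rw [hDs, hsgs, hzpow, hd1]
      field_simp
      ring) (by rw [hDp, hD0, hsgp, hsg0]) (by
      simp only [sub_div]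
      rw [Finset.sum_sub_distrib]
      have e1 : ∑ j ∈ range p, y / D (j + 1) = y * β := by
        rw [hβ, Finset.mul_sum]
        apply Finset.sum_congr rfl
        intro j _
        rw [div_eq_mul_inv]
      rw [e1, hy, div_mul_cancel₀ _ h1, sub_self]) 0 (by omega)
  exact one_ne_zero h2.1

/-- **The multiplier of an indifferent cycle moves with the parameter.** -/
theorem nondeg_satellite (hd : 2 ≤ d) {p : ℕ} (hp : 1 ≤ p)
    (hmin : Function.minimalPeriod (fc d c) z₀ = p) (hnorm : ‖deriv ((fc d c)^[p]) z₀‖ = 1)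
    (hne1 : deriv ((fc d c)^[p]) z₀ ≠ 1) {E : ℕ → ℂ}
    (hE : ∀ j, E (j + 1) = d * ((fc d c)^[j] z₀) ^ (d - 1) * E j + 1) (hEp : E p = E 0) :
    ∑ j ∈ range p, ((d - 1 : ℕ) : ℂ) * E j / (fc d c)^[j] z₀ ≠ 0 := by
  have hfix : (fc d c)^[p] z₀ = z₀ := by
    rw [← hmin]
    exact Function.iterate_minimalPeriod
  obtain ⟨z, hz⟩ : ∃ z : ℕ → ℂ, z = fun j => (fc d c)^[j] z₀ := ⟨_, rfl⟩
  obtain ⟨D, hD⟩ : ∃ D : ℕ → ℂ, D = fun j => deriv ((fc d c)^[j]) z₀ := ⟨_, rfl⟩
  have hzs : ∀ j, z (j + 1) = z j ^ d + c := by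
    intro j
    rw [hz]
    simp only
    rw [Function.iterate_succ_apply']
    rfl
  have hzp : z p = z 0 := by rw [hz]; exact hfix
  have hDs : ∀ j, D (j + 1) = D j * (d * z j ^ (d - 1)) := by
    intro j
    rw [hD, hz]
    simp only
    rw [deriv_iter, deriv_iter, Finset.prod_range_succ]
  have hD0 : D 0 = 1 := by
    rw [hD]
    simp
  obtain ⟨lam, hlam⟩ : ∃ lam, lam = deriv ((fc d c)^[p]) z₀ := ⟨_, rfl⟩
  rw [← hlam] at hnorm hne1
  have hDp : D p = lam := by rw [hD, hlam]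
  have hlam0 : lam ≠ 0 := by
    rw [← norm_pos_iff, hnorm]
    exact one_pos
  have hprod : ∏ j ∈ range p, ((d : ℂ) * z j ^ (d - 1)) = lam := by
    rw [hz, ← deriv_iter, hlam]
  have hmult : ∏ j ∈ range p, ‖(d : ℂ) * z j ^ (d - 1)‖ = 1 := by
    rw [← norm_prod, hprod, hnorm]
  have hfac : ∀ j < p, (d : ℂ) * z j ^ (d - 1) ≠ 0 := by
    intro j hj
    exact Finset.prod_ne_zero_iff.1 (by rw [hprod]; exact hlam0) j (Finset.mem_range.2 hj)
  have hzne : ∀ j < p, z j ≠ 0 := by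
    intro j hj h0
    apply hfac j hj
    rw [h0, zero_pow (by omega), mul_zero]
  have hDne : ∀ j ≤ p, D j ≠ 0 := by
    intro j hj
    rw [hD]
    simp only
    rw [deriv_iter, Finset.prod_ne_zero_iff]
    intro i hi
    have := hfac i (by have := Finset.mem_range.1 hi; omega)
    rw [hz] at this
    exact this
  have hinj : ∀ i < p, ∀ j < p, z i = z j → i = j := by
    rw [hz]
    exact orbit_inj z₀ c hmin
  have hdc : (d : ℂ) ≠ 0 := by exact_mod_cast (by omega : d ≠ 0)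
  have hd1 : ((d - 1 : ℕ) : ℂ) = d - 1 := by
    rw [Nat.cast_sub (by omega), Nat.cast_one]
  have hzpow : ∀ j, z j ^ d = z j ^ (d - 1) * z j := by
    intro j
    rw [← pow_succ, Nat.sub_add_cancel (by omega)]
  intro hS
  obtain ⟨sg, hsg⟩ : ∃ sg : ℕ → ℂ, sg = fun j =>
    ∑ i ∈ range j, ((d - 1 : ℕ) : ℂ) * D i / z i := ⟨_, rfl⟩
  have hsg0 : sg 0 = 0 := by rw [hsg]; simp
  have hsgs : ∀ j, sg (j + 1) = sg j + ((d - 1 : ℕ) : ℂ) * D j / z j := by
    intro j
    rw [hsg]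
    exact Finset.sum_range_succ _ _
  obtain ⟨y, hy⟩ : ∃ y, y = sg p / (1 - lam) := ⟨_, rfl⟩
  have h1lam : 1 - lam ≠ 0 := sub_ne_zero.2 (Ne.symm hne1)
  obtain ⟨B, hB⟩ : ∃ B : ℕ → ℂ, B = fun j => (y - sg j) / D j := ⟨_, rfl⟩
  have hBrel : ∀ j < p, B j * z j = d * z j ^ d * B (j + 1) + 1 * (d - 1) := by
    intro j hj
    have e1 := hDne j hj.le
    have e3 := hfac j hj
    have e4 := hzne j hj
    have e5 : z j ^ (d - 1) ≠ 0 := pow_ne_zero _ e4
    rw [hB]
    simp only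
    rw [hDs, hsgs, hzpow, hd1]
    field_simp
    ring
  have hBp : B p = B 0 := by
    rw [hB]
    simp only
    rw [hDp, hD0, hsg0, hy]
    field_simp
    ring
  have htel : ∑ j ∈ range p, (B (j + 1) * E (j + 1) - B j * E j) = 0 := by
    rw [Finset.sum_range_sub (fun j => B j * E j), hBp, hEp, sub_self]
  have hstep : ∀ j ∈ range p, B (j + 1) * E (j + 1) - B j * E j =
      B (j + 1) - ((d - 1 : ℕ) : ℂ) * E j / z j := by
    intro j hj
    have hj' := Finset.mem_range.1 hj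
    have e4 := hzne j hj'
    have e6 := hBrel j hj'
    have e7 := hE j
    have e8 : (fc d c)^[j] z₀ = z j := by rw [hz]
    rw [e8] at e7
    rw [hzpow, one_mul] at e6
    have e9 : B j = d * z j ^ (d - 1) * B (j + 1) + (d - 1) / z j := by
      field_simp
      linear_combination e6
    rw [e7, hd1]
    have : B j * E j = (d * z j ^ (d - 1) * B (j + 1) + (d - 1) / z j) * E j := by rw [← e9]
    rw [this]
    ring
  rw [Finset.sum_congr rfl hstep, Finset.sum_sub_distrib] at htel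
  have hsumB : ∑ j ∈ range p, B (j + 1) = 0 := by
    have e1 : ∑ j ∈ range p, ((d - 1 : ℕ) : ℂ) * E j / z j = 0 := by
      rw [hz]
      exact hS
    rw [e1, sub_zero] at htel
    exact htel
  exact one_ne_zero (nofix hd hp hzs hzp hinj hmult hBrel hBp hsumB 0 (by omega)).1

end Pool.Agent.Run7.h15.Tr
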