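import Pool.Agent.Run7.h15.Tr.D
import Pool.Agent.Run7.h15.Tr.LBc
import Pool.Agent.Run7.h15.Par.Cyc

/-!
# The local form of the family near a satellite parameter
-/

set_option autoImplicit false

namespace Pool.Agent.Run7.h15.Tr

open Complex Filter Topology Metric Set
open Pool.Agent.H712R2 (P P_succ P_one P_zero fc continuous_P mem_multibrot_iff)
open Pool.Agent.Y736.RN (contDiff_it cont_it diff_it_y)
open Pool.Agent.Run7.h15.Par

variable {d N : ℕ} {c₀ z₀ : ℂ}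

/-- second order Taylor estimate -/
theorem second_order {f : ℂ → ℂ} {ρ M : ℝ} (hρ : 0 < ρ) (hf : DifferentiableOn ℂ f (ball 0 ρ))
    (h0 : f 0 = 0) (hM : ∀ u ∈ ball (0 : ℂ) ρ, ‖f u‖ ≤ M) {u : ℂ} (hu : ‖u‖ < ρ) :
    ‖f u - deriv f 0 * u‖ ≤ 2 * M / ρ ^ 2 * ‖u‖ ^ 2 := by
  have hd : ‖deriv f 0‖ ≤ M / ρ := by
    apply Complex.norm_deriv_le_div_of_mapsTo_ball hf _ hρ
    intro v hv
    rw [mem_closedBall, h0, dist_zero_right]
    exact hM v hv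
  have hda : DifferentiableAt ℂ f 0 := hf.differentiableAt (ball_mem_nhds 0 hρ)
  obtain ⟨g, hg⟩ : ∃ g : ℂ → ℂ, g = fun v => f v - deriv f 0 * v := ⟨_, rfl⟩
  have hg0 : g 0 = 0 := by rw [hg]; simp [h0]
  have hgd : DifferentiableOn ℂ g (ball 0 ρ) := by
    rw [hg]
    exact hf.sub (by fun_prop)
  have hmaps : MapsTo g (ball 0 ρ) (closedBall (g 0) (2 * M)) := by
    intro v hv
    rw [mem_closedBall, hg0, dist_zero_right, hg]
    refine (norm_sub_le _ _).trans ?_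
    rw [norm_mul]
    have h1 := hM v hv
    rw [mem_ball_zero_iff] at hv
    have h2 : ‖deriv f 0‖ * ‖v‖ ≤ M / ρ * ρ :=
      mul_le_mul hd hv.le (norm_nonneg _) ((norm_nonneg _).trans hd)
    rw [div_mul_cancel₀ _ hρ.ne'] at h2
    linarith
  have ho : (fun v => g v - g 0) =o[𝓝 0] fun v => ‖v - 0‖ ^ 1 := by
    have h1 := hda.hasDerivAt.isLittleO
    have h2 : (fun v => f v - f 0 - (v - 0) • deriv f 0) = fun v => g v - g 0 := by
      funext v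
      rw [hg0, hg, h0]
      simp only [smul_eq_mul]
      ring
    rw [h2] at h1
    simp only [pow_one]
    exact h1.norm_right
  have h1 := Complex.dist_le_mul_div_pow_of_mapsTo_ball_of_isLittleO (n := 1) hgd hmaps ho
    (show u ∈ ball (0 : ℂ) ρ by rwa [mem_ball_zero_iff])
  rw [hg0, dist_zero_right, dist_zero_right, hg] at h1
  refine h1.trans (le_of_eq ?_)
  rw [div_pow]
  ring

/-- the implicit function at a simple zero, differentiable in a neighbourhood -/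
theorem implicit2 {H : ℂ → ℂ → ℂ} (hF : ContDiff ℂ ⊤ (fun q : ℂ × ℂ => H q.1 q.2))
    {c₀ y₀ : ℂ} (h0 : H c₀ y₀ = 0) (hd : deriv (H c₀) y₀ ≠ 0) :
    ∃ g : ℂ → ℂ, g c₀ = y₀ ∧ (∀ᶠ c in 𝓝 c₀, DifferentiableAt ℂ g c) ∧
      ∀ᶠ c in 𝓝 c₀, H c (g c) = 0 := by
  set F : ℂ × ℂ → ℂ := fun q => H q.1 q.2 with hFdef
  have hs : HasStrictFDerivAt F (fderiv ℂ F (c₀, y₀)) (c₀, y₀) :=
    hF.contDiffAt.hasStrictFDerivAt (by simp)
  have hderiv : ∀ c y : ℂ, deriv (H c) y = fderiv ℂ F (c, y) (0, 1) := by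
    intro c y
    have hsc : HasFDerivAt F (fderiv ℂ F (c, y)) (c, y) :=
      (hF.differentiable (by simp) (c, y)).hasFDerivAt
    have h1 : HasFDerivAt (fun y : ℂ => ((c, y) : ℂ × ℂ)) (ContinuousLinearMap.inr ℂ ℂ ℂ) y :=
      hasFDerivAt_prodMk_right c y
    have h3 := (hsc.comp y h1).hasDerivAt
    rw [show deriv (H c) y = _ from h3.deriv]
    simp
  have hinv : (fderiv ℂ F (c₀, y₀) ∘L ContinuousLinearMap.inr ℂ ℂ ℂ).IsInvertible := by
    refine ⟨ContinuousLinearEquiv.unitsEquivAut ℂ (Units.mk0 _ hd), ?_⟩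
    ext
    have hL : (fderiv ℂ F (c₀, y₀) ∘L ContinuousLinearMap.inr ℂ ℂ ℂ) 1 = deriv (H c₀) y₀ := by
      rw [hderiv c₀ y₀]
      simp
    rw [hL]
    simp
  have hdg := (hs.hasStrictFDerivAt_implicitFunctionOfProdDomain hinv).hasFDerivAt.differentiableAt
  have h1 := hs.eventually_apply_eq_iff_implicitFunctionOfProdDomain hinv
  have h2 : F (c₀, y₀) = 0 := h0
  rw [h2] at h1
  have h3 : hs.implicitFunctionOfProdDomain hinv c₀ = y₀ := h1.self_of_nhds.1 h0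
  obtain ⟨g, hg⟩ : ∃ g, g = hs.implicitFunctionOfProdDomain hinv := ⟨_, rfl⟩
  rw [← hg] at h1 h3 hdg
  have hcont : Continuous fun q : ℂ × ℂ => fderiv ℂ F q (0, 1) :=
    ((hF.continuous_fderiv (by simp)).clm_apply continuous_const)
  have hne : ∀ᶠ q in 𝓝 (c₀, y₀), fderiv ℂ F q (0, 1) ≠ 0 := by
    apply hcont.continuousAt.eventually_ne
    rw [← hderiv]
    exact hd
  -- near `c₀`
  have hcg : Tendsto (fun c => ((c, g c) : ℂ × ℂ)) (𝓝 c₀) (𝓝 (c₀, y₀)) := by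
    have h5 := hdg.continuousAt.tendsto
    rw [h3] at h5
    exact tendsto_id.prodMk_nhds h5
  have hloc : ∀ᶠ c in 𝓝 c₀, H c (g c) = 0 ∧ (∀ᶠ q in 𝓝 (c, g c), F q = 0 ↔ g q.1 = q.2) ∧
      fderiv ℂ F (c, g c) (0, 1) ≠ 0 := by
    filter_upwards [hcg.eventually (h1.eventually_nhds), hcg.eventually hne] with c hc1 hc2
    exact ⟨hc1.self_of_nhds.2 rfl, hc1, hc2⟩
  refine ⟨g, h3, ?_, hloc.mono fun c hc => hc.1⟩
  filter_upwards [hloc] with c hc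
  obtain ⟨hc1, hc2, hc3⟩ := hc
  rw [← hderiv] at hc3
  obtain ⟨g₁, k1, k2, k3⟩ := implicit (H := H) hF hc1 hc3
  have h6 : Tendsto (fun c' => ((c', g₁ c') : ℂ × ℂ)) (𝓝 c) (𝓝 (c, g c)) := by
    have h5 := k1.continuousAt.tendsto
    rw [k2] at h5
    exact tendsto_id.prodMk_nhds h5
  have h7 : g =ᶠ[𝓝 c] g₁ := by
    filter_upwards [h6.eventually hc2, k3] with c' h8 h9
    exact h8.1 h9
  exact k1.congr_of_eventuallyEq h7

/-- the family near a parabolic parameter, in a local coordinate `s` with `c = c₀ + s ^ e` -/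
def Chart (d N : ℕ) (c₀ z₀ : ℂ) (e : ℕ) (X : ℝ) : Prop :=
  ∃ (ν : ℕ) (a α : ℂ) (C r : ℝ) (b : ℂ → ℂ), 1 ≤ ν ∧ a ≠ 0 ∧ α ≠ 0 ∧ 0 ≤ C ∧ 0 < r ∧
    X = 2 * Real.pi / (ν * ‖α‖) ∧ DifferentiableOn ℂ b (ball 0 r) ∧ b 0 = z₀ ∧
    Fam ν a α C r (fun s u => (fc d (c₀ + s ^ e))^[N] (b s + u) - b s)

end Pool.Agent.Run7.h15.Tr
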