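import Pool.Agent.Run7.h15.Tr.PA

/-!
# The number of petals at a parabolic periodic point of `z ^ d + c`
-/

set_option autoImplicit false

namespace Pool.Agent.Run7.h15.Tr

open Complex Filter Topology Metric Set
open Pool.Agent.H712R2 (P P_succ P_one P_zero fc continuous_P mem_multibrot_iff)
open Pool.Agent.Y736.RN (contDiff_it cont_it diff_it_y)
open Pool.Agent.Run7.h15.Par

variable {d : ℕ} {c z₀ : ℂ}

theorem P_iter_add (d j n : ℕ) (c : ℂ) : P d (n + j) c = (fc d c)^[n] (P d j c) := by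
  unfold P
  rw [← Function.iterate_add_apply]

/-- there are at most `q` petals -/
theorem petals_le (hd : 2 ≤ d) {p q : ℕ} (hp : 1 ≤ p) (hq : 1 ≤ q)
    (hmin : Function.minimalPeriod (fc d c) z₀ = p) {ν : ℕ} {a : ℂ → ℂ} (hν : 1 ≤ ν)
    (ha : AnalyticAt ℂ a 0) (ha0 : a 0 ≠ 0) (hev : ∀ᶠ u in 𝓝 (0 : ℂ),
      (fc d c)^[p * q] (z₀ + u) = z₀ + u + u ^ (ν + 1) * a u) : ν ≤ q := by
  have hN : 1 ≤ p * q := Nat.mul_pos (by omega) (by omega)
  obtain ⟨R, hR1, hA, hB⟩ := leau_dir hd hN hν ha ha0 hev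
  have hν0 : ν ≠ 0 := by omega
  obtain ⟨ζ, hζ⟩ : ∃ ζ : ℂ, IsPrimitiveRoot ζ ν := ⟨_, Complex.isPrimitiveRoot_exp ν hν0⟩
  have hνC : (ν : ℂ) ≠ 0 := by exact_mod_cast hν0
  obtain ⟨w, hw⟩ := IsAlgClosed.exists_pow_nat_eq (-((ν : ℂ) * a 0)⁻¹) (show 0 < ν by omega)
  have hw0 : w ≠ 0 := by
    intro h
    rw [h, zero_pow hν0] at hw
    exact (neg_ne_zero.2 (inv_ne_zero (mul_ne_zero hνC ha0))) hw.symm
  have hlab : ∀ k : ℕ, ∃ j, 1 ≤ j ∧ ∃ u, u ≠ 0 ∧ R ≤ (V ν (a 0) u).re ∧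
      lab ν (a 0) u = w * ζ ^ k ∧ z₀ + u = P d j c := by
    intro k
    apply hB
    rw [mul_pow, hw, ← pow_mul, mul_comm k ν, pow_mul, hζ.pow_eq_one, one_pow, mul_one]
  choose J hJ1 U hU0 hUR hUlab hUP using hlab
  -- the limit
  have hlim : ∀ k, Tendsto (fun n => P d (p * q * n + J k) c) atTop (𝓝 z₀) := by
    intro k
    have h1 := (hA (U k) (hU0 k) (hUR k)).1
    refine h1.congr fun n => ?_
    rw [P_iter_add, hUP]
  have hlab2 : ∀ k n, lab ν (a 0) (P d (p * q * n + J k) c - z₀) = w * ζ ^ k := by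
    intro k n
    rw [P_iter_add, ← hUP, (hA (U k) (hU0 k) (hUR k)).2 n, hUlab]
  -- congruences
  have hdvd : ∀ k k' : ℕ, J k ≤ J k' → p ∣ J k' - J k := by
    intro k k' h
    have h1 : Tendsto (fun n => (fc d c)^[J k' - J k] (P d (p * q * n + J k) c)) atTop
        (𝓝 ((fc d c)^[J k' - J k] z₀)) :=
      ((diff_it_y d (J k' - J k) c).continuous.tendsto z₀).comp (hlim k)
    have h2 : Tendsto (fun n => (fc d c)^[J k' - J k] (P d (p * q * n + J k) c)) atTop (𝓝 z₀) := by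
      refine (hlim k').congr fun n => ?_
      rw [← P_iter_add]
      congr 1
      omega
    have h3 := tendsto_nhds_unique h1 h2
    rw [← hmin]
    exact Function.IsPeriodicPt.minimalPeriod_dvd h3
  have hmodp : ∀ k k' : ℕ, J k % p = J k' % p := by
    intro k k'
    rcases le_total (J k) (J k') with h | h
    · exact (Nat.modEq_iff_dvd' h).2 (hdvd k k' h)
    · exact ((Nat.modEq_iff_dvd' h).2 (hdvd k' k h)).symm
  have hsame : ∀ k k' : ℕ, J k ≤ J k' → J k % (p * q) = J k' % (p * q) →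
      w * ζ ^ k = w * ζ ^ k' := by
    intro k k' h h'
    obtain ⟨n, hn⟩ := (Nat.modEq_iff_dvd' h).1 h'
    rw [← hlab2 k n, ← hlab2 k' 0]
    congr 3
    omega
  have hsame' : ∀ k k' : ℕ, J k % (p * q) = J k' % (p * q) → w * ζ ^ k = w * ζ ^ k' := by
    intro k k' h'
    rcases le_total (J k) (J k') with h | h
    · exact hsame k k' h h'
    · exact (hsame k' k h h'.symm).symm
  have hinj : Function.Injective (fun k : Fin ν =>
      (⟨(J k % (p * q)) / p, by
        rw [Nat.div_lt_iff_lt_mul (by omega), mul_comm q p]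
        exact Nat.mod_lt _ (by omega)⟩ : Fin q)) := by
    intro k k' h
    have h1 : (J k % (p * q)) / p = (J k' % (p * q)) / p := by simpa using congrArg Fin.val h
    have h2 : (J k % (p * q)) % p = (J k' % (p * q)) % p := by
      rw [Nat.mod_mod_of_dvd _ (dvd_mul_right p q), Nat.mod_mod_of_dvd _ (dvd_mul_right p q)]
      exact hmodp k k'
    have h3 : J k % (p * q) = J k' % (p * q) := by
      rw [← Nat.div_add_mod (J k % (p * q)) p, ← Nat.div_add_mod (J k' % (p * q)) p, h1, h2]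
    have h4 := mul_left_cancel₀ hw0 (hsame' k k' h3)
    exact Fin.ext (hζ.pow_inj k.2 k'.2 h4)
  have := Fintype.card_le_of_injective _ hinj
  simpa using this

/-- the multiplier is a `ν`-th root of unity -/
theorem mult_pow {p q : ℕ} (hfix : (fc d c)^[p] z₀ = z₀) (h0 : deriv ((fc d c)^[p]) z₀ ≠ 0)
    {ν : ℕ} {a : ℂ → ℂ}
    (ha : AnalyticAt ℂ a 0) (ha0 : a 0 ≠ 0) (hev : ∀ᶠ u in 𝓝 (0 : ℂ),
      (fc d c)^[p * q] (z₀ + u) = z₀ + u + u ^ (ν + 1) * a u) :
    deriv ((fc d c)^[p]) z₀ ^ ν = 1 := by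
  obtain ⟨lam, hlam⟩ : ∃ lam, lam = deriv ((fc d c)^[p]) z₀ := ⟨_, rfl⟩
  rw [← hlam] at h0 ⊢
  obtain ⟨g, hg⟩ : ∃ g : ℂ → ℂ, g = fun u => (fc d c)^[p] (z₀ + u) - z₀ := ⟨_, rfl⟩
  obtain ⟨F, hF⟩ : ∃ F : ℂ → ℂ, F = fun u => (fc d c)^[p * q] (z₀ + u) - z₀ := ⟨_, rfl⟩
  have hg0 : g 0 = 0 := by rw [hg]; simp [hfix]
  have hgd : Differentiable ℂ g := by
    rw [hg]
    exact ((diff_it_y d p c).comp (differentiable_id.const_add z₀)).sub_const z₀
  have hgder : HasDerivAt g lam 0 := by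
    have h1 : HasDerivAt ((fc d c)^[p]) lam (z₀ + 0) := by
      rw [add_zero, hlam]
      exact ((diff_it_y d p c) z₀).hasDerivAt
    rw [hg]
    exact (h1.comp_const_add z₀ 0).sub_const z₀
  have hgs : HasStrictDerivAt g lam 0 := by
    have h1 := (hgd.analyticAt 0).hasStrictDerivAt
    rwa [hgder.deriv] at h1
  have hFev : ∀ᶠ u in 𝓝 (0 : ℂ), F u - u = u ^ (ν + 1) * a u := by
    filter_upwards [hev] with u hu
    rw [hF]
    simp only
    rw [hu]
    ring
  have hgt : Tendsto g (𝓝 0) (𝓝 0) := by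
    have := hgs.hasDerivAt.continuousAt.tendsto
    rwa [hg0] at this
  have hcomm : ∀ᶠ u in 𝓝 (0 : ℂ), g (F u) - g u = g u ^ (ν + 1) * a (g u) := by
    filter_upwards [hgt.eventually hFev] with u hu
    rw [← hu]
    congr 1
    rw [hg, hF]
    simp only
    rw [add_sub_cancel, add_sub_cancel, ← Function.iterate_add_apply, ← Function.iterate_add_apply,
      add_comm]
  have hFt : Tendsto F (𝓝 0) (𝓝 0) := by
    have h1 : ContinuousAt F 0 := by
      rw [hF]
      exact (((diff_it_y d (p * q) c).continuous.comp (continuous_const.add continuous_id)).sub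
        continuous_const).continuousAt
    have h2 : F 0 = 0 := by
      have := hFev.self_of_nhds
      simpa using this
    have := h1.tendsto
    rwa [h2] at this
  have hat : Tendsto a (𝓝 0) (𝓝 (a 0)) := ha.continuousAt
  -- the first quotient
  have h1 : (fun u => g (F u) - g u - (F u - u) * lam) =o[𝓝 0] fun u : ℂ => u ^ (ν + 1) := by
    have k1 := hgs.isLittleO
    have k2 : Tendsto (fun u : ℂ => (F u, u)) (𝓝 0) (𝓝 ((0 : ℂ), (0 : ℂ))) :=
      hFt.prodMk_nhds tendsto_id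
    have k3 := k1.comp_tendsto k2
    have k4 : (fun u : ℂ => F u - u) =O[𝓝 0] fun u : ℂ => u ^ (ν + 1) := by
      have k5 : (fun u : ℂ => u ^ (ν + 1) * a u) =O[𝓝 0] fun u : ℂ => u ^ (ν + 1) * 1 :=
        (Asymptotics.isBigO_refl _ _).mul (hat.isBigO_one ℂ)
      simp only [mul_one] at k5
      exact k5.congr' (hFev.mono fun u hu => hu.symm) (Eventually.of_forall fun u => rfl)
    refine Asymptotics.IsLittleO.trans_isBigO ?_ k4
    refine k3.congr (fun u => ?_) (fun u => rfl)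
    simp [smul_eq_mul]
  have h2 : Tendsto (fun u : ℂ => (g (F u) - g u) / u ^ (ν + 1)) (𝓝[≠] 0) (𝓝 (lam * a 0)) := by
    have k1 := (h1.tendsto_div_nhds_zero).mono_left (nhdsWithin_le_nhds (s := {(0 : ℂ)}ᶜ))
    have k2 : Tendsto (fun u : ℂ => a u * lam) (𝓝[≠] 0) (𝓝 (a 0 * lam)) :=
      (hat.mul_const lam).mono_left nhdsWithin_le_nhds
    have k3 := k1.add k2
    rw [zero_add, mul_comm (a 0)] at k3
    refine k3.congr' ?_
    filter_upwards [self_mem_nhdsWithin, nhdsWithin_le_nhds hFev] with u hu0 hu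
    have hu0' : u ≠ 0 := hu0
    have := pow_ne_zero (ν + 1) hu0'
    rw [hu]
    field_simp
    ring
  have h3 : Tendsto (fun u : ℂ => (g (F u) - g u) / u ^ (ν + 1)) (𝓝[≠] 0)
      (𝓝 (lam ^ (ν + 1) * a 0)) := by
    have k1 := hasDerivAt_iff_tendsto_slope_zero.1 hgs.hasDerivAt
    have k2 : Tendsto (fun u : ℂ => a (g u)) (𝓝[≠] 0) (𝓝 (a 0)) :=
      (hat.comp hgt).mono_left nhdsWithin_le_nhds
    have k3 := (k1.pow (ν + 1)).mul k2
    refine k3.congr' ?_
    filter_upwards [self_mem_nhdsWithin, nhdsWithin_le_nhds hcomm] with u hu0 hu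
    have hu0' : u ≠ 0 := hu0
    rw [hu, zero_add, hg0, sub_zero, smul_eq_mul, mul_pow, inv_pow]
    field_simp
  have h4 := tendsto_nhds_unique h2 h3
  have h5 := mul_right_cancel₀ ha0 h4
  have h6 : lam * 1 = lam * lam ^ ν := by rw [mul_one, ← pow_succ']; exact h5
  exact (mul_left_cancel₀ h0 h6).symm

/-- **The number of petals.** -/
theorem petals_eq (hd : 2 ≤ d) {p q : ℕ} (hp : 1 ≤ p) (hq : 1 ≤ q)
    (hmin : Function.minimalPeriod (fc d c) z₀ = p)
    (hprim : IsPrimitiveRoot (deriv ((fc d c)^[p]) z₀) q) {ν : ℕ} {a : ℂ → ℂ} (hν : 1 ≤ ν)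
    (ha : AnalyticAt ℂ a 0) (ha0 : a 0 ≠ 0) (hev : ∀ᶠ u in 𝓝 (0 : ℂ),
      (fc d c)^[p * q] (z₀ + u) = z₀ + u + u ^ (ν + 1) * a u) : ν = q := by
  have hfix : (fc d c)^[p] z₀ = z₀ := by
    rw [← hmin]
    exact Function.iterate_minimalPeriod
  refine le_antisymm (petals_le hd hp hq hmin hν ha ha0 hev) ?_
  apply Nat.le_of_dvd (by omega)
  exact hprim.dvd_of_pow_eq_one ν (mult_pow hfix (hprim.ne_zero (by omega)) ha ha0 hev)

end Pool.Agent.Run7.h15.Tr
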