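import Pool.Agent.Run7.h15.Tr.E
import Pool.Agent.Run7.h15.Tr.PB

/-!
# The local form of the family near a satellite parameter
-/

set_option autoImplicit false

namespace Pool.Agent.Run7.h15.Tr

open Complex Filter Topology Metric Set
open Pool.Agent.H712R2 (P P_succ P_one P_zero fc continuous_P mem_multibrot_iff)
open Pool.Agent.Y736.RN (contDiff_it cont_it diff_it_y)
open Pool.Agent.Run7.h15.Par

variable {d N : ℕ} {c₀ z₀ c : ℂ}

theorem exists_ne (hd : 2 ≤ d) (hN : 1 ≤ N) (c : ℂ) : ∃ z, (fc d c)^[N] z ≠ z := by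
  have hc := norm_nonneg c
  refine ⟨((‖c‖ + 2 : ℝ) : ℂ), fun h => ?_⟩
  have h0 : ‖((‖c‖ + 2 : ℝ) : ℂ)‖ = ‖c‖ + 2 := by
    rw [Complex.norm_real, Real.norm_of_nonneg (by positivity)]
  have h1 := escape hd (c := c) (w := ((‖c‖ + 2 : ℝ) : ℂ)) h0.ge N
  rw [h, h0] at h1
  have h2 : (2 : ℝ) ^ 1 ≤ 2 ^ N := pow_le_pow_right₀ (by norm_num) hN
  nlinarith

/-- the map at the parameter itself -/
theorem germ_bound (hd : 2 ≤ d) (hN : 1 ≤ N) (hfix : (fc d c₀)^[N] z₀ = z₀)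
    (hder : deriv ((fc d c₀)^[N]) z₀ = 1) :
    ∃ (ν : ℕ) (a : ℂ → ℂ) (K r : ℝ), 1 ≤ ν ∧ a 0 ≠ 0 ∧ 0 ≤ K ∧ 0 < r ∧ (∀ u : ℂ, ‖u‖ < r →
      ‖(fc d c₀)^[N] (z₀ + u) - z₀ - u - a 0 * u ^ (ν + 1)‖ ≤ K * ‖u‖ ^ (ν + 2)) ∧
      AnalyticAt ℂ a 0 ∧ ∀ᶠ u in 𝓝 (0 : ℂ),
        (fc d c₀)^[N] (z₀ + u) = z₀ + u + u ^ (ν + 1) * a u := by
  obtain ⟨ν, a, hν, ha, ha0, hev⟩ := Pool.Agent.Y736.HL.parabolic_germ (diff_it_y d N c₀)
    hfix hder (exists_ne hd hN c₀)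
  obtain ⟨K, hK⟩ := (ha.differentiableAt.hasDerivAt.isBigO_sub).bound
  obtain ⟨r, hr, hball⟩ := Metric.eventually_nhds_iff.1 (hev.and hK)
  refine ⟨ν, a, |K|, r, hν, ha0, abs_nonneg _, hr, ?_, ha, hev⟩
  intro u hu
  obtain ⟨h1, h2⟩ := hball (y := u) (by rwa [dist_zero_right])
  rw [h1, show z₀ + u + u ^ (ν + 1) * a u - z₀ - u - a 0 * u ^ (ν + 1) =
    u ^ (ν + 1) * (a u - a 0) by ring, norm_mul, norm_pow]
  rw [sub_zero] at h2
  calc ‖u‖ ^ (ν + 1) * ‖a u - a 0‖ ≤ ‖u‖ ^ (ν + 1) * (|K| * ‖u‖) := by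
        apply mul_le_mul_of_nonneg_left _ (by positivity)
        exact h2.trans (mul_le_mul_of_nonneg_right (le_abs_self K) (norm_nonneg _))
    _ = _ := by ring

/-- **Satellite parameters.** -/
theorem chart_satellite (hd : 2 ≤ d) {m q : ℕ} (hm : 1 ≤ m) (hq : 1 ≤ q)
    (hmin : Function.minimalPeriod (fc d c₀) z₀ = m) (h1 : deriv ((fc d c₀)^[m]) z₀ ≠ 1)
    (hprim : IsPrimitiveRoot (deriv ((fc d c₀)^[m]) z₀) q) {b : ℂ → ℂ} (hb0 : b 0 = z₀)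
    (hbd : ∀ᶠ s in 𝓝 (0 : ℂ), DifferentiableAt ℂ b s)
    (hbz : ∀ᶠ s in 𝓝 (0 : ℂ), (fc d (c₀ + s))^[m] (b s) = b s) :
    ∃ β : ℂ, β ≠ 0 ∧ HasDerivAt (fun s => deriv ((fc d (c₀ + s))^[m]) (b s)) β 0 ∧
      Chart d (m * q) c₀ z₀ 1 (2 * Real.pi / (q * (q * ‖β‖))) := by
  have hroot := hprim.pow_eq_one
  have hfix : (fc d c₀)^[m] z₀ = z₀ := by
    rw [← hmin]
    exact Function.iterate_minimalPeriod
  have hN : 1 ≤ m * q := Nat.mul_pos (by omega) (by omega)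
  have hfixN : (fc d c₀)^[m * q] z₀ = z₀ := by
    rw [Function.iterate_mul]
    exact Function.iterate_fixed hfix q
  have hderN : deriv ((fc d c₀)^[m * q]) z₀ = 1 := by rw [deriv_iterate_mul hfix, hroot]
  obtain ⟨lam, hlam⟩ : ∃ lam, lam = deriv ((fc d c₀)^[m]) z₀ := ⟨_, rfl⟩
  have hlamn : ‖lam‖ = 1 := by
    rw [← hlam] at hroot
    have h2 : ‖lam‖ ^ q = 1 := by rw [← norm_pow, hroot, norm_one]
    exact (pow_eq_one_iff_of_nonneg (norm_nonneg _) (by omega)).1 h2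
  have hlam0 : lam ≠ 0 := by
    rw [← norm_pos_iff, hlamn]
    exact one_pos
  obtain ⟨ν, af, K1, r1, hν, ha0, hK1, hr1, hgerm, haf, hafev⟩ := germ_bound hd hN hfixN hderN
  have hνq : ν = q := petals_eq hd hm hq hmin hprim hν haf ha0 hafev
  obtain ⟨a, hadef⟩ : ∃ a, a = af 0 := ⟨_, rfl⟩
  rw [← hadef] at ha0 hgerm
  obtain ⟨K, ρ, hK, hρ, hlip⟩ := lip d (m * q) c₀ z₀
  have hbd0 : DifferentiableAt ℂ b 0 := hbd.self_of_nhds
  obtain ⟨L, hL, hbL⟩ : ∃ L : ℝ, 0 ≤ L ∧ ∀ᶠ s in 𝓝 (0 : ℂ), ‖b s - z₀‖ ≤ L * ‖s‖ := by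
    obtain ⟨L, hL⟩ := (hbd0.hasDerivAt.isBigO_sub).bound
    refine ⟨|L|, abs_nonneg _, ?_⟩
    filter_upwards [hL] with s hs
    rw [hb0, sub_zero] at hs
    exact hs.trans (mul_le_mul_of_nonneg_right (le_abs_self L) (norm_nonneg _))
  -- the orbit
  obtain ⟨zf, hzf⟩ : ∃ zf : ℕ → ℂ → ℂ, zf = fun j s => (fc d (c₀ + s))^[j] (b s) := ⟨_, rfl⟩
  have hzfd : ∀ᶠ s in 𝓝 (0 : ℂ), ∀ j, DifferentiableAt ℂ (zf j) s := by
    filter_upwards [hbd] with s hs j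
    rw [hzf]
    have h2 : DifferentiableAt ℂ (fun q : ℂ × ℂ => (fc d q.1)^[j] q.2) (c₀ + s, b s) :=
      (contDiff_it d j).differentiable (by simp) _
    exact h2.comp s ((differentiableAt_const c₀).add differentiableAt_id |>.prodMk hs)
  have hzf0 : ∀ j, zf j 0 = (fc d c₀)^[j] z₀ := by
    intro j
    rw [hzf]
    simp only
    rw [add_zero, hb0]
  obtain ⟨E, hE⟩ : ∃ E : ℕ → ℂ, E = fun j => deriv (zf j) 0 := ⟨_, rfl⟩
  have hEd : ∀ j, HasDerivAt (zf j) (E j) 0 := by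
    intro j
    rw [hE]
    exact (hzfd.self_of_nhds j).hasDerivAt
  have hErec : ∀ j, E (j + 1) = d * ((fc d c₀)^[j] z₀) ^ (d - 1) * E j + 1 := by
    intro j
    have h2 : HasDerivAt (fun s => zf j s ^ d + (c₀ + s)) (d * zf j 0 ^ (d - 1) * E j + 1) 0 :=
      ((hEd j).fun_pow d).add ((hasDerivAt_id (0 : ℂ)).const_add c₀)
    have h3 : zf (j + 1) = fun s => zf j s ^ d + (c₀ + s) := by
      funext s
      rw [hzf]
      simp only
      rw [Function.iterate_succ_apply']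
      rfl
    rw [← h3] at h2
    rw [← hzf0]
    exact (hEd (j + 1)).unique h2
  have hEm : E m = E 0 := by
    have h2 : zf 0 =ᶠ[𝓝 0] zf m := by
      filter_upwards [hbz] with s hs
      rw [hzf]
      exact hs.symm
    exact ((hEd m).congr_of_eventuallyEq h2).unique (hEd 0)
  have hzne : ∀ j < m, (fc d c₀)^[j] z₀ ≠ 0 := by
    intro j hj h0
    apply hlam0
    rw [hlam, deriv_iter]
    apply Finset.prod_eq_zero (Finset.mem_range.2 hj)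
    rw [h0, zero_pow (by omega), mul_zero]
  -- the multiplier
  obtain ⟨S, hS⟩ : ∃ S, S = ∑ j ∈ Finset.range m, ((d - 1 : ℕ) : ℂ) * E j / (fc d c₀)^[j] z₀ :=
    ⟨_, rfl⟩
  have hS0 : S ≠ 0 := by
    rw [hS]
    exact nondeg_satellite hd hm hmin (by rw [← hlam]; exact hlamn) h1 hErec hEm
  have hlamd : HasDerivAt (fun s => ∏ j ∈ Finset.range m, ((d : ℂ) * zf j s ^ (d - 1)))
      (lam * S) 0 := by
    have h2 := prod_deriv (d := d) (n := m) hEd (fun j hj => by rw [hzf0]; exact hzne j hj)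
    simp only [hzf0] at h2
    rw [← deriv_iter, ← hlam, ← hS] at h2
    exact h2
  obtain ⟨μ, hμ⟩ : ∃ μ : ℂ → ℂ, μ = fun s => ∏ j ∈ Finset.range (m * q),
    ((d : ℂ) * zf j s ^ (d - 1)) := ⟨_, rfl⟩
  have hμder : ∀ s, μ s = deriv ((fc d (c₀ + s))^[m * q]) (b s) := by
    intro s
    rw [hμ, deriv_iter, hzf]
  have hμpow : μ =ᶠ[𝓝 0] fun s => (∏ j ∈ Finset.range m, ((d : ℂ) * zf j s ^ (d - 1))) ^ q := by
    filter_upwards [hbz] with s hs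
    rw [hμder, deriv_iterate_mul hs, deriv_iter, hzf]
  have hμ0 : μ 0 = 1 := by
    rw [hμder, add_zero, hb0, hderN]
  obtain ⟨α, hα⟩ : ∃ α : ℂ, α = q * lam ^ (q - 1) * (lam * S) := ⟨_, rfl⟩
  have hαn : ‖α‖ = q * ‖lam * S‖ := by
    rw [hα, norm_mul, norm_mul, norm_pow, hlamn, one_pow, mul_one, Complex.norm_natCast]
  have hα0 : α ≠ 0 := by
    rw [hα]
    have hqc : (q : ℂ) ≠ 0 := by exact_mod_cast (by omega : q ≠ 0)
    exact mul_ne_zero (mul_ne_zero hqc (pow_ne_zero _ hlam0)) (mul_ne_zero hlam0 hS0)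
  have hμd : HasDerivAt μ α 0 := by
    have h2 := (hlamd.fun_pow q)
    have h3 : ∏ j ∈ Finset.range m, ((d : ℂ) * zf j 0 ^ (d - 1)) = lam := by
      simp only [hzf0]
      rw [← deriv_iter, ← hlam]
    rw [h3, ← hα] at h2
    exact h2.congr_of_eventuallyEq hμpow
  -- the second order estimate for the multiplier
  obtain ⟨r2, hr2, hμ2⟩ : ∃ r2 : ℝ, 0 < r2 ∧ ∀ s : ℂ, ‖s‖ < r2 →
      ‖μ s - 1 - α * s‖ ≤ 2 * 1 / r2 ^ 2 * ‖s‖ ^ 2 := by
    have h2 : ∀ᶠ s in 𝓝 (0 : ℂ), DifferentiableAt ℂ μ s ∧ ‖μ s - 1‖ ≤ 1 := by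
      refine Eventually.and ?_ ?_
      · filter_upwards [hzfd] with s hs
        rw [hμ]
        apply DifferentiableAt.fun_finsetProd
        intro j _
        exact ((hs j).pow (d - 1)).const_mul (d : ℂ)
      · have h3 : Tendsto (fun s => ‖μ s - 1‖) (𝓝 0) (𝓝 0) := by
          have := (hμd.continuousAt.tendsto.sub_const 1).norm
          rwa [hμ0, sub_self, norm_zero] at this
        filter_upwards [h3.eventually (gt_mem_nhds one_pos)] with s hs using hs.le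
    obtain ⟨r2, hr2, hball⟩ := Metric.eventually_nhds_iff.1 h2
    refine ⟨r2, hr2, ?_⟩
    intro s hs
    have h3 := second_order (f := fun s => μ s - 1) hr2 (M := 1)
      (fun v hv => ((hball hv).1.sub_const 1).differentiableWithinAt) (by rw [hμ0, sub_self])
      (fun v hv => (hball hv).2) hs
    rw [(hμd.sub_const 1).deriv] at h3
    exact h3
  -- the final radius
  have hbc : Tendsto (fun s => ‖b s - z₀‖) (𝓝 0) (𝓝 0) := by
    have h2 := (hbd0.continuousAt.tendsto.sub_const z₀).norm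
    rwa [hb0, sub_self, norm_zero] at h2
  have hall : ∀ᶠ s in 𝓝 (0 : ℂ), DifferentiableAt ℂ b s ∧ (fc d (c₀ + s))^[m] (b s) = b s ∧
      ‖b s - z₀‖ ≤ L * ‖s‖ ∧ ‖b s - z₀‖ < ρ / 2 :=
    hbd.and (hbz.and (hbL.and (hbc.eventually (gt_mem_nhds (by positivity)))))
  obtain ⟨r3, hr3, hball3⟩ := Metric.eventually_nhds_iff.1 hall
  obtain ⟨r, hr⟩ : ∃ r, r = min (min r1 r2) (min r3 (ρ / 2)) := ⟨_, rfl⟩
  have hr0 : 0 < r := by
    rw [hr]
    exact lt_min (lt_min hr1 hr2) (lt_min hr3 (by positivity))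
  have hrr1 : r ≤ r1 := by rw [hr]; exact (min_le_left _ _).trans (min_le_left _ _)
  have hrr2 : r ≤ r2 := by rw [hr]; exact (min_le_left _ _).trans (min_le_right _ _)
  have hrr3 : r ≤ r3 := by rw [hr]; exact (min_le_right _ _).trans (min_le_left _ _)
  have hrr4 : r ≤ ρ / 2 := by rw [hr]; exact (min_le_right _ _).trans (min_le_right _ _)
  obtain ⟨K3, hK3⟩ : ∃ K3, K3 = 2 * (K * (1 + L) + L) / (ρ / 2) ^ 2 := ⟨_, rfl⟩
  have hK30 : 0 ≤ K3 := by rw [hK3]; positivity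
  obtain ⟨K4, hK4⟩ : ∃ K4, K4 = 2 * 1 / r2 ^ 2 := ⟨_, rfl⟩
  have hK40 : 0 ≤ K4 := by rw [hK4]; positivity
  refine ⟨lam * S, mul_ne_zero hlam0 hS0, ?_, ν, a, α, K1 + K3 + K4, r, b, hν, ha0, hα0,
    by positivity, hr0, by rw [hαn, hνq], ?_, hb0, ?_⟩
  · refine hlamd.congr_of_eventuallyEq (Eventually.of_forall fun s => ?_)
    rw [hzf]
    simp only
    rw [deriv_iter]
  · intro s hs
    rw [mem_ball, dist_zero_right] at hs
    exact (hball3 (by rw [dist_zero_right]; linarith)).1.differentiableWithinAt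
  intro s u hs hu
  simp only [pow_one]
  obtain ⟨_, b2, b3, b4⟩ := hball3 (y := s) (by rw [dist_zero_right]; linarith)
  have b2' : (fc d (c₀ + s))^[m * q] (b s) = b s := by
    rw [Function.iterate_mul]
    exact Function.iterate_fixed b2 q
  have hs0 := norm_nonneg s
  have hu0 := norm_nonneg u
  obtain ⟨T, hT⟩ : ∃ T : ℂ → ℂ, T = fun v => ((fc d (c₀ + s))^[m * q] (b s + v) - b s) -
    ((fc d c₀)^[m * q] (z₀ + v) - z₀) := ⟨_, rfl⟩
  have hTd : Differentiable ℂ T := by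
    rw [hT]
    exact (((diff_it_y d (m * q) (c₀ + s)).comp (differentiable_id.const_add (b s))).sub_const
      (b s)).sub (((diff_it_y d (m * q) c₀).comp (differentiable_id.const_add z₀)).sub_const z₀)
  have hT0 : T 0 = 0 := by
    rw [hT]
    simp only
    rw [add_zero, add_zero, b2', hfixN]
    ring
  have hTder : deriv T 0 = μ s - 1 := by
    have k1 : HasDerivAt (fun v => (fc d (c₀ + s))^[m * q] (b s + v) - b s) (μ s) 0 := by
      rw [hμder]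
      have k2 : HasDerivAt ((fc d (c₀ + s))^[m * q]) (deriv ((fc d (c₀ + s))^[m * q]) (b s))
          (b s + 0) := by
        rw [add_zero]
        exact ((diff_it_y d (m * q) (c₀ + s)) (b s)).hasDerivAt
      exact (k2.comp_const_add (b s) 0).sub_const (b s)
    have k3 : HasDerivAt (fun v => (fc d c₀)^[m * q] (z₀ + v) - z₀) 1 0 := by
      have k2 : HasDerivAt ((fc d c₀)^[m * q]) 1 (z₀ + 0) := by
        rw [add_zero, ← hderN]
        exact ((diff_it_y d (m * q) c₀) z₀).hasDerivAt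
      exact (k2.comp_const_add z₀ 0).sub_const z₀
    rw [hT]
    exact (k1.sub k3).deriv
  have hTb : ∀ v ∈ ball (0 : ℂ) (ρ / 2), ‖T v‖ ≤ K * (1 + L) * ‖s‖ + L * ‖s‖ := by
    intro v hv
    rw [mem_ball_zero_iff] at hv
    have e1 : T v = ((fc d (c₀ + s))^[m * q] (b s + v) - (fc d c₀)^[m * q] (z₀ + v)) -
        (b s - z₀) := by
      rw [hT]
      ring
    rw [e1]
    have e2 := hlip (c₀ + s) (b s + v) c₀ (z₀ + v) (by rw [add_sub_cancel_left]; linarith) (by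
      have := norm_add_le (b s - z₀) v
      rw [show b s + v - z₀ = b s - z₀ + v by ring]
      linarith) (by rw [sub_self, norm_zero]; exact hρ) (by
      rw [add_sub_cancel_left]; linarith)
    rw [add_sub_add_right_eq_sub, add_sub_cancel_left] at e2
    have e3 : K * (‖s‖ + ‖b s - z₀‖) ≤ K * (‖s‖ + L * ‖s‖) :=
      mul_le_mul_of_nonneg_left (by linarith) hK
    have e4 := norm_sub_le ((fc d (c₀ + s))^[m * q] (b s + v) - (fc d c₀)^[m * q] (z₀ + v))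
      (b s - z₀)
    nlinarith
  have h2 := second_order (f := T) (ρ := ρ / 2) (by positivity) hTd.differentiableOn hT0 hTb
    (u := u) (by linarith)
  rw [hTder] at h2
  have h3 := hgerm u (by linarith)
  have h4 := hμ2 s (by linarith)
  rw [← hK4] at h4
  have e1 : (fc d (c₀ + s))^[m * q] (b s + u) - b s - u * (1 + α * s + a * u ^ ν) =
      ((fc d c₀)^[m * q] (z₀ + u) - z₀ - u - a * u ^ (ν + 1)) + (T u - (μ s - 1) * u) +
        (μ s - 1 - α * s) * u := by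
    rw [hT]
    ring
  rw [e1]
  refine (norm_add₃_le).trans ?_
  rw [norm_mul]
  have e2 : ‖T u - (μ s - 1) * u‖ ≤ K3 * (‖s‖ * ‖u‖ ^ 2) := by
    refine h2.trans (le_of_eq ?_)
    rw [hK3]
    ring
  have e3 : ‖μ s - 1 - α * s‖ * ‖u‖ ≤ K4 * (‖s‖ ^ 2 * ‖u‖) := by
    calc ‖μ s - 1 - α * s‖ * ‖u‖ ≤ K4 * ‖s‖ ^ 2 * ‖u‖ := mul_le_mul_of_nonneg_right h4 hu0
      _ = _ := by ring
  have p1 : 0 ≤ ‖u‖ ^ (ν + 2) := by positivity
  have p2 : 0 ≤ ‖s‖ * ‖u‖ ^ 2 := by positivity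
  have p3 : 0 ≤ ‖s‖ ^ 2 * ‖u‖ := by positivity
  have p4 : 0 ≤ ‖s‖ ^ (ν + 2) := by positivity
  have q1 := mul_nonneg hK1 p2
  have q2 := mul_nonneg hK1 p3
  have q3 := mul_nonneg hK1 p4
  have q4 := mul_nonneg hK30 p1
  have q5 := mul_nonneg hK30 p3
  have q6 := mul_nonneg hK30 p4
  have q7 := mul_nonneg hK40 p1
  have q8 := mul_nonneg hK40 p2
  have q9 := mul_nonneg hK40 p4
  have e4 : (K1 + K3 + K4) * (‖u‖ ^ (ν + 2) + ‖s‖ * ‖u‖ ^ 2 + ‖s‖ ^ 2 * ‖u‖ + ‖s‖ ^ (ν + 2)) =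
      K1 * ‖u‖ ^ (ν + 2) + K1 * (‖s‖ * ‖u‖ ^ 2) + K1 * (‖s‖ ^ 2 * ‖u‖) + K1 * ‖s‖ ^ (ν + 2) +
      (K3 * ‖u‖ ^ (ν + 2) + K3 * (‖s‖ * ‖u‖ ^ 2) + K3 * (‖s‖ ^ 2 * ‖u‖) + K3 * ‖s‖ ^ (ν + 2)) +
      (K4 * ‖u‖ ^ (ν + 2) + K4 * (‖s‖ * ‖u‖ ^ 2) + K4 * (‖s‖ ^ 2 * ‖u‖) + K4 * ‖s‖ ^ (ν + 2)) := by
    ring
  rw [e4]
  linarith

end Pool.Agent.Run7.h15.Tr
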