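import Pool.Agent.Run7.h15.Tr.G

/-!
# The constants do not depend on the point of the cycle
-/

set_option autoImplicit false

namespace Pool.Agent.Run7.h15.Tr

open Complex Filter Topology Metric Set
open Pool.Agent.H712R2 (P P_succ P_one P_zero fc continuous_P mem_multibrot_iff)
open Pool.Agent.Y736.RN (contDiff_it cont_it diff_it_y)
open Pool.Agent.Run7.h15.Par

variable {d : ℕ} {c₀ z₀ : ℂ}

/-- the chain rule in the parameter and the variable -/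
theorem two_var (d n : ℕ) (c₀ : ℂ) {y : ℂ → ℂ} {y' w₀ : ℂ} (hy : HasDerivAt y y' 0)
    (hy0 : y 0 = w₀) : HasDerivAt (fun ε : ℂ => (fc d (c₀ + ε))^[n] (y ε))
      (deriv (fun ε : ℂ => (fc d (c₀ + ε))^[n] w₀) 0 + deriv ((fc d c₀)^[n]) w₀ * y') 0 := by
  obtain ⟨Φ, hΦ⟩ : ∃ Φ : ℂ × ℂ → ℂ, Φ = fun q => (fc d q.1)^[n] q.2 := ⟨_, rfl⟩
  have hΦc : ContDiff ℂ ⊤ Φ := by rw [hΦ]; exact contDiff_it d n
  have h1 : HasFDerivAt Φ (fderiv ℂ Φ (c₀, w₀)) (c₀ + 0, w₀) := by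
    rw [add_zero]
    exact (hΦc.differentiable (by simp) _).hasFDerivAt
  have k1 : HasDerivAt (fun ε : ℂ => (fc d (c₀ + ε))^[n] w₀) (fderiv ℂ Φ (c₀, w₀) (1, 0)) 0 := by
    have h2 : HasDerivAt (fun ε : ℂ => ((c₀ + ε, w₀) : ℂ × ℂ)) ((1 : ℂ), (0 : ℂ)) 0 :=
      ((hasDerivAt_id (0 : ℂ)).const_add c₀).prodMk (hasDerivAt_const _ _)
    have h3 := h1.comp_hasDerivAt (0 : ℂ) h2
    rw [hΦ] at h3 ⊢
    exact h3
  have k2 : HasDerivAt ((fc d c₀)^[n]) (fderiv ℂ Φ (c₀, w₀) (0, 1)) w₀ := by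
    have h2 : HasDerivAt (fun z : ℂ => ((c₀, z) : ℂ × ℂ)) ((0 : ℂ), (1 : ℂ)) w₀ :=
      (hasDerivAt_const _ _).prodMk (hasDerivAt_id _)
    have h1' : HasFDerivAt Φ (fderiv ℂ Φ (c₀, w₀)) (c₀, w₀) :=
      (hΦc.differentiable (by simp) _).hasFDerivAt
    have h3 := h1'.comp_hasDerivAt w₀ h2
    rw [hΦ] at h3 ⊢
    exact h3
  have k3 : HasDerivAt (fun ε : ℂ => (fc d (c₀ + ε))^[n] (y ε)) (fderiv ℂ Φ (c₀, w₀) (1, y')) 0 := by
    have h2 : HasDerivAt (fun ε : ℂ => ((c₀ + ε, y ε) : ℂ × ℂ)) ((1 : ℂ), y') 0 :=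
      ((hasDerivAt_id (0 : ℂ)).const_add c₀).prodMk hy
    rw [← hy0] at h1 ⊢
    have h3 := h1.comp_hasDerivAt (0 : ℂ) h2
    rw [hΦ] at h3 ⊢
    exact h3
  rw [k1.deriv, k2.deriv]
  have e1 : fderiv ℂ Φ (c₀, w₀) (1, y') =
      fderiv ℂ Φ (c₀, w₀) (1, 0) + fderiv ℂ Φ (c₀, w₀) (0, 1) * y' := by
    have e2 : ((1, y') : ℂ × ℂ) = (1, 0) + y' • (0, 1) := by
      ext <;> simp
    rw [e2, map_add, map_smul, smul_eq_mul, mul_comm]
  rw [← e1]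
  exact k3

/-- the invariance of the constants -/
theorem const_shift {p i : ℕ} (hfix : (fc d c₀)^[p] z₀ = z₀)
    (hder : deriv ((fc d c₀)^[p]) z₀ = 1) (hi : deriv ((fc d c₀)^[i]) z₀ ≠ 0) :
    deriv (fun u => deriv ((fc d c₀)^[p]) ((fc d c₀)^[i] z₀ + u)) 0 *
      deriv (fun ε : ℂ => (fc d (c₀ + ε))^[p] ((fc d c₀)^[i] z₀)) 0 =
    deriv (fun u => deriv ((fc d c₀)^[p]) (z₀ + u)) 0 *
      deriv (fun ε : ℂ => (fc d (c₀ + ε))^[p] z₀) 0 := by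
  obtain ⟨z₁, hz₁⟩ : ∃ z₁, z₁ = (fc d c₀)^[i] z₀ := ⟨_, rfl⟩
  obtain ⟨φ', hφ'⟩ : ∃ φ', φ' = deriv ((fc d c₀)^[i]) z₀ := ⟨_, rfl⟩
  have hder1 : deriv ((fc d c₀)^[p]) z₁ = 1 := by rw [hz₁, deriv_shift hfix hi, hder]
  rw [← hφ'] at hi
  rw [← hz₁]
  have hcomm : ∀ (c z : ℂ), (fc d c)^[p] ((fc d c)^[i] z) = (fc d c)^[i] ((fc d c)^[p] z) := by
    intro c z
    rw [← Function.iterate_add_apply, ← Function.iterate_add_apply, add_comm]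
  have hg2 : ∀ w : ℂ, HasDerivAt (fun u => deriv ((fc d c₀)^[p]) (w + u))
      (deriv (fun u => deriv ((fc d c₀)^[p]) (w + u)) 0) 0 := by
    intro w
    have h1 : DifferentiableAt ℂ (deriv ((fc d c₀)^[p])) (w + 0) :=
      ((diff_it_y d p c₀).analyticAt _).deriv.differentiableAt
    have h2 := h1.hasDerivAt.comp_const_add w 0
    exact h2.differentiableAt.hasDerivAt
  obtain ⟨S₀, hS₀⟩ : ∃ S₀, S₀ = deriv (fun u => deriv ((fc d c₀)^[p]) (z₀ + u)) 0 := ⟨_, rfl⟩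
  obtain ⟨S₁, hS₁⟩ : ∃ S₁, S₁ = deriv (fun u => deriv ((fc d c₀)^[p]) (z₁ + u)) 0 := ⟨_, rfl⟩
  have hgz₀ := hg2 z₀
  have hgz₁ := hg2 z₁
  rw [← hS₀] at hgz₀
  rw [← hS₁] at hgz₁
  rw [← hS₀, ← hS₁]
  -- the second derivatives
  have hT : ∃ T, HasDerivAt (fun u => deriv ((fc d c₀)^[i]) (z₀ + u)) T 0 := by
    have h1 : DifferentiableAt ℂ (deriv ((fc d c₀)^[i])) (z₀ + 0) :=
      ((diff_it_y d i c₀).analyticAt _).deriv.differentiableAt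
    exact ⟨_, h1.hasDerivAt.comp_const_add z₀ 0⟩
  obtain ⟨T, hT⟩ := hT
  have hfun : (fun u => deriv ((fc d c₀)^[p]) ((fc d c₀)^[i] (z₀ + u)) *
      deriv ((fc d c₀)^[i]) (z₀ + u)) = fun u => deriv ((fc d c₀)^[i]) ((fc d c₀)^[p] (z₀ + u)) *
      deriv ((fc d c₀)^[p]) (z₀ + u) := by
    funext u
    have h1 : (fc d c₀)^[p] ∘ (fc d c₀)^[i] = (fc d c₀)^[i] ∘ (fc d c₀)^[p] := by
      funext z
      exact hcomm c₀ z
    have h2 : deriv ((fc d c₀)^[p] ∘ (fc d c₀)^[i]) (z₀ + u) =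
        deriv ((fc d c₀)^[i] ∘ (fc d c₀)^[p]) (z₀ + u) := by rw [h1]
    rwa [deriv_comp (z₀ + u) (diff_it_y d p c₀ _) (diff_it_y d i c₀ _),
      deriv_comp (z₀ + u) (diff_it_y d i c₀ _) (diff_it_y d p c₀ _)] at h2
  have hφd : HasDerivAt (fun u => (fc d c₀)^[i] (z₀ + u) - z₁) φ' 0 := by
    have h1 : HasDerivAt ((fc d c₀)^[i]) φ' (z₀ + 0) := by
      rw [add_zero, hφ']
      exact ((diff_it_y d i c₀) z₀).hasDerivAt
    exact (h1.comp_const_add z₀ 0).sub_const z₁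
  have hgd : HasDerivAt (fun u => (fc d c₀)^[p] (z₀ + u) - z₀) 1 0 := by
    have h1 : HasDerivAt ((fc d c₀)^[p]) 1 (z₀ + 0) := by
      rw [add_zero, ← hder]
      exact ((diff_it_y d p c₀) z₀).hasDerivAt
    exact (h1.comp_const_add z₀ 0).sub_const z₀
  have hA : HasDerivAt (fun u => deriv ((fc d c₀)^[p]) ((fc d c₀)^[i] (z₀ + u))) (S₁ * φ') 0 := by
    have h1 : HasDerivAt (fun v => deriv ((fc d c₀)^[p]) (z₁ + v)) S₁
        ((fc d c₀)^[i] (z₀ + 0) - z₁) := by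
      rw [add_zero, ← hz₁, sub_self]
      exact hgz₁
    have h2 := h1.comp (0 : ℂ) hφd
    refine h2.congr_of_eventuallyEq (Eventually.of_forall fun u => ?_)
    simp
  have hB : HasDerivAt (fun u => deriv ((fc d c₀)^[i]) ((fc d c₀)^[p] (z₀ + u))) (T * 1) 0 := by
    have h1 : HasDerivAt (fun v => deriv ((fc d c₀)^[i]) (z₀ + v)) T
        ((fc d c₀)^[p] (z₀ + 0) - z₀) := by
      rw [add_zero, hfix, sub_self]
      exact hT
    have h2 := h1.comp (0 : ℂ) hgd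
    refine h2.congr_of_eventuallyEq (Eventually.of_forall fun u => ?_)
    simp
  have h1 := hA.mul hT
  have h2 := hB.mul hgz₀
  have hfun' : (fun u => deriv ((fc d c₀)^[p]) ((fc d c₀)^[i] (z₀ + u))) *
      (fun u => deriv ((fc d c₀)^[i]) (z₀ + u)) =
      (fun u => deriv ((fc d c₀)^[i]) ((fc d c₀)^[p] (z₀ + u))) *
      fun u => deriv ((fc d c₀)^[p]) (z₀ + u) := hfun
  rw [hfun'] at h1
  have h3 := h1.unique h2
  simp only [add_zero] at h3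
  rw [← hz₁, hfix, hder1, hder, ← hφ'] at h3
  have hS : S₁ * φ' = S₀ := by
    have h4 : φ' * (S₁ * φ') = φ' * S₀ := by linear_combination h3
    exact mul_left_cancel₀ hi h4
  -- the parameter derivatives
  have q1 := two_var d p c₀ (two_var d i c₀ (hasDerivAt_const (0 : ℂ) z₀) rfl) (w₀ := z₁)
    (by rw [add_zero, hz₁])
  have q2 := two_var d i c₀ (two_var d p c₀ (hasDerivAt_const (0 : ℂ) z₀) rfl) (w₀ := z₀)
    (by rw [add_zero, hfix])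
  have e3 : (fun ε : ℂ => (fc d (c₀ + ε))^[p] ((fc d (c₀ + ε))^[i] z₀)) =
      fun ε => (fc d (c₀ + ε))^[i] ((fc d (c₀ + ε))^[p] z₀) := by
    funext ε
    exact hcomm _ _
  rw [e3] at q1
  have q3 := q1.unique q2
  rw [hder1, ← hφ', hder] at q3
  have hβ : deriv (fun ε : ℂ => (fc d (c₀ + ε))^[p] z₁) 0 =
      φ' * deriv (fun ε : ℂ => (fc d (c₀ + ε))^[p] z₀) 0 := by
    linear_combination q3
  rw [hβ, ← hS]
  ring

end Pool.Agent.Run7.h15.Tr
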