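import Pool.Agent.Run7.h15.Tr.SE
import Pool.Agent.Run7.h15.Tr.PC

/-!
# The laws at the primitive and at the satellite parameters
-/

set_option autoImplicit false

namespace Pool.Agent.Run7.h15.Tr

open Complex Filter Topology Metric Set N62a1eb23
open Pool.Agent.H712R2 (P P_succ P_one P_zero fc continuous_P mem_multibrot_iff)
open Pool.Agent.Y736.RN (contDiff_it cont_it diff_it_y)
open Pool.Agent.Run7.h15.Par

variable {d : ℕ} {c₀ z₀ : ℂ}

/-- **Primitive parameters.** -/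
theorem law_primitive (hd : 2 ≤ d) {p : ℕ} (hp : 1 ≤ p)
    (hmin : Function.minimalPeriod (fc d c₀) z₀ = p) (hder : deriv ((fc d c₀)^[p]) z₀ = 1) :
    c₀ ∈ multibrotSet d ∧ deriv (fun u => deriv ((fc d c₀)^[p]) (z₀ + u)) 0 ≠ 0 ∧
      deriv (fun ε : ℂ => (fc d (c₀ + ε))^[p] z₀) 0 ≠ 0 ∧ ∃ L : ℝ, 0 < L ∧
      L ^ 2 = 2 * (Real.pi * p) ^ 2 / (‖deriv (fun u => deriv ((fc d c₀)^[p]) (z₀ + u)) 0‖ *
        ‖deriv (fun ε : ℂ => (fc d (c₀ + ε))^[p] z₀) 0‖) ∧ Law d 2 c₀ L := by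
  have hfix : (fc d c₀)^[p] z₀ = z₀ := by
    rw [← hmin]
    exact Function.iterate_minimalPeriod
  obtain ⟨i, hi, hpar⟩ := exists_parabolic hd hp hfix hder
  have hper : z₀ ∈ Function.periodicPts (fc d c₀) := ⟨p, by omega, hfix⟩
  obtain ⟨X, hX, hch⟩ := chart_primitive (c₀ := c₀) (z₀ := (fc d c₀)^[i] z₀) hd hp
    (by rw [Function.minimalPeriod_apply_iterate hper, hmin]) (by rw [deriv_shift hfix hi, hder])
  obtain ⟨hX0, hlaw⟩ := law hd (by norm_num) hpar hch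
  have hp0 : (0 : ℝ) < p := by exact_mod_cast (by omega : 0 < p)
  obtain ⟨S, hS, hSd⟩ := second_ne hd hp hmin hder
  refine ⟨hpar.mem, by rw [hSd.deriv]; exact hS, param_ne hd hp hmin hder, p * X, by positivity,
    ?_, hlaw⟩
  rw [← norm_mul, ← const_shift hfix hder hi, mul_pow, hX, norm_mul]
  ring

/-- the continuation of a periodic point -/
theorem exists_cont {p : ℕ} (hfix : (fc d c₀)^[p] z₀ = z₀) (h1 : deriv ((fc d c₀)^[p]) z₀ ≠ 1) :
    ∃ b : ℂ → ℂ, b 0 = z₀ ∧ (∀ᶠ s in 𝓝 (0 : ℂ), DifferentiableAt ℂ b s) ∧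
      ∀ᶠ s in 𝓝 (0 : ℂ), (fc d (c₀ + s))^[p] (b s) = b s := by
  obtain ⟨g, hg0, hgd, hgz⟩ := implicit2 (H := fun c z => (fc d c)^[p] z - z)
    ((contDiff_it d p).sub contDiff_snd) (c₀ := c₀) (y₀ := z₀) (by rw [hfix, sub_self]) (by
      have h1' : HasDerivAt (fun z => (fc d c₀)^[p] z - z) (deriv ((fc d c₀)^[p]) z₀ - 1) z₀ :=
        ((diff_it_y d p c₀) z₀).hasDerivAt.sub (hasDerivAt_id z₀)
      rw [h1'.deriv]
      exact sub_ne_zero.2 h1)
  obtain ⟨b, hb⟩ : ∃ b : ℂ → ℂ, b = fun s => g (c₀ + s) := ⟨_, rfl⟩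
  have hshift : Tendsto (fun s : ℂ => c₀ + s) (𝓝 0) (𝓝 c₀) := by
    have : Tendsto (fun s : ℂ => c₀ + s) (𝓝 0) (𝓝 (c₀ + 0)) :=
      (continuous_const.add continuous_id).tendsto 0
    rwa [add_zero] at this
  refine ⟨b, by rw [hb]; simp [hg0], ?_, ?_⟩
  · filter_upwards [hshift.eventually hgd] with s hs
    rw [hb]
    exact hs.comp s (by fun_prop)
  · filter_upwards [hshift.eventually hgz] with s hs
    rw [hb]
    exact sub_eq_zero.1 hs

/-- **Satellite parameters.** -/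
theorem law_satellite (hd : 2 ≤ d) {p q : ℕ} (hp : 1 ≤ p) (hq : 1 ≤ q)
    (hmin : Function.minimalPeriod (fc d c₀) z₀ = p) (h1 : deriv ((fc d c₀)^[p]) z₀ ≠ 1)
    (hprim : IsPrimitiveRoot (deriv ((fc d c₀)^[p]) z₀) q) {b : ℂ → ℂ} (hb0 : b 0 = z₀)
    (hbd : ∀ᶠ s in 𝓝 (0 : ℂ), DifferentiableAt ℂ b s)
    (hbz : ∀ᶠ s in 𝓝 (0 : ℂ), (fc d (c₀ + s))^[p] (b s) = b s) :
    c₀ ∈ multibrotSet d ∧ ∃ β : ℂ, β ≠ 0 ∧
      HasDerivAt (fun s => deriv ((fc d (c₀ + s))^[p]) (b s)) β 0 ∧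
      Law d 1 c₀ (2 * Real.pi * p / (q * ‖β‖)) := by
  have hroot := hprim.pow_eq_one
  have hfix : (fc d c₀)^[p] z₀ = z₀ := by
    rw [← hmin]
    exact Function.iterate_minimalPeriod
  have hpq : 1 ≤ p * q := Nat.mul_pos (by omega) (by omega)
  have hfix' : (fc d c₀)^[p * q] z₀ = z₀ := by
    rw [Function.iterate_mul]
    exact Function.iterate_fixed hfix q
  obtain ⟨i, hi, hpar⟩ := exists_parabolic hd hpq hfix' (by rw [deriv_iterate_mul hfix, hroot])
  have hper : z₀ ∈ Function.periodicPts (fc d c₀) := ⟨p, by omega, hfix⟩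
  obtain ⟨β, hβ0, hβd, hch⟩ := chart_satellite (c₀ := c₀) (z₀ := (fc d c₀)^[i] z₀) hd hp hq
    (by rw [Function.minimalPeriod_apply_iterate hper, hmin])
    (by rw [deriv_shift hfix hi]; exact h1) (by rw [deriv_shift hfix hi]; exact hprim)
    (b := fun s => (fc d (c₀ + s))^[i] (b s)) (by simp only [add_zero, hb0]) (by
      filter_upwards [hbd] with s hs
      have h2 : DifferentiableAt ℂ (fun q : ℂ × ℂ => (fc d q.1)^[i] q.2) (c₀ + s, b s) :=
        (contDiff_it d i).differentiable (by simp) _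
      exact h2.comp s ((differentiableAt_const c₀).add differentiableAt_id |>.prodMk hs)) (by
      filter_upwards [hbz] with s hs
      rw [← Function.iterate_add_apply, add_comm p i, Function.iterate_add_apply, hs])
  obtain ⟨hX0, hlaw⟩ := law hd le_rfl hpar hch
  refine ⟨hpar.mem, β, hβ0, ?_, ?_⟩
  · -- the multiplier is constant along the cycle
    have hbc : ContinuousAt b 0 := hbd.self_of_nhds.continuousAt
    have hcont : ContinuousAt (fun s : ℂ => deriv ((fc d (c₀ + s))^[i]) (b s)) 0 := by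
      have e1 : (fun s : ℂ => deriv ((fc d (c₀ + s))^[i]) (b s)) =
          fun s => ∏ j ∈ Finset.range i, ((d : ℂ) * ((fc d (c₀ + s))^[j] (b s)) ^ (d - 1)) := by
        funext s
        rw [deriv_iter]
      rw [e1]
      apply tendsto_finsetProd
      intro j _
      apply Tendsto.const_mul
      apply Tendsto.pow
      have h2 : ContinuousAt (fun q : ℂ × ℂ => (fc d q.1)^[j] q.2) (c₀ + 0, b 0) :=
        (cont_it d j).continuousAt
      exact h2.tendsto.comp (((continuous_const.add continuous_id).continuousAt (x := (0 : ℂ))).prodMk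
        hbc)
    have hne : ∀ᶠ s in 𝓝 (0 : ℂ), deriv ((fc d (c₀ + s))^[i]) (b s) ≠ 0 := by
      apply hcont.eventually_ne
      simp only [add_zero, hb0]
      exact hi
    refine hβd.congr_of_eventuallyEq ?_
    filter_upwards [hbz, hne] with s hs hs'
    rw [deriv_shift hs hs']
  · have e1 : ((p * q : ℕ) : ℝ) * (2 * Real.pi / (q * (q * ‖β‖))) =
        2 * Real.pi * p / (q * ‖β‖) := by
      have hq0 : (q : ℝ) ≠ 0 := by exact_mod_cast (by omega : q ≠ 0)
      have hβn : ‖β‖ ≠ 0 := (norm_pos_iff.2 hβ0).ne'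
      push_cast
      field_simp
    rw [← e1]
    exact hlaw

end Pool.Agent.Run7.h15.Tr
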