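import Pool.Agent.Run7.h15.Tr.F

/-!
# The local form of the family near a primitive parabolic parameter
-/

set_option autoImplicit false

namespace Pool.Agent.Run7.h15.Tr

open Complex Filter Topology Metric Set
open Pool.Agent.H712R2 (P P_succ P_one P_zero fc continuous_P mem_multibrot_iff)
open Pool.Agent.Y736.RN (contDiff_it cont_it diff_it_y)
open Pool.Agent.Run7.h15.Par

variable {d N : ℕ} {c₀ z₀ c : ℂ}

/-- the second derivative -/
theorem second_ne (hd : 2 ≤ d) {p : ℕ} (hp : 1 ≤ p)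
    (hmin : Function.minimalPeriod (fc d c₀) z₀ = p) (hder : deriv ((fc d c₀)^[p]) z₀ = 1) :
    ∃ S : ℂ, S ≠ 0 ∧ HasDerivAt (fun u => deriv ((fc d c₀)^[p]) (z₀ + u)) S 0 := by
  refine ⟨_, (nondeg_primitive hd hp hmin hder).2, ?_⟩
  have hprod : ∏ j ∈ Finset.range p, ((d : ℂ) * ((fc d c₀)^[j] z₀) ^ (d - 1)) = 1 := by
    rw [← deriv_iter, hder]
  have hzne : ∀ j < p, (fc d c₀)^[j] z₀ ≠ 0 := by
    intro j hj h0
    have h1 := Finset.prod_ne_zero_iff.1 (by rw [hprod]; exact one_ne_zero) j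
      (Finset.mem_range.2 hj)
    apply h1
    rw [h0, zero_pow (by omega), mul_zero]
  have h2 := prod_deriv (d := d) (n := p) (zf := fun j t => (fc d c₀)^[j] (z₀ + t))
    (E := fun j => deriv ((fc d c₀)^[j]) z₀) (t₀ := 0) (by
      intro j
      have k2 : HasDerivAt ((fc d c₀)^[j]) (deriv ((fc d c₀)^[j]) z₀) (z₀ + 0) := by
        rw [add_zero]
        exact ((diff_it_y d j c₀) z₀).hasDerivAt
      exact k2.comp_const_add z₀ 0) (by
      intro j hj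
      rw [add_zero]
      exact hzne j hj)
  simp only [add_zero] at h2
  rw [hprod, one_mul] at h2
  have h3 : (fun u => deriv ((fc d c₀)^[p]) (z₀ + u)) =
      fun t => ∏ j ∈ Finset.range p, ((d : ℂ) * ((fc d c₀)^[j] (z₀ + t)) ^ (d - 1)) := by
    funext t
    rw [deriv_iter]
  rw [h3]
  exact h2

/-- a primitive parabolic point has one petal -/
theorem one_petal (hd : 2 ≤ d) {p : ℕ} (hp : 1 ≤ p)
    (hmin : Function.minimalPeriod (fc d c₀) z₀ = p) (hder : deriv ((fc d c₀)^[p]) z₀ = 1)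
    {ν : ℕ} {a : ℂ} {K r : ℝ} (hν : 1 ≤ ν) (hK : 0 ≤ K) (hr : 0 < r)
    (h : ∀ u : ℂ, ‖u‖ < r →
      ‖(fc d c₀)^[p] (z₀ + u) - z₀ - u - a * u ^ (ν + 1)‖ ≤ K * ‖u‖ ^ (ν + 2)) : ν = 1 := by
  by_contra hne
  have hν2 : 2 ≤ ν := by omega
  obtain ⟨S, hS, hSd⟩ := second_ne hd hp hmin hder
  obtain ⟨h', hh'⟩ : ∃ h' : ℂ → ℂ, h' = fun u => (fc d c₀)^[p] (z₀ + u) - z₀ - u := ⟨_, rfl⟩
  have hd' : Differentiable ℂ h' := by
    rw [hh']
    exact (((diff_it_y d p c₀).comp (differentiable_id.const_add z₀)).sub_const z₀).sub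
      differentiable_id
  have hder' : ∀ u, deriv h' u = deriv ((fc d c₀)^[p]) (z₀ + u) - 1 := by
    intro u
    have k1 : HasDerivAt h' (deriv ((fc d c₀)^[p]) (z₀ + u) - 1) u := by
      rw [hh']
      exact ((((diff_it_y d p c₀) (z₀ + u)).hasDerivAt.comp_const_add z₀ u).sub_const z₀).sub
        (hasDerivAt_id u)
    exact k1.deriv
  obtain ⟨K', hK'⟩ : ∃ K', K' = ‖a‖ + K := ⟨_, rfl⟩
  have hcub : ∀ u : ℂ, ‖u‖ < min r 1 → ‖h' u‖ ≤ K' * ‖u‖ ^ 3 := by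
    intro u hu
    have hu1 : ‖u‖ ≤ 1 := (hu.trans_le (min_le_right _ _)).le
    have h1 := h u (hu.trans_le (min_le_left _ _))
    have h2 := norm_add_le (h' u - a * u ^ (ν + 1)) (a * u ^ (ν + 1))
    rw [sub_add_cancel, norm_mul, norm_pow] at h2
    have h3 : ‖u‖ ^ (ν + 1) ≤ ‖u‖ ^ 3 := pow_le_pow_of_le_one (norm_nonneg _) hu1 (by omega)
    have h4 : ‖u‖ ^ (ν + 2) ≤ ‖u‖ ^ 3 := pow_le_pow_of_le_one (norm_nonneg _) hu1 (by omega)
    have h5 : ‖h' u - a * u ^ (ν + 1)‖ ≤ K * ‖u‖ ^ (ν + 2) := by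
      rw [hh']
      exact h1
    have h6 := mul_le_mul_of_nonneg_left h3 (norm_nonneg a)
    have h7 := mul_le_mul_of_nonneg_left h4 hK
    rw [hK', add_mul]
    linarith
  have hquad : ∀ u : ℂ, u ≠ 0 → ‖u‖ < min r 1 / 4 →
      ‖deriv ((fc d c₀)^[p]) (z₀ + u) - 1‖ ≤ 8 * K' * ‖u‖ ^ 2 := by
    intro u hu0 hu
    have hup : 0 < ‖u‖ := norm_pos_iff.2 hu0
    rw [← hder']
    have h1 := Complex.norm_deriv_le_of_forall_mem_sphere_norm_le (f := h') (c := u) (R := ‖u‖)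
      (C := K' * (2 * ‖u‖) ^ 3) hup hd'.diffContOnCl (by
        intro v hv
        rw [mem_sphere_iff_norm] at hv
        have h2 : ‖v‖ ≤ 2 * ‖u‖ := by
          have := norm_add_le (v - u) u
          rw [sub_add_cancel] at this
          linarith
        have h3 := hcub v (by
          have : 0 < min r 1 := lt_min hr one_pos
          linarith)
        have hK'0 : 0 ≤ K' := by rw [hK']; positivity
        refine h3.trans (mul_le_mul_of_nonneg_left ?_ hK'0)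
        exact pow_le_pow_left₀ (norm_nonneg _) h2 3)
    refine h1.trans (le_of_eq ?_)
    field_simp
    ring
  -- the derivative vanishes
  have hslope := hasDerivAt_iff_tendsto_slope_zero.1 hSd
  have hz : Tendsto (fun t : ℂ => t⁻¹ • (deriv ((fc d c₀)^[p]) (z₀ + (0 + t)) -
      deriv ((fc d c₀)^[p]) (z₀ + 0))) (𝓝[≠] 0) (𝓝 0) := by
    rw [tendsto_zero_iff_norm_tendsto_zero]
    have h1 : Tendsto (fun t : ℂ => 8 * K' * ‖t‖) (𝓝[≠] 0) (𝓝 0) := by
      have h2 : Tendsto (fun t : ℂ => 8 * K' * ‖t‖) (𝓝 0) (𝓝 (8 * K' * ‖(0 : ℂ)‖)) :=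
        (continuous_const.mul continuous_norm).tendsto 0
      rw [norm_zero, mul_zero] at h2
      exact h2.mono_left nhdsWithin_le_nhds
    have h3 : ∀ᶠ t : ℂ in 𝓝[≠] 0, ‖t‖ < min r 1 / 4 := by
      apply nhdsWithin_le_nhds
      have h4 : (0 : ℝ) < min r 1 / 4 := by
        have : 0 < min r 1 := lt_min hr one_pos
        linarith
      have := Metric.ball_mem_nhds (0 : ℂ) h4
      filter_upwards [this] with t ht
      rwa [mem_ball_zero_iff] at ht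
    refine squeeze_zero' (Eventually.of_forall fun t => norm_nonneg _) ?_ h1
    filter_upwards [h3, self_mem_nhdsWithin] with t ht ht0
    have ht0' : t ≠ 0 := ht0
    have htp : 0 < ‖t‖ := norm_pos_iff.2 ht0'
    rw [zero_add, add_zero, hder, norm_smul, norm_inv]
    have h5 := hquad t ht0' ht
    calc ‖t‖⁻¹ * ‖deriv ((fc d c₀)^[p]) (z₀ + t) - 1‖ ≤ ‖t‖⁻¹ * (8 * K' * ‖t‖ ^ 2) :=
          mul_le_mul_of_nonneg_left h5 (by positivity)
      _ = 8 * K' * ‖t‖ := by field_simp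
  exact hS (tendsto_nhds_unique hslope hz)

/-- the derivative with respect to the parameter -/
theorem param_ne (hd : 2 ≤ d) {p : ℕ} (hp : 1 ≤ p)
    (hmin : Function.minimalPeriod (fc d c₀) z₀ = p) (hder : deriv ((fc d c₀)^[p]) z₀ = 1) :
    deriv (fun ε : ℂ => (fc d (c₀ + ε))^[p] z₀) 0 ≠ 0 := by
  obtain ⟨D, hD⟩ : ∃ D : ℕ → ℂ, D = fun j => deriv ((fc d c₀)^[j]) z₀ := ⟨_, rfl⟩
  have hprod : ∏ j ∈ Finset.range p, ((d : ℂ) * ((fc d c₀)^[j] z₀) ^ (d - 1)) = 1 := by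
    rw [← deriv_iter, hder]
  have hDs : ∀ j, D (j + 1) = D j * (d * ((fc d c₀)^[j] z₀) ^ (d - 1)) := by
    intro j
    rw [hD]
    simp only
    rw [deriv_iter, deriv_iter, Finset.prod_range_succ]
  have hD0 : D 0 = 1 := by rw [hD]; simp
  have hDne : ∀ j ≤ p, D j ≠ 0 := by
    intro j hj
    rw [hD]
    simp only
    rw [deriv_iter, Finset.prod_ne_zero_iff]
    intro i hi
    exact Finset.prod_ne_zero_iff.1 (by rw [hprod]; exact one_ne_zero) i
      (Finset.mem_range.2 (by have := Finset.mem_range.1 hi; omega))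
  have key : ∀ j ≤ p, HasDerivAt (fun ε : ℂ => (fc d (c₀ + ε))^[j] z₀)
      (D j * ∑ i ∈ Finset.range j, (D (i + 1))⁻¹) 0 := by
    intro j
    induction j with
    | zero =>
      intro _
      simp only [Function.iterate_zero, id, Finset.range_zero, Finset.sum_empty, mul_zero]
      exact hasDerivAt_const _ _
    | succ j ih =>
      intro hj
      have h1 := ih (by omega)
      have h2 : HasDerivAt (fun ε : ℂ => ((fc d (c₀ + ε))^[j] z₀) ^ d + (c₀ + ε))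
          (d * ((fc d (c₀ + 0))^[j] z₀) ^ (d - 1) * (D j * ∑ i ∈ Finset.range j, (D (i + 1))⁻¹) +
            1) 0 := (h1.fun_pow d).add ((hasDerivAt_id (0 : ℂ)).const_add c₀)
      have h3 : (fun ε : ℂ => (fc d (c₀ + ε))^[j + 1] z₀) =
          fun ε => ((fc d (c₀ + ε))^[j] z₀) ^ d + (c₀ + ε) := by
        funext ε
        rw [Function.iterate_succ_apply']
        rfl
      rw [h3]
      have h4 : D (j + 1) * ∑ i ∈ Finset.range (j + 1), (D (i + 1))⁻¹ =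
          d * ((fc d (c₀ + 0))^[j] z₀) ^ (d - 1) * (D j * ∑ i ∈ Finset.range j, (D (i + 1))⁻¹) +
            1 := by
        rw [Finset.sum_range_succ, mul_add, mul_inv_cancel₀ (hDne (j + 1) hj), hDs, add_zero]
        ring
      rw [h4]
      exact h2
  have h1 := key p le_rfl
  rw [h1.deriv]
  refine mul_ne_zero (hDne p le_rfl) ?_
  rw [hD]
  exact (nondeg_primitive hd hp hmin hder).1

/-- the second derivative and the germ -/
theorem second_eq {p : ℕ} {a : ℂ → ℂ} (ha : AnalyticAt ℂ a 0)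
    (hev : ∀ᶠ u in 𝓝 (0 : ℂ), (fc d c₀)^[p] (z₀ + u) = z₀ + u + u ^ (1 + 1) * a u) :
    HasDerivAt (fun u => deriv ((fc d c₀)^[p]) (z₀ + u)) (2 * a 0) 0 := by
  have h1 : ∀ᶠ u in 𝓝 (0 : ℂ), deriv ((fc d c₀)^[p]) (z₀ + u) =
      1 + (2 * u * a u + u ^ 2 * deriv a u) := by
    filter_upwards [hev.eventually_nhds, ha.eventually_analyticAt] with u hu hau
    have k1 : HasDerivAt (fun v => (fc d c₀)^[p] (z₀ + v)) (deriv ((fc d c₀)^[p]) (z₀ + u)) u :=
      ((diff_it_y d p c₀) (z₀ + u)).hasDerivAt.comp_const_add z₀ u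
    have k2 : HasDerivAt (fun v => z₀ + v + v ^ (1 + 1) * a v)
        (1 + (2 * u * a u + u ^ 2 * deriv a u)) u := by
      have k3 : HasDerivAt (fun v : ℂ => v ^ (1 + 1)) (2 * u) u := by
        have := hasDerivAt_pow (1 + 1) u
        simpa using this
      have k4 := ((hasDerivAt_id u).const_add z₀).add (k3.mul hau.differentiableAt.hasDerivAt)
      exact k4
    exact k1.unique (k2.congr_of_eventuallyEq hu)
  have h2 : HasDerivAt (fun u => 1 + (2 * u * a u + u ^ 2 * deriv a u)) (2 * a 0) 0 := by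
    have k1 : HasDerivAt (fun u : ℂ => 2 * u) 2 0 := by
      simpa using (hasDerivAt_id (0 : ℂ)).const_mul 2
    have k2 : HasDerivAt (fun u : ℂ => u ^ 2) (2 * 0) 0 := by
      simpa using hasDerivAt_pow 2 (0 : ℂ)
    have k3 := (k1.mul ha.differentiableAt.hasDerivAt).add
      (k2.mul ha.deriv.differentiableAt.hasDerivAt)
    have k4 := k3.const_add 1
    have e1 : (2 : ℂ) * a 0 + 2 * 0 * deriv a 0 + (2 * 0 * deriv a 0 + 0 ^ 2 * deriv (deriv a) 0) =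
        2 * a 0 := by ring
    rw [e1] at k4
    exact k4
  exact h2.congr_of_eventuallyEq h1

/-- **Primitive parabolic parameters.** -/
theorem chart_primitive (hd : 2 ≤ d) {p : ℕ} (hp : 1 ≤ p)
    (hmin : Function.minimalPeriod (fc d c₀) z₀ = p) (hder : deriv ((fc d c₀)^[p]) z₀ = 1) :
    ∃ X : ℝ, X ^ 2 = 2 * Real.pi ^ 2 / (‖deriv (fun u => deriv ((fc d c₀)^[p]) (z₀ + u)) 0‖ *
      ‖deriv (fun ε : ℂ => (fc d (c₀ + ε))^[p] z₀) 0‖) ∧ Chart d p c₀ z₀ 2 X := by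
  have hfix : (fc d c₀)^[p] z₀ = z₀ := by
    rw [← hmin]
    exact Function.iterate_minimalPeriod
  obtain ⟨ν, af, K1, r1, hν, ha0, hK1, hr1, hgerm, haf, hafev⟩ := germ_bound hd hp hfix hder
  have hν1 := one_petal hd hp hmin hder hν hK1 hr1 hgerm
  subst hν1
  have hSa := (second_eq haf hafev).deriv
  obtain ⟨a, hadef⟩ : ∃ a, a = af 0 := ⟨_, rfl⟩
  rw [← hadef] at ha0 hgerm hSa
  obtain ⟨β, hβ⟩ : ∃ β, β = deriv (fun ε : ℂ => (fc d (c₀ + ε))^[p] z₀) 0 := ⟨_, rfl⟩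
  have hβ0 : β ≠ 0 := by rw [hβ]; exact param_ne hd hp hmin hder
  obtain ⟨w, hw⟩ := IsAlgClosed.exists_pow_nat_eq (-β / a) (show 0 < 2 by norm_num)
  have hw0 : w ≠ 0 := by
    intro h
    rw [h, zero_pow (by norm_num)] at hw
    exact (div_ne_zero (neg_ne_zero.2 hβ0) ha0) hw.symm
  have haw : a * w ^ 2 + β = 0 := by
    rw [hw]
    field_simp
    ring
  -- the dependence on the parameter
  obtain ⟨K, ρ, hK, hρ, hlip⟩ := lip d p c₀ z₀
  obtain ⟨Φ, hΦ⟩ : ∃ Φ : ℂ × ℂ → ℂ, Φ = fun q => (fc d q.1)^[p] q.2 := ⟨_, rfl⟩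
  have hΦc : ContDiff ℂ ⊤ Φ := by rw [hΦ]; exact contDiff_it d p
  obtain ⟨τ, hτ⟩ : ∃ τ : ℂ → ℂ, τ = fun v => fderiv ℂ Φ (c₀, z₀ + v) (1, 0) := ⟨_, rfl⟩
  have hτder : ∀ v, HasDerivAt (fun ε : ℂ => (fc d (c₀ + ε))^[p] (z₀ + v)) (τ v) 0 := by
    intro v
    have h1 : HasFDerivAt Φ (fderiv ℂ Φ (c₀, z₀ + v)) (c₀ + 0, z₀ + v) := by
      rw [add_zero]
      exact (hΦc.differentiable (by simp) _).hasFDerivAt
    have h2 : HasDerivAt (fun ε : ℂ => ((c₀ + ε, z₀ + v) : ℂ × ℂ)) ((1 : ℂ), (0 : ℂ)) 0 :=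
      ((hasDerivAt_id (0 : ℂ)).const_add c₀).prodMk (hasDerivAt_const _ _)
    have h3 := h1.comp_hasDerivAt (0 : ℂ) h2
    rw [hτ]
    rw [hΦ] at h3 ⊢
    exact h3
  have hτ0 : τ 0 = β := by
    have h1 := hτder 0
    simp only [add_zero] at h1
    rw [hβ]
    exact h1.deriv.symm
  have hτd : DifferentiableAt ℂ τ 0 := by
    rw [hτ]
    have h1 : ContDiff ℂ 1 (fderiv ℂ Φ) := hΦc.fderiv_right (by simp)
    have h2 : ContDiff ℂ 1 fun v : ℂ => fderiv ℂ Φ (c₀, z₀ + v) (1, 0) := by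
      apply ContDiff.clm_apply _ contDiff_const
      apply h1.comp
      exact contDiff_const.prodMk (contDiff_const.add contDiff_id)
    exact h2.differentiable (by simp) 0
  obtain ⟨Kτ, hKτ⟩ := (hτd.hasDerivAt.isBigO_sub).bound
  obtain ⟨r2, hr2, hball2⟩ := Metric.eventually_nhds_iff.1 hKτ
  -- the estimate for the dependence on the parameter
  obtain ⟨K5, hK5⟩ : ∃ K5, K5 = 2 * (K * ρ) / ρ ^ 2 + |Kτ| := ⟨_, rfl⟩
  have hK50 : 0 ≤ K5 := by rw [hK5]; positivity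
  have hpar : ∀ ε v : ℂ, ‖ε‖ < ρ → ‖v‖ < ρ → ‖v‖ < r2 →
      ‖(fc d (c₀ + ε))^[p] (z₀ + v) - (fc d c₀)^[p] (z₀ + v) - β * ε‖ ≤
        K5 * (‖ε‖ * (‖ε‖ + ‖v‖)) := by
    intro ε v hε hv hv2
    have h1 := second_order (f := fun ε : ℂ => (fc d (c₀ + ε))^[p] (z₀ + v) -
      (fc d c₀)^[p] (z₀ + v)) (ρ := ρ) (M := K * ρ) hρ (by
        intro e _
        apply DifferentiableAt.differentiableWithinAt
        apply DifferentiableAt.sub_const
        have h2 : DifferentiableAt ℂ Φ (c₀ + e, z₀ + v) := hΦc.differentiable (by simp) _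
        have hin : DifferentiableAt ℂ (fun e : ℂ => ((c₀ + e, z₀ + v) : ℂ × ℂ)) e := by fun_prop
        have h3 := DifferentiableAt.comp (g := Φ) (f := fun e : ℂ => ((c₀ + e, z₀ + v) : ℂ × ℂ))
          e h2 hin
        rw [hΦ] at h3
        exact h3) (by rw [add_zero, sub_self]) (by
        intro e he
        rw [mem_ball_zero_iff] at he
        have h2 := hlip (c₀ + e) (z₀ + v) c₀ (z₀ + v) (by rwa [add_sub_cancel_left])
          (by rwa [add_sub_cancel_left]) (by rw [sub_self, norm_zero]; exact hρ)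
          (by rwa [add_sub_cancel_left])
        rw [add_sub_cancel_left, sub_self, norm_zero, add_zero] at h2
        exact h2.trans (mul_le_mul_of_nonneg_left he.le hK)) hε
    rw [((hτder v).sub_const _).deriv] at h1
    have h2 : ‖τ v - β‖ ≤ |Kτ| * ‖v‖ := by
      have h3 := hball2 (y := v) (by rwa [dist_zero_right])
      rw [hτ0, sub_zero] at h3
      exact h3.trans (mul_le_mul_of_nonneg_right (le_abs_self Kτ) (norm_nonneg _))
    have e1 : (fc d (c₀ + ε))^[p] (z₀ + v) - (fc d c₀)^[p] (z₀ + v) - β * ε =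
        ((fc d (c₀ + ε))^[p] (z₀ + v) - (fc d c₀)^[p] (z₀ + v) - τ v * ε) + (τ v - β) * ε := by
      ring
    rw [e1]
    refine (norm_add_le _ _).trans ?_
    rw [norm_mul]
    have hε0 := norm_nonneg ε
    have hv0 := norm_nonneg v
    have h3 : ‖τ v - β‖ * ‖ε‖ ≤ |Kτ| * ‖v‖ * ‖ε‖ := mul_le_mul_of_nonneg_right h2 hε0
    have h4 : 0 ≤ 2 * (K * ρ) / ρ ^ 2 := by positivity
    have h5 : 0 ≤ 2 * (K * ρ) / ρ ^ 2 * (‖ε‖ * ‖v‖) := by positivity
    have h6 : 0 ≤ |Kτ| * (‖ε‖ * ‖ε‖) := by positivity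
    rw [hK5]
    calc _ ≤ 2 * (K * ρ) / ρ ^ 2 * ‖ε‖ ^ 2 + |Kτ| * ‖v‖ * ‖ε‖ := add_le_add h1 h3
      _ ≤ 2 * (K * ρ) / ρ ^ 2 * ‖ε‖ ^ 2 + |Kτ| * ‖v‖ * ‖ε‖ +
          (2 * (K * ρ) / ρ ^ 2 * (‖ε‖ * ‖v‖) + |Kτ| * (‖ε‖ * ‖ε‖)) := by linarith
      _ = _ := by ring
  -- the radius
  obtain ⟨W, hW⟩ : ∃ W, W = ‖w‖ + 1 := ⟨_, rfl⟩
  have hW1 : 1 ≤ W := by rw [hW]; linarith [norm_nonneg w]
  obtain ⟨r, hr⟩ : ∃ r, r = min (min 1 (r1 / (2 * W))) (min (r2 / (2 * W)) (ρ / (2 * W))) :=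
    ⟨_, rfl⟩
  have hr0 : 0 < r := by
    rw [hr]
    exact lt_min (lt_min one_pos (by positivity)) (lt_min (by positivity) (by positivity))
  have hrr0 : r ≤ 1 := by rw [hr]; exact (min_le_left _ _).trans (min_le_left _ _)
  have hrr1 : 2 * W * r ≤ r1 := by
    have h1 : r ≤ r1 / (2 * W) := by rw [hr]; exact (min_le_left _ _).trans (min_le_right _ _)
    rw [le_div_iff₀ (by positivity)] at h1
    linarith
  have hrr2 : 2 * W * r ≤ r2 := by
    have h1 : r ≤ r2 / (2 * W) := by rw [hr]; exact (min_le_right _ _).trans (min_le_left _ _)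
    rw [le_div_iff₀ (by positivity)] at h1
    linarith
  have hrr3 : 2 * W * r ≤ ρ := by
    have h1 : r ≤ ρ / (2 * W) := by rw [hr]; exact (min_le_right _ _).trans (min_le_right _ _)
    rw [le_div_iff₀ (by positivity)] at h1
    linarith
  have han : 0 < ‖a‖ := norm_pos_iff.2 ha0
  have hβn : 0 < ‖β‖ := norm_pos_iff.2 hβ0
  have hwn : ‖w‖ ^ 2 = ‖β‖ / ‖a‖ := by rw [← norm_pow, hw, norm_div, norm_neg]
  refine ⟨2 * Real.pi / ((1 : ℕ) * ‖2 * a * w‖), ?_, 1, a, 2 * a * w,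
    3 * K1 * W ^ 3 + 2 * K5 * W, r, fun s => z₀ + w * s, le_rfl, ha0,
    mul_ne_zero (mul_ne_zero two_ne_zero ha0) hw0, by positivity, hr0, rfl,
    by fun_prop, by simp, ?_⟩
  · rw [← hβ, hSa, norm_mul, norm_mul, Complex.norm_ofNat, Nat.cast_one, one_mul, div_pow, mul_pow,
      mul_pow, mul_pow, hwn]
    field_simp
  intro s u hs hu
  obtain ⟨v, hv⟩ : ∃ v, v = w * s + u := ⟨_, rfl⟩
  have hs0 := norm_nonneg s
  have hu0 := norm_nonneg u
  have hvb : ‖v‖ ≤ W * (‖s‖ + ‖u‖) := by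
    rw [hv]
    refine (norm_add_le _ _).trans ?_
    rw [norm_mul, hW]
    nlinarith [norm_nonneg w]
  have hvr : ‖v‖ < 2 * W * r := by
    calc ‖v‖ ≤ W * (‖s‖ + ‖u‖) := hvb
      _ < W * (r + r) := by
          apply mul_lt_mul_of_pos_left _ (by linarith)
          linarith
      _ = 2 * W * r := by ring
  have hs1 : ‖s‖ ≤ 1 := by linarith
  have hs2 : ‖s ^ 2‖ < ρ := by
    rw [norm_pow]
    nlinarith
  have g1 := hgerm v (by linarith)
  have g2 := hpar (s ^ 2) v hs2 (by linarith) (by linarith)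
  have e1 : (fc d (c₀ + s ^ 2))^[p] (z₀ + w * s + u) - (z₀ + w * s) -
      u * (1 + 2 * a * w * s + a * u ^ 1) =
      ((fc d c₀)^[p] (z₀ + v) - z₀ - v - a * v ^ (1 + 1)) +
      ((fc d (c₀ + s ^ 2))^[p] (z₀ + v) - (fc d c₀)^[p] (z₀ + v) - β * s ^ 2) +
      (a * w ^ 2 + β) * s ^ 2 := by
    have e2 : z₀ + w * s + u = z₀ + v := by rw [hv]; ring
    rw [e2, hv]
    ring
  show ‖(fc d (c₀ + s ^ 2))^[p] (z₀ + w * s + u) - (z₀ + w * s) -
      u * (1 + 2 * a * w * s + a * u ^ 1)‖ ≤ _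
  rw [e1, haw, zero_mul, add_zero]
  refine (norm_add_le _ _).trans ((add_le_add g1 g2).trans ?_)
  obtain ⟨x, hx⟩ : ∃ x, x = ‖s‖ := ⟨_, rfl⟩
  obtain ⟨y, hy⟩ : ∃ y, y = ‖u‖ := ⟨_, rfl⟩
  obtain ⟨t, ht⟩ : ∃ t, t = ‖v‖ := ⟨_, rfl⟩
  rw [← hx, ← hy, ← ht] at hvb
  rw [norm_pow, ← hx, ← hy, ← ht]
  rw [← hx] at hs0 hs1
  rw [← hy] at hu0
  have ht0 : 0 ≤ t := by rw [ht]; exact norm_nonneg _
  have c1 : t ^ 3 ≤ 3 * W ^ 3 * (y ^ 3 + x * y ^ 2 + x ^ 2 * y + x ^ 3) := by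
    calc t ^ 3 ≤ (W * (x + y)) ^ 3 := pow_le_pow_left₀ ht0 hvb 3
      _ = W ^ 3 * (x + y) ^ 3 := by ring
      _ ≤ W ^ 3 * (3 * (y ^ 3 + x * y ^ 2 + x ^ 2 * y + x ^ 3)) := by
          apply mul_le_mul_of_nonneg_left _ (by positivity)
          have : 0 ≤ x ^ 3 + y ^ 3 := by positivity
          nlinarith
      _ = _ := by ring
  have c2 : x ^ 2 * (x ^ 2 + t) ≤ 2 * W * (y ^ 3 + x * y ^ 2 + x ^ 2 * y + x ^ 3) := by
    have h1 : x ^ 2 ≤ W * x := by nlinarith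
    calc x ^ 2 * (x ^ 2 + t) ≤ x ^ 2 * (W * x + W * (x + y)) := by gcongr
      _ = W * (2 * x ^ 3 + x ^ 2 * y) := by ring
      _ ≤ W * (2 * (y ^ 3 + x * y ^ 2 + x ^ 2 * y + x ^ 3)) := by
          apply mul_le_mul_of_nonneg_left _ (by linarith)
          have h2 : 0 ≤ y ^ 3 := by positivity
          have h3 : 0 ≤ x * y ^ 2 := by positivity
          have h4 : 0 ≤ x ^ 2 * y := by positivity
          linarith
      _ = _ := by ring
  calc K1 * t ^ (1 + 2) + K5 * (x ^ 2 * (x ^ 2 + t))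
      ≤ K1 * (3 * W ^ 3 * (y ^ 3 + x * y ^ 2 + x ^ 2 * y + x ^ 3)) +
        K5 * (2 * W * (y ^ 3 + x * y ^ 2 + x ^ 2 * y + x ^ 3)) := by gcongr
    _ = _ := by ring

end Pool.Agent.Run7.h15.Tr
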