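import Pool.Agent.Run7.h15.Tr.SD
import Pool.Agent.Y736.HG1
import Pool.Agent.Run7.h15.Par.Fin

/-!
# Green's function of the complement of the Multibrot sets near a parabolic parameter
-/

set_option autoImplicit false

namespace Pool.Agent.Run7.h15.Tr

open Complex Filter Topology Metric Set N62a1eb23
open Pool.Agent.H712R2 (P P_succ P_one P_zero fc continuous_P mem_multibrot_iff)
open Pool.Agent.H713R2 (IsExteriorMap)
open Pool.Agent.Run7.h15.Par

variable {d : ℕ} {c₀ : ℂ}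

/-- **Upper bound.** -/
theorem green_upper (hd : 2 ≤ d) {e : ℕ} (he : 1 ≤ e) {L : ℝ} (hL : 0 < L) (hlaw : Law d e c₀ L)
    (hc₀ : c₀ ∈ multibrotSet d) {θ : ℝ} (hθ0 : 0 < θ) (hθ1 : θ < 1) :
    ∃ s₀ : ℝ, 0 < s₀ ∧ ∀ ψ : ℂ → ℂ, IsExteriorMap (multibrotSet d) ψ →
      ∀ s : ℝ, 0 < s → s ≤ s₀ → ∀ w : ℂ, 1 < ‖w‖ → ‖ψ w - c₀‖ ≤ s ^ e →
        Real.log ‖w‖ ≤ Real.exp (-(θ * (L * Real.log d) / s)) := by
  have hdR : (2 : ℝ) ≤ d := by exact_mod_cast hd
  have hlogd : 0 < Real.log d := Real.log_pos (by linarith)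
  have hlog2 : Real.log 2 ≤ Real.log d := Real.log_le_log (by norm_num) hdR
  obtain ⟨θ', hθ'⟩ : ∃ θ' : ℝ, θ' = (1 + θ) / 2 := ⟨_, rfl⟩
  have hθ'0 : 0 < θ' := by rw [hθ']; linarith
  have hθ'1 : θ' < 1 := by rw [hθ']; linarith
  have hθθ' : θ < θ' := by rw [hθ']; linarith
  obtain ⟨m₀, hm₀⟩ := hlaw.1 θ' hθ'0 hθ'1
  refine ⟨min (min 1 (θ' * L / (m₀ + 2))) ((θ' - θ) * L / 3), by
    have : 0 < (θ' - θ) * L / 3 := by
      have : 0 < θ' - θ := by linarith
      positivity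
    exact lt_min (lt_min one_pos (by positivity)) this, ?_⟩
  intro ψ hψ s hs hss w hw hws
  have hs1 : s ≤ 1 := (hss.trans (min_le_left _ _)).trans (min_le_left _ _)
  have hs2 : s ≤ θ' * L / (m₀ + 2) := (hss.trans (min_le_left _ _)).trans (min_le_right _ _)
  have hs3 : s ≤ (θ' - θ) * L / 3 := hss.trans (min_le_right _ _)
  obtain ⟨m, hm⟩ : ∃ m, m = ⌊θ' * L / s⌋₊ := ⟨_, rfl⟩
  have hm1 : (m : ℝ) ≤ θ' * L / s := by rw [hm]; exact Nat.floor_le (by positivity)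
  have hm2 : θ' * L / s < m + 1 := by rw [hm]; exact Nat.lt_floor_add_one _
  have hm3 : (m₀ : ℝ) + 2 ≤ θ' * L / s := by
    rw [le_div_iff₀ hs]
    rw [le_div_iff₀ (by positivity)] at hs2
    linarith
  have hm4 : m₀ + 1 ≤ m := by
    have : (m₀ : ℝ) + 1 < m + 1 := by linarith
    have h' : m₀ + 1 < m + 1 := by exact_mod_cast this
    omega
  have hm0 : (0 : ℝ) < m := by exact_mod_cast (by omega : 0 < m)
  have h1 : ‖ψ w - c₀‖ ≤ (θ' * L / m) ^ e := by
    refine hws.trans (pow_le_pow_left₀ hs.le ?_ e)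
    rw [le_div_iff₀ hm0]
    rw [le_div_iff₀ hs] at hm1
    linarith
  have h2 := (hm₀ m (by omega) (ψ w) h1).2
  have h3 : ‖ψ w‖ ≤ 3 := by
    have h4 := (mem_multibrot_iff hd c₀).1 hc₀ 1
    rw [P_one hd] at h4
    have h5 := norm_add_le (ψ w - c₀) c₀
    rw [sub_add_cancel] at h5
    have h6 : s ^ e ≤ 1 := pow_le_one₀ hs.le hs1
    linarith
  obtain ⟨n, hn⟩ : ∃ n, m = n + 1 := ⟨m - 1, by omega⟩
  rw [hn] at h2
  have h4 := Pool.Agent.Y736.HG.green_lower hd hψ hw h3 h2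
  have hw0 : 0 < ‖w‖ := by linarith
  have h5 := Real.log_le_log (by positivity) h4
  rw [Real.log_pow] at h5
  push_cast at h5
  have hlog4 : Real.log 4 ≤ 2 := by
    have e1 : Real.log 4 = 2 * Real.log 2 := by
      rw [show (4 : ℝ) = 2 ^ 2 by norm_num, Real.log_pow]
      norm_num
    have e2 := Real.log_two_lt_d9
    rw [e1]
    linarith
  have h6 : (d : ℝ) ^ n = Real.exp (n * Real.log d) := by
    rw [← Real.log_pow, Real.exp_log (by positivity)]
  rw [h6] at h5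
  have h7 : Real.log ‖w‖ ≤ 2 * Real.exp (-(n * Real.log d)) := by
    rw [Real.exp_neg, ← div_eq_mul_inv, le_div_iff₀ (Real.exp_pos _), mul_comm]
    linarith
  have hn2 : θ' * L / s - 2 ≤ n := by
    have : (m : ℝ) = n + 1 := by rw [hn]; push_cast; ring
    linarith
  refine h7.trans ?_
  have e2 : (2 : ℝ) = Real.exp (Real.log 2) := (Real.exp_log (by norm_num)).symm
  rw [show (2 : ℝ) * Real.exp (-(n * Real.log d)) =
    Real.exp (Real.log 2) * Real.exp (-(n * Real.log d)) by rw [← e2], ← Real.exp_add]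
  apply Real.exp_le_exp.2
  have e4 : (θ' * L / s - 2) * Real.log d ≤ n * Real.log d :=
    mul_le_mul_of_nonneg_right hn2 hlogd.le
  have e5 : 3 ≤ (θ' - θ) * L / s := by
    rw [le_div_iff₀ hs]
    linarith
  have e6 : θ * (L * Real.log d) / s = θ' * L / s * Real.log d -
      (θ' - θ) * L / s * Real.log d := by ring
  rw [e6]
  nlinarith

/-- **Lower bound.** -/
theorem green_low (hd : 2 ≤ d) {e : ℕ} (he : 1 ≤ e) {L : ℝ} (hL : 0 < L) (hlaw : Law d e c₀ L)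
    {ε : ℝ} (hε : 0 < ε) :
    ∃ s₀ : ℝ, 0 < s₀ ∧ ∀ ψ : ℂ → ℂ, IsExteriorMap (multibrotSet d) ψ →
      ∀ s : ℝ, 0 < s → s ≤ s₀ → ∃ w : ℂ, 1 < ‖w‖ ∧ ‖ψ w - c₀‖ ≤ s ^ e ∧
        Real.exp (-((1 + ε) * (L * Real.log d) / s)) ≤ Real.log ‖w‖ := by
  have hdR : (2 : ℝ) ≤ d := by exact_mod_cast hd
  have hlogd : 0 < Real.log d := Real.log_pos (by linarith)
  have hlog2 : Real.log 2 ≤ Real.log d := Real.log_le_log (by norm_num) hdR
  have hlog20 : 0 < Real.log 2 := Real.log_pos (by norm_num)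
  obtain ⟨m₀, hm₀⟩ := hlaw.2 (ε / 2) (by positivity) 4 (by norm_num)
  refine ⟨min ((1 + ε / 2) * L / (m₀ + 1)) (ε / 2 * L / 2), by
    exact lt_min (by positivity) (by positivity), ?_⟩
  intro ψ hψ s hs hss
  have hs2 : s ≤ (1 + ε / 2) * L / (m₀ + 1) := hss.trans (min_le_left _ _)
  have hs3 : s ≤ ε / 2 * L / 2 := hss.trans (min_le_right _ _)
  obtain ⟨m, hm⟩ : ∃ m, m = ⌈(1 + ε / 2) * L / s⌉₊ := ⟨_, rfl⟩
  have hm1 : (1 + ε / 2) * L / s ≤ m := by rw [hm]; exact Nat.le_ceil _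
  have hm2 : (m : ℝ) < (1 + ε / 2) * L / s + 1 := by
    rw [hm]; exact Nat.ceil_lt_add_one (by positivity)
  have hm3 : (m₀ : ℝ) + 1 ≤ (1 + ε / 2) * L / s := by
    rw [le_div_iff₀ hs]
    rw [le_div_iff₀ (by positivity)] at hs2
    linarith
  have hm4 : m₀ + 1 ≤ m := by
    have : (m₀ : ℝ) + 1 ≤ m := by linarith
    exact_mod_cast this
  have hm0 : (0 : ℝ) < m := by exact_mod_cast (by omega : 0 < m)
  obtain ⟨c, hc1, hc2⟩ := hm₀ m (by omega)
  have hcM : c ∈ (multibrotSet d)ᶜ := by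
    intro h
    have := (mem_multibrot_iff hd c).1 h m
    linarith
  rw [← hψ.image] at hcM
  obtain ⟨w, hw, rfl⟩ := hcM
  have hw' : 1 < ‖w‖ := hw
  refine ⟨w, hw', ?_, ?_⟩
  · refine hc1.trans (pow_le_pow_left₀ (by positivity) ?_ e)
    rw [div_le_iff₀ hm0]
    rw [div_le_iff₀ hs] at hm1
    linarith
  · obtain ⟨n, hn⟩ : ∃ n, m = n + 1 := ⟨m - 1, by omega⟩
    rw [hn] at hc2
    have h3 := Pool.Agent.W677.MC.P_le_two hd hψ hw n
    have h4 : (2 : ℝ) < ‖w‖ ^ (d ^ n) := by linarith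
    have h5 := Real.log_lt_log (by norm_num) h4
    rw [Real.log_pow] at h5
    push_cast at h5
    have h6 : (d : ℝ) ^ n = Real.exp (n * Real.log d) := by
      rw [← Real.log_pow, Real.exp_log (by positivity)]
    rw [h6] at h5
    have h7 : Real.log 2 * Real.exp (-(n * Real.log d)) ≤ Real.log ‖w‖ := by
      rw [Real.exp_neg, ← div_eq_mul_inv, div_le_iff₀ (Real.exp_pos _), mul_comm]
      linarith
    refine le_trans ?_ h7
    have h8 : Real.exp (-1) ≤ Real.log 2 := by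
      rw [Real.exp_neg]
      have e1 := Real.exp_one_gt_d9
      have e2 := Real.log_two_gt_d9
      have : (Real.exp 1)⁻¹ ≤ (2.7)⁻¹ := inv_anti₀ (by norm_num) (by linarith)
      norm_num at this ⊢
      linarith
    refine le_trans ?_ (mul_le_mul_of_nonneg_right h8 (Real.exp_pos _).le)
    rw [← Real.exp_add]
    apply Real.exp_le_exp.2
    have e3 : (n : ℝ) ≤ (1 + ε / 2) * L / s := by
      have : (m : ℝ) = n + 1 := by rw [hn]; push_cast; ring
      linarith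
    have e4 : (n : ℝ) * Real.log d ≤ (1 + ε / 2) * L / s * Real.log d :=
      mul_le_mul_of_nonneg_right e3 hlogd.le
    have e5 : 2 ≤ ε / 2 * L / s := by
      rw [le_div_iff₀ hs]
      linarith
    have e6 : (1 + ε) * (L * Real.log d) / s = (1 + ε / 2) * L / s * Real.log d +
        ε / 2 * L / s * Real.log d := by ring
    have e7 : 1 ≤ ε / 2 * L / s * Real.log d := by
      have := Real.log_two_gt_d9
      nlinarith
    rw [e6]
    linarith

end Pool.Agent.Run7.h15.Tr
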