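import Mathlib

/-!
# The Poisson inequality for the logarithm of a polynomial
-/

set_option autoImplicit false

namespace Pool.Agent.Run7.h15.Tr

open Complex Filter Topology Metric Set
open Real (posLog circleAverage)
open scoped ComplexConjugate

theorem norm_refl {R : ℝ} {ρ z : ℂ} (hz : ‖z‖ = R) : ‖(R : ℂ) ^ 2 - conj ρ * z‖ = R * ‖z - ρ‖ := by
  have h1 : (R : ℂ) ^ 2 = z * conj z := by
    rw [Complex.mul_conj, Complex.normSq_eq_norm_sq, hz]
    push_cast
    ring
  have h2 : (R : ℂ) ^ 2 - conj ρ * z = z * conj (z - ρ) := by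
    rw [h1, map_sub]
    ring
  rw [h2, norm_mul, RCLike.norm_conj, hz]

theorem norm_refl_le {R : ℝ} (hR : 0 < R) {ρ z : ℂ} (hz : ‖z‖ ≤ R) (hρ : ‖ρ‖ ≤ R) :
    R * ‖z - ρ‖ ≤ ‖(R : ℂ) ^ 2 - conj ρ * z‖ := by
  have h1 : (R * ‖z - ρ‖) ^ 2 ≤ ‖(R : ℂ) ^ 2 - conj ρ * z‖ ^ 2 := by
    have e1 : ‖(R : ℂ) ^ 2 - conj ρ * z‖ ^ 2 - (R * ‖z - ρ‖) ^ 2 =
        (R ^ 2 - ‖z‖ ^ 2) * (R ^ 2 - ‖ρ‖ ^ 2) := by
      rw [mul_pow, ← Complex.normSq_eq_norm_sq, ← Complex.normSq_eq_norm_sq,
        ← Complex.normSq_eq_norm_sq, ← Complex.normSq_eq_norm_sq]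
      have e2 : (R : ℂ) ^ 2 = ((R ^ 2 : ℝ) : ℂ) := by push_cast; ring
      rw [e2]
      simp only [Complex.normSq_apply, Complex.sub_re, Complex.sub_im, Complex.mul_re,
        Complex.mul_im, Complex.conj_re, Complex.conj_im, Complex.ofReal_re, Complex.ofReal_im]
      ring
    have h2 : 0 ≤ R ^ 2 - ‖z‖ ^ 2 := by
      have := pow_le_pow_left₀ (norm_nonneg z) hz 2
      linarith
    have h3 : 0 ≤ R ^ 2 - ‖ρ‖ ^ 2 := by
      have := pow_le_pow_left₀ (norm_nonneg ρ) hρ 2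
      linarith
    have := mul_nonneg h2 h3
    linarith
  exact le_of_pow_le_pow_left₀ two_ne_zero (norm_nonneg _) h1

/-- removal of the zeros in a disc -/
theorem exists_free {R : ℝ} (hR : 0 < R) (n : ℕ) : ∀ p : Polynomial ℂ, p.natDegree = n → p ≠ 0 →
    (∀ z, ‖z‖ = R → p.eval z ≠ 0) → ∃ g : ℂ → ℂ, Differentiable ℂ g ∧ (∀ z, ‖z‖ ≤ R → g z ≠ 0) ∧
      (∀ z, ‖z‖ = R → ‖g z‖ = ‖p.eval z‖) ∧ ∀ z, ‖z‖ ≤ R → ‖p.eval z‖ ≤ ‖g z‖ := by
  induction n using Nat.strong_induction_on with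
  | _ n ih =>
    intro p hpn hp0 hp
    by_cases h : ∃ ρ, ‖ρ‖ ≤ R ∧ p.eval ρ = 0
    · obtain ⟨ρ, hρ, hρ0⟩ := h
      have hρR : ‖ρ‖ < R := lt_of_le_of_ne hρ fun h => hp ρ h hρ0
      have hfac := (Polynomial.mul_divByMonic_eq_iff_isRoot (p := p) (a := ρ)).2 hρ0
      obtain ⟨q, hq⟩ : ∃ q, q = p /ₘ (Polynomial.X - Polynomial.C ρ) := ⟨_, rfl⟩
      rw [← hq] at hfac
      have hq0 : q ≠ 0 := by
        rintro rfl
        rw [mul_zero] at hfac
        exact hp0 hfac.symm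
      have hdeg : p.natDegree = 1 + q.natDegree := by
        rw [← hfac, Polynomial.natDegree_mul (Polynomial.X_sub_C_ne_zero ρ) hq0,
          Polynomial.natDegree_X_sub_C]
      have hev : ∀ z, p.eval z = (z - ρ) * q.eval z := by
        intro z
        rw [← hfac, Polynomial.eval_mul, Polynomial.eval_sub, Polynomial.eval_X,
          Polynomial.eval_C]
      obtain ⟨g, hg1, hg2, hg3, hg4⟩ := ih q.natDegree (by omega) q rfl hq0 (by
        intro z hz h0
        apply hp z hz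
        rw [hev, h0, mul_zero])
      refine ⟨fun z => g z * (((R : ℂ) ^ 2 - conj ρ * z) / R), by fun_prop, ?_, ?_, ?_⟩
      · intro z hz
        apply mul_ne_zero (hg2 z hz)
        apply div_ne_zero _ (by exact_mod_cast hR.ne')
        intro h0
        have h1 : ‖conj ρ * z‖ = R ^ 2 := by
          rw [← sub_eq_zero.1 h0, norm_pow, Complex.norm_real, Real.norm_of_nonneg hR.le]
        rw [norm_mul, RCLike.norm_conj] at h1
        have h2 : ‖ρ‖ * ‖z‖ ≤ ‖ρ‖ * R := mul_le_mul_of_nonneg_left hz (norm_nonneg _)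
        nlinarith
      · intro z hz
        rw [hev, norm_mul, norm_mul, norm_div, norm_refl hz, hg3 z hz, Complex.norm_real,
          Real.norm_of_nonneg hR.le]
        field_simp
      · intro z hz
        have h1 := norm_refl_le hR hz hρ
        rw [hev, norm_mul, norm_mul, norm_div, Complex.norm_real, Real.norm_of_nonneg hR.le,
          mul_comm]
        apply mul_le_mul (hg4 z hz) _ (norm_nonneg _) (norm_nonneg _)
        rw [le_div_iff₀ hR]
        linarith
    · push Not at h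
      exact ⟨fun z => p.eval z, p.differentiable, h, fun z _ => rfl, fun z _ => le_rfl⟩

/-- **The Poisson inequality.** -/
theorem poisson_poly {R : ℝ} (hR : 0 < R) {p : Polynomial ℂ} (hp : ∀ z, ‖z‖ = R → p.eval z ≠ 0)
    {z₁ : ℂ} (hz₁ : ‖z₁‖ < R) : Real.log ‖p.eval z₁‖ ≤
      (R + ‖z₁‖) / (R - ‖z₁‖) * circleAverage (fun z => posLog ‖p.eval z‖) 0 R := by
  have habs : |R| = R := abs_of_pos hR
  have hK0 : 0 < R - ‖z₁‖ := by linarith
  have hK : 0 ≤ (R + ‖z₁‖) / (R - ‖z₁‖) := by positivity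
  have hav : 0 ≤ circleAverage (fun z => posLog ‖p.eval z‖) 0 R :=
    Real.circleAverage_nonneg_of_nonneg fun z _ => Real.posLog_nonneg
  by_cases h0 : p.eval z₁ = 0
  · rw [h0, norm_zero, Real.log_zero]
    positivity
  have hp0 : p ≠ 0 := by
    rintro rfl
    simp at h0
  obtain ⟨g, hg1, hg2, hg3, hg4⟩ := exists_free hR p.natDegree p rfl hp0 hp
  have hharm : InnerProductSpace.HarmonicOnNhd (fun z => Real.log ‖g z‖) (closedBall 0 R) := by
    intro x hx
    rw [mem_closedBall, dist_zero_right] at hx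
    exact (hg1.analyticAt x).harmonicAt_log_norm (hg2 x hx)
  have hz₁b : z₁ ∈ ball (0 : ℂ) R := by rwa [mem_ball_zero_iff]
  have h1 := hharm.circleAverage_re_herglotzRieszKernel_smul hz₁b
  have h2 : Real.log ‖p.eval z₁‖ ≤ Real.log ‖g z₁‖ :=
    Real.log_le_log (norm_pos_iff.2 h0) (hg4 z₁ hz₁.le)
  refine h2.trans ?_
  have hgc : ContinuousOn (fun z => Real.log ‖g z‖) (sphere 0 |R|) := by
    apply ContinuousOn.log hg1.continuous.norm.continuousOn
    intro z hz
    rw [habs, mem_sphere, dist_zero_right] at hz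
    exact (norm_pos_iff.2 (hg2 z hz.le)).ne'
  have hpc : ContinuousOn (fun z => posLog ‖p.eval z‖) (sphere 0 |R|) :=
    (Real.continuous_posLog.comp p.continuous.norm).continuousOn
  have hker : ContinuousOn (Complex.re ∘ herglotzRieszKernel 0 z₁) (sphere 0 |R|) :=
    Complex.continuous_re.comp_continuousOn (continuousOn_herglotzRieszKernel_sphere hz₁b)
  rw [← h1, ← smul_eq_mul, ← Real.circleAverage_fun_smul]
  apply Real.circleAverage_mono
  · exact (hker.smul hgc).circleIntegrable'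
  · exact (hpc.const_smul ((R + ‖z₁‖) / (R - ‖z₁‖))).circleIntegrable'
  · intro z hz
    rw [habs] at hz
    have hz' : ‖z‖ = R := by rwa [mem_sphere, dist_zero_right] at hz
    have k1 := le_re_herglotzRieszKernel hz hz₁b
    have k2 := re_herglotzRieszKernel_le hz hz₁b
    simp only [sub_zero] at k1 k2
    have k3 : (Complex.re ∘ herglotzRieszKernel 0 z₁) z = ((z + z₁) / (z - z₁)).re := by
      simp [herglotzRieszKernel_def]
    simp only [Pi.smul_apply', smul_eq_mul]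
    rw [k3, hg3 z hz']
    have k4 : 0 ≤ ((z + z₁) / (z - z₁)).re := le_trans (by positivity) k1
    calc ((z + z₁) / (z - z₁)).re * Real.log ‖p.eval z‖
        ≤ ((z + z₁) / (z - z₁)).re * posLog ‖p.eval z‖ :=
          mul_le_mul_of_nonneg_left (le_max_right _ _) k4
      _ ≤ _ := mul_le_mul_of_nonneg_right k2 Real.posLog_nonneg

end Pool.Agent.Run7.h15.Tr
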