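import Pool.Agent.Run7.h15.Par.Step
import Pool.Agent.T2H09.LV.TC

/-!
# Lower bounds near a parabolic parameter: the recursion for the Fatou coordinate
-/

set_option autoImplicit false

namespace Pool.Agent.Run7.h15.Tr

open Complex Filter Topology Metric Set
open Pool.Agent.Run7.h15.Par

theorem inv_pow_rem (ν : ℕ) : ∃ K : ℝ, 0 ≤ K ∧ ∀ σ : ℂ, ‖σ‖ ≤ 1 / 2 →
    ‖((1 + σ) ^ ν)⁻¹ - 1 + ν * σ‖ ≤ K * ‖σ‖ ^ 2 := by
  refine ⟨2 ^ ν * (4 ^ ν + ν * (4 ^ ν + ν)), by positivity, ?_⟩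
  intro σ hσ
  have h1 := one_add_pow_sub (hσ.trans (by norm_num)) ν
  have hl : 1 / 2 ≤ ‖1 + σ‖ := by
    have := norm_sub_norm_le (1 : ℂ) (-σ)
    rw [norm_one, norm_neg, sub_neg_eq_add] at this
    linarith
  have hne : (1 + σ) ^ ν ≠ 0 := by
    apply pow_ne_zero
    rw [← norm_pos_iff]
    linarith
  obtain ⟨E, hE⟩ : ∃ E, E = (1 + σ) ^ ν - 1 - ν * σ := ⟨_, rfl⟩
  rw [← hE] at h1
  have hpow : (1 + σ) ^ ν = 1 + ν * σ + E := by rw [hE]; ring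
  have e1 : ((1 + σ) ^ ν)⁻¹ - 1 + ν * σ =
      ((1 + σ) ^ ν)⁻¹ * (-E + ν * σ * (ν * σ + E)) := by
    have h2 : ((1 + σ) ^ ν)⁻¹ * (1 + σ) ^ ν = 1 := inv_mul_cancel₀ hne
    calc ((1 + σ) ^ ν)⁻¹ - 1 + ν * σ
        = ((1 + σ) ^ ν)⁻¹ * (1 - (1 + σ) ^ ν + ν * σ * (1 + σ) ^ ν) := by
          rw [mul_add, mul_sub, h2, mul_one, mul_comm ((ν : ℂ) * σ) ((1 + σ) ^ ν), ← mul_assoc, h2,
            one_mul]
      _ = _ := by rw [hpow]; ring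
  rw [e1, norm_mul, norm_inv, norm_pow]
  have h3 : (‖1 + σ‖ ^ ν)⁻¹ ≤ 2 ^ ν := by
    have h4 : (1 / 2 : ℝ) ^ ν ≤ ‖1 + σ‖ ^ ν := pow_le_pow_left₀ (by norm_num) hl ν
    have h5 := inv_anti₀ (by positivity) h4
    rwa [one_div, inv_pow, inv_inv] at h5
  have hs0 := norm_nonneg σ
  have h6 : ‖-E + ν * σ * (ν * σ + E)‖ ≤ (4 ^ ν + ν * (4 ^ ν + ν)) * ‖σ‖ ^ 2 := by
    have e2 : ‖E‖ ≤ 4 ^ ν * ‖σ‖ := by
      refine h1.trans ?_
      have : ‖σ‖ ^ 2 ≤ ‖σ‖ := by nlinarith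
      exact mul_le_mul_of_nonneg_left this (by positivity)
    calc ‖-E + ν * σ * (ν * σ + E)‖ ≤ ‖E‖ + ν * ‖σ‖ * (ν * ‖σ‖ + ‖E‖) := by
          refine (norm_add_le _ _).trans ?_
          rw [norm_neg, norm_mul, norm_mul, Complex.norm_natCast]
          gcongr
          refine (norm_add_le _ _).trans ?_
          rw [norm_mul, Complex.norm_natCast]
      _ ≤ 4 ^ ν * ‖σ‖ ^ 2 + ν * ‖σ‖ * (ν * ‖σ‖ + 4 ^ ν * ‖σ‖) := by gcongr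
      _ = _ := by ring
  calc (‖1 + σ‖ ^ ν)⁻¹ * ‖-E + ν * σ * (ν * σ + E)‖
      ≤ 2 ^ ν * ((4 ^ ν + ν * (4 ^ ν + ν)) * ‖σ‖ ^ 2) :=
        mul_le_mul h3 h6 (norm_nonneg _) (by positivity)
    _ = _ := by ring

/-- the local form of the family -/
def Fam (ν : ℕ) (a α : ℂ) (C r : ℝ) (G : ℂ → ℂ → ℂ) : Prop :=
  ∀ s u : ℂ, ‖s‖ < r → ‖u‖ < r → ‖G s u - u * (1 + α * s + a * u ^ ν)‖ ≤
    C * (‖u‖ ^ (ν + 2) + ‖s‖ * ‖u‖ ^ 2 + ‖s‖ ^ 2 * ‖u‖ + ‖s‖ ^ (ν + 2))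

/-- **One step in the Fatou coordinate.** -/
theorem one_step {ν : ℕ} (hν : 1 ≤ ν) {a α : ℂ} (ha : a ≠ 0) {C r : ℝ} (hC : 0 ≤ C) (hr : 0 < r)
    {G : ℂ → ℂ → ℂ} (hG : Fam ν a α C r G) {η : ℝ} (hη : 0 < η) :
    ∃ κ R C₁ : ℝ, 0 < κ ∧ 1 ≤ R ∧ 0 ≤ C₁ ∧ ∀ s u : ℂ, ‖s‖ < r → u ≠ 0 → R ≤ ‖V ν a u‖ →
      ‖s‖ * ‖V ν a u‖ ≤ κ → ∃ σ : ℂ, G s u = u * (1 + σ) ∧
        ‖σ - a * u ^ ν‖ ≤ η * ‖a * u ^ ν‖ ∧ ‖a * u ^ ν‖ ≤ η ∧
        ‖V ν a (G s u) - V ν a u * (1 - ν * α * s) - 1‖ ≤ C₁ * ‖u‖ := by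
  obtain ⟨K, hK, hKb⟩ := inv_pow_rem ν
  have hνR : (1 : ℝ) ≤ ν := by exact_mod_cast hν
  have hνC : (ν : ℂ) ≠ 0 := by exact_mod_cast (by omega : ν ≠ 0)
  have han : 0 < ‖a‖ := norm_pos_iff.2 ha
  have hαn := norm_nonneg α
  obtain ⟨κ, hκ⟩ : ∃ κ : ℝ, κ = min 1 (η / (4 * (ν * (‖α‖ + 1)))) := ⟨_, rfl⟩
  have hκ0 : 0 < κ := by rw [hκ]; exact lt_min one_pos (by positivity)
  have hκ1 : κ ≤ 1 := by rw [hκ]; exact min_le_left _ _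
  have hκη : κ * (ν * (‖α‖ + 1)) ≤ η / 4 := by
    have h1 : κ ≤ η / (4 * (ν * (‖α‖ + 1))) := by rw [hκ]; exact min_le_right _ _
    calc κ * (ν * (‖α‖ + 1)) ≤ η / (4 * (ν * (‖α‖ + 1))) * (ν * (‖α‖ + 1)) :=
          mul_le_mul_of_nonneg_right h1 (by positivity)
      _ = η / 4 := by field_simp
  -- constants
  obtain ⟨k1, hk1⟩ : ∃ k1 : ℝ, k1 = ν * ‖a‖ := ⟨_, rfl⟩
  have hk10 : 0 < k1 := by rw [hk1]; positivity
  obtain ⟨C3, hC3⟩ : ∃ C3 : ℝ, C3 = C * (1 + k1 + k1 ^ 2 + k1 ^ (ν + 2)) := ⟨_, rfl⟩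
  have hC30 : 0 ≤ C3 := by rw [hC3]; positivity
  obtain ⟨C4, hC4⟩ : ∃ C4 : ℝ, C4 = ‖α‖ * k1 + ‖a‖ + C3 := ⟨_, rfl⟩
  have hC40 : 0 ≤ C4 := by rw [hC4]; positivity
  -- smallness of `u`
  obtain ⟨τ, hτ⟩ : ∃ τ : ℝ, τ = min (min 1 r) (min (η * ‖a‖ / (4 * (C3 + 1)))
    (min (1 / (2 * (C4 + 1))) (η / (‖a‖ + 1)))) := ⟨_, rfl⟩
  have hτ0 : 0 < τ := by
    rw [hτ]
    exact lt_min (lt_min one_pos hr) (lt_min (by positivity) (lt_min (by positivity)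
      (by positivity)))
  have hτ1 : τ ≤ 1 := by rw [hτ]; exact (min_le_left _ _).trans (min_le_left _ _)
  have hτr : τ ≤ r := by rw [hτ]; exact (min_le_left _ _).trans (min_le_right _ _)
  have hτ2 : τ ≤ η * ‖a‖ / (4 * (C3 + 1)) := by
    rw [hτ]; exact (min_le_right _ _).trans (min_le_left _ _)
  have hτ3 : τ ≤ 1 / (2 * (C4 + 1)) := by
    rw [hτ]; exact ((min_le_right _ _).trans (min_le_right _ _)).trans (min_le_left _ _)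
  have hτ4 : τ ≤ η / (‖a‖ + 1) := by
    rw [hτ]; exact ((min_le_right _ _).trans (min_le_right _ _)).trans (min_le_right _ _)
  refine ⟨κ, 2 / (k1 * τ ^ ν) + 1, (ν * C3 + K * C4 ^ 2) / k1, hκ0, ?_, by positivity, ?_⟩
  · have : 0 < 2 / (k1 * τ ^ ν) := by positivity
    linarith
  intro s u hs hu hV hsV
  have hm0 : 0 < ‖u‖ := norm_pos_iff.2 hu
  obtain ⟨m, hm⟩ : ∃ m, m = ‖u‖ := ⟨_, rfl⟩
  rw [← hm] at hm0
  have hVn : ‖V ν a u‖ = (k1 * m ^ ν)⁻¹ := by rw [norm_V, hk1, hm, mul_assoc]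
  have hmτ : m < τ := by
    by_contra hcon
    push Not at hcon
    have h1 : k1 * τ ^ ν ≤ k1 * m ^ ν := by
      have := pow_le_pow_left₀ hτ0.le hcon ν
      gcongr
    have h2 := inv_anti₀ (by positivity) h1
    rw [hVn] at hV
    have h3 : (k1 * τ ^ ν)⁻¹ ≤ 2 / (k1 * τ ^ ν) := by
      rw [div_eq_mul_inv]
      have : 0 < (k1 * τ ^ ν)⁻¹ := by positivity
      linarith
    linarith
  have hm1 : m ≤ 1 := by linarith
  have hmν : m ^ ν ≤ m := by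
    calc m ^ ν ≤ m ^ 1 := pow_le_pow_of_le_one hm0.le hm1 hν
      _ = m := pow_one m
  have hmν0 : 0 < m ^ ν := by positivity
  -- bound for `s`
  have hs1 : ‖s‖ ≤ κ * (k1 * m ^ ν) := by
    rw [hVn, ← div_eq_mul_inv, div_le_iff₀ (by positivity)] at hsV
    exact hsV
  have hs2 : ‖s‖ ≤ k1 * m ^ ν := by
    refine hs1.trans ?_
    have : 0 < k1 * m ^ ν := by positivity
    nlinarith
  -- the error
  have hE := hG s u hs (by rw [← hm]; linarith)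
  obtain ⟨e, he⟩ : ∃ e, e = G s u - u * (1 + α * s + a * u ^ ν) := ⟨_, rfl⟩
  rw [← he, ← hm] at hE
  have hs0 := norm_nonneg s
  have hEb : ‖e‖ ≤ C3 * m ^ (ν + 2) := by
    refine hE.trans ?_
    rw [hC3, mul_assoc]
    apply mul_le_mul_of_nonneg_left _ hC
    have b1 : ‖s‖ * m ^ 2 ≤ k1 * m ^ (ν + 2) := by
      calc ‖s‖ * m ^ 2 ≤ (k1 * m ^ ν) * m ^ 2 := mul_le_mul_of_nonneg_right hs2 (by positivity)
        _ = _ := by ring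
    have b2 : ‖s‖ ^ 2 * m ≤ k1 ^ 2 * m ^ (ν + 2) := by
      calc ‖s‖ ^ 2 * m ≤ (k1 * m ^ ν) ^ 2 * m :=
            mul_le_mul_of_nonneg_right (pow_le_pow_left₀ hs0 hs2 2) hm0.le
        _ = k1 ^ 2 * m ^ (2 * ν + 1) := by ring
        _ ≤ k1 ^ 2 * m ^ (ν + 2) := by
            apply mul_le_mul_of_nonneg_left _ (by positivity)
            exact pow_le_pow_of_le_one hm0.le hm1 (by omega)
    have b3 : ‖s‖ ^ (ν + 2) ≤ k1 ^ (ν + 2) * m ^ (ν + 2) := by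
      calc ‖s‖ ^ (ν + 2) ≤ (k1 * m ^ ν) ^ (ν + 2) := pow_le_pow_left₀ hs0 hs2 _
        _ ≤ (k1 * m) ^ (ν + 2) := by gcongr
        _ = _ := by rw [mul_pow]
    calc m ^ (ν + 2) + ‖s‖ * m ^ 2 + ‖s‖ ^ 2 * m + ‖s‖ ^ (ν + 2)
        ≤ m ^ (ν + 2) + k1 * m ^ (ν + 2) + k1 ^ 2 * m ^ (ν + 2) + k1 ^ (ν + 2) * m ^ (ν + 2) := by
          gcongr
      _ = _ := by ring
  have heu : ‖e / u‖ ≤ C3 * m ^ (ν + 1) := by
    rw [norm_div, ← hm, div_le_iff₀ hm0]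
    refine hEb.trans (le_of_eq ?_)
    ring
  obtain ⟨σ, hσ⟩ : ∃ σ, σ = α * s + a * u ^ ν + e / u := ⟨_, rfl⟩
  have hGσ : G s u = u * (1 + σ) := by
    rw [hσ, he]
    field_simp
    ring
  have han' : ‖a * u ^ ν‖ = ‖a‖ * m ^ ν := by rw [norm_mul, norm_pow, ← hm]
  have hαs : ‖α * s‖ ≤ ‖α‖ * (κ * (k1 * m ^ ν)) := by
    rw [norm_mul]
    exact mul_le_mul_of_nonneg_left hs1 hαn
  have hσ1 : ‖σ‖ ≤ C4 * m ^ ν := by
    rw [hσ]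
    refine (norm_add₃_le).trans ?_
    rw [han']
    have b1 : ‖α * s‖ ≤ ‖α‖ * k1 * m ^ ν := by
      rw [norm_mul, mul_assoc]
      exact mul_le_mul_of_nonneg_left hs2 hαn
    have b2 : ‖e / u‖ ≤ C3 * m ^ ν := by
      refine heu.trans (mul_le_mul_of_nonneg_left ?_ hC30)
      exact pow_le_pow_of_le_one hm0.le hm1 (by omega)
    calc ‖α * s‖ + ‖a‖ * m ^ ν + ‖e / u‖ ≤ ‖α‖ * k1 * m ^ ν + ‖a‖ * m ^ ν + C3 * m ^ ν := by gcongr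
      _ = _ := by rw [hC4]; ring
  have hσ2 : ‖σ‖ ≤ 1 / 2 := by
    refine hσ1.trans ?_
    calc C4 * m ^ ν ≤ (C4 + 1) * τ := by
          apply mul_le_mul (by linarith) (by linarith) (by positivity) (by positivity)
      _ ≤ (C4 + 1) * (1 / (2 * (C4 + 1))) := mul_le_mul_of_nonneg_left hτ3 (by positivity)
      _ = 1 / 2 := by field_simp
  refine ⟨σ, hGσ, ?_, ?_, ?_⟩
  · have e1 : σ - a * u ^ ν = α * s + e / u := by rw [hσ]; ring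
    rw [e1, han']
    refine (norm_add_le _ _).trans ?_
    have b1 : ‖α‖ * (κ * (k1 * m ^ ν)) ≤ η / 4 * (‖a‖ * m ^ ν) := by
      have : ‖α‖ * (κ * (k1 * m ^ ν)) ≤ (κ * (ν * (‖α‖ + 1))) * (‖a‖ * m ^ ν) := by
        rw [hk1]
        have h0 : 0 ≤ κ * ν * (‖a‖ * m ^ ν) := by positivity
        nlinarith
      exact this.trans (mul_le_mul_of_nonneg_right hκη (by positivity))
    have b2 : C3 * m ^ (ν + 1) ≤ η / 4 * (‖a‖ * m ^ ν) := by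
      have h1 : (C3 + 1) * m ≤ η * ‖a‖ / 4 := by
        calc (C3 + 1) * m ≤ (C3 + 1) * (η * ‖a‖ / (4 * (C3 + 1))) :=
              mul_le_mul_of_nonneg_left (hmτ.le.trans hτ2) (by positivity)
          _ = η * ‖a‖ / 4 := by field_simp
      calc C3 * m ^ (ν + 1) = C3 * m * m ^ ν := by ring
        _ ≤ (C3 + 1) * m * m ^ ν := by gcongr; linarith
        _ ≤ η * ‖a‖ / 4 * m ^ ν := mul_le_mul_of_nonneg_right h1 hmν0.le
        _ = _ := by ring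
    have b3 : 0 ≤ η * (‖a‖ * m ^ ν) := by positivity
    linarith
  · rw [han']
    calc ‖a‖ * m ^ ν ≤ (‖a‖ + 1) * (η / (‖a‖ + 1)) := by
          apply mul_le_mul (by linarith) (by linarith) (by positivity) (by positivity)
      _ = η := by field_simp
  · -- the finer estimate
    have h1s : (1 + σ) ^ ν ≠ 0 := by
      apply pow_ne_zero
      intro h0
      have h2 := norm_sub_norm_le (1 : ℂ) (-σ)
      rw [norm_one, norm_neg, sub_neg_eq_add, h0, norm_zero] at h2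
      linarith
    have hun : u ^ ν ≠ 0 := pow_ne_zero _ hu
    have hVv : V ν a (G s u) = V ν a u * ((1 + σ) ^ ν)⁻¹ := by
      rw [hGσ]
      unfold V
      rw [mul_pow]
      field_simp
    have hVu : V ν a u * (ν * (a * u ^ ν)) = -1 := by
      unfold V
      field_simp
    have e1 : V ν a (G s u) - V ν a u * (1 - ν * α * s) - 1 =
        V ν a u * (((1 + σ) ^ ν)⁻¹ - 1 + ν * σ) - V ν a u * (ν * (e / u)) := by
      rw [hVv, hσ]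
      have : V ν a u * (ν * (α * s + a * u ^ ν + e / u)) =
          V ν a u * (ν * α * s) - 1 + V ν a u * (ν * (e / u)) := by
        linear_combination hVu
      linear_combination (-1 : ℂ) * this
    rw [e1]
    refine (norm_sub_le _ _).trans ?_
    rw [norm_mul, norm_mul, norm_mul, Complex.norm_natCast, hVn, ← hm]
    have b1 : ‖((1 + σ) ^ ν)⁻¹ - 1 + ν * σ‖ ≤ K * (C4 ^ 2 * m ^ (ν + 1)) := by
      refine (hKb σ hσ2).trans (mul_le_mul_of_nonneg_left ?_ hK)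
      calc ‖σ‖ ^ 2 ≤ (C4 * m ^ ν) ^ 2 := pow_le_pow_left₀ (norm_nonneg _) hσ1 2
        _ = C4 ^ 2 * m ^ (2 * ν) := by ring
        _ ≤ C4 ^ 2 * m ^ (ν + 1) := by
            apply mul_le_mul_of_nonneg_left _ (by positivity)
            exact pow_le_pow_of_le_one hm0.le hm1 (by omega)
    calc (k1 * m ^ ν)⁻¹ * ‖((1 + σ) ^ ν)⁻¹ - 1 + ν * σ‖ + (k1 * m ^ ν)⁻¹ * (ν * ‖e / u‖)
        ≤ (k1 * m ^ ν)⁻¹ * (K * (C4 ^ 2 * m ^ (ν + 1))) +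
          (k1 * m ^ ν)⁻¹ * (ν * (C3 * m ^ (ν + 1))) := by gcongr
      _ = (ν * C3 + K * C4 ^ 2) / k1 * m := by
          field_simp
          ring

end Pool.Agent.Run7.h15.Tr
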