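import Pool.Agent.Run7.h15.Tr.LBa

/-!
# Lower bounds near a parabolic parameter: the three circles argument
-/

set_option autoImplicit false

namespace Pool.Agent.Run7.h15.Tr

open Complex Filter Topology Metric Set
open Pool.Agent.Run7.h15.Par

theorem recur {y : ℂ} {v : ℕ → ℂ} {E : ℕ → ℝ} {n : ℕ} (hE : ∀ j, 0 ≤ E j)
    (h : ∀ j < n, ‖v (j + 1) - v j * (1 - y) - 1‖ ≤ E j) :
    ∀ j ≤ n, ‖v j - ∑ i ∈ Finset.range j, (1 - y) ^ i‖ ≤
      (1 + ‖y‖) ^ j * (‖v 0‖ + ∑ i ∈ Finset.range j, E i) := by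
  intro j
  induction j with
  | zero => intro _; simp
  | succ j ih =>
    intro hj
    have h1 := ih (by omega)
    have h2 := h j (by omega)
    obtain ⟨w, hw⟩ : ∃ w, w = ∑ i ∈ Finset.range j, (1 - y) ^ i := ⟨_, rfl⟩
    obtain ⟨S, hS⟩ : ∃ S, S = ∑ i ∈ Finset.range j, E i := ⟨_, rfl⟩
    rw [← hw, ← hS] at h1
    rw [geom_sum_succ, ← hw, Finset.sum_range_succ, ← hS]
    have e : v (j + 1) - ((1 - y) * w + 1) = (1 - y) * (v j - w) +
        (v (j + 1) - v j * (1 - y) - 1) := by ring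
    rw [e]
    have h3 : ‖1 - y‖ ≤ 1 + ‖y‖ := by
      have := norm_sub_le (1 : ℂ) y
      rwa [norm_one] at this
    have hy := norm_nonneg y
    have hS0 : 0 ≤ S := by rw [hS]; exact Finset.sum_nonneg fun i _ => hE i
    have h4 : 1 ≤ (1 + ‖y‖) ^ (j + 1) := one_le_pow₀ (by linarith)
    have hEj := hE j
    calc ‖(1 - y) * (v j - w) + (v (j + 1) - v j * (1 - y) - 1)‖
        ≤ ‖1 - y‖ * ‖v j - w‖ + E j := by
          refine (norm_add_le _ _).trans (add_le_add ?_ h2)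
          rw [norm_mul]
      _ ≤ (1 + ‖y‖) * ((1 + ‖y‖) ^ j * (‖v 0‖ + S)) + E j := by gcongr
      _ = (1 + ‖y‖) ^ (j + 1) * (‖v 0‖ + S) + E j := by ring
      _ ≤ (1 + ‖y‖) ^ (j + 1) * (‖v 0‖ + S) + (1 + ‖y‖) ^ (j + 1) * E j := by nlinarith
      _ = _ := by ring

theorem sum_rpow_le {δ : ℝ} (h0 : 0 ≤ δ) (h1 : δ ≤ 1 / 2) (n : ℕ) :
    ∑ j ∈ Finset.range n, ((j : ℝ) + 1) ^ (-δ) ≤ 2 * (n : ℝ) ^ (1 - δ) := by
  induction n with
  | zero =>
    simp only [Finset.range_zero, Finset.sum_empty]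
    positivity
  | succ n ih =>
    rw [Finset.sum_range_succ]
    refine (add_le_add ih le_rfl).trans ?_
    push_cast
    have hn : (0 : ℝ) < (n : ℝ) + 1 := by positivity
    have e1 : (n : ℝ) ^ (1 - δ) = ((n : ℝ) + 1) ^ (1 - δ) * (1 + -(1 / ((n : ℝ) + 1))) ^ (1 - δ) := by
      rw [← Real.mul_rpow hn.le]
      · congr 1
        field_simp
        ring
      · have : 1 / ((n : ℝ) + 1) ≤ 1 := by
          rw [div_le_one hn]
          have : (0 : ℝ) ≤ n := n.cast_nonneg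
          linarith
        linarith
    have e2 : (1 + -(1 / ((n : ℝ) + 1))) ^ (1 - δ) ≤ 1 + (1 - δ) * -(1 / ((n : ℝ) + 1)) := by
      apply rpow_one_add_le_one_add_mul_self
      · have : 1 / ((n : ℝ) + 1) ≤ 1 := by
          rw [div_le_one hn]
          have : (0 : ℝ) ≤ n := n.cast_nonneg
          linarith
        linarith
      · linarith
      · linarith
    have e3 : ((n : ℝ) + 1) ^ (-δ) = ((n : ℝ) + 1) ^ (1 - δ) * (1 / ((n : ℝ) + 1)) := by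
      rw [show (1 - δ : ℝ) = -δ + 1 by ring, Real.rpow_add hn, Real.rpow_one]
      field_simp
    obtain ⟨Z, hZ⟩ : ∃ Z, Z = ((n : ℝ) + 1) ^ (1 - δ) := ⟨_, rfl⟩
    have hZ0 : 0 < Z := by rw [hZ]; positivity
    obtain ⟨t, ht⟩ : ∃ t, t = 1 / ((n : ℝ) + 1) := ⟨_, rfl⟩
    have ht0 : 0 < t := by rw [ht]; positivity
    rw [e1, e3, ← hZ, ← ht]
    rw [← ht] at e2
    have e4 := mul_le_mul_of_nonneg_left e2 hZ0.le
    have e5 : 0 ≤ Z * t * (1 - 2 * δ) := by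
      apply mul_nonneg (by positivity)
      linarith
    nlinarith

/-- **Control of the Fatou coordinate on a small disc.** -/
theorem control {ν : ℕ} (hν : 1 ≤ ν) {a α : ℂ} (ha : a ≠ 0) {C r : ℝ}
    (hC : 0 ≤ C) (hr : 0 < r) {G : ℂ → ℂ → ℂ} (hG : Fam ν a α C r G) {x : ℕ → ℂ → ℂ}
    (hx : ∀ k s, ‖s‖ < r → x (k + 1) s = G s (x k s))
    (hxc : ∀ k, ContinuousAt (x k) 0)
    (hx0 : Tendsto (fun k => x k 0) atTop (𝓝 0)) (hxne : ∀ k, x k 0 ≠ 0) :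
    ∃ κ D r₁ : ℝ, ∃ k₀ : ℕ, 0 < κ ∧ 0 ≤ D ∧ 0 < r₁ ∧ r₁ ≤ r ∧ ∀ n : ℕ, 1 ≤ n → ∀ s : ℂ,
      ‖s‖ < r₁ → ‖s‖ ≤ κ / n → x (k₀ + n) s ≠ 0 ∧
      (n : ℝ) / 2 ≤ ‖V ν a (x (k₀ + n) s)‖ ∧
      ‖V ν a (x (k₀ + n) s) - ∑ i ∈ Finset.range n, (1 - ν * α * s) ^ i‖ ≤
        D * (n : ℝ) ^ (1 - 1 / ((ν : ℝ) + 1)) := by
  obtain ⟨η, hη0, hη1, hgood⟩ := exists_good hν
  obtain ⟨κ, R, C₁, hκ, hR, hC₁, hstep⟩ := one_step hν ha hC hr hG hη0
  have hνR : (1 : ℝ) ≤ ν := by exact_mod_cast hν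
  have han : 0 < ‖a‖ := norm_pos_iff.2 ha
  -- the starting time
  have hVlarge : ∀ᶠ j in atTop, R ≤ ‖V ν a (x j 0)‖ := by
    have h1 : Tendsto (fun j => (ν : ℝ) * (‖a‖ * ‖x j 0‖ ^ ν)) atTop (𝓝[>] 0) := by
      rw [tendsto_nhdsWithin_iff]
      refine ⟨?_, Eventually.of_forall fun j => ?_⟩
      · have h2 := ((hx0.norm.pow ν).const_mul ‖a‖).const_mul (ν : ℝ)
        rwa [norm_zero, zero_pow (by omega), mul_zero, mul_zero] at h2
      · have := norm_pos_iff.2 (hxne j)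
        show 0 < (ν : ℝ) * (‖a‖ * ‖x j 0‖ ^ ν)
        positivity
    have h2 := tendsto_inv_nhdsGT_zero.comp h1
    filter_upwards [h2.eventually_ge_atTop R] with j hj
    rw [norm_V]
    exact hj
  obtain ⟨k₀, hk₀⟩ := re_large hgood ha (u := fun j => x j 0)
    (s := fun j => x (j + 1) 0 / x j 0 - 1) hxne (by
      filter_upwards [hVlarge] with j hj
      obtain ⟨σ, h1, h2, h3, _⟩ := hstep 0 (x j 0) (by rwa [norm_zero]) (hxne j) hj (by
        rw [norm_zero, zero_mul]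
        exact hκ.le)
      have h4 : x (j + 1) 0 / x j 0 - 1 = σ := by
        rw [hx j 0 (by rwa [norm_zero]), h1, mul_div_cancel_left₀ _ (hxne j)]
        ring
      rw [h4]
      refine ⟨?_, h2, h3⟩
      rw [← h4]
      have := hxne j
      field_simp
      ring) (R + 1)
  -- nearby parameters
  obtain ⟨V₀, hV₀⟩ : ∃ V₀, V₀ = ‖V ν a (x k₀ 0)‖ + 1 := ⟨_, rfl⟩
  have hV₀0 : 0 < V₀ := by rw [hV₀]; positivity
  have hVc : ContinuousAt (fun s => V ν a (x k₀ s)) 0 := by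
    unfold V
    have h1 := hxc k₀
    have h2 : (ν : ℂ) * (a * x k₀ 0 ^ ν) ≠ 0 := by
      have h3 : (ν : ℂ) ≠ 0 := by exact_mod_cast (by omega : ν ≠ 0)
      exact mul_ne_zero h3 (mul_ne_zero ha (pow_ne_zero _ (hxne k₀)))
    exact (((h1.pow ν).const_mul a).const_mul (ν : ℂ) |>.inv₀ h2).neg
  have hnear : ∀ᶠ s in 𝓝 (0 : ℂ), x k₀ s ≠ 0 ∧ R ≤ (V ν a (x k₀ s)).re ∧
      ‖V ν a (x k₀ s)‖ ≤ V₀ := by
    refine ((hxc k₀).eventually_ne (hxne k₀)).and (Eventually.and ?_ ?_)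
    · have h1 : ContinuousAt (fun s => (V ν a (x k₀ s)).re) 0 := Complex.continuous_re.continuousAt.comp hVc
      filter_upwards [h1.eventually (lt_mem_nhds (show R < (V ν a (x k₀ 0)).re by linarith))]
        with s hs using hs.le
    · filter_upwards [hVc.norm.eventually (gt_mem_nhds (show ‖V ν a (x k₀ 0)‖ < V₀ by
        rw [hV₀]; linarith))] with s hs using hs.le
  obtain ⟨r₂, hr₂, hball⟩ := Metric.eventually_nhds_iff.1 hnear
  obtain ⟨δ, hδ⟩ : ∃ δ : ℝ, δ = 1 / ((ν : ℝ) + 1) := ⟨_, rfl⟩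
  have hδ0 : 0 < δ := by rw [hδ]; positivity
  have hδ1 : δ ≤ 1 / 2 := by
    rw [hδ]
    exact div_le_div_of_nonneg_left zero_le_one (by norm_num) (by linarith)
  obtain ⟨D0, hD0⟩ : ∃ D0 : ℝ, D0 = 2 / (ν * ‖a‖) + 1 := ⟨_, rfl⟩
  have hD01 : 1 ≤ D0 := by
    rw [hD0]
    have : 0 < 2 / (ν * ‖a‖) := by positivity
    linarith
  obtain ⟨Q, hQ⟩ : ∃ Q, Q = Real.exp (ν * ‖α‖ * (κ / (V₀ + 2))) := ⟨_, rfl⟩
  have hQ0 : 0 < Q := by rw [hQ]; exact Real.exp_pos _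
  refine ⟨κ / (V₀ + 2), Q * (V₀ + 2 * (C₁ * D0)), min r r₂, k₀, by positivity, by positivity,
    lt_min hr hr₂, min_le_left _ _, ?_⟩
  intro n hn s hs hsn
  have hsr : ‖s‖ < r := hs.trans_le (min_le_left _ _)
  have hsr2 : ‖s‖ < r₂ := hs.trans_le (min_le_right _ _)
  have hn0 : (1 : ℝ) ≤ n := by exact_mod_cast hn
  have hs0 := norm_nonneg s
  have hsV : ‖s‖ * (V₀ + 2 * n) ≤ κ := by
    calc ‖s‖ * (V₀ + 2 * n) ≤ κ / (V₀ + 2) / n * (V₀ + 2 * n) :=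
          mul_le_mul_of_nonneg_right hsn (by positivity)
      _ ≤ κ / (V₀ + 2) / n * ((V₀ + 2) * n) := by
          apply mul_le_mul_of_nonneg_left _ (by positivity)
          nlinarith
      _ = κ := by field_simp
  obtain ⟨i1, i2, i3⟩ := hball (y := s) (by rwa [dist_zero_right])
  have hVb : ∀ j : ℕ, j ≤ n → ∀ w : ℂ, ‖V ν a w‖ ≤ V₀ + 2 * j → ‖s‖ * ‖V ν a w‖ ≤ κ := by
    intro j hj w hw
    have hj' : (j : ℝ) ≤ n := by exact_mod_cast hj
    calc ‖s‖ * ‖V ν a w‖ ≤ ‖s‖ * (V₀ + 2 * n) :=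
          mul_le_mul_of_nonneg_left (by linarith) hs0
      _ ≤ κ := hsV
  have hdrift := drift hgood ha (R := R) (V₀ := V₀) (J := n) (u := fun j => x (k₀ + j) s)
    (s := fun j => x (k₀ + j + 1) s / x (k₀ + j) s - 1) (by
      intro j hj h1 h2 h3
      obtain ⟨σ, g1, g2, g3, _⟩ := hstep s (x (k₀ + j) s) hsr h1 h2 (hVb j hj.le _ h3)
      have h4 : x (k₀ + j + 1) s / x (k₀ + j) s - 1 = σ := by
        rw [hx (k₀ + j) s hsr, g1, mul_div_cancel_left₀ _ h1]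
        ring
      rw [h4]
      refine ⟨?_, g2, g3⟩
      rw [← h4, show k₀ + (j + 1) = k₀ + j + 1 by ring]
      field_simp
      ring) (by simpa using i1) (by simpa using i2) (by simpa using i3)
  have hre : ∀ j ≤ n, x (k₀ + j) s ≠ 0 ∧ ((j : ℝ) + 1) / 2 ≤ ‖V ν a (x (k₀ + j) s)‖ ∧
      R ≤ ‖V ν a (x (k₀ + j) s)‖ ∧ ‖V ν a (x (k₀ + j) s)‖ ≤ V₀ + 2 * j := by
    intro j hj
    obtain ⟨h1, h2, h3⟩ := hdrift j hj
    have h4 := Complex.re_le_norm (V ν a (x (k₀ + j) s))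
    have hj0 : (0 : ℝ) ≤ j := j.cast_nonneg
    exact ⟨h1, by linarith, by linarith, h3⟩
  have hub : ∀ j ≤ n, ‖x (k₀ + j) s‖ ≤ D0 * ((j : ℝ) + 1) ^ (-δ) := by
    intro j hj
    obtain ⟨h1, h2, _, _⟩ := hre j hj
    have hj0 : (0 : ℝ) ≤ j := j.cast_nonneg
    have hup : 0 < ‖x (k₀ + j) s‖ := norm_pos_iff.2 h1
    obtain ⟨m, hm⟩ : ∃ m, m = ‖x (k₀ + j) s‖ := ⟨_, rfl⟩
    rw [norm_V, ← hm] at h2
    rw [← hm] at hup ⊢
    have h3 : 0 < (ν : ℝ) * (‖a‖ * m ^ ν) := by positivity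
    rw [← one_div, le_div_iff₀ h3] at h2
    have h4 : m ^ ν ≤ D0 * ((j : ℝ) + 1)⁻¹ := by
      have h5 : m ^ ν ≤ 2 / (ν * ‖a‖) * ((j : ℝ) + 1)⁻¹ := by
        rw [← div_eq_mul_inv, le_div_iff₀ (by positivity), le_div_iff₀ (by positivity)]
        nlinarith
      refine h5.trans (mul_le_mul_of_nonneg_right ?_ (by positivity))
      rw [hD0]
      linarith
    have h5 : m = (m ^ ν) ^ (1 / (ν : ℝ)) := by
      rw [← Real.rpow_natCast, ← Real.rpow_mul hup.le, mul_one_div,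
        div_self (by positivity), Real.rpow_one]
    rw [h5]
    have h6 := Real.rpow_le_rpow (by positivity) h4 (show 0 ≤ 1 / (ν : ℝ) by positivity)
    refine h6.trans ?_
    rw [Real.mul_rpow (by positivity) (by positivity)]
    apply mul_le_mul _ _ (by positivity) (by positivity)
    · calc D0 ^ (1 / (ν : ℝ)) ≤ D0 ^ (1 : ℝ) := by
            apply Real.rpow_le_rpow_of_exponent_le hD01
            rw [div_le_one (by positivity)]
            exact hνR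
        _ = D0 := Real.rpow_one _
    · rw [Real.inv_rpow (by positivity), Real.rpow_neg (by positivity)]
      apply inv_anti₀ (by positivity)
      apply Real.rpow_le_rpow_of_exponent_le (by linarith)
      rw [hδ]
      exact div_le_div_of_nonneg_left zero_le_one (by positivity) (by linarith)
  have hrec := recur (y := ν * α * s) (v := fun j => V ν a (x (k₀ + j) s))
    (E := fun j => C₁ * (D0 * ((j : ℝ) + 1) ^ (-δ))) (n := n)
    (fun j => by positivity) (by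
      intro j hj
      obtain ⟨h1, _, h2, h3⟩ := hre j hj.le
      obtain ⟨σ, _, _, _, g4⟩ := hstep s (x (k₀ + j) s) hsr h1 h2 (hVb j hj.le _ h3)
      rw [← hx (k₀ + j) s hsr] at g4
      exact g4.trans (mul_le_mul_of_nonneg_left (hub j hj.le) hC₁)) n le_rfl
  obtain ⟨h1, h2, _, _⟩ := hre n le_rfl
  refine ⟨h1, by linarith, hrec.trans ?_⟩
  rw [← Finset.mul_sum, ← Finset.mul_sum]
  have hsum := sum_rpow_le hδ0.le hδ1 n
  have hn1 : (1 : ℝ) ≤ (n : ℝ) ^ (1 - δ) := Real.one_le_rpow hn0 (by linarith)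
  have hQb : (1 + ‖(ν : ℂ) * α * s‖) ^ n ≤ Q := by
    have h3 : 1 + ‖(ν : ℂ) * α * s‖ ≤ Real.exp ‖(ν : ℂ) * α * s‖ := by
      rw [add_comm]
      exact Real.add_one_le_exp _
    refine (pow_le_pow_left₀ (by positivity) h3 n).trans ?_
    rw [← Real.exp_nat_mul, hQ]
    apply Real.exp_le_exp.2
    rw [norm_mul, norm_mul, Complex.norm_natCast]
    calc (n : ℝ) * (ν * ‖α‖ * ‖s‖) ≤ n * (ν * ‖α‖ * (κ / (V₀ + 2) / n)) := by gcongr
      _ = ν * ‖α‖ * (κ / (V₀ + 2)) := by field_simp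
  have hi3 : ‖V ν a (x (k₀ + 0) s)‖ ≤ V₀ := by simpa using i3
  rw [← hδ]
  have h5 : C₁ * (D0 * ∑ i ∈ Finset.range n, ((i : ℝ) + 1) ^ (-δ)) ≤
      C₁ * (D0 * (2 * (n : ℝ) ^ (1 - δ))) := by gcongr
  calc (1 + ‖(ν : ℂ) * α * s‖) ^ n * (‖V ν a (x (k₀ + 0) s)‖ +
        C₁ * (D0 * ∑ i ∈ Finset.range n, ((i : ℝ) + 1) ^ (-δ)))
      ≤ Q * (V₀ * (n : ℝ) ^ (1 - δ) + C₁ * (D0 * (2 * (n : ℝ) ^ (1 - δ)))) := by
        apply mul_le_mul hQb _ (by positivity) hQ0.le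
        apply add_le_add _ h5
        exact hi3.trans (le_mul_of_one_le_right hV₀0.le hn1)
    _ = _ := by ring

end Pool.Agent.Run7.h15.Tr
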