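import Pool.Agent.Run7.h15.Par.LF

/-!
# Every attracting direction of a parabolic periodic point attracts the critical orbit
-/

set_option autoImplicit false

namespace Pool.Agent.Run7.h15.Tr

open Complex Filter Topology Metric Set
open Pool.Agent.H712R2 (P P_succ P_one P_zero fc continuous_P mem_multibrot_iff)
open Pool.Agent.Y736.RN (contDiff_it cont_it diff_it_y)
open Pool.Agent.Run7.h15.Par

variable {d N : ℕ} {c z₀ : ℂ}

theorem arg_of_re {x : ℂ} (hx : 0 < x.re) : |(log x).im| < Real.pi / 2 := by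
  rw [Complex.log_im]
  exact Complex.abs_arg_lt_pi_div_two_iff.2 (Or.inl hx)

theorem log_div_re {x y : ℂ} (hx : 0 < x.re) (hy : 0 < y.re) : log (x / y) = log x - log y := by
  have hx0 : x ≠ 0 := by rintro rfl; simp at hx
  have hy0 : y ≠ 0 := by rintro rfl; simp at hy
  have h1 := abs_lt.1 (arg_of_re hx)
  have h2 := abs_lt.1 (arg_of_re hy)
  rw [← Complex.log_exp (x := log x - log y) (by rw [Complex.sub_im]; linarith)
    (by rw [Complex.sub_im]; linarith), Complex.exp_sub, Complex.exp_log hx0, Complex.exp_log hy0]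

/-- the label of a point of the attracting petals: it is constant on each of them -/
noncomputable def lab (ν : ℕ) (a u : ℂ) : ℂ := u * exp (log (V ν a u) / ν)

theorem lab_step {ν : ℕ} (hν : 1 ≤ ν) {a u σ : ℂ} (ha : a ≠ 0) (hu : u ≠ 0)
    (hV : 0 < (V ν a u).re) (hσ : ‖σ‖ ≤ 1 / (4 * ν)) : lab ν a (u * (1 + σ)) = lab ν a u := by
  have hνR : (1 : ℝ) ≤ ν := by exact_mod_cast hν
  have hνC : (ν : ℂ) ≠ 0 := by exact_mod_cast (by omega : ν ≠ 0)
  have h4 : 1 / (4 * (ν : ℝ)) ≤ 1 / 4 := by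
    apply div_le_div_of_nonneg_left zero_le_one (by norm_num)
    linarith
  have hσ2 : ‖σ‖ ≤ 1 / 2 := by linarith
  have h1 : 1 + σ ≠ 0 := by
    intro h0
    have h2 := norm_sub_norm_le (1 : ℂ) (-σ)
    rw [norm_one, norm_neg, sub_neg_eq_add, h0, norm_zero] at h2
    linarith
  have hV0 : V ν a u ≠ 0 := by
    intro h
    rw [h, Complex.zero_re] at hV
    exact lt_irrefl _ hV
  have hlog := Complex.norm_log_one_add_half_le_self hσ2
  have him : |(ν * log (1 + σ)).im| ≤ 3 / 8 := by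
    refine (Complex.abs_im_le_norm _).trans ?_
    rw [norm_mul, Complex.norm_natCast]
    calc (ν : ℝ) * ‖log (1 + σ)‖ ≤ ν * (3 / 2 * (1 / (4 * ν))) := by gcongr; linarith
      _ = 3 / 8 := by
        field_simp
        norm_num
  have hpi := Real.pi_gt_three
  have h2 := abs_lt.1 (arg_of_re hV)
  have h3 := abs_le.1 him
  have hVσ : V ν a (u * (1 + σ)) = exp (log (V ν a u) - ν * log (1 + σ)) := by
    rw [Complex.exp_sub, Complex.exp_log hV0, Complex.exp_nat_mul, Complex.exp_log h1]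
    unfold V
    rw [mul_pow]
    have := pow_ne_zero ν h1
    have := pow_ne_zero ν hu
    field_simp
  have hlogV : log (V ν a (u * (1 + σ))) = log (V ν a u) - ν * log (1 + σ) := by
    rw [hVσ]
    apply Complex.log_exp
    · rw [Complex.sub_im]
      linarith
    · rw [Complex.sub_im]
      linarith
  unfold lab
  rw [hlogV, sub_div, mul_div_cancel_left₀ _ hνC, Complex.exp_sub, Complex.exp_log h1]
  field_simp

/-- **Every attracting direction attracts the critical orbit.** -/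
theorem leau_dir (hd : 2 ≤ d) (hN : 1 ≤ N) {ν : ℕ} {a : ℂ → ℂ} (hν : 1 ≤ ν)
    (ha : AnalyticAt ℂ a 0) (ha0 : a 0 ≠ 0) (hev : ∀ᶠ u in 𝓝 (0 : ℂ),
      (fc d c)^[N] (z₀ + u) = z₀ + u + u ^ (ν + 1) * a u) :
    ∃ R : ℝ, 1 ≤ R ∧ (∀ u : ℂ, u ≠ 0 → R ≤ (V ν (a 0) u).re →
      Tendsto (fun j => (fc d c)^[N * j] (z₀ + u)) atTop (𝓝 z₀) ∧
      ∀ j, lab ν (a 0) ((fc d c)^[N * j] (z₀ + u) - z₀) = lab ν (a 0) u) ∧
    ∀ w₀ : ℂ, w₀ ^ ν = -((ν : ℂ) * a 0)⁻¹ → ∃ j, 1 ≤ j ∧ ∃ u, u ≠ 0 ∧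
      R ≤ (V ν (a 0) u).re ∧ lab ν (a 0) u = w₀ ∧ z₀ + u = P d j c := by
  obtain ⟨g, hg⟩ : ∃ g, g = (fc d c)^[N] := ⟨_, rfl⟩
  have hgd : Differentiable ℂ g := by rw [hg]; exact diff_it_y d N c
  rw [← hg] at hev
  obtain ⟨C, hC, hbd⟩ := Pool.Agent.Y736.HL.parabolic_bounds hgd hν ha hev
  obtain ⟨η₁, hη₁0, hη₁1, hgood₁⟩ := exists_good hν
  have hνR : (0 : ℝ) < ν := Nat.cast_pos.2 (by omega)
  obtain ⟨η, hη⟩ : ∃ η : ℝ, η = min η₁ (1 / (8 * ν)) := ⟨_, rfl⟩
  have hη0 : 0 < η := by rw [hη]; exact lt_min hη₁0 (by positivity)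
  have hηη₁ : η ≤ η₁ := by rw [hη]; exact min_le_left _ _
  have hη1 : η ≤ 1 := hηη₁.trans hη₁1
  have hηv : η ≤ 1 / (8 * ν) := by rw [hη]; exact min_le_right _ _
  have hgood : Good ν η := by
    intro a u s h1 h2 h3 h4
    exact hgood₁ a u s h1 h2 (h3.trans (mul_le_mul_of_nonneg_right hηη₁ (norm_nonneg _)))
      (h4.trans hηη₁)
  have hνC : (ν : ℂ) ≠ 0 := by exact_mod_cast (by omega : ν ≠ 0)
  have han : 0 < ‖a 0‖ := norm_pos_iff.2 ha0
  -- the neighbourhood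
  have hnear : ∀ᶠ u in 𝓝 (0 : ℂ), (g (z₀ + u) = z₀ + u * (1 + u ^ ν * a u) ∧
      ‖deriv g (z₀ + u)‖ ≤ ‖1 + u ^ ν * a u‖ ^ (ν + 1) * (1 + C * ‖u‖ ^ (ν + 1))) ∧
      ‖a u - a 0‖ ≤ η * ‖a 0‖ ∧ ‖a 0 * u ^ ν‖ ≤ η := by
    refine hbd.and (Eventually.and ?_ ?_)
    · have h1 : Tendsto (fun u => ‖a u - a 0‖) (𝓝 0) (𝓝 0) := by
        have := (ha.continuousAt.tendsto.sub_const (a 0)).norm
        rwa [sub_self, norm_zero] at this
      filter_upwards [h1.eventually (gt_mem_nhds (show 0 < η * ‖a 0‖ by positivity))] with u hu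
        using hu.le
    · have h1 : Tendsto (fun u : ℂ => ‖a 0 * u ^ ν‖) (𝓝 0) (𝓝 0) := by
        have := (((continuous_pow ν).tendsto (0 : ℂ)).const_mul (a 0)).norm
        rwa [zero_pow (by omega), mul_zero, norm_zero] at this
      filter_upwards [h1.eventually (gt_mem_nhds hη0)] with u hu using hu.le
  obtain ⟨r₀, hr₀, hball⟩ := Metric.eventually_nhds_iff.1 hnear
  obtain ⟨R, hR⟩ : ∃ R : ℝ, R = 2 / (ν * ‖a 0‖ * r₀ ^ ν) + 1 := ⟨_, rfl⟩
  have hR1 : 1 ≤ R := by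
    rw [hR]
    have : 0 < 2 / (ν * ‖a 0‖ * r₀ ^ ν) := by positivity
    linarith
  have hRr : ∀ u : ℂ, u ≠ 0 → R ≤ ‖V ν (a 0) u‖ → ‖u‖ < r₀ := by
    intro u hu hV
    by_contra hcon
    push Not at hcon
    have hup : 0 < ‖u‖ := norm_pos_iff.2 hu
    rw [norm_V] at hV
    have h1 : (ν : ℝ) * (‖a 0‖ * ‖u‖ ^ ν) ≥ ν * ‖a 0‖ * r₀ ^ ν := by
      rw [mul_assoc]
      have := pow_le_pow_left₀ hr₀.le hcon ν
      gcongr
    have h2 := inv_anti₀ (by positivity) h1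
    have h3 : (ν * ‖a 0‖ * r₀ ^ ν)⁻¹ ≤ 2 / (ν * ‖a 0‖ * r₀ ^ ν) := by
      rw [div_eq_mul_inv]
      have : 0 < (ν * ‖a 0‖ * r₀ ^ ν)⁻¹ := by positivity
      linarith
    rw [hR] at hV
    linarith
  -- one step
  have hstep : ∀ u : ℂ, u ≠ 0 → R ≤ ‖V ν (a 0) u‖ →
      g (z₀ + u) - z₀ = u * (1 + u ^ ν * a u) ∧
      ‖deriv g (z₀ + u)‖ ≤ ‖1 + u ^ ν * a u‖ ^ (ν + 1) * (1 + C * ‖u‖ ^ (ν + 1)) ∧
      ‖u ^ ν * a u - a 0 * u ^ ν‖ ≤ η * ‖a 0 * u ^ ν‖ ∧ ‖a 0 * u ^ ν‖ ≤ η := by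
    intro u hu hV
    obtain ⟨⟨h1, h2⟩, h3, h4⟩ := hball (y := u) (by rw [dist_zero_right]; exact hRr u hu hV)
    refine ⟨by rw [h1]; ring, h2, ?_, h4⟩
    rw [show u ^ ν * a u - a 0 * u ^ ν = u ^ ν * (a u - a 0) by ring, norm_mul, norm_mul]
    calc ‖u ^ ν‖ * ‖a u - a 0‖ ≤ ‖u ^ ν‖ * (η * ‖a 0‖) :=
          mul_le_mul_of_nonneg_left h3 (norm_nonneg _)
      _ = η * (‖a 0‖ * ‖u ^ ν‖) := by ring
  -- the basin
  have hbasin : ∀ u : ℂ, u ≠ 0 → R ≤ (V ν (a 0) u).re → ∀ j : ℕ,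
      g^[j] (z₀ + u) - z₀ ≠ 0 ∧ R + j / 2 ≤ (V ν (a 0) (g^[j] (z₀ + u) - z₀)).re := by
    intro u hu hV j
    have h1 := drift hgood ha0 (R := R) (V₀ := ‖V ν (a 0) u‖) (J := j)
      (u := fun j => g^[j] (z₀ + u) - z₀)
      (s := fun j => (g^[j] (z₀ + u) - z₀) ^ ν * a (g^[j] (z₀ + u) - z₀)) (by
        intro i _ hi1 hi2 _
        obtain ⟨h1, _, h3, h4⟩ := hstep (g^[i] (z₀ + u) - z₀) hi1 hi2
        refine ⟨?_, h3, h4⟩
        rw [Function.iterate_succ_apply', ← h1, add_sub_cancel]) (by simpa using hu)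
      (by simpa using hV) (by simp) j le_rfl
    exact ⟨h1.1, h1.2.1⟩
  have hbasin' : ∀ u : ℂ, u ≠ 0 → R ≤ (V ν (a 0) u).re → ∀ j : ℕ,
      ((j : ℝ) + 1) / 2 ≤ ‖V ν (a 0) (g^[j] (z₀ + u) - z₀)‖ := by
    intro u hu hV j
    have h1 := (hbasin u hu hV j).2
    have h2 := Complex.re_le_norm (V ν (a 0) (g^[j] (z₀ + u) - z₀))
    linarith
  have hlim : ∀ u : ℂ, u ≠ 0 → R ≤ (V ν (a 0) u).re →
      Tendsto (fun j => g^[j] (z₀ + u)) atTop (𝓝 z₀) := by
    intro u hu hV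
    have h1 := tendsto_of_V hν ha0 (fun j => (hbasin u hu hV j).1) (hbasin' u hu hV)
    have h2 := h1.add_const z₀
    rw [zero_add] at h2
    refine h2.congr fun j => ?_
    ring
  -- the label
  have hlab : ∀ u : ℂ, u ≠ 0 → R ≤ (V ν (a 0) u).re → ∀ j : ℕ,
      lab ν (a 0) (g^[j] (z₀ + u) - z₀) = lab ν (a 0) u := by
    intro u hu hV j
    induction j with
    | zero =>
      rw [Function.iterate_zero, id, add_sub_cancel_left]
    | succ j ih =>
      obtain ⟨h1, h2⟩ := hbasin u hu hV j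
      have hj0 : (0 : ℝ) ≤ j := j.cast_nonneg
      obtain ⟨k1, _, k3, k4⟩ := hstep (g^[j] (z₀ + u) - z₀) h1 (by
        have := Complex.re_le_norm (V ν (a 0) (g^[j] (z₀ + u) - z₀))
        linarith)
      rw [add_sub_cancel] at k1
      rw [Function.iterate_succ_apply', k1, lab_step hν ha0 h1 (by linarith) ?_, ih]
      obtain ⟨v, hv⟩ : ∃ v, v = g^[j] (z₀ + u) - z₀ := ⟨_, rfl⟩
      rw [← hv] at k3 k4 ⊢
      have k5 : ‖v ^ ν * a v‖ ≤ ‖v ^ ν * a v - a 0 * v ^ ν‖ + ‖a 0 * v ^ ν‖ := by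
        have := norm_add_le (v ^ ν * a v - a 0 * v ^ ν) (a 0 * v ^ ν)
        rwa [sub_add_cancel] at this
      have k6 : η * ‖a 0 * v ^ ν‖ ≤ 1 * η := mul_le_mul hη1 k4 (norm_nonneg _) zero_le_one
      calc ‖v ^ ν * a v‖ ≤ 2 * η := by linarith
        _ ≤ 2 * (1 / (8 * ν)) := by linarith
        _ = 1 / (4 * ν) := by
          field_simp
          norm_num
  have hgn0 : ∀ n, (fc d c)^[N * n] = g^[n] := fun n => by
    rw [hg, Function.iterate_mul]
  refine ⟨R, hR1, ?_, ?_⟩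
  · intro u hu hV
    refine ⟨?_, ?_⟩
    · simp only [hgn0]
      exact hlim u hu hV
    · intro j
      rw [hgn0]
      exact hlab u hu hV j
  intro w₀ hw₀
  by_contra hcon
  push Not at hcon
  -- the critical orbit avoids the petal
  have hav : ∀ j, 1 ≤ j → ∀ u : ℂ, u ≠ 0 → R ≤ (V ν (a 0) u).re → lab ν (a 0) u = w₀ →
      z₀ + u ≠ P d j c := hcon
  -- the starting point
  have hR0 : 0 < R := by linarith
  have hRc : (R : ℂ) ≠ 0 := by
    rw [Complex.ofReal_ne_zero]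
    exact hR0.ne'
  have hw₀0 : w₀ ≠ 0 := by
    intro h
    rw [h, zero_pow (by omega)] at hw₀
    exact (neg_ne_zero.2 (inv_ne_zero (mul_ne_zero hνC ha0))) hw₀.symm
  obtain ⟨w, hw⟩ : ∃ w, w = w₀ * exp (-(log (R : ℂ)) / ν) := ⟨_, rfl⟩
  have hw0 : w ≠ 0 := by
    rw [hw]
    exact mul_ne_zero hw₀0 (Complex.exp_ne_zero _)
  have hwpow : w ^ ν = -((ν : ℂ) * a 0)⁻¹ / R := by
    rw [hw, mul_pow, hw₀, ← Complex.exp_nat_mul,
      show (ν : ℂ) * (-(log (R : ℂ)) / ν) = -(log (R : ℂ)) by field_simp, Complex.exp_neg,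
      Complex.exp_log hRc]
    rfl
  have hwV : V ν (a 0) w = R := by
    unfold V
    rw [hwpow]
    field_simp
  have hwlab : lab ν (a 0) w = w₀ := by
    unfold lab
    rw [hwV, hw, mul_assoc, ← Complex.exp_add, neg_div, neg_add_cancel, Complex.exp_zero, mul_one]
  have hwR : R ≤ (V ν (a 0) w).re := by rw [hwV, Complex.ofReal_re]
  obtain ⟨u, hu⟩ : ∃ u : ℕ → ℂ, u = fun j => g^[j] (z₀ + w) - z₀ := ⟨_, rfl⟩
  have hu0 : ∀ j, u j ≠ 0 := fun j => by rw [hu]; exact (hbasin w hw0 hwR j).1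
  have huV : ∀ j : ℕ, R + j / 2 ≤ (V ν (a 0) (u j)).re := fun j => by
    rw [hu]
    exact (hbasin w hw0 hwR j).2
  have huV' : ∀ j : ℕ, ((j : ℝ) + 1) / 2 ≤ ‖V ν (a 0) (u j)‖ := fun j => by
    rw [hu]
    exact hbasin' w hw0 hwR j
  have hu00 : u 0 = w := by rw [hu]; simp
  have hsum := (summable_of_V hν ha0 hu0 huV').mul_left C
  -- the derivative of the iterates
  have hprod : ∀ n, ‖deriv (g^[n]) (z₀ + w)‖ * ‖w‖ ^ (ν + 1) ≤
      ‖u n‖ ^ (ν + 1) * Real.exp (∑' j, C * ‖u j‖ ^ (ν + 1)) := by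
    intro n
    have h1 := deriv_prod hgd (z₀ := z₀) (w := z₀ + w) (ν := ν) (C := C) (u := u)
      (s := fun j => u j ^ ν * a (u j)) (fun j => by rw [hu]) (by
        intro j
        have h2 := (hstep (u j) (hu0 j) (by
          have := Complex.re_le_norm (V ν (a 0) (u j))
          have := huV j
          have hj0 : (0 : ℝ) ≤ j := j.cast_nonneg
          linarith)).1
        rw [← h2, hu]
        simp only
        rw [Function.iterate_succ_apply', add_sub_cancel]) (by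
        intro j
        exact (hstep (u j) (hu0 j) (by
          have := Complex.re_le_norm (V ν (a 0) (u j))
          have := huV j
          have hj0 : (0 : ℝ) ≤ j := j.cast_nonneg
          linarith)).2.1) hC n
    rw [hu00] at h1
    refine h1.trans (mul_le_mul_of_nonneg_left ?_ (by positivity))
    have h3 : ∏ j ∈ Finset.range n, (1 + C * ‖u j‖ ^ (ν + 1)) ≤
        ∏ j ∈ Finset.range n, Real.exp (C * ‖u j‖ ^ (ν + 1)) := by
      apply Finset.prod_le_prod (fun j _ => by positivity)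
      intro j _
      rw [add_comm]
      exact Real.add_one_le_exp _
    rw [← Real.exp_sum] at h3
    refine h3.trans (Real.exp_le_exp.2 ?_)
    exact hsum.sum_le_tsum _ (fun j _ => by positivity)
  -- the inverse branches
  have key : ∀ n : ℕ, 1 ≤ n → ‖a 0‖ * ‖u n‖ ^ (ν + 1) ≤
      ‖deriv (g^[n]) (z₀ + w)‖ * ((‖c‖ + 2) / (((V ν (a 0) (u n)).re - R) / 2)) := by
    intro n hn
    obtain ⟨x, hx⟩ : ∃ x, x = V ν (a 0) (u n) := ⟨_, rfl⟩
    have hxR : R + n / 2 ≤ x.re := by rw [hx]; exact huV n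
    have hn0 : (1 : ℝ) ≤ n := by exact_mod_cast hn
    obtain ⟨ρ, hρ⟩ : ∃ ρ, ρ = x.re - R := ⟨_, rfl⟩
    have hρ0 : 0 < ρ := by rw [hρ]; linarith
    have hxn : x.re ≤ ‖x‖ := Complex.re_le_norm x
    have hx0 : x ≠ 0 := by
      rw [← norm_pos_iff]
      linarith
    rw [← hx, ← hρ]
    have hre : ∀ ζ ∈ ball x ρ, R < ζ.re ∧ 0 < (ζ / x).re := by
      intro ζ hζ
      rw [mem_ball, dist_eq_norm] at hζ
      constructor
      · have := Complex.abs_re_le_norm (ζ - x)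
        rw [Complex.sub_re, abs_le] at this
        linarith
      · have h1 : ‖ζ / x - 1‖ < 1 := by
          rw [show ζ / x - 1 = (ζ - x) / x by field_simp, norm_div,
            div_lt_one (norm_pos_iff.2 hx0)]
          linarith
        have := (Complex.abs_re_le_norm (ζ / x - 1)).trans_lt h1
        rw [Complex.sub_re, Complex.one_re, abs_lt] at this
        linarith
    obtain ⟨B, hB⟩ : ∃ B : ℂ → ℂ, B = fun ζ => u n * exp (-(log (ζ / x)) / ν) := ⟨_, rfl⟩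
    have hBder : ∀ ζ ∈ ball x ρ, HasDerivAt B
        (u n * (exp (-(log (ζ / x)) / ν) * (-(1 / x / (ζ / x)) / ν))) ζ := by
      intro ζ hζ
      rw [hB]
      exact ((((hasDerivAt_id ζ).div_const x).clog (Or.inl (hre ζ hζ).2)).fun_neg.div_const
        (ν : ℂ)).cexp.const_mul (u n)
    have hBx : B x = u n := by
      rw [hB]
      simp [div_self hx0]
    have hB0 : ∀ ζ, B ζ ≠ 0 := fun ζ => by
      rw [hB]
      exact mul_ne_zero (hu0 n) (Complex.exp_ne_zero _)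
    have hBV : ∀ ζ ∈ ball x ρ, V ν (a 0) (B ζ) = ζ := by
      intro ζ hζ
      have hζ0 : ζ ≠ 0 := by
        intro h
        have := (hre ζ hζ).1
        rw [h, Complex.zero_re] at this
        linarith
      have h1 : B ζ ^ ν = u n ^ ν * (x / ζ) := by
        rw [hB]
        simp only
        rw [mul_pow, ← Complex.exp_nat_mul]
        congr 1
        rw [show (ν : ℂ) * (-(log (ζ / x)) / ν) = -(log (ζ / x)) by field_simp,
          Complex.exp_neg, Complex.exp_log (div_ne_zero hζ0 hx0), inv_div]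
      have hun := hu0 n
      have h2 : x = -((ν : ℂ) * (a 0 * u n ^ ν))⁻¹ := by rw [hx]; rfl
      unfold V
      rw [h1]
      have h3 : (ν : ℂ) * (a 0 * u n ^ ν) * x = -1 := by
        rw [h2]
        have := pow_ne_zero ν hun
        field_simp
      rw [show (ν : ℂ) * (a 0 * (u n ^ ν * (x / ζ))) = (ν : ℂ) * (a 0 * u n ^ ν) * x / ζ by ring,
        h3]
      field_simp
    have hgn : ∀ n, (fc d c)^[N * n] = g^[n] := fun n => by
      rw [hg, Function.iterate_mul]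
    have hBlab : ∀ ζ ∈ ball x ρ, lab ν (a 0) (B ζ) = w₀ := by
      intro ζ hζ
      have hζ1 := (hre ζ hζ).1
      have h1 : 0 < ζ.re := by linarith
      have h2 : 0 < x.re := by linarith
      have h3 : lab ν (a 0) (u n) = w₀ := by
        rw [hu, ← hwlab]
        exact hlab w hw0 hwR n
      rw [← h3]
      unfold lab
      rw [hBV ζ hζ, hB, ← hx]
      simp only
      rw [mul_assoc, ← Complex.exp_add, log_div_re h1 h2]
      congr 2
      ring
    obtain ⟨k, hk, hkx, hkh⟩ := exists_branch (d := d) (by omega) (c := c) (x := x) hρ0 (N * n)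
      (h := fun ζ => z₀ + B ζ)
      (fun ζ hζ => ((hBder ζ hζ).differentiableAt.const_add z₀).differentiableWithinAt) (by
        intro ζ hζ j _ hj
        exact hav j hj (B ζ) (hB0 ζ) (by
          rw [hBV ζ hζ]
          exact (hre ζ hζ).1.le) (hBlab ζ hζ)) (z₀ + w) (by
        show (fc d c)^[N * n] (z₀ + w) = z₀ + B x
        rw [hBx, hgn, hu]
        ring)
    have hkh' : ∀ ζ ∈ ball x ρ, g^[n] (k ζ) = z₀ + B ζ := by
      intro ζ hζ
      rw [← hgn]
      exact hkh ζ hζ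
    -- the branch is bounded
    have hkb : ∀ ζ ∈ ball x ρ, ‖k ζ‖ ≤ ‖c‖ + 2 := by
      intro ζ hζ
      by_contra hlt
      push Not at hlt
      have h1 := hlim (B ζ) (hB0 ζ) (by
        rw [hBV ζ hζ]
        exact (hre ζ hζ).1.le)
      have h2 : Tendsto (fun j => ‖g^[j] (z₀ + B ζ)‖) atTop atTop := by
        apply tendsto_atTop_mono (f := fun j : ℕ => (2 : ℝ) ^ j)
        · intro j
          have h3 := escape hd hlt.le (N * (n + j))
          rw [hgn, add_comm n j, Function.iterate_add_apply, hkh' ζ hζ] at h3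
          refine le_trans ?_ h3
          have h4 : (2 : ℝ) ^ j ≤ 2 ^ (N * (j + n)) := by
            apply pow_le_pow_right₀ (by norm_num)
            calc j ≤ j + n := by omega
              _ ≤ N * (j + n) := Nat.le_mul_of_pos_left _ (by omega)
          have h5 : 0 ≤ ‖c‖ := norm_nonneg c
          have h6 : (0 : ℝ) < 2 ^ (N * (j + n)) := by positivity
          nlinarith
        · exact tendsto_pow_atTop_atTop_of_one_lt (by norm_num)
      exact not_tendsto_nhds_of_tendsto_atTop h2 _ h1.norm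
    have hCauchy : ‖deriv k x‖ ≤ (‖c‖ + 2) / (ρ / 2) := by
      have hsub : closedBall x (ρ / 2) ⊆ ball x ρ := closedBall_subset_ball (by linarith)
      apply Complex.norm_deriv_le_of_forall_mem_sphere_norm_le (by positivity)
      · apply DifferentiableOn.diffContOnCl
        rw [closure_ball x (by positivity)]
        exact hk.mono hsub
      · intro ζ hζ
        exact hkb ζ (hsub (sphere_subset_closedBall hζ))
    have hxb : x ∈ ball x ρ := mem_ball_self hρ0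
    -- the chain rule
    have hchain : deriv (g^[n]) (z₀ + w) * deriv k x =
        u n * (exp (-(log (x / x)) / ν) * (-(1 / x / (x / x)) / ν)) := by
      have h1 : HasDerivAt (fun ζ => g^[n] (k ζ)) (deriv (g^[n]) (z₀ + w) * deriv k x) x := by
        have h2 : HasDerivAt (g^[n]) (deriv (g^[n]) (k x)) (k x) :=
          (Differentiable.iterate hgd n (k x)).hasDerivAt
        have h3 := h2.comp x (hk.differentiableAt (isOpen_ball.mem_nhds hxb)).hasDerivAt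
        rw [hkx] at h3
        exact h3
      have h4 : (fun ζ => g^[n] (k ζ)) =ᶠ[𝓝 x] fun ζ => z₀ + B ζ := by
        filter_upwards [isOpen_ball.mem_nhds hxb] with ζ hζ using hkh' ζ hζ
      exact h1.unique (((hBder x hxb).const_add z₀).congr_of_eventuallyEq h4)
    have h5 : ‖u n * (exp (-(log (x / x)) / ν) * (-(1 / x / (x / x)) / ν))‖ =
        ‖a 0‖ * ‖u n‖ ^ (ν + 1) := by
      rw [div_self hx0, Complex.log_one, neg_zero, zero_div, Complex.exp_zero, one_mul, div_one,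
        norm_mul, norm_div, norm_neg, norm_div, norm_one, Complex.norm_natCast, hx, norm_V]
      have hun : 0 < ‖u n‖ := norm_pos_iff.2 (hu0 n)
      field_simp
      ring
    rw [← h5, ← hchain, norm_mul]
    exact mul_le_mul_of_nonneg_left hCauchy (norm_nonneg _)
  -- the contradiction
  obtain ⟨E, hE⟩ : ∃ E, E = Real.exp (∑' j, C * ‖u j‖ ^ (ν + 1)) := ⟨_, rfl⟩
  have hE0 : 0 < E := by rw [hE]; exact Real.exp_pos _
  rw [← hE] at hprod
  have hwn : 0 < ‖w‖ := norm_pos_iff.2 hw0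
  have hc := norm_nonneg c
  have hfin : ∀ n : ℕ, 1 ≤ n → (n : ℝ) * (‖a 0‖ * ‖w‖ ^ (ν + 1)) ≤ 4 * (E * (‖c‖ + 2)) := by
    intro n hn
    have hn0 : (1 : ℝ) ≤ n := by exact_mod_cast hn
    have h1 := key n hn
    have h2 := hprod n
    obtain ⟨ρ, hρ⟩ : ∃ ρ, ρ = (V ν (a 0) (u n)).re - R := ⟨_, rfl⟩
    have hρn : (n : ℝ) / 2 ≤ ρ := by
      rw [hρ]
      have := huV n
      linarith
    rw [← hρ] at h1
    have hρ0 : 0 < ρ := by linarith
    have hun : 0 < ‖u n‖ ^ (ν + 1) := pow_pos (norm_pos_iff.2 (hu0 n)) _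
    have h3 : ‖a 0‖ * ‖u n‖ ^ (ν + 1) * ‖w‖ ^ (ν + 1) ≤
        ‖u n‖ ^ (ν + 1) * E * ((‖c‖ + 2) / (ρ / 2)) := by
      calc ‖a 0‖ * ‖u n‖ ^ (ν + 1) * ‖w‖ ^ (ν + 1)
          ≤ ‖deriv (g^[n]) (z₀ + w)‖ * ((‖c‖ + 2) / (ρ / 2)) * ‖w‖ ^ (ν + 1) :=
            mul_le_mul_of_nonneg_right h1 (by positivity)
        _ = (‖deriv (g^[n]) (z₀ + w)‖ * ‖w‖ ^ (ν + 1)) * ((‖c‖ + 2) / (ρ / 2)) := by ring
        _ ≤ _ := mul_le_mul_of_nonneg_right h2 (by positivity)
    have h4 : ‖a 0‖ * ‖w‖ ^ (ν + 1) ≤ E * ((‖c‖ + 2) / (ρ / 2)) := by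
      have h5 : ‖u n‖ ^ (ν + 1) * (‖a 0‖ * ‖w‖ ^ (ν + 1)) ≤
          ‖u n‖ ^ (ν + 1) * (E * ((‖c‖ + 2) / (ρ / 2))) := by linarith
      exact le_of_mul_le_mul_left h5 hun
    have h6 : ρ * (‖a 0‖ * ‖w‖ ^ (ν + 1)) ≤ 2 * (E * (‖c‖ + 2)) := by
      have h7 := mul_le_mul_of_nonneg_left h4 hρ0.le
      have e : ρ * (E * ((‖c‖ + 2) / (ρ / 2))) = 2 * (E * (‖c‖ + 2)) := by
        field_simp
      rwa [e] at h7
    have h8 : 0 < ‖a 0‖ * ‖w‖ ^ (ν + 1) := by positivity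
    nlinarith
  obtain ⟨n, hn⟩ := exists_nat_gt (4 * (E * (‖c‖ + 2)) / (‖a 0‖ * ‖w‖ ^ (ν + 1)))
  rw [div_lt_iff₀ (by positivity)] at hn
  have hn1 : 1 ≤ n := by
    by_contra h0
    have h00 : n = 0 := by omega
    rw [h00, Nat.cast_zero, zero_mul] at hn
    have : 0 < 4 * (E * (‖c‖ + 2)) := by positivity
    linarith
  linarith [hfin n hn1]

end Pool.Agent.Run7.h15.Tr
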