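import Pool.Agent.Run7.h15.Tr.LBb
import Pool.Agent.Run7.h15.Tr.LBc

/-!
# Sharp control near a parabolic parameter: one step, and the geometric sums
-/

set_option autoImplicit false

namespace Pool.Agent.Run7.h15.Tr

open Complex Filter Topology Metric Set
open Pool.Agent.Run7.h15.Par

/-- one step in the Fatou coordinate, for `s` of the size of `u ^ ν` -/
theorem one_step' {ν : ℕ} (hν : 1 ≤ ν) {a α : ℂ} (ha : a ≠ 0) {C r : ℝ} (hC : 0 ≤ C) (hr : 0 < r)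
    {G : ℂ → ℂ → ℂ} (hG : Fam ν a α C r G) {κ : ℝ} (hκ0 : 0 < κ) :
    ∃ R C₁ : ℝ, 1 ≤ R ∧ 0 ≤ C₁ ∧ ∀ s u : ℂ, ‖s‖ < r → u ≠ 0 → R ≤ ‖V ν a u‖ →
      ‖s‖ * ‖V ν a u‖ ≤ κ → G s u ≠ 0 ∧
        ‖V ν a (G s u) - V ν a u * (1 - ν * α * s) - 1‖ ≤ C₁ * ‖u‖ := by
  obtain ⟨K, hK, hKb⟩ := inv_pow_rem ν
  have hνR : (1 : ℝ) ≤ ν := by exact_mod_cast hν
  have hνC : (ν : ℂ) ≠ 0 := by exact_mod_cast (by omega : ν ≠ 0)
  have han : 0 < ‖a‖ := norm_pos_iff.2 ha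
  have hαn := norm_nonneg α
  -- constants
  obtain ⟨k1, hk1⟩ : ∃ k1 : ℝ, k1 = ν * ‖a‖ := ⟨_, rfl⟩
  have hk10 : 0 < k1 := by rw [hk1]; positivity
  obtain ⟨k2, hk2⟩ : ∃ k2 : ℝ, k2 = κ * k1 := ⟨_, rfl⟩
  have hk20 : 0 < k2 := by rw [hk2]; positivity
  obtain ⟨C3, hC3⟩ : ∃ C3 : ℝ, C3 = C * (1 + k2 + k2 ^ 2 + k2 ^ (ν + 2)) := ⟨_, rfl⟩
  have hC30 : 0 ≤ C3 := by rw [hC3]; positivity
  obtain ⟨C4, hC4⟩ : ∃ C4 : ℝ, C4 = ‖α‖ * k2 + ‖a‖ + C3 := ⟨_, rfl⟩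
  have hC40 : 0 ≤ C4 := by rw [hC4]; positivity
  -- smallness of `u`
  obtain ⟨τ, hτ⟩ : ∃ τ : ℝ, τ = min (min 1 r) (1 / (2 * (C4 + 1))) := ⟨_, rfl⟩
  have hτ0 : 0 < τ := by
    rw [hτ]
    exact lt_min (lt_min one_pos hr) (by positivity)
  have hτ1 : τ ≤ 1 := by rw [hτ]; exact (min_le_left _ _).trans (min_le_left _ _)
  have hτr : τ ≤ r := by rw [hτ]; exact (min_le_left _ _).trans (min_le_right _ _)
  have hτ3 : τ ≤ 1 / (2 * (C4 + 1)) := by rw [hτ]; exact min_le_right _ _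
  refine ⟨2 / (k1 * τ ^ ν) + 1, (ν * C3 + K * C4 ^ 2) / k1, ?_, by positivity, ?_⟩
  · have : 0 < 2 / (k1 * τ ^ ν) := by positivity
    linarith
  intro s u hs hu hV hsV
  have hm0 : 0 < ‖u‖ := norm_pos_iff.2 hu
  obtain ⟨m, hm⟩ : ∃ m, m = ‖u‖ := ⟨_, rfl⟩
  rw [← hm] at hm0
  have hVn : ‖V ν a u‖ = (k1 * m ^ ν)⁻¹ := by rw [norm_V, hk1, hm, mul_assoc]
  have hmτ : m < τ := by
    by_contra hcon
    push Not at hcon
    have h1 : k1 * τ ^ ν ≤ k1 * m ^ ν := by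
      have := pow_le_pow_left₀ hτ0.le hcon ν
      gcongr
    have h2 := inv_anti₀ (by positivity) h1
    rw [hVn] at hV
    have h3 : (k1 * τ ^ ν)⁻¹ ≤ 2 / (k1 * τ ^ ν) := by
      rw [div_eq_mul_inv]
      have : 0 < (k1 * τ ^ ν)⁻¹ := by positivity
      linarith
    linarith
  have hm1 : m ≤ 1 := by linarith
  have hmν : m ^ ν ≤ m := by
    calc m ^ ν ≤ m ^ 1 := pow_le_pow_of_le_one hm0.le hm1 hν
      _ = m := pow_one m
  have hmν0 : 0 < m ^ ν := by positivity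
  -- bound for `s`
  have hs2 : ‖s‖ ≤ k2 * m ^ ν := by
    rw [hVn, ← div_eq_mul_inv, div_le_iff₀ (by positivity)] at hsV
    rw [hk2, mul_assoc]
    exact hsV
  -- the error
  have hE := hG s u hs (by rw [← hm]; linarith)
  obtain ⟨e, he⟩ : ∃ e, e = G s u - u * (1 + α * s + a * u ^ ν) := ⟨_, rfl⟩
  rw [← he, ← hm] at hE
  have hs0 := norm_nonneg s
  have hEb : ‖e‖ ≤ C3 * m ^ (ν + 2) := by
    refine hE.trans ?_
    rw [hC3, mul_assoc]
    apply mul_le_mul_of_nonneg_left _ hC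
    have b1 : ‖s‖ * m ^ 2 ≤ k2 * m ^ (ν + 2) := by
      calc ‖s‖ * m ^ 2 ≤ (k2 * m ^ ν) * m ^ 2 := mul_le_mul_of_nonneg_right hs2 (by positivity)
        _ = _ := by ring
    have b2 : ‖s‖ ^ 2 * m ≤ k2 ^ 2 * m ^ (ν + 2) := by
      calc ‖s‖ ^ 2 * m ≤ (k2 * m ^ ν) ^ 2 * m :=
            mul_le_mul_of_nonneg_right (pow_le_pow_left₀ hs0 hs2 2) hm0.le
        _ = k2 ^ 2 * m ^ (2 * ν + 1) := by ring
        _ ≤ k2 ^ 2 * m ^ (ν + 2) := by
            apply mul_le_mul_of_nonneg_left _ (by positivity)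
            exact pow_le_pow_of_le_one hm0.le hm1 (by omega)
    have b3 : ‖s‖ ^ (ν + 2) ≤ k2 ^ (ν + 2) * m ^ (ν + 2) := by
      calc ‖s‖ ^ (ν + 2) ≤ (k2 * m ^ ν) ^ (ν + 2) := pow_le_pow_left₀ hs0 hs2 _
        _ ≤ (k2 * m) ^ (ν + 2) := by gcongr
        _ = _ := by rw [mul_pow]
    calc m ^ (ν + 2) + ‖s‖ * m ^ 2 + ‖s‖ ^ 2 * m + ‖s‖ ^ (ν + 2)
        ≤ m ^ (ν + 2) + k2 * m ^ (ν + 2) + k2 ^ 2 * m ^ (ν + 2) + k2 ^ (ν + 2) * m ^ (ν + 2) := by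
          gcongr
      _ = _ := by ring
  have heu : ‖e / u‖ ≤ C3 * m ^ (ν + 1) := by
    rw [norm_div, ← hm, div_le_iff₀ hm0]
    refine hEb.trans (le_of_eq ?_)
    ring
  obtain ⟨σ, hσ⟩ : ∃ σ, σ = α * s + a * u ^ ν + e / u := ⟨_, rfl⟩
  have hGσ : G s u = u * (1 + σ) := by
    rw [hσ, he]
    field_simp
    ring
  have han' : ‖a * u ^ ν‖ = ‖a‖ * m ^ ν := by rw [norm_mul, norm_pow, ← hm]
  have hσ1 : ‖σ‖ ≤ C4 * m ^ ν := by
    rw [hσ]
    refine (norm_add₃_le).trans ?_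
    rw [han']
    have b1 : ‖α * s‖ ≤ ‖α‖ * k2 * m ^ ν := by
      rw [norm_mul, mul_assoc]
      exact mul_le_mul_of_nonneg_left hs2 hαn
    have b2 : ‖e / u‖ ≤ C3 * m ^ ν := by
      refine heu.trans (mul_le_mul_of_nonneg_left ?_ hC30)
      exact pow_le_pow_of_le_one hm0.le hm1 (by omega)
    calc ‖α * s‖ + ‖a‖ * m ^ ν + ‖e / u‖ ≤ ‖α‖ * k2 * m ^ ν + ‖a‖ * m ^ ν + C3 * m ^ ν := by gcongr
      _ = _ := by rw [hC4]; ring
  have hσ2 : ‖σ‖ ≤ 1 / 2 := by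
    refine hσ1.trans ?_
    calc C4 * m ^ ν ≤ (C4 + 1) * τ := by
          apply mul_le_mul (by linarith) (by linarith) (by positivity) (by positivity)
      _ ≤ (C4 + 1) * (1 / (2 * (C4 + 1))) := mul_le_mul_of_nonneg_left hτ3 (by positivity)
      _ = 1 / 2 := by field_simp
  have h1s0 : 1 + σ ≠ 0 := by
    intro h0
    have h2 := norm_sub_norm_le (1 : ℂ) (-σ)
    rw [norm_one, norm_neg, sub_neg_eq_add, h0, norm_zero] at h2
    linarith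
  refine ⟨by rw [hGσ]; exact mul_ne_zero hu h1s0, ?_⟩
  -- the finer estimate
  have h1s : (1 + σ) ^ ν ≠ 0 := pow_ne_zero _ h1s0
  have hun : u ^ ν ≠ 0 := pow_ne_zero _ hu
  have hVv : V ν a (G s u) = V ν a u * ((1 + σ) ^ ν)⁻¹ := by
    rw [hGσ]
    unfold V
    rw [mul_pow]
    field_simp
  have hVu : V ν a u * (ν * (a * u ^ ν)) = -1 := by
    unfold V
    field_simp
  have e1 : V ν a (G s u) - V ν a u * (1 - ν * α * s) - 1 =
      V ν a u * (((1 + σ) ^ ν)⁻¹ - 1 + ν * σ) - V ν a u * (ν * (e / u)) := by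
    rw [hVv, hσ]
    have : V ν a u * (ν * (α * s + a * u ^ ν + e / u)) =
        V ν a u * (ν * α * s) - 1 + V ν a u * (ν * (e / u)) := by
      linear_combination hVu
    linear_combination (-1 : ℂ) * this
  rw [e1]
  refine (norm_sub_le _ _).trans ?_
  rw [norm_mul, norm_mul, norm_mul, Complex.norm_natCast, hVn, ← hm]
  have b1 : ‖((1 + σ) ^ ν)⁻¹ - 1 + ν * σ‖ ≤ K * (C4 ^ 2 * m ^ (ν + 1)) := by
    refine (hKb σ hσ2).trans (mul_le_mul_of_nonneg_left ?_ hK)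
    calc ‖σ‖ ^ 2 ≤ (C4 * m ^ ν) ^ 2 := pow_le_pow_left₀ (norm_nonneg _) hσ1 2
      _ = C4 ^ 2 * m ^ (2 * ν) := by ring
      _ ≤ C4 ^ 2 * m ^ (ν + 1) := by
          apply mul_le_mul_of_nonneg_left _ (by positivity)
          exact pow_le_pow_of_le_one hm0.le hm1 (by omega)
  calc (k1 * m ^ ν)⁻¹ * ‖((1 + σ) ^ ν)⁻¹ - 1 + ν * σ‖ + (k1 * m ^ ν)⁻¹ * (ν * ‖e / u‖)
      ≤ (k1 * m ^ ν)⁻¹ * (K * (C4 ^ 2 * m ^ (ν + 1))) +
        (k1 * m ^ ν)⁻¹ * (ν * (C3 * m ^ (ν + 1))) := by gcongr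
    _ = (ν * C3 + K * C4 ^ 2) / k1 * m := by
        field_simp
        ring

/-- the entire function `(1 - exp (-τ)) / τ` has no zeros in the disc of radius `2 π` -/
theorem phi_lower {θ : ℝ} (h1 : θ < 1) : ∃ c : ℝ, 0 < c ∧ c ≤ 1 ∧
    ∀ τ : ℂ, ‖τ‖ ≤ 2 * Real.pi * θ → c * ‖τ‖ ≤ ‖1 - exp (-τ)‖ := by
  obtain ⟨f, hf⟩ : ∃ f : ℂ → ℂ, f = fun τ => 1 - exp (-τ) := ⟨_, rfl⟩
  have hfd : Differentiable ℂ f := by rw [hf]; fun_prop
  have hf0 : f 0 = 0 := by rw [hf]; simp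
  have hf' : deriv f 0 = 1 := by
    have : HasDerivAt f (-(exp (-0) * (-1))) 0 := by
      rw [hf]
      exact ((hasDerivAt_neg (0 : ℂ)).cexp).const_sub 1
    rw [this.deriv]
    simp
  obtain ⟨g, hg⟩ : ∃ g, g = dslope f 0 := ⟨_, rfl⟩
  have hgc : Continuous g := by
    rw [hg, continuous_iff_continuousAt]
    intro τ
    by_cases h : τ = 0
    · rw [h]
      exact continuousAt_dslope_same.2 (hfd 0)
    · exact (continuousAt_dslope_of_ne h).2 (hfd τ).continuousAt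
  have hgne : ∀ τ ∈ closedBall (0 : ℂ) (2 * Real.pi * θ), g τ ≠ 0 := by
    intro τ hτ
    rw [mem_closedBall, dist_zero_right] at hτ
    have hpi := Real.pi_pos
    by_cases h : τ = 0
    · rw [h, hg, dslope_same, hf']
      exact one_ne_zero
    · rw [hg, dslope_of_ne _ h, slope_def_field, hf0, sub_zero, sub_zero]
      apply div_ne_zero _ h
      rw [hf]
      intro h2
      have h3 : exp (-τ) = 1 := (sub_eq_zero.1 h2).symm
      rw [Complex.exp_eq_one_iff] at h3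
      obtain ⟨n, hn⟩ := h3
      have h4 : ‖τ‖ = |(n : ℝ)| * (2 * Real.pi) := by
        rw [← norm_neg, hn]
        simp [abs_of_pos hpi]
      have h5 : n ≠ 0 := by
        rintro rfl
        apply h
        rw [← neg_eq_zero, hn]
        simp
      have h6 : (1 : ℝ) ≤ |(n : ℝ)| := by exact_mod_cast Int.one_le_abs h5
      rw [h4] at hτ
      nlinarith
  rcases lt_or_ge (2 * Real.pi * θ) 0 with hneg | hpos
  · refine ⟨1, one_pos, le_rfl, fun τ hτ => ?_⟩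
    have := norm_nonneg τ
    linarith
  obtain ⟨τ₀, h1, h2⟩ := (isCompact_closedBall (0 : ℂ) (2 * Real.pi * θ)).exists_isMinOn
    ⟨0, by rwa [mem_closedBall, dist_self]⟩ hgc.norm.continuousOn
  refine ⟨‖g τ₀‖, norm_pos_iff.2 (hgne τ₀ h1), ?_, ?_⟩
  · have h3 := h2 (show (0 : ℂ) ∈ closedBall (0 : ℂ) (2 * Real.pi * θ) by
      rwa [mem_closedBall, dist_self])
    have h4 : ‖g 0‖ = 1 := by rw [hg, dslope_same, hf', norm_one]
    have h5 : ‖g τ₀‖ ≤ ‖g 0‖ := h3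
    linarith
  · intro τ hτ
    have h3 : ‖g τ₀‖ ≤ ‖g τ‖ := h2 (by rwa [mem_closedBall, dist_zero_right])
    by_cases h : τ = 0
    · rw [h]
      simp
    · have h4 : f τ = τ * g τ := by
        rw [hg, dslope_of_ne _ h, slope_def_field, hf0, sub_zero, sub_zero]
        field_simp
      have h5 : 1 - exp (-τ) = τ * g τ := by rw [← h4, hf]
      rw [h5, norm_mul, mul_comm]
      gcongr

theorem pow_sub_pow_le {A B : ℂ} {M : ℝ} (hA : ‖A‖ ≤ M) (hB : ‖B‖ ≤ M) (hM : 1 ≤ M) (j : ℕ) :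
    ‖A ^ j - B ^ j‖ ≤ j * (M ^ j * ‖A - B‖) := by
  induction j with
  | zero => simp
  | succ j ih =>
    have e : A ^ (j + 1) - B ^ (j + 1) = A * (A ^ j - B ^ j) + (A - B) * B ^ j := by ring
    rw [e]
    have hAB := norm_nonneg (A - B)
    have h1 : ‖A * (A ^ j - B ^ j)‖ ≤ M * (j * (M ^ j * ‖A - B‖)) := by
      rw [norm_mul]
      exact mul_le_mul hA ih (norm_nonneg _) (by linarith)
    have h2 : ‖(A - B) * B ^ j‖ ≤ ‖A - B‖ * (M ^ j * M) := by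
      rw [norm_mul, norm_pow]
      apply mul_le_mul_of_nonneg_left _ hAB
      calc ‖B‖ ^ j ≤ M ^ j := pow_le_pow_left₀ (norm_nonneg _) hB j
        _ ≤ M ^ j * M := le_mul_of_one_le_right (by positivity) hM
    refine (norm_add_le _ _).trans ((add_le_add h1 h2).trans (le_of_eq ?_))
    push_cast
    ring

/-- **The geometric sums are large.** -/
theorem geom_lower {θ : ℝ} (h0 : 0 < θ) (h1 : θ < 1) : ∃ c : ℝ, 0 < c ∧ ∃ n₀ : ℕ, 1 ≤ n₀ ∧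
    ∀ n : ℕ, n₀ ≤ n → ∀ y : ℂ, ‖y‖ ≤ 2 * Real.pi * θ / n → ∀ j ≤ n,
      c * j ≤ ‖∑ i ∈ Finset.range j, (1 - y) ^ i‖ := by
  obtain ⟨c, hc0, hc1, hc⟩ := phi_lower h1
  have hpi := Real.pi_pos
  obtain ⟨E, hE⟩ : ∃ E : ℝ, E = Real.exp (2 * Real.pi) := ⟨_, rfl⟩
  have hE1 : 1 ≤ E := by rw [hE]; exact Real.one_le_exp (by positivity)
  obtain ⟨n₀, hn₀⟩ := exists_nat_gt (max (4 * Real.pi * E / c) (2 * Real.pi))
  have hn₀1 : 4 * Real.pi * E / c < n₀ := (le_max_left _ _).trans_lt hn₀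
  have hn₀2 : 2 * Real.pi < n₀ := (le_max_right _ _).trans_lt hn₀
  refine ⟨c / 2, by positivity, n₀, ?_, ?_⟩
  · have : (0 : ℝ) < n₀ := by linarith
    exact_mod_cast this
  intro n hn y hy j hj
  have hnR : (n₀ : ℝ) ≤ n := by exact_mod_cast hn
  have hn0 : (0 : ℝ) < n := by linarith
  have hjR : (j : ℝ) ≤ n := by exact_mod_cast hj
  have hj0 : (0 : ℝ) ≤ j := j.cast_nonneg
  have hy1 : ‖y‖ ≤ 1 := by
    refine hy.trans ?_
    rw [div_le_one hn0]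
    nlinarith
  have hjy : j * ‖y‖ ≤ 2 * Real.pi * θ := by
    calc j * ‖y‖ ≤ n * (2 * Real.pi * θ / n) := by gcongr
      _ = _ := by field_simp
  by_cases hy0 : y = 0
  · rw [hy0]
    simp only [sub_zero, one_pow, Finset.sum_const, Finset.card_range, nsmul_eq_mul, mul_one,
      Complex.norm_natCast]
    nlinarith
  have hyp : 0 < ‖y‖ := norm_pos_iff.2 hy0
  have hgeom : (∑ i ∈ Finset.range j, (1 - y) ^ i) * y = 1 - (1 - y) ^ j := by
    have := geom_sum_mul (1 - y) j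
    linear_combination -this
  have h2 : ‖(1 - y) ^ j - exp (-y) ^ j‖ ≤ j * (E * ‖y‖ ^ 2) := by
    have hA : ‖1 - y‖ ≤ Real.exp ‖y‖ := by
      have h3 := norm_sub_le (1 : ℂ) y
      rw [norm_one] at h3
      have := Real.add_one_le_exp ‖y‖
      linarith
    have hB : ‖exp (-y)‖ ≤ Real.exp ‖y‖ := by
      rw [Complex.norm_exp]
      apply Real.exp_le_exp.2
      have := Complex.abs_re_le_norm (-y)
      rw [norm_neg] at this
      exact (le_abs_self _).trans this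
    have h3 := pow_sub_pow_le hA hB (Real.one_le_exp (norm_nonneg y)) j
    refine h3.trans ?_
    have h4 : ‖1 - y - exp (-y)‖ ≤ ‖y‖ ^ 2 := by
      have h5 := Complex.norm_exp_sub_one_sub_id_le (x := -y) (by rwa [norm_neg])
      rw [norm_neg] at h5
      rw [← norm_neg]
      have e : -(1 - y - exp (-y)) = exp (-y) - 1 - -y := by ring
      rwa [e]
    have h5 : Real.exp ‖y‖ ^ j ≤ E := by
      rw [← Real.exp_nat_mul, hE]
      apply Real.exp_le_exp.2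
      nlinarith
    gcongr
  have h3 := hc (j * y) (by rw [norm_mul, Complex.norm_natCast]; exact hjy)
  rw [norm_mul, Complex.norm_natCast] at h3
  have h4 : exp (-(j * y)) = exp (-y) ^ j := by
    rw [← Complex.exp_nat_mul]
    congr 1
    ring
  rw [h4] at h3
  obtain ⟨W, hW⟩ : ∃ W, W = ∑ i ∈ Finset.range j, (1 - y) ^ i := ⟨_, rfl⟩
  rw [← hW] at hgeom ⊢
  have h5 : ‖W‖ * ‖y‖ = ‖1 - (1 - y) ^ j‖ := by rw [← norm_mul, hgeom]
  have h6 : ‖1 - exp (-y) ^ j‖ ≤ ‖1 - (1 - y) ^ j‖ + ‖(1 - y) ^ j - exp (-y) ^ j‖ := by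
    have e : 1 - exp (-y) ^ j = (1 - (1 - y) ^ j) + ((1 - y) ^ j - exp (-y) ^ j) := by ring
    rw [e]
    exact norm_add_le _ _
  have h7 : c * j * ‖y‖ ≤ (‖W‖ + j * (E * ‖y‖)) * ‖y‖ := by
    calc c * j * ‖y‖ = c * (j * ‖y‖) := by ring
      _ ≤ ‖1 - exp (-y) ^ j‖ := h3
      _ ≤ ‖W‖ * ‖y‖ + j * (E * ‖y‖ ^ 2) := by rw [h5]; exact h6.trans (add_le_add le_rfl h2)
      _ = _ := by ring
  have h8 := le_of_mul_le_mul_right h7 hyp
  have h9 : E * ‖y‖ ≤ c / 2 := by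
    have h10 : ‖y‖ ≤ 2 * Real.pi / n := by
      refine hy.trans ?_
      apply div_le_div_of_nonneg_right _ hn0.le
      nlinarith
    have h11 : 4 * Real.pi * E < c * n := by
      rw [div_lt_iff₀ hc0] at hn₀1
      nlinarith
    calc E * ‖y‖ ≤ E * (2 * Real.pi / n) := by gcongr
      _ ≤ c / 2 := by
        rw [mul_div_assoc', div_le_iff₀ hn0]
        linarith
  nlinarith

end Pool.Agent.Run7.h15.Tr
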