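import Pool.Agent.Run7.h15.Tr.SA

/-!
# Sharp control near a parabolic parameter
-/

set_option autoImplicit false

namespace Pool.Agent.Run7.h15.Tr

open Complex Filter Topology Metric Set
open Pool.Agent.Run7.h15.Par

/-- a small variable, in terms of the Fatou coordinate -/
theorem small_of_V {ν : ℕ} (hν : 1 ≤ ν) {a u : ℂ} (ha : a ≠ 0) {c : ℝ} (hc : 0 < c) {n : ℕ}
    (hn : 1 ≤ n) (hu : u ≠ 0) (h : c * n ≤ ‖V ν a u‖) :
    ‖u‖ ≤ (1 / (ν * ‖a‖ * c) + 1) * (n : ℝ) ^ (-(1 / ((ν : ℝ) + 1))) := by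
  have hνR : (1 : ℝ) ≤ ν := by exact_mod_cast hν
  have han : 0 < ‖a‖ := norm_pos_iff.2 ha
  have hn1 : (1 : ℝ) ≤ n := by exact_mod_cast hn
  have hn0 : (0 : ℝ) < n := by linarith
  have hup : 0 < ‖u‖ := norm_pos_iff.2 hu
  obtain ⟨m, hm⟩ : ∃ m, m = ‖u‖ := ⟨_, rfl⟩
  obtain ⟨D0, hD0⟩ : ∃ D0 : ℝ, D0 = 1 / (ν * ‖a‖ * c) + 1 := ⟨_, rfl⟩
  have hD01 : 1 ≤ D0 := by
    rw [hD0]
    have : 0 < 1 / (ν * ‖a‖ * c) := by positivity
    linarith
  rw [norm_V, ← hm] at h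
  rw [← hm] at hup ⊢
  rw [← hD0]
  have h3 : 0 < (ν : ℝ) * (‖a‖ * m ^ ν) := by positivity
  rw [← one_div, le_div_iff₀ h3] at h
  have h4 : m ^ ν ≤ D0 * (n : ℝ)⁻¹ := by
    have h5 : m ^ ν ≤ 1 / (ν * ‖a‖ * c) * (n : ℝ)⁻¹ := by
      rw [← div_eq_mul_inv, le_div_iff₀ hn0, le_div_iff₀ (by positivity)]
      nlinarith
    refine h5.trans (mul_le_mul_of_nonneg_right ?_ (by positivity))
    rw [hD0]
    linarith
  have h5 : m = (m ^ ν) ^ (1 / (ν : ℝ)) := by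
    rw [← Real.rpow_natCast, ← Real.rpow_mul hup.le, mul_one_div,
      div_self (by positivity), Real.rpow_one]
  rw [h5]
  have h6 := Real.rpow_le_rpow (by positivity) h4 (show 0 ≤ 1 / (ν : ℝ) by positivity)
  refine h6.trans ?_
  rw [Real.mul_rpow (by positivity) (by positivity)]
  apply mul_le_mul _ _ (by positivity) (by positivity)
  · calc D0 ^ (1 / (ν : ℝ)) ≤ D0 ^ (1 : ℝ) := by
          apply Real.rpow_le_rpow_of_exponent_le hD01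
          rw [div_le_one (by positivity)]
          exact hνR
      _ = D0 := Real.rpow_one _
  · rw [Real.inv_rpow (by positivity), Real.rpow_neg (by positivity)]
    apply inv_anti₀ (by positivity)
    apply Real.rpow_le_rpow_of_exponent_le hn1
    exact div_le_div_of_nonneg_left zero_le_one (by positivity) (by linarith)

/-- **Sharp control of the Fatou coordinate.** -/
theorem control2 {ν : ℕ} (hν : 1 ≤ ν) {a α : ℂ} (ha : a ≠ 0) (hα : α ≠ 0) {C r : ℝ}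
    (hC : 0 ≤ C) (hr : 0 < r) {G : ℂ → ℂ → ℂ} (hG : Fam ν a α C r G) {x : ℕ → ℂ → ℂ}
    (hx : ∀ k s, ‖s‖ < r → x (k + 1) s = G s (x k s))
    (hxc : ∀ k, ContinuousAt (x k) 0)
    (hx0 : Tendsto (fun k => x k 0) atTop (𝓝 0)) (hxne : ∀ k, x k 0 ≠ 0) :
    ∃ k₀ : ℕ, ∀ θ : ℝ, 0 < θ → θ < 1 → ∃ D c : ℝ, ∃ n₀ : ℕ, 0 ≤ D ∧ 0 < c ∧ 1 ≤ n₀ ∧
      ∀ n : ℕ, n₀ ≤ n → ∀ s : ℂ, ‖s‖ ≤ θ * (2 * Real.pi / (ν * ‖α‖)) / n →
      ‖s‖ < r ∧ x (k₀ + n) s ≠ 0 ∧ c * n ≤ ‖V ν a (x (k₀ + n) s)‖ ∧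
      ‖V ν a (x (k₀ + n) s) - ∑ i ∈ Finset.range n, (1 - ν * α * s) ^ i‖ ≤
        D * (n : ℝ) ^ (1 - 1 / ((ν : ℝ) + 1)) := by
  have hνR : (1 : ℝ) ≤ ν := by exact_mod_cast hν
  have han : 0 < ‖a‖ := norm_pos_iff.2 ha
  have hαn : 0 < ‖α‖ := norm_pos_iff.2 hα
  have hpi := Real.pi_pos
  obtain ⟨κ, D₀, r₁, k₀, hκ, hD₀, hr₁, hr₁r, hctl⟩ := control hν ha hC hr hG hx hxc hx0 hxne (α := α)
  refine ⟨k₀, ?_⟩
  intro θ hθ0 hθ1
  obtain ⟨δ, hδ⟩ : ∃ δ : ℝ, δ = 1 / ((ν : ℝ) + 1) := ⟨_, rfl⟩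
  have hδ0 : 0 < δ := by rw [hδ]; positivity
  have hδ1 : δ ≤ 1 / 2 := by
    rw [hδ]
    exact div_le_div_of_nonneg_left zero_le_one (by norm_num) (by linarith)
  rw [← hδ] at hctl ⊢
  obtain ⟨X, hX⟩ : ∃ X : ℝ, X = 2 * Real.pi / (ν * ‖α‖) := ⟨_, rfl⟩
  have hX0 : 0 < X := by rw [hX]; positivity
  rw [← hX]
  obtain ⟨c₁, hc₁, n₁, hn₁, hgeo⟩ := geom_lower hθ0 hθ1
  obtain ⟨E, hE⟩ : ∃ E : ℝ, E = Real.exp (2 * Real.pi) := ⟨_, rfl⟩
  have hE1 : 1 ≤ E := by rw [hE]; exact Real.one_le_exp (by positivity)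
  obtain ⟨lam, hlam⟩ : ∃ lam : ℝ, lam = min 1 (κ / (θ * X)) := ⟨_, rfl⟩
  have hlam0 : 0 < lam := by rw [hlam]; exact lt_min one_pos (by positivity)
  have hlam1 : lam ≤ 1 := by rw [hlam]; exact min_le_left _ _
  have hlamκ : lam * (θ * X) ≤ κ := by
    have h1 : lam ≤ κ / (θ * X) := by rw [hlam]; exact min_le_right _ _
    rwa [le_div_iff₀ (by positivity)] at h1
  obtain ⟨R, C₁, hR, hC₁, hstep⟩ := one_step' hν ha hC hr hG (κ := θ * X * (E + 1)) (by positivity)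
  obtain ⟨c₂, hc₂⟩ : ∃ c₂ : ℝ, c₂ = c₁ * lam / 4 := ⟨_, rfl⟩
  have hc₂0 : 0 < c₂ := by rw [hc₂]; positivity
  obtain ⟨D₂, hD₂⟩ : ∃ D₂ : ℝ, D₂ = 1 / (ν * ‖a‖ * c₂) + 1 := ⟨_, rfl⟩
  have hD₂0 : 0 < D₂ := by rw [hD₂]; positivity
  obtain ⟨D, hD⟩ : ∃ D : ℝ, D = E * (D₀ + C₁ * D₂) := ⟨_, rfl⟩
  have hD0 : 0 ≤ D := by rw [hD]; positivity
  -- large `n`
  have hdiv : ∀ t u : ℝ, 0 < u → ∀ᶠ n : ℕ in atTop, t / n < u := by
    intro t u hu
    have h1 : Tendsto (fun n : ℕ => t / (n : ℝ)) atTop (𝓝 0) :=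
      tendsto_const_nhds.div_atTop tendsto_natCast_atTop_atTop
    exact h1.eventually (gt_mem_nhds hu)
  have hpow : Tendsto (fun n : ℕ => D * (n : ℝ) ^ (-δ)) atTop (𝓝 (D * 0)) :=
    ((tendsto_rpow_neg_atTop hδ0).comp tendsto_natCast_atTop_atTop).const_mul D
  rw [mul_zero] at hpow
  have hev : ∀ᶠ n : ℕ in atTop, n₁ ≤ n ∧ 2 / lam ≤ n ∧ θ * X / n < r₁ ∧
      D * (n : ℝ) ^ (-δ) < min c₂ 1 ∧ R / c₂ ≤ n := by
    filter_upwards [eventually_ge_atTop n₁,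
      tendsto_natCast_atTop_atTop.eventually_ge_atTop (2 / lam), hdiv (θ * X) r₁ hr₁,
      hpow.eventually (gt_mem_nhds (lt_min hc₂0 one_pos)),
      tendsto_natCast_atTop_atTop.eventually_ge_atTop (R / c₂)] with n h1 h2 h3 h4 h5
    exact ⟨h1, h2, h3, h4, h5⟩
  obtain ⟨n₀, hn₀⟩ := eventually_atTop.1 hev
  refine ⟨D, c₂, max n₀ 1, hD0, hc₂0, le_max_right _ _, ?_⟩
  intro n hn s hs
  have hnn₀ : n₀ ≤ n := (le_max_left _ _).trans hn
  have hn1 : 1 ≤ n := (le_max_right _ _).trans hn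
  obtain ⟨g1, g2, g3, g4, g5⟩ := hn₀ n hnn₀
  have hnR : (1 : ℝ) ≤ n := by exact_mod_cast hn1
  have hn0 : (0 : ℝ) < n := by linarith
  have hs1 : ‖s‖ < r₁ := hs.trans_lt g3
  have hsr : ‖s‖ < r := hs1.trans_le hr₁r
  have hs0 := norm_nonneg s
  -- the variable `y`
  obtain ⟨y, hy⟩ : ∃ y, y = ν * α * s := ⟨_, rfl⟩
  have hyn : ‖y‖ ≤ 2 * Real.pi * θ / n := by
    rw [hy, norm_mul, norm_mul, Complex.norm_natCast]
    calc ν * ‖α‖ * ‖s‖ ≤ ν * ‖α‖ * (θ * X / n) := by gcongr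
      _ = _ := by
        rw [hX]
        field_simp
  have hEpow : ∀ i ≤ n, (1 + ‖y‖) ^ i ≤ E := by
    intro i hi
    have hi' : (i : ℝ) ≤ n := by exact_mod_cast hi
    have h3 : 1 + ‖y‖ ≤ Real.exp ‖y‖ := by
      rw [add_comm]
      exact Real.add_one_le_exp _
    refine (pow_le_pow_left₀ (by positivity) h3 i).trans ?_
    rw [← Real.exp_nat_mul, hE]
    apply Real.exp_le_exp.2
    calc i * ‖y‖ ≤ n * (2 * Real.pi * θ / n) := by gcongr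
      _ = 2 * Real.pi * θ := by field_simp
      _ ≤ 2 * Real.pi := by nlinarith
  have hw : ∀ j ≤ n, ‖∑ i ∈ Finset.range j, (1 - y) ^ i‖ ≤ n * E := by
    intro j hj
    have hj' : (j : ℝ) ≤ n := by exact_mod_cast hj
    refine (norm_sum_le _ _).trans ?_
    have h3 : ∀ i ∈ Finset.range j, ‖(1 - y) ^ i‖ ≤ E := by
      intro i hi
      have hi' := Finset.mem_range.1 hi
      rw [norm_pow]
      refine le_trans ?_ (hEpow i (by omega))
      apply pow_le_pow_left₀ (norm_nonneg _)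
      have h5 := norm_sub_le (1 : ℂ) y
      rwa [norm_one] at h5
    have h4 := Finset.sum_le_sum h3
    rw [Finset.sum_const, Finset.card_range, nsmul_eq_mul] at h4
    refine h4.trans ?_
    gcongr
  have hlow := hgeo n g1 y hyn
  -- the starting time
  obtain ⟨J, hJ⟩ : ∃ J, J = ⌊lam * n⌋₊ := ⟨_, rfl⟩
  have hJ1 : (J : ℝ) ≤ lam * n := by rw [hJ]; exact Nat.floor_le (by positivity)
  have hJ2 : lam * n < J + 1 := by rw [hJ]; exact Nat.lt_floor_add_one _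
  have hln : 2 ≤ lam * n := by
    rw [div_le_iff₀ hlam0] at g2
    linarith
  have hJ3 : lam * n / 2 ≤ J := by linarith
  have hJ4 : 1 ≤ J := by
    have : (1 : ℝ) ≤ J := by linarith
    exact_mod_cast this
  have hJ5 : J ≤ n := by
    have : (J : ℝ) ≤ n := by nlinarith
    exact_mod_cast this
  have hJ0 : (0 : ℝ) < J := by exact_mod_cast hJ4
  have hJn : (J : ℝ) ≤ n := by exact_mod_cast hJ5
  have hsJ : ‖s‖ ≤ κ / J := by
    refine hs.trans ?_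
    rw [div_le_div_iff₀ hn0 hJ0]
    calc θ * X * J ≤ θ * X * (lam * n) := by gcongr
      _ = lam * (θ * X) * n := by ring
      _ ≤ κ * n := by gcongr
  obtain ⟨b1, b2, b3⟩ := hctl J hJ4 s hs1 hsJ
  obtain ⟨nd, hnd⟩ : ∃ nd : ℝ, nd = (n : ℝ) ^ (-δ) := ⟨_, rfl⟩
  have hnd0 : 0 < nd := by rw [hnd]; positivity
  have hnd1 : (n : ℝ) ^ (1 - δ) = n * nd := by
    rw [hnd, show (1 - δ : ℝ) = 1 + -δ by ring, Real.rpow_add hn0, Real.rpow_one]
  rw [← hnd] at g4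
  have b4 : ‖V ν a (x (k₀ + J) s) - ∑ i ∈ Finset.range J, (1 - y) ^ i‖ ≤ D₀ * (n * nd) := by
    rw [← hnd1, hy]
    refine b3.trans (mul_le_mul_of_nonneg_left ?_ hD₀)
    exact Real.rpow_le_rpow hJ0.le hJn (by linarith)
  -- consequences of the estimate
  have hcons : ∀ i, J + i ≤ n → ‖V ν a (x (k₀ + (J + i)) s) -
      ∑ l ∈ Finset.range (J + i), (1 - y) ^ l‖ ≤
      (1 + ‖y‖) ^ i * (D₀ * (n * nd) + i * (C₁ * (D₂ * nd))) →
      ‖V ν a (x (k₀ + (J + i)) s) - ∑ l ∈ Finset.range (J + i), (1 - y) ^ l‖ ≤ D * (n * nd) ∧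
      c₂ * n ≤ ‖V ν a (x (k₀ + (J + i)) s)‖ ∧
      ‖s‖ * ‖V ν a (x (k₀ + (J + i)) s)‖ ≤ θ * X * (E + 1) := by
    intro i hi h
    have hi' : ((J : ℝ) + i) ≤ n := by exact_mod_cast hi
    have hi0 : (0 : ℝ) ≤ i := i.cast_nonneg
    have e1 : ‖V ν a (x (k₀ + (J + i)) s) - ∑ l ∈ Finset.range (J + i), (1 - y) ^ l‖ ≤
        D * (n * nd) := by
      refine h.trans ?_
      calc (1 + ‖y‖) ^ i * (D₀ * (n * nd) + i * (C₁ * (D₂ * nd)))
          ≤ E * (D₀ * (n * nd) + n * (C₁ * (D₂ * nd))) := by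
            have h5 := hEpow i (by omega)
            have h6 : (i : ℝ) ≤ n := by linarith
            gcongr
        _ = D * (n * nd) := by rw [hD]; ring
    have e2 : D * (n * nd) ≤ c₂ * n := by
      have := (g4.trans_le (min_le_left _ _)).le
      nlinarith
    have e3 : D * (n * nd) ≤ n := by
      have := (g4.trans_le (min_le_right _ _)).le
      nlinarith
    have e4 := hlow (J + i) hi
    have e5 := hw (J + i) hi
    push_cast at e4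
    obtain ⟨v, hv⟩ : ∃ v, v = V ν a (x (k₀ + (J + i)) s) := ⟨_, rfl⟩
    obtain ⟨w, hw'⟩ : ∃ w, w = ∑ l ∈ Finset.range (J + i), (1 - y) ^ l := ⟨_, rfl⟩
    rw [← hv, ← hw'] at e1 ⊢
    rw [← hw'] at e4 e5
    refine ⟨e1, ?_, ?_⟩
    · have h7 : ‖w‖ ≤ ‖v‖ + ‖v - w‖ := by
        have := norm_sub_le v (v - w)
        rwa [sub_sub_cancel] at this
      have h8 : 2 * (c₂ * n) ≤ c₁ * (J + i) := by
        rw [hc₂]
        nlinarith
      linarith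
    · have h7 : ‖v‖ ≤ ‖w‖ + ‖v - w‖ := by
        have := norm_add_le w (v - w)
        rwa [add_sub_cancel] at this
      have h8 : ‖v‖ ≤ n * (E + 1) := by nlinarith
      calc ‖s‖ * ‖v‖ ≤ θ * X / n * (n * (E + 1)) :=
            mul_le_mul hs h8 (norm_nonneg _) (by positivity)
        _ = _ := by field_simp
  -- the induction
  have key : ∀ i, J + i ≤ n → x (k₀ + (J + i)) s ≠ 0 ∧ ‖V ν a (x (k₀ + (J + i)) s) -
      ∑ l ∈ Finset.range (J + i), (1 - y) ^ l‖ ≤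
      (1 + ‖y‖) ^ i * (D₀ * (n * nd) + i * (C₁ * (D₂ * nd))) := by
    intro i
    induction i with
    | zero =>
      intro _
      refine ⟨by simpa using b1, ?_⟩
      simpa using b4
    | succ i ih =>
      intro hi
      obtain ⟨h1, h2⟩ := ih (by omega)
      obtain ⟨h3, h4, h5⟩ := hcons i (by omega) h2
      have h6 : R ≤ ‖V ν a (x (k₀ + (J + i)) s)‖ := by
        refine le_trans ?_ h4
        rw [div_le_iff₀ hc₂0] at g5
        linarith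
      obtain ⟨h7, h8⟩ := hstep s (x (k₀ + (J + i)) s) hsr h1 h6 h5
      have h9 := small_of_V hν ha hc₂0 hn1 h1 h4
      rw [← hδ, ← hD₂, ← hnd] at h9
      have e0 : k₀ + (J + (i + 1)) = k₀ + (J + i) + 1 := by ring
      rw [e0, hx _ s hsr]
      refine ⟨h7, ?_⟩
      rw [show J + (i + 1) = J + i + 1 by ring, geom_sum_succ]
      obtain ⟨v, hv⟩ : ∃ v, v = V ν a (x (k₀ + (J + i)) s) := ⟨_, rfl⟩
      obtain ⟨v', hv'⟩ : ∃ v', v' = V ν a (G s (x (k₀ + (J + i)) s)) := ⟨_, rfl⟩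
      obtain ⟨w, hw'⟩ : ∃ w, w = ∑ l ∈ Finset.range (J + i), (1 - y) ^ l := ⟨_, rfl⟩
      rw [← hv, ← hv', ← hy] at h8
      rw [← hv, ← hw'] at h2
      rw [← hv', ← hw']
      have e1 : v' - ((1 - y) * w + 1) = (v' - v * (1 - y) - 1) + (1 - y) * (v - w) := by ring
      rw [e1]
      have hy0 := norm_nonneg y
      have h10 : ‖1 - y‖ ≤ 1 + ‖y‖ := by
        have := norm_sub_le (1 : ℂ) y
        rwa [norm_one] at this
      have h11 : 1 ≤ (1 + ‖y‖) ^ (i + 1) := one_le_pow₀ (by linarith)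
      have h12 : 0 ≤ C₁ * (D₂ * nd) := by positivity
      calc ‖(v' - v * (1 - y) - 1) + (1 - y) * (v - w)‖
          ≤ C₁ * (D₂ * nd) + (1 + ‖y‖) * ((1 + ‖y‖) ^ i *
              (D₀ * (n * nd) + i * (C₁ * (D₂ * nd)))) := by
            refine (norm_add_le _ _).trans (add_le_add (h8.trans ?_) ?_)
            · gcongr
            · rw [norm_mul]
              gcongr
        _ ≤ (1 + ‖y‖) ^ (i + 1) * (C₁ * (D₂ * nd)) + (1 + ‖y‖) * ((1 + ‖y‖) ^ i *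
              (D₀ * (n * nd) + i * (C₁ * (D₂ * nd)))) := by
            apply add_le_add _ le_rfl
            exact le_mul_of_one_le_left h12 h11
        _ = _ := by
            push_cast
            ring
  obtain ⟨f1, f2⟩ := key (n - J) (by omega)
  obtain ⟨f3, f4, f5⟩ := hcons (n - J) (by omega) f2
  rw [show J + (n - J) = n by omega] at f1 f3 f4
  rw [hnd1, ← hy]
  exact ⟨hsr, f1, f4, f3⟩

end Pool.Agent.Run7.h15.Tr
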