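import Pool.Agent.Run7.h15.Tr.SB

/-!
# Sharp lower bounds near a parabolic parameter
-/

set_option autoImplicit false

namespace Pool.Agent.Run7.h15.Tr

open Complex Filter Topology Metric Set
open Pool.Agent.Run7.h15.Par

/-- the three circles argument -/
theorem lower_gen {ν : ℕ} (hν : 1 ≤ ν) {a α : ℂ} (ha : a ≠ 0) (hα : α ≠ 0) {r : ℝ} (hr : 0 < r)
    {x : ℕ → ℂ → ℂ} {k₀ : ℕ} (hxd : ∀ k, DifferentiableOn ℂ (x k) (ball 0 r))
    {κ X B : ℝ} (hκ : 0 < κ) (hX : X = 2 * Real.pi / (ν * ‖α‖)) (hκX : κ ≤ X) (hXB : X < B)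
    (hlogs : Real.log (X / κ) ≤ 1 / ((ν : ℝ) + 1) / 8 * Real.log (B / κ))
    {D c : ℝ} (hD : 0 ≤ D) (hc : 0 < c) {n₁ : ℕ}
    (hctl : ∀ n : ℕ, n₁ ≤ n → ∀ s : ℂ, ‖s‖ ≤ κ / n → ‖s‖ < r ∧ x (k₀ + n) s ≠ 0 ∧
      c * n ≤ ‖V ν a (x (k₀ + n) s)‖ ∧
      ‖V ν a (x (k₀ + n) s) - ∑ i ∈ Finset.range n, (1 - ν * α * s) ^ i‖ ≤
        D * (n : ℝ) ^ (1 - 1 / ((ν : ℝ) + 1)))
    {M : ℝ} (hM : 1 ≤ M) :
    ∃ n₀ : ℕ, ∀ n : ℕ, n₀ ≤ n → ∃ s : ℂ, ‖s‖ ≤ B / n ∧ ‖s‖ < r ∧ M < ‖x (k₀ + n) s‖ := by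
  have hνR : (1 : ℝ) ≤ ν := by exact_mod_cast hν
  have hνC : (ν : ℂ) ≠ 0 := by exact_mod_cast (by omega : ν ≠ 0)
  have han : 0 < ‖a‖ := norm_pos_iff.2 ha
  have hαn : 0 < ‖α‖ := norm_pos_iff.2 hα
  obtain ⟨δ, hδ⟩ : ∃ δ : ℝ, δ = 1 / ((ν : ℝ) + 1) := ⟨_, rfl⟩
  have hδ0 : 0 < δ := by rw [hδ]; positivity
  have hδ1 : δ ≤ 1 / 2 := by
    rw [hδ]
    exact div_le_div_of_nonneg_left zero_le_one (by norm_num) (by linarith)
  rw [← hδ] at hctl hlogs
  have hX0 : 0 < X := by linarith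
  have hB0 : 0 < B := by linarith
  have hκB : κ < B := by linarith
  -- the bounds
  obtain ⟨C8, hC8⟩ : ∃ C8 : ℝ, C8 = D / c + 1 := ⟨_, rfl⟩
  have hC80 : 0 < C8 := by rw [hC8]; positivity
  obtain ⟨CB, hCB⟩ : ∃ CB : ℝ, CB = ν * ‖a‖ * M ^ ν * Real.exp (ν * ‖α‖ * B) + 1 := ⟨_, rfl⟩
  have hCB0 : 0 < CB := by rw [hCB]; positivity
  have hlog : Tendsto (fun n : ℕ => Real.log n) atTop atTop :=
    Real.tendsto_log_atTop.comp tendsto_natCast_atTop_atTop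
  have hev : ∀ᶠ n : ℕ in atTop, 2 ≤ n ∧ B / n < r ∧ n₁ ≤ n ∧ 0 < Real.log n ∧
      Real.log C8 ≤ δ / 2 * Real.log n ∧ Real.log CB ≤ Real.log n := by
    have hdiv : ∀ t u : ℝ, 0 < u → ∀ᶠ n : ℕ in atTop, t / n < u := by
      intro t u hu
      have h1 : Tendsto (fun n : ℕ => t / (n : ℝ)) atTop (𝓝 0) :=
        tendsto_const_nhds.div_atTop tendsto_natCast_atTop_atTop
      exact h1.eventually (gt_mem_nhds hu)
    filter_upwards [eventually_ge_atTop 2, hdiv B r hr, eventually_ge_atTop n₁,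
      hlog.eventually_gt_atTop 0, hlog.eventually_ge_atTop (Real.log C8 / (δ / 2)),
      hlog.eventually_ge_atTop (Real.log CB)] with n h1 h2 h3 h4 h5 h6
    refine ⟨h1, h2, h3, h4, ?_, h6⟩
    rw [div_le_iff₀ (by positivity)] at h5
    linarith
  obtain ⟨n₀, hn₀⟩ := eventually_atTop.1 hev
  refine ⟨n₀, ?_⟩
  intro n hn
  obtain ⟨hn2, hBr, hn1', hL0, hL1, hL2⟩ := hn₀ n hn
  by_contra hcon
  push Not at hcon
  have hn0 : (0 : ℝ) < n := by exact_mod_cast (by omega : 0 < n)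
  have hn1 : (1 : ℝ) ≤ n := by exact_mod_cast (by omega : 1 ≤ n)
  -- the test function
  obtain ⟨h, hh⟩ : ∃ h : ℂ → ℂ, h = fun s => -(ν * a) * x (k₀ + n) s ^ ν *
    (∑ i ∈ Finset.range n, (1 - ν * α * s) ^ i) - 1 := ⟨_, rfl⟩
  have hhd : DifferentiableOn ℂ h (ball 0 r) := by
    rw [hh]
    have h1 := (hxd (k₀ + n)).pow ν
    have h2 : DifferentiableOn ℂ (fun s : ℂ => ∑ i ∈ Finset.range n, (1 - ν * α * s) ^ i)
        (ball 0 r) := by fun_prop
    exact ((h1.const_mul (-(ν * a))).mul h2).sub_const 1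
  -- the bound on the small disc
  have hsmall : ∀ s : ℂ, ‖s‖ ≤ κ / n → ‖h s‖ ≤ C8 * (n : ℝ) ^ (-δ) := by
    intro s hs
    obtain ⟨_, h1, h2, h3⟩ := hctl n hn1' s hs
    obtain ⟨v, hv⟩ : ∃ v, v = V ν a (x (k₀ + n) s) := ⟨_, rfl⟩
    obtain ⟨w, hw⟩ : ∃ w, w = ∑ i ∈ Finset.range n, (1 - ν * α * s) ^ i := ⟨_, rfl⟩
    rw [← hv] at h2 h3
    rw [← hw] at h3
    have hcn : 0 < c * n := by positivity
    have hv0 : v ≠ 0 := by
      rw [← norm_pos_iff]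
      linarith
    have e1 : -(ν * a) * x (k₀ + n) s ^ ν = v⁻¹ := by
      rw [hv]
      unfold V
      have := pow_ne_zero ν h1
      field_simp
    have e2 : h s = -((v - w) / v) := by
      rw [hh]
      simp only
      rw [e1, ← hw]
      field_simp
      ring
    rw [e2, norm_neg, norm_div, div_le_iff₀ (norm_pos_iff.2 hv0)]
    refine h3.trans ?_
    have e3 : (n : ℝ) ^ (1 - δ) = (n : ℝ) ^ (-δ) * n := by
      rw [show (1 - δ : ℝ) = -δ + 1 by ring, Real.rpow_add hn0, Real.rpow_one]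
    rw [e3]
    have h4 : 0 < (n : ℝ) ^ (-δ) := by positivity
    have h5 : D ≤ C8 * c := by
      rw [hC8]
      have : D / c * c = D := by field_simp
      nlinarith
    calc D * ((n : ℝ) ^ (-δ) * n) ≤ C8 * c * ((n : ℝ) ^ (-δ) * n) := by gcongr
      _ = C8 * (n : ℝ) ^ (-δ) * (c * n) := by ring
      _ ≤ C8 * (n : ℝ) ^ (-δ) * ‖v‖ := mul_le_mul_of_nonneg_left h2 (by positivity)
  -- the bound on the large disc
  have hlarge : ∀ s : ℂ, ‖s‖ ≤ B / n → ‖h s‖ ≤ CB * n := by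
    intro s hs
    have h1 := hcon s hs (hs.trans_lt hBr)
    rw [hh]
    simp only
    refine (norm_sub_le _ _).trans ?_
    rw [norm_mul, norm_mul, norm_neg, norm_mul, norm_pow, Complex.norm_natCast, norm_one]
    have h2 : ‖∑ i ∈ Finset.range n, (1 - (ν : ℂ) * α * s) ^ i‖ ≤
        n * Real.exp (ν * ‖α‖ * B) := by
      refine (norm_sum_le _ _).trans ?_
      have h3 : ∀ i ∈ Finset.range n, ‖(1 - (ν : ℂ) * α * s) ^ i‖ ≤ Real.exp (ν * ‖α‖ * B) := by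
        intro i hi
        have hi' := Finset.mem_range.1 hi
        rw [norm_pow]
        have h4 : ‖1 - (ν : ℂ) * α * s‖ ≤ Real.exp (ν * ‖α‖ * ‖s‖) := by
          have h5 := norm_sub_le (1 : ℂ) (ν * α * s)
          rw [norm_one, norm_mul, norm_mul, Complex.norm_natCast] at h5
          have h6 := Real.add_one_le_exp (ν * ‖α‖ * ‖s‖)
          linarith
        refine (pow_le_pow_left₀ (norm_nonneg _) h4 i).trans ?_
        rw [← Real.exp_nat_mul]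
        apply Real.exp_le_exp.2
        have hin : (i : ℝ) ≤ n := by exact_mod_cast hi'.le
        calc (i : ℝ) * (ν * ‖α‖ * ‖s‖) ≤ n * (ν * ‖α‖ * (B / n)) := by gcongr
          _ = ν * ‖α‖ * B := by field_simp
      have h4 := Finset.sum_le_sum h3
      rw [Finset.sum_const, Finset.card_range, nsmul_eq_mul] at h4
      exact h4
    have h3 : ‖x (k₀ + n) s‖ ^ ν ≤ M ^ ν := pow_le_pow_left₀ (norm_nonneg _) h1 ν
    calc (ν : ℝ) * ‖a‖ * ‖x (k₀ + n) s‖ ^ ν * ‖∑ i ∈ Finset.range n, (1 - (ν : ℂ) * α * s) ^ i‖ + 1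
        ≤ ν * ‖a‖ * M ^ ν * (n * Real.exp (ν * ‖α‖ * B)) + 1 * n := by
          apply add_le_add _ (by linarith)
          gcongr
      _ = CB * n := by rw [hCB]; ring
  -- the pole
  obtain ⟨ω, hω⟩ : ∃ ω : ℂ, ω = exp (2 * Real.pi * I / n) := ⟨_, rfl⟩
  have hprim : IsPrimitiveRoot ω n := by rw [hω]; exact Complex.isPrimitiveRoot_exp n (by omega)
  obtain ⟨s, hs⟩ : ∃ s : ℂ, s = (1 - ω) / (ν * α) := ⟨_, rfl⟩
  have hsω : 1 - (ν : ℂ) * α * s = ω := by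
    rw [hs]
    field_simp
    ring
  have hhs : h s = -1 := by
    rw [hh]
    simp only
    rw [hsω, hprim.geom_sum_eq_zero (by omega)]
    ring
  have hsX : ‖s‖ ≤ X / n := by
    rw [hs, norm_div, norm_mul, Complex.norm_natCast]
    have h1 : ‖1 - ω‖ ≤ 2 * Real.pi / n := by
      rw [norm_sub_rev, hω]
      have h2 := Real.norm_exp_I_mul_ofReal_sub_one_le (x := 2 * Real.pi / n)
      have e : (I * ((2 * Real.pi / n : ℝ) : ℂ)) = 2 * Real.pi * I / n := by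
        push_cast
        ring
      rw [e] at h2
      refine h2.trans (le_of_eq ?_)
      rw [Real.norm_of_nonneg]
      have := Real.pi_pos
      positivity
    calc ‖1 - ω‖ / (ν * ‖α‖) ≤ (2 * Real.pi / n) / (ν * ‖α‖) :=
          div_le_div_of_nonneg_right h1 (by positivity)
      _ = X / n := by rw [hX]; field_simp
  -- the three circles theorem
  have hnδ : C8 * (n : ℝ) ^ (-δ) = Real.exp (Real.log C8 - δ * Real.log n) := by
    rw [sub_eq_add_neg, Real.exp_add, Real.exp_log hC80, Real.rpow_def_of_pos hn0]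
    congr 2
    ring
  have hnB : CB * n = Real.exp (Real.log CB + Real.log n) := by
    rw [Real.exp_add, Real.exp_log hCB0, Real.exp_log hn0]
  rcases le_or_gt ‖s‖ (κ / n) with hsκ | hsκ
  · have h1 := hsmall s hsκ
    rw [hhs, norm_neg, norm_one, hnδ] at h1
    have h2 := (Real.one_le_exp_iff).1 h1
    nlinarith [mul_pos hδ0 hL0]
  · have h1 := Pool.Agent.T2H09.LV.circles (G := h) (y := 0) (r1 := κ / n) (r3 := B / n) (R := r)
      (e := Real.log C8 - δ * Real.log n) (l := Real.log CB + Real.log n) (by positivity)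
      (div_lt_div_of_pos_right hκB hn0) hBr hhd (fun w hw => by
        rw [← hnB]
        apply hlarge
        rwa [mem_closedBall, dist_zero_right] at hw) (fun w hw => by
        rw [← hnδ]
        apply hsmall
        rw [sub_zero] at hw
        exact hw.le) (w := s) (by rw [sub_zero]; exact hsκ.le) (by
        rw [sub_zero]
        exact hsX.trans (div_le_div_of_nonneg_right hXB.le hn0.le))
    rw [hhs, norm_neg, norm_one, sub_zero] at h1
    have h2 := (Real.one_le_exp_iff).1 h1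
    have e1 : Real.log (B / n) - Real.log (κ / n) = Real.log (B / κ) := by
      rw [Real.log_div hB0.ne' hn0.ne', Real.log_div hκ.ne' hn0.ne', Real.log_div hB0.ne' hκ.ne']
      ring
    have hlogB : 0 < Real.log (B / κ) := by
      apply Real.log_pos
      rwa [one_lt_div hκ]
    have e2 : Real.log ‖s‖ - Real.log (κ / n) ≤ Real.log (X / κ) := by
      have hs0 : 0 < ‖s‖ := (show 0 < κ / n by positivity).trans hsκ
      rw [← Real.log_div hs0.ne' (by positivity)]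
      apply Real.log_le_log (by positivity)
      calc ‖s‖ / (κ / n) ≤ X / n / (κ / n) := div_le_div_of_nonneg_right hsX (by positivity)
        _ = X / κ := by field_simp
    have e3 : 0 ≤ Real.log ‖s‖ - Real.log (κ / n) := by
      rw [sub_nonneg]
      exact Real.log_le_log (by positivity) hsκ.le
    obtain ⟨θ, hθ⟩ : ∃ θ, θ = (Real.log ‖s‖ - Real.log (κ / n)) /
      (Real.log (B / n) - Real.log (κ / n)) := ⟨_, rfl⟩
    rw [← hθ] at h2
    have hθ0 : 0 ≤ θ := by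
      rw [hθ, e1]
      positivity
    have hθ1 : θ ≤ δ / 8 := by
      rw [hθ, e1, div_le_iff₀ hlogB]
      exact e2.trans hlogs
    obtain ⟨L, hL⟩ : ∃ L, L = Real.log n := ⟨_, rfl⟩
    rw [← hL] at h2 hL0 hL1 hL2
    -- the final inequality
    have h3 : (1 - θ) * (Real.log C8 - δ * L) ≤ (1 - θ) * (-(δ / 2 * L)) := by
      apply mul_le_mul_of_nonneg_left _ (by linarith)
      linarith
    have h4 : θ * (Real.log CB + L) ≤ δ / 8 * (2 * L) := by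
      calc θ * (Real.log CB + L) ≤ θ * (2 * L) := mul_le_mul_of_nonneg_left (by linarith) hθ0
        _ ≤ δ / 8 * (2 * L) := mul_le_mul_of_nonneg_right hθ1 (by positivity)
    have h5 : 0 < δ * L := by positivity
    nlinarith

/-- **The sharp laws.** -/
theorem sharp {ν : ℕ} (hν : 1 ≤ ν) {a α : ℂ} (ha : a ≠ 0) (hα : α ≠ 0) {C r : ℝ}
    (hC : 0 ≤ C) (hr : 0 < r) {G : ℂ → ℂ → ℂ} (hG : Fam ν a α C r G) {x : ℕ → ℂ → ℂ}
    (hx : ∀ k s, ‖s‖ < r → x (k + 1) s = G s (x k s))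
    (hxd : ∀ k, DifferentiableOn ℂ (x k) (ball 0 r))
    (hx0 : Tendsto (fun k => x k 0) atTop (𝓝 0)) (hxne : ∀ k, x k 0 ≠ 0)
    {X : ℝ} (hX : X = 2 * Real.pi / (ν * ‖α‖)) : 0 < X ∧ ∃ k₀ : ℕ,
      (∀ θ : ℝ, 0 < θ → θ < 1 → ∀ η : ℝ, 0 < η → ∃ n₀ : ℕ, ∀ n : ℕ, n₀ ≤ n → ∀ s : ℂ,
        ‖s‖ ≤ θ * X / n → ‖s‖ < r ∧ ‖x (k₀ + n) s‖ ≤ η) ∧
      (∀ ε : ℝ, 0 < ε → ∀ M : ℝ, 1 ≤ M → ∃ n₀ : ℕ, ∀ n : ℕ, n₀ ≤ n → ∃ s : ℂ,
        ‖s‖ ≤ (1 + ε) * X / n ∧ ‖s‖ < r ∧ M < ‖x (k₀ + n) s‖) := by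
  have hνR : (1 : ℝ) ≤ ν := by exact_mod_cast hν
  have hαn : 0 < ‖α‖ := norm_pos_iff.2 hα
  have hpi := Real.pi_pos
  obtain ⟨k₀, hctl⟩ := control2 hν ha hα hC hr hG hx
    (fun k => ((hxd k).differentiableAt (ball_mem_nhds 0 hr)).continuousAt) hx0 hxne
  have hX0 : 0 < X := by rw [hX]; positivity
  rw [← hX] at hctl
  refine ⟨hX0, k₀, ?_, ?_⟩
  · intro θ hθ0 hθ1 η hη
    obtain ⟨D, c, n₀, hD, hc, hn₀, H⟩ := hctl θ hθ0 hθ1
    have hδ0 : 0 < 1 / ((ν : ℝ) + 1) := by positivity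
    have hpow : Tendsto (fun n : ℕ => (1 / (ν * ‖a‖ * c) + 1) * (n : ℝ) ^ (-(1 / ((ν : ℝ) + 1))))
        atTop (𝓝 ((1 / (ν * ‖a‖ * c) + 1) * 0)) :=
      ((tendsto_rpow_neg_atTop hδ0).comp tendsto_natCast_atTop_atTop).const_mul _
    rw [mul_zero] at hpow
    obtain ⟨n₂, hn₂⟩ := eventually_atTop.1 (hpow.eventually (gt_mem_nhds hη))
    refine ⟨max n₀ n₂, ?_⟩
    intro n hn s hs
    obtain ⟨h1, h2, h3, _⟩ := H n ((le_max_left _ _).trans hn) s hs
    have h4 := hn₂ n ((le_max_right _ _).trans hn)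
    exact ⟨h1, (small_of_V hν ha hc (hn₀.trans ((le_max_left _ _).trans hn)) h2 h3).trans h4.le⟩
  · intro ε hε M hM
    obtain ⟨δ, hδ⟩ : ∃ δ : ℝ, δ = 1 / ((ν : ℝ) + 1) := ⟨_, rfl⟩
    have hδ0 : 0 < δ := by rw [hδ]; positivity
    obtain ⟨θ, hθ⟩ : ∃ θ : ℝ, θ = (1 + ε) ^ (-(δ / 8)) := ⟨_, rfl⟩
    have hθ0 : 0 < θ := by rw [hθ]; positivity
    have hθ1 : θ < 1 := by
      rw [hθ]
      exact Real.rpow_lt_one_of_one_lt_of_neg (by linarith) (by linarith)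
    obtain ⟨D, c, n₁, hD, hc, hn₁, H⟩ := hctl θ hθ0 hθ1
    have h1 : Real.log (X / (θ * X)) = δ / 8 * Real.log (1 + ε) := by
      have : X / (θ * X) = θ⁻¹ := by field_simp
      rw [this, Real.log_inv, hθ, Real.log_rpow (by linarith)]
      ring
    have h2 : Real.log (1 + ε) ≤ Real.log ((1 + ε) * X / (θ * X)) := by
      apply Real.log_le_log (by linarith)
      have : (1 + ε) * X / (θ * X) = (1 + ε) / θ := by field_simp
      rw [this, le_div_iff₀ hθ0]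
      nlinarith
    obtain ⟨n₀, hn₀⟩ := lower_gen hν ha hα hr hxd (κ := θ * X) (X := X) (B := (1 + ε) * X)
      (by positivity) hX (by nlinarith) (by nlinarith) (by
        rw [h1, ← hδ]
        exact mul_le_mul_of_nonneg_left h2 (by positivity)) hD hc H hM
    exact ⟨n₀, hn₀⟩

end Pool.Agent.Run7.h15.Tr
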