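import Pool.Agent.Run7.h15.Tr.SC
import Pool.Agent.Run7.h15.Tr.E

/-!
# The critical orbits near a parabolic parameter
-/

set_option autoImplicit false

namespace Pool.Agent.Run7.h15.Tr

open Complex Filter Topology Metric Set N62a1eb23
open Pool.Agent.H712R2 (P P_succ P_one P_zero fc continuous_P mem_multibrot_iff)
open Pool.Agent.Y736.RN (contDiff_it cont_it diff_it_y)
open Pool.Agent.Run7.h15.Par

variable {d N : ℕ} {c₀ z₀ : ℂ}

/-- The laws for the critical orbits near a parameter: they stay bounded and away from `0` up to the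
time `m` on the discs of radius `(θ * L / m) ^ e` for `θ < 1`, and they do not stay bounded on the
discs of radius `((1 + ε) * L / m) ^ e` for `ε > 0`. -/
def Law (d e : ℕ) (c₀ : ℂ) (L : ℝ) : Prop :=
  (∀ θ : ℝ, 0 < θ → θ < 1 → ∃ m₀ : ℕ, ∀ m : ℕ, m₀ ≤ m → ∀ c : ℂ, ‖c - c₀‖ ≤ (θ * L / m) ^ e →
    P d m c ≠ 0 ∧ ‖P d m c‖ ≤ 3) ∧
  (∀ ε : ℝ, 0 < ε → ∀ M : ℝ, 1 ≤ M → ∃ m₀ : ℕ, ∀ m : ℕ, m₀ ≤ m → ∃ c : ℂ,
    ‖c - c₀‖ ≤ ((1 + ε) * L / m) ^ e ∧ M < ‖P d m c‖)

theorem P_mul_add (d N n i : ℕ) (c : ℂ) :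
    P d (N * n + i) c = (fc d c)^[i] (P d (N * n) c) := by
  unfold P
  rw [← Function.iterate_add_apply, add_comm]

/-- the points of a parabolic cycle are not critical, and bounded by two -/
theorem cycle_pt (hd : 2 ≤ d) (h : Parabolic d N c₀ z₀) {i : ℕ} (hi : i < N) :
    (fc d c₀)^[i] z₀ ≠ 0 ∧ ‖(fc d c₀)^[i] z₀‖ ≤ 2 := by
  constructor
  · intro h0
    have h1 := h.mult'
    obtain ⟨j, hj⟩ : ∃ j, N = j + (i + 1) := ⟨N - (i + 1), by omega⟩
    have h2 : (fc d c₀)^[N] = (fc d c₀)^[j] ∘ (fc d c₀) ∘ (fc d c₀)^[i] := by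
      rw [hj, Function.iterate_add, Function.iterate_succ']
    have h3 : deriv (fc d c₀) 0 = 0 := by
      have h4 : HasDerivAt (fun z : ℂ => z ^ d + c₀) (d * (0 : ℂ) ^ (d - 1)) 0 :=
        (hasDerivAt_pow d (0 : ℂ)).add_const c₀
      have h5 : deriv (fc d c₀) 0 = d * (0 : ℂ) ^ (d - 1) := h4.deriv
      rw [h5, zero_pow (by omega), mul_zero]
    have hd1 : Differentiable ℂ (fc d c₀) := diff_it_y d 1 c₀
    rw [h2, deriv_comp z₀ (diff_it_y d j c₀ _) ((hd1 _).comp _ (diff_it_y d i c₀ _)),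
      deriv_comp z₀ (hd1 _) (diff_it_y d i c₀ _), h0, h3, zero_mul, mul_zero] at h1
    exact zero_ne_one h1
  · have h1 : Tendsto (fun k => P d (N * k + i) c₀) atTop (𝓝 ((fc d c₀)^[i] z₀)) := by
      simp only [P_mul_add]
      exact ((diff_it_y d i c₀).continuous.tendsto z₀).comp h.lim'
    exact le_of_tendsto' h1.norm fun k => (mem_multibrot_iff hd c₀).1 h.mem _

/-- **The laws at a parabolic parameter.** -/
theorem law (hd : 2 ≤ d) {e : ℕ} (he : 1 ≤ e) (h : Parabolic d N c₀ z₀) {X : ℝ}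
    (hch : Chart d N c₀ z₀ e X) : 0 < X ∧ Law d e c₀ (N * X) := by
  obtain ⟨ν, a, α, C, r, b, hν, ha, hα, hC, hr, hXdef, hbd, hb0, hG⟩ := hch
  have hN := h.pos
  have hNR : (1 : ℝ) ≤ N := by exact_mod_cast hN
  have hN0 : (0 : ℝ) < N := by linarith
  obtain ⟨x, hx⟩ : ∃ x : ℕ → ℂ → ℂ, x = fun k s => P d (N * k) (c₀ + s ^ e) - b s := ⟨_, rfl⟩
  obtain ⟨hX, k₀, hU, hL⟩ := sharp hν ha hα hC hr hG (x := x) (X := X) (by
      intro k s _
      rw [hx]
      simp only
      rw [P_add]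
      congr 2
      ring) (by
      intro k
      rw [hx]
      apply DifferentiableOn.sub _ hbd
      apply Differentiable.differentiableOn
      exact (Pool.Agent.H713R2.differentiable_P d (N * k)).comp (by fun_prop)) (by
      rw [hx]
      simp only [hb0, zero_pow (show e ≠ 0 by omega), add_zero]
      have := h.lim'.sub_const z₀
      rwa [sub_self] at this) (by
      intro k
      rw [hx]
      simp only [hb0, zero_pow (show e ≠ 0 by omega), add_zero]
      exact sub_ne_zero.2 (h.ne' k)) hXdef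
  -- the function `b`
  have hbc : ContinuousAt b 0 := (hbd.differentiableAt (ball_mem_nhds 0 hr)).continuousAt
  -- small radii
  have hdiv : ∀ t u : ℝ, 0 < u → ∀ᶠ n : ℕ in atTop, t / n < u := by
    intro t u hu
    have h1 : Tendsto (fun n : ℕ => t / (n : ℝ)) atTop (𝓝 0) :=
      tendsto_const_nhds.div_atTop tendsto_natCast_atTop_atTop
    exact h1.eventually (gt_mem_nhds hu)
  have hc₀2 : ‖c₀‖ ≤ 2 := by
    have := (mem_multibrot_iff hd c₀).1 h.mem 1
    rwa [P_one hd] at this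
  refine ⟨hX, ?_, ?_⟩
  · intro θ hθ0 hθ1
    have hev : ∀ᶠ q in 𝓝 ((c₀, z₀) : ℂ × ℂ), ∀ i ∈ Finset.range N,
        (fc d q.1)^[i] q.2 ≠ 0 ∧ ‖(fc d q.1)^[i] q.2‖ ≤ 3 := by
      rw [Filter.eventually_all_finset]
      intro i hi
      obtain ⟨h1, h2⟩ := cycle_pt hd h (Finset.mem_range.1 hi)
      have h3 := (cont_it d i).continuousAt (x := ((c₀, z₀) : ℂ × ℂ))
      refine (h3.eventually_ne h1).and ?_
      filter_upwards [h3.norm.eventually (gt_mem_nhds (show ‖(fc d (c₀, z₀).1)^[i] (c₀, z₀).2‖ < 3 by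
        show ‖(fc d c₀)^[i] z₀‖ < 3
        linarith))] with q hq using hq.le
    obtain ⟨ρ, hρ, hball⟩ := Metric.eventually_nhds_iff.1 hev
    obtain ⟨ρ₂, hρ₂, hb⟩ := Metric.eventually_nhds_iff.1 (hbc.eventually
      (Metric.ball_mem_nhds (b 0) (half_pos hρ)))
    obtain ⟨n₀, hn₀⟩ := hU θ hθ0 hθ1 (ρ / 4) (by positivity)
    obtain ⟨n₁, hn₁⟩ := eventually_atTop.1 ((hdiv (θ * X) ρ₂ hρ₂).and ((hdiv (θ * X) 1 one_pos).and
      (hdiv (θ * X) ρ hρ)))
    refine ⟨N * (k₀ + (n₀ + n₁ + 1)), ?_⟩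
    intro m hm c hc
    obtain ⟨n, hn⟩ : ∃ n, m / N = k₀ + n := by
      have h1 : k₀ + (n₀ + n₁ + 1) ≤ m / N := by
        rw [Nat.le_div_iff_mul_le (by omega), mul_comm]
        exact hm
      exact ⟨m / N - k₀, by omega⟩
    have hnn : n₀ + n₁ + 1 ≤ n := by
      have h1 : k₀ + (n₀ + n₁ + 1) ≤ m / N := by
        rw [Nat.le_div_iff_mul_le (by omega), mul_comm]
        exact hm
      omega
    have hmn : N * (k₀ + n) + m % N = m := by rw [← hn]; exact Nat.div_add_mod m N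
    have hNn : (N : ℝ) * n ≤ m := by
      have h1 : N * n ≤ m := by
        have : N * n ≤ N * (k₀ + n) := Nat.mul_le_mul_left _ (by omega)
        omega
      exact_mod_cast h1
    have hn0 : (0 : ℝ) < n := by exact_mod_cast (by omega : 0 < n)
    have hm0 : (0 : ℝ) < m := by nlinarith
    obtain ⟨s, hs⟩ := IsAlgClosed.exists_pow_nat_eq (c - c₀) (show 0 < e by omega)
    have hsn : ‖s‖ ≤ θ * X / n := by
      have h1 : ‖s‖ ^ e ≤ (θ * (N * X) / m) ^ e := by rw [← norm_pow, hs]; exact hc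
      have h2 := le_of_pow_le_pow_left₀ (by omega : e ≠ 0) (by positivity) h1
      refine h2.trans ?_
      rw [div_le_div_iff₀ hm0 hn0]
      calc θ * (N * X) * n = θ * X * (N * n) := by ring
        _ ≤ θ * X * m := by gcongr
    obtain ⟨h1, h2⟩ := hn₀ n (by omega) s hsn
    obtain ⟨h3, h4, h5⟩ := hn₁ n (by omega)
    have h6 : ‖s‖ < ρ₂ := hsn.trans_lt h3
    have h7 : dist (b s) (b 0) < ρ / 2 := hb (y := s) (by rwa [dist_zero_right])
    rw [hx] at h2
    simp only at h2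
    rw [hs, add_sub_cancel] at h2
    have h8 : ‖c - c₀‖ < ρ := by
      have h9 : ‖s‖ ^ e ≤ ‖s‖ := pow_le_of_le_one (norm_nonneg _) (hsn.trans h4.le) (by omega)
      rw [← hs, norm_pow]
      exact (h9.trans hsn).trans_lt h5
    have h9 : ‖P d (N * (k₀ + n)) c - z₀‖ < ρ := by
      have e1 : P d (N * (k₀ + n)) c - z₀ = (P d (N * (k₀ + n)) c - b s) + (b s - z₀) := by ring
      rw [e1]
      rw [dist_eq_norm, hb0] at h7
      refine (norm_add_le _ _).trans_lt ?_
      linarith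
    have h10 := hball (y := (c, P d (N * (k₀ + n)) c)) (by
      rw [Prod.dist_eq, dist_eq_norm, dist_eq_norm]
      exact max_lt h8 h9) (m % N) (Finset.mem_range.2 (Nat.mod_lt _ (by omega)))
    rw [← hmn, P_mul_add]
    exact h10
  · intro ε hε M hM
    obtain ⟨ρ₂, hρ₂, hb⟩ := Metric.eventually_nhds_iff.1 (hbc.eventually
      (Metric.ball_mem_nhds (b 0) one_pos))
    obtain ⟨M', hM'⟩ : ∃ M' : ℝ, M' = max M 5 + (‖z₀‖ + 1) := ⟨_, rfl⟩
    have hM'1 : 1 ≤ M' := by
      have := le_max_left M 5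
      have := norm_nonneg z₀
      rw [hM']
      linarith
    obtain ⟨n₀, hn₀⟩ := hL (ε / 2) (by positivity) M' hM'1
    obtain ⟨n₁, hn₁⟩ := eventually_atTop.1 ((hdiv ((1 + ε / 2) * X) ρ₂ hρ₂).and
      (hdiv ((1 + ε / 2) * X) 1 one_pos))
    obtain ⟨m₁, hm₁⟩ := exists_nat_gt ((1 + ε) * (N * (k₀ + 1)) / (ε / 2))
    refine ⟨max m₁ (N * (k₀ + (n₀ + n₁ + 1))), ?_⟩
    intro m hm'
    have hm : N * (k₀ + (n₀ + n₁ + 1)) ≤ m := (le_max_right _ _).trans hm'
    have hmm₁ : (m₁ : ℝ) ≤ m := by exact_mod_cast (le_max_left _ _).trans hm'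
    obtain ⟨n, hn⟩ : ∃ n, m / N = k₀ + n := by
      have h1 : k₀ + (n₀ + n₁ + 1) ≤ m / N := by
        rw [Nat.le_div_iff_mul_le (by omega), mul_comm]
        exact hm
      exact ⟨m / N - k₀, by omega⟩
    have hnn : n₀ + n₁ + 1 ≤ n := by
      have h1 : k₀ + (n₀ + n₁ + 1) ≤ m / N := by
        rw [Nat.le_div_iff_mul_le (by omega), mul_comm]
        exact hm
      omega
    have hmn : N * (k₀ + n) + m % N = m := by rw [← hn]; exact Nat.div_add_mod m N
    have hmod : m % N < N := Nat.mod_lt _ (by omega)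
    have hn0 : (0 : ℝ) < n := by exact_mod_cast (by omega : 0 < n)
    have hm0 : (0 : ℝ) < m := by
      have : N * (k₀ + (n₀ + n₁ + 1)) ≥ 1 := Nat.mul_pos (by omega) (by omega)
      exact_mod_cast (by omega : 0 < m)
    obtain ⟨s, h1, h2, h3⟩ := hn₀ n (by omega)
    obtain ⟨h4, h5⟩ := hn₁ n (by omega)
    have hs1 : ‖s‖ ≤ 1 := h1.trans h5.le
    have h6 : dist (b s) (b 0) < 1 := hb (y := s) (by rw [dist_zero_right]; exact h1.trans_lt h4)
    obtain ⟨c, hc⟩ : ∃ c, c = c₀ + s ^ e := ⟨_, rfl⟩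
    have hcc : ‖c - c₀‖ = ‖s‖ ^ e := by rw [hc, add_sub_cancel_left, norm_pow]
    rw [hx] at h3
    simp only at h3
    rw [← hc] at h3
    refine ⟨c, ?_, ?_⟩
    · rw [hcc]
      apply pow_le_pow_left₀ (norm_nonneg _)
      refine h1.trans ?_
      rw [div_le_div_iff₀ hn0 hm0]
      have e1 : (m : ℝ) ≤ N * n + N * (k₀ + 1) := by
        have : m ≤ N * n + N * (k₀ + 1) := by
          have e2 : N * (k₀ + n) = N * k₀ + N * n := by ring
          have e3 : N * (k₀ + 1) = N * k₀ + N := by ring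
          omega
        exact_mod_cast this
      have e2 : (1 + ε) * (N * (k₀ + 1)) ≤ ε / 2 * m := by
        rw [div_lt_iff₀ (by positivity)] at hm₁
        nlinarith
      have e3 : (1 + ε / 2) * m ≤ (1 + ε) * (N * n) := by nlinarith
      calc (1 + ε / 2) * X * m = X * ((1 + ε / 2) * m) := by ring
        _ ≤ X * ((1 + ε) * (N * n)) := by gcongr
        _ = _ := by ring
    · have hb1 : ‖b s‖ < ‖z₀‖ + 1 := by
        rw [dist_eq_norm, hb0] at h6
        have := norm_add_le (b s - z₀) z₀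
        rw [sub_add_cancel] at this
        linarith
      have h7 : max M 5 < ‖P d (N * (k₀ + n)) c‖ := by
        have := norm_sub_le (P d (N * (k₀ + n)) c) (b s)
        rw [hM'] at h3
        linarith
      have hc3 : ‖c‖ ≤ 3 := by
        have h8 : ‖s‖ ^ e ≤ 1 := pow_le_one₀ (norm_nonneg _) hs1
        have h9 := norm_add_le (c - c₀) c₀
        rw [sub_add_cancel, hcc] at h9
        linarith
      have h8 := escape hd (c := c) (w := P d (N * (k₀ + n)) c) (by
        have := le_max_right M 5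
        linarith) (m % N)
      rw [← P_mul_add, hmn] at h8
      have h9 : (1 : ℝ) ≤ 2 ^ (m % N) := one_le_pow₀ (by norm_num)
      have h10 := le_max_left M 5
      have h11 := norm_nonneg (P d (N * (k₀ + n)) c)
      nlinarith

end Pool.Agent.Run7.h15.Tr
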